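import Mathlib

/-!
# Averaging over the increasing triples of a finite set of integers
-/

namespace Pool.Agent.Q118.CC

open Finset

/-- The increasing triples of `V`. -/
def tri (V : Finset ℕ) : Finset (ℕ × ℕ × ℕ) :=
  (V ×ˢ V ×ˢ V).filter (fun t => t.1 < t.2.1 ∧ t.2.1 < t.2.2)

theorem mem_tri {V : Finset ℕ} {t : ℕ × ℕ × ℕ} :
    t ∈ tri V ↔ t.1 ∈ V ∧ t.2.1 ∈ V ∧ t.2.2 ∈ V ∧ t.1 < t.2.1 ∧ t.2.1 < t.2.2 := by
  simp only [tri, mem_filter, mem_product]; tauto

open Classical in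
/-- The increasing triples of `V` with the property `P`. -/
noncomputable def bad (P : ℕ × ℕ × ℕ → Prop) (V : Finset ℕ) : Finset (ℕ × ℕ × ℕ) :=
  (tri V).filter P

theorem mem_bad {P : ℕ × ℕ × ℕ → Prop} {V : Finset ℕ} {t : ℕ × ℕ × ℕ} :
    t ∈ bad P V ↔ (t.1 ∈ V ∧ t.2.1 ∈ V ∧ t.2.2 ∈ V ∧ t.1 < t.2.1 ∧ t.2.1 < t.2.2) ∧ P t := by
  simp only [bad, mem_filter, mem_tri]

theorem sum_bad (P : ℕ × ℕ × ℕ → Prop) (V : Finset ℕ) :
    ∑ v ∈ V, (bad P (V.erase v)).card = (V.card - 3) * (bad P V).card := by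
  classical
  have h1 : ∀ v ∈ V, (bad P (V.erase v)).card =
      (Finset.bipartiteAbove (fun (v : ℕ) (t : ℕ × ℕ × ℕ) => v ≠ t.1 ∧ v ≠ t.2.1 ∧ v ≠ t.2.2)
        (bad P V) v).card := by
    intro v _
    have h2 : bad P (V.erase v) =
        Finset.bipartiteAbove (fun (v : ℕ) (t : ℕ × ℕ × ℕ) => v ≠ t.1 ∧ v ≠ t.2.1 ∧ v ≠ t.2.2)
          (bad P V) v := by
      ext t
      simp only [mem_bad, Finset.bipartiteAbove, mem_filter, mem_erase]
      constructor
      · rintro ⟨⟨h1, h2, h3, h4, h5⟩, h6⟩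
        exact ⟨⟨⟨h1.2, h2.2, h3.2, h4, h5⟩, h6⟩, fun h => h1.1 h.symm, fun h => h2.1 h.symm,
          fun h => h3.1 h.symm⟩
      · rintro ⟨⟨⟨h1, h2, h3, h4, h5⟩, h6⟩, h7, h8, h9⟩
        exact ⟨⟨⟨fun h => h7 h.symm, h1⟩, ⟨fun h => h8 h.symm, h2⟩, ⟨fun h => h9 h.symm, h3⟩,
          h4, h5⟩, h6⟩
    rw [h2]
  rw [Finset.sum_congr rfl h1, Finset.sum_card_bipartiteAbove_eq_sum_card_bipartiteBelow]
  have h3 : ∀ t ∈ bad P V, (Finset.bipartiteBelow
      (fun (v : ℕ) (t : ℕ × ℕ × ℕ) => v ≠ t.1 ∧ v ≠ t.2.1 ∧ v ≠ t.2.2) V t).card = V.card - 3 := by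
    rintro ⟨x, y, z⟩ ht
    rw [mem_bad] at ht
    obtain ⟨⟨hx, hy, hz, hxy, hyz⟩, -⟩ := ht
    simp only at hx hy hz hxy hyz
    have h4 : Finset.bipartiteBelow
        (fun (v : ℕ) (t : ℕ × ℕ × ℕ) => v ≠ t.1 ∧ v ≠ t.2.1 ∧ v ≠ t.2.2) V (x, y, z) =
        V \ {x, y, z} := by
      ext v
      simp only [Finset.bipartiteBelow, mem_filter, mem_sdiff, mem_insert, mem_singleton]
      tauto
    rw [h4, Finset.card_sdiff_of_subset]
    · have h5 : ({x, y, z} : Finset ℕ).card = 3 := by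
        rw [Finset.card_eq_three]
        exact ⟨x, y, z, by omega, by omega, by omega, rfl⟩
      rw [h5]
    · intro v hv
      simp only [mem_insert, mem_singleton] at hv
      rcases hv with rfl | rfl | rfl <;> assumption
  rw [Finset.sum_congr rfl h3, Finset.sum_const, smul_eq_mul, mul_comm]

/-- **Averaging.** If every `u`-subset of `V` contains a triple with the property `P`, then there
are many such triples. -/
theorem avg (P : ℕ × ℕ × ℕ → Prop) (u : ℕ) (hu : 3 ≤ u) : ∀ d : ℕ, ∀ V : Finset ℕ,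
    V.card = u + d → (∀ U ⊆ V, U.card = u → (bad P U).Nonempty) →
    V.card.choose 3 ≤ u.choose 3 * (bad P V).card := by
  intro d
  induction d with
  | zero =>
    intro V hV h
    have h1 := h V (Finset.Subset.refl V) (by omega)
    have h2 : 1 ≤ (bad P V).card := Finset.card_pos.mpr h1
    rw [hV, Nat.add_zero]
    calc u.choose 3 = u.choose 3 * 1 := (mul_one _).symm
      _ ≤ _ := Nat.mul_le_mul_left _ h2
  | succ d ih =>
    intro V hV h
    have h1 : ∀ v ∈ V, (u + d).choose 3 ≤ u.choose 3 * (bad P (V.erase v)).card := by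
      intro v hv
      have h2 : (V.erase v).card = u + d := by rw [Finset.card_erase_of_mem hv]; omega
      have h3 := ih (V.erase v) h2 (fun U hU hUc => h U (hU.trans (Finset.erase_subset v V)) hUc)
      rwa [h2] at h3
    have h2 : ∑ v ∈ V, (u + d).choose 3 ≤ ∑ v ∈ V, u.choose 3 * (bad P (V.erase v)).card :=
      Finset.sum_le_sum h1
    rw [Finset.sum_const, smul_eq_mul, ← Finset.mul_sum, sum_bad] at h2
    have h3 := Nat.choose_mul_succ_eq (u + d) 3
    have h4 : V.card * (u + d).choose 3 = (V.card - 3) * V.card.choose 3 := by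
      rw [hV]
      have h5 : u + (d + 1) = u + d + 1 := by omega
      rw [h5, mul_comm, h3, mul_comm]
    rw [h4] at h2
    have h6 : 0 < V.card - 3 := by omega
    have h7 : (V.card - 3) * V.card.choose 3 ≤ (V.card - 3) * (u.choose 3 * (bad P V).card) := by
      calc _ ≤ _ := h2
        _ = _ := by ring
    exact Nat.le_of_mul_le_mul_left h7 h6

end Pool.Agent.Q118.CC
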