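import Pool.Agent.Q118.CC.Main

/-!
# Pairs with many colour changes: clusters, and the budget of changes
-/

namespace Pool.Agent.Q118.CC

open Finset

/-- Ranked colouring of pairs: the ranks of the pairs `x < y` increase in `y`, and the ranks in a
row differ by at most `μ`. -/
def RkP (f g : ℕ → ℕ → ℕ) (μ : ℕ) (V : Finset ℕ) : Prop :=
  ∀ x ∈ V, ∀ y ∈ V, ∀ z ∈ V, x < y → y < z →
    g x y ≤ g x z ∧ g x z ≤ g x y + μ ∧ (g x y = g x z → f x y = f x z)

theorem RkP.sub {f g : ℕ → ℕ → ℕ} {μ : ℕ} {V W : Finset ℕ} (h : RkP f g μ V) (hW : W ⊆ V) :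
    RkP f g μ W :=
  fun x hx y hy z hz => h x (hW hx) y (hW hy) z (hW hz)

/-- Either there is a large subset in which the rows have less changes, or there is a block to the
right of a large set, all pairs between them have the same colour. -/
theorem budget_step {f g : ℕ → ℕ → ℕ} {p t k μ : ℕ} (hp : 1 ≤ p) (ht : 1 ≤ t) (hk : 1 ≤ k)
    (V : Finset ℕ) (hB : ∀ x ∈ V, ∀ y ∈ V, x < y → f x y < p) (hR : RkP f g μ V)
    (hV : 16 * t * k ≤ V.card) :
    (t ≤ μ ∧ ∃ V1 ⊆ V, k ≤ V1.card ∧ RkP f g (μ - t) V1) ∨
    (∃ C ⊆ V, C.card = k ∧ ∃ V' ⊆ V, V.card ≤ 16 * p * V'.card ∧ ∃ j < p,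
      ∀ x ∈ V', ∀ y ∈ C, x < y ∧ f x y = j) := by
  classical
  obtain ⟨x, hxV, hxlt⟩ := enum V
  set v := V.card with hv
  -- `4 t` blocks with `b` elements
  obtain ⟨b, hb⟩ : ∃ b, b = v / (4 * t) := ⟨_, rfl⟩
  have hbv : 4 * t * b ≤ v := by rw [hb]; exact Nat.mul_div_le _ _
  have hvb : v < 4 * t * (b + 1) := by rw [hb]; exact Nat.lt_mul_div_succ _ (by omega)
  have hb4 : 4 * k ≤ b := by
    rw [hb, Nat.le_div_iff_mul_le (by omega)]
    calc 4 * k * (4 * t) = 16 * t * k := by ring
      _ ≤ v := hV
  have hv2 : v ≤ 8 * t * b := by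
    have h1 : 4 * t * (b + 1) ≤ 4 * t * (2 * b) := Nat.mul_le_mul_left _ (by omega)
    have h2 : 4 * t * (2 * b) = 8 * t * b := by ring
    omega
  have hidx : ∀ s < 4 * t, ∀ i < b, s * b + i < v := by
    intro s hs i hi
    have h1 : (s + 1) * b ≤ 4 * t * b := Nat.mul_le_mul_right _ hs
    have h2 : (s + 1) * b = s * b + b := by ring
    omega
  have hinj : ∀ i j, i < v → j < v → x i = x j → i = j := by
    intro i j hi hj h
    rcases lt_trichotomy i j with h1 | h1 | h1
    · have := hxlt i j h1 hj; omega
    · exact h1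
    · have := hxlt j i h1 hi; omega
  have hgle : ∀ i a c, i < a → a ≤ c → c < v → g (x i) (x a) ≤ g (x i) (x c) ∧
      g (x i) (x c) ≤ g (x i) (x a) + μ := by
    intro i a c ha hac hc
    rcases Nat.lt_or_eq_of_le hac with h | h
    · obtain ⟨h1, h2, _⟩ := hR (x i) (hxV i (by omega)) (x a) (hxV a (by omega)) (x c) (hxV c hc)
        (hxlt i a ha (by omega)) (hxlt a c h hc)
      exact ⟨h1, h2⟩
    · rw [h]; exact ⟨le_refl _, Nat.le_add_right _ _⟩
  -- the last element
  set z := 4 * t * b - 1 with hz
  have h4tb : 1 ≤ 4 * t * b := Nat.mul_pos (by omega) (by omega)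
  have hzv : z < v := by omega
  have hszb : ∀ s < 4 * t, s * b + b ≤ 4 * t * b := by
    intro s hs
    calc s * b + b = (s + 1) * b := by ring
      _ ≤ 4 * t * b := Nat.mul_le_mul_right _ hs
  by_cases hbig : ∃ s, s + 1 < 4 * t ∧ b ≤ 2 * ((range b).filter (fun i =>
      g (x (s * b + i)) (x ((s + 1) * b)) + t ≤ g (x (s * b + i)) (x z))).card
  · -- many elements of a block have many changes to the right of the block
    left
    obtain ⟨s, hs, hbc⟩ := hbig
    set I := (range b).filter (fun i =>
      g (x (s * b + i)) (x ((s + 1) * b)) + t ≤ g (x (s * b + i)) (x z)) with hI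
    have hII : ∀ i ∈ I, i < b ∧ g (x (s * b + i)) (x ((s + 1) * b)) + t ≤ g (x (s * b + i)) (x z) := by
      intro i hi
      rw [hI, mem_filter, mem_range] at hi
      exact hi
    have hsb : (s + 1) * b = s * b + b := by ring
    have hs1 := hszb (s + 1) hs
    have hIne : I.Nonempty := by rw [← card_pos]; omega
    have hspread : ∀ i ∈ I, ∀ a ∈ I, i < a → g (x (s * b + i)) (x (s * b + a)) + t ≤
        g (x (s * b + i)) (x z) := by
      intro i hi a ha hia
      have h1 := (hgle (s * b + i) (s * b + a) ((s + 1) * b) (by omega)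
        (by have := (hII a ha).1; omega) (by omega)).1
      have h2 := (hII i hi).2
      omega
    have htμ : t ≤ μ := by
      obtain ⟨i, hi⟩ := hIne
      have h2 := hII i hi
      have h1 := (hgle (s * b + i) ((s + 1) * b) z (by omega) (by omega) hzv).2
      omega
    refine ⟨htμ, I.image (fun i => x (s * b + i)), ?_, ?_, ?_⟩
    · intro y hy
      rw [mem_image] at hy
      obtain ⟨i, hi, rfl⟩ := hy
      exact hxV _ (hidx s (by omega) i (hII i hi).1)
    · rw [card_image_of_injOn]
      · omega
      · intro i hi i' hi' hii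
        have := hinj _ _ (hidx s (by omega) i (hII i hi).1) (hidx s (by omega) i' (hII i' hi').1) hii
        omega
    · intro u hu y hy w hw huy hyw
      rw [mem_image] at hu hy hw
      obtain ⟨i, hi, rfl⟩ := hu
      obtain ⟨a, ha, rfl⟩ := hy
      obtain ⟨c, hc, rfl⟩ := hw
      have hi1 := (hII i hi).1
      have ha1 := (hII a ha).1
      have hc1 := (hII c hc).1
      have hia : i < a := by
        by_contra h
        rcases Nat.lt_or_eq_of_le (not_lt.1 h) with h3 | h3
        · have := hxlt (s * b + a) (s * b + i) (by omega) (hidx s (by omega) i hi1)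
          omega
        · rw [h3] at huy; exact lt_irrefl _ huy
      have hac : a < c := by
        by_contra h
        rcases Nat.lt_or_eq_of_le (not_lt.1 h) with h3 | h3
        · have := hxlt (s * b + c) (s * b + a) (by omega) (hidx s (by omega) a ha1)
          omega
        · rw [h3] at hyw; exact lt_irrefl _ hyw
      have h1 := hR _ (hxV _ (hidx s (by omega) i hi1)) _ (hxV _ (hidx s (by omega) a ha1)) _
        (hxV _ (hidx s (by omega) c hc1)) huy hyw
      refine ⟨h1.1, ?_, h1.2.2⟩
      have h2 := hspread i hi c hc (hia.trans hac)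
      have h3 := (hgle (s * b + i) (s * b + a) z (by omega) (by omega) hzv).2
      omega
  · -- most elements have few changes to the right of their block
    right
    push Not at hbig
    -- good elements of the left half
    set o := 2 * t * b with ho
    have ho2 : 4 * t * b = 2 * o := by rw [ho]; ring
    set G := (range o).filter (fun i => g (x i) (x z) < g (x i) (x o) + t) with hG
    have hGc : o ≤ 2 * G.card := by
      have hinjs : ∀ s < 2 * t, (range b).filter (fun i => ¬ (g (x (s * b + i)) (x ((s + 1) * b)) + t ≤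
          g (x (s * b + i)) (x z))) ⊆ (range b).filter (fun i => s * b + i ∈ G) := by
        intro s hs i hi
        rw [mem_filter, mem_range] at hi ⊢
        refine ⟨hi.1, ?_⟩
        have h1 : (s + 1) * b ≤ o := Nat.mul_le_mul_right _ hs
        have h2 : (s + 1) * b = s * b + b := by ring
        rw [hG, mem_filter, mem_range]
        refine ⟨by omega, ?_⟩
        have h3 := (hgle (s * b + i) ((s + 1) * b) o (by omega) h1 (by omega)).1
        have h4 := hi.2
        omega
      have hsum : ∑ s ∈ range (2 * t), ((range b).filter (fun i => s * b + i ∈ G)).card ≤ G.card := by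
        have h1 : ∀ s ∈ range (2 * t), ((range b).filter (fun i => s * b + i ∈ G)).card ≤
            (G.filter (fun i => i / b = s)).card := by
          intro s _
          apply card_le_card_of_injOn (fun i => s * b + i)
          · intro i hi
            rw [mem_coe, mem_filter, mem_range] at hi
            rw [mem_coe, mem_filter]
            refine ⟨hi.2, ?_⟩
            show (s * b + i) / b = s
            rw [mul_comm, Nat.mul_add_div (by omega), Nat.div_eq_of_lt hi.1, Nat.add_zero]
          · intro i _ i' _ hii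
            have hii' : s * b + i = s * b + i' := hii
            omega
        calc _ ≤ ∑ s ∈ range (2 * t), (G.filter (fun i => i / b = s)).card := sum_le_sum h1
          _ = G.card := by
            symm
            apply card_eq_sum_card_fiberwise
            intro i hi
            rw [mem_coe, hG, mem_filter, mem_range] at hi
            rw [mem_coe, mem_range]
            exact Nat.div_lt_of_lt_mul (by
              calc i < o := hi.1
                _ = b * (2 * t) := by rw [ho]; ring)
      have hlow : ∀ s ∈ range (2 * t), b ≤ 2 * ((range b).filter (fun i => s * b + i ∈ G)).card := by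
        intro s hs
        rw [mem_range] at hs
        have h1 := hbig s (by omega)
        have h2 := card_le_card (hinjs s hs)
        have h3 := Finset.card_filter_add_card_filter_not (s := range b) (fun i =>
          g (x (s * b + i)) (x ((s + 1) * b)) + t ≤ g (x (s * b + i)) (x z))
        rw [card_range] at h3
        omega
      calc o = ∑ _s ∈ range (2 * t), b := by rw [sum_const, card_range, smul_eq_mul]
        _ ≤ ∑ s ∈ range (2 * t), 2 * ((range b).filter (fun i => s * b + i ∈ G)).card :=
          sum_le_sum hlow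
        _ = 2 * ∑ s ∈ range (2 * t), ((range b).filter (fun i => s * b + i ∈ G)).card :=
          (mul_sum _ _ _).symm
        _ ≤ 2 * G.card := Nat.mul_le_mul_left _ hsum
    have hGG : ∀ i ∈ G, i < o ∧ g (x i) (x z) < g (x i) (x o) + t := by
      intro i hi
      rw [hG, mem_filter, mem_range] at hi
      exact hi
    have hov : o < v := by omega
    have hidx' : ∀ s < 2 * t, ∀ a < b, o + s * b + a < v ∧ o + s * b + a ≤ z := by
      intro s hs a ha
      have h1 : (s + 1) * b ≤ 2 * t * b := Nat.mul_le_mul_right _ hs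
      have h2 : (s + 1) * b = s * b + b := by ring
      omega
    -- bad blocks
    set bad : ℕ → ℕ → Prop := fun i s =>
      ∃ a < b, f (x i) (x (o + s * b + a)) ≠ f (x i) (x (o + s * b)) with hbad
    have hbadlt : ∀ i < o, ∀ s < 2 * t, bad i s →
        g (x i) (x (o + s * b)) < g (x i) (x (o + s * b + (b - 1))) := by
      rintro i hi s hs ⟨a, ha, hne⟩
      have h0 := (hidx' s hs a ha).1
      have h1 := (hidx' s hs (b - 1) (by omega)).1
      have ha0 : 0 < a := by
        rcases Nat.eq_zero_or_pos a with rfl | h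
        · exact absurd rfl hne
        · exact h
      have h3 := hR (x i) (hxV i (by omega)) (x (o + s * b)) (hxV _ (by omega))
        (x (o + s * b + a)) (hxV _ h0) (hxlt i _ (by omega) (by omega)) (hxlt _ _ (by omega) h0)
      have h4 : g (x i) (x (o + s * b)) < g (x i) (x (o + s * b + a)) := by
        rcases Nat.lt_or_eq_of_le h3.1 with h | h
        · exact h
        · exact absurd (h3.2.2 h).symm hne
      exact lt_of_lt_of_le h4 (hgle i _ _ (by omega) (by omega) h1).1
    have hrow : ∀ i ∈ G, ((range (2 * t)).filter (fun s => bad i s)).card ≤ t := by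
      intro i hi
      obtain ⟨hio, hig⟩ := hGG i hi
      have h1 : ((range (2 * t)).filter (fun s => bad i s)).card ≤
          (Finset.Icc (g (x i) (x o) + 1) (g (x i) (x o) + t)).card := by
        apply Finset.card_le_card_of_injOn (fun s => g (x i) (x (o + s * b + (b - 1))))
        · intro s hs
          rw [mem_coe, mem_filter, mem_range] at hs
          have h2 := hbadlt i hio s hs.1 hs.2
          have h3 := hidx' s hs.1 (b - 1) (by omega)
          have h4 := (hgle i (o + s * b + (b - 1)) z (by omega) h3.2 hzv).1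
          have h5 := (hgle i o (o + s * b) (by omega) (by omega) (by omega)).1
          rw [mem_coe, mem_Icc]
          show g (x i) (x o) + 1 ≤ g (x i) (x (o + s * b + (b - 1))) ∧
            g (x i) (x (o + s * b + (b - 1))) ≤ g (x i) (x o) + t
          omega
        · have aux : ∀ s s', s < 2 * t → s' < 2 * t → bad i s' → s < s' →
              g (x i) (x (o + s * b + (b - 1))) < g (x i) (x (o + s' * b + (b - 1))) := by
            intro s s' hs hs' hb' hss
            have h2 := hbadlt i hio s' hs' hb'
            have h3 : (s + 1) * b ≤ s' * b := Nat.mul_le_mul_right _ hss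
            have h4 : (s + 1) * b = s * b + b := by ring
            have h5 := (hidx' s' hs' 0 (by omega)).1
            exact lt_of_le_of_lt (hgle i _ _ (by omega) (by omega) (by omega)).1 h2
          intro s hs s' hs' hss
          rw [mem_coe, mem_filter, mem_range] at hs hs'
          have hss' : g (x i) (x (o + s * b + (b - 1))) = g (x i) (x (o + s' * b + (b - 1))) := hss
          rcases lt_trichotomy s s' with h | h | h
          · have := aux s s' hs.1 hs'.1 hs'.2 h; omega
          · exact h
          · have := aux s' s hs'.1 hs.1 hs.2 h; omega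
      rw [Nat.card_Icc] at h1
      omega
    -- a good block
    have hgood : ∃ s < 2 * t, 2 * (G.filter (fun i => bad i s)).card ≤ G.card := by
      by_contra hcon
      push Not at hcon
      have h1 : ∑ s ∈ range (2 * t), (G.filter (fun i => bad i s)).card =
          ∑ i ∈ G, ((range (2 * t)).filter (fun s => bad i s)).card := by
        simp only [Finset.card_filter]
        exact Finset.sum_comm
      have h2 : ∑ i ∈ G, ((range (2 * t)).filter (fun s => bad i s)).card ≤ G.card * t := by
        calc _ ≤ ∑ _i ∈ G, t := Finset.sum_le_sum (fun i hi => hrow i hi)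
          _ = G.card * t := by rw [sum_const, smul_eq_mul]
      have h3 : 2 * t * (G.card + 1) ≤
          ∑ s ∈ range (2 * t), 2 * (G.filter (fun i => bad i s)).card := by
        calc 2 * t * (G.card + 1) = ∑ _s ∈ range (2 * t), (G.card + 1) := by
              rw [sum_const, card_range, smul_eq_mul]
          _ ≤ _ := Finset.sum_le_sum (fun s hs => hcon s (mem_range.1 hs))
      rw [← Finset.mul_sum, h1] at h3
      have h4 : 2 * t * (G.card + 1) = 2 * (G.card * t) + 2 * t := by ring
      omega
    obtain ⟨s, hs, hbs⟩ := hgood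
    set G1 := G.filter (fun i => ¬ bad i s) with hG1
    have hG1c : G.card ≤ 2 * G1.card := by
      have h1 := Finset.card_filter_add_card_filter_not (s := G) (fun i => bad i s)
      rw [← hG1] at h1
      omega
    -- majority colour
    have hmaps : ∀ i ∈ G1, f (x i) (x (o + s * b)) ∈ range p := by
      intro i hi
      rw [hG1, mem_filter] at hi
      have h0 := (hidx' s hs 0 (by omega)).1
      have hio := (hGG i hi.1).1
      exact mem_range.2 (hB (x i) (hxV i (by omega)) (x (o + s * b)) (hxV _ (by omega))
        (hxlt i _ (by omega) (by omega)))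
    obtain ⟨j, hj, hjc⟩ : ∃ j ∈ range p,
        G1.card ≤ p * (G1.filter (fun i => f (x i) (x (o + s * b)) = j)).card := by
      by_contra hcon
      push Not at hcon
      have h1 := Finset.card_eq_sum_card_fiberwise hmaps
      have h2 : p * G1.card =
          ∑ j ∈ range p, p * (G1.filter (fun i => f (x i) (x (o + s * b)) = j)).card := by
        rw [← Finset.mul_sum, ← h1]
      have h3 : ∑ j ∈ range p, p * (G1.filter (fun i => f (x i) (x (o + s * b)) = j)).card <
          ∑ _j ∈ range p, G1.card := by
        apply Finset.sum_lt_sum_of_nonempty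
        · exact ⟨0, mem_range.2 (by omega)⟩
        · exact hcon
      rw [sum_const, card_range, smul_eq_mul, ← h2] at h3
      exact lt_irrefl _ h3
    set G' := G1.filter (fun i => f (x i) (x (o + s * b)) = j) with hG'
    have hG'G : ∀ i ∈ G', i < o ∧ ¬ bad i s ∧ f (x i) (x (o + s * b)) = j := by
      intro i hi
      rw [hG', mem_filter, hG1, mem_filter] at hi
      exact ⟨(hGG i hi.1.1).1, hi.1.2, hi.2⟩
    refine ⟨(range k).image (fun a => x (o + s * b + a)), ?_, ?_, G'.image x, ?_, ?_, j,
      mem_range.1 hj, ?_⟩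
    · intro y hy
      rw [mem_image] at hy
      obtain ⟨a, ha, rfl⟩ := hy
      rw [mem_range] at ha
      exact hxV _ (hidx' s hs a (by omega)).1
    · rw [card_image_of_injOn, card_range]
      intro a ha c hc hac
      rw [coe_range, Set.mem_Iio] at ha hc
      have := hinj _ _ (hidx' s hs a (by omega)).1 (hidx' s hs c (by omega)).1 hac
      omega
    · intro y hy
      rw [mem_image] at hy
      obtain ⟨a, ha, rfl⟩ := hy
      exact hxV _ (by have := (hG'G a ha).1; omega)
    · rw [card_image_of_injOn]
      · calc v ≤ 8 * t * b := hv2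
          _ = 4 * o := by rw [ho]; ring
          _ ≤ 4 * (2 * G.card) := Nat.mul_le_mul_left _ hGc
          _ ≤ 4 * (2 * (2 * G1.card)) := Nat.mul_le_mul_left _ (Nat.mul_le_mul_left _ hG1c)
          _ ≤ 4 * (2 * (2 * (p * G'.card))) :=
            Nat.mul_le_mul_left _ (Nat.mul_le_mul_left _ (Nat.mul_le_mul_left _ hjc))
          _ = 16 * p * G'.card := by ring
      · intro a ha c hc hac
        exact hinj _ _ (by have := (hG'G a ha).1; omega) (by have := (hG'G c hc).1; omega) hac
    · intro y hy w hw
      rw [mem_image] at hy hw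
      obtain ⟨i, hi, rfl⟩ := hy
      obtain ⟨a, ha, rfl⟩ := hw
      rw [mem_range] at ha
      obtain ⟨h1, h2, h3⟩ := hG'G i hi
      have h4 := (hidx' s hs a (by omega)).1
      refine ⟨hxlt i _ (by omega) h4, ?_⟩
      rw [← h3]
      by_contra hne
      exact h2 ⟨a, by omega, hne⟩

/-- A sequence of blocks. -/
theorem clusters {f g : ℕ → ℕ → ℕ} {p t k μ : ℕ} (hp : 1 ≤ p) (ht : 1 ≤ t) (hk : 1 ≤ k) :
    ∀ (s : ℕ) (V : Finset ℕ), (∀ x ∈ V, ∀ y ∈ V, x < y → f x y < p) →
    RkP f g μ V → (16 * p) ^ s * (16 * t * k) ≤ V.card →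
    (t ≤ μ ∧ ∃ V1 ⊆ V, k ≤ V1.card ∧ RkP f g (μ - t) V1) ∨
    ∃ C : ℕ → Finset ℕ, ∃ χ : ℕ → ℕ, (∀ i < s, C i ⊆ V ∧ (C i).card = k ∧ χ i < p) ∧
      ∀ i < s, ∀ i' < s, i < i' → ∀ y ∈ C i, ∀ x ∈ C i', x < y ∧ f x y = χ i := by
  intro s
  induction s with
  | zero =>
    intro V _ _ _
    exact Or.inr ⟨fun _ => ∅, fun _ => 0, fun i hi => absurd hi (Nat.not_lt_zero _),
      fun i hi => absurd hi (Nat.not_lt_zero _)⟩
  | succ s ih =>
    intro V hB hR hV
    have h4p : 1 ≤ (16 * p) ^ (s + 1) := Nat.one_le_pow _ _ (by omega)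
    rcases budget_step hp ht hk V hB hR (le_trans (Nat.le_mul_of_pos_left _ h4p) hV) with h | h
    · exact Or.inl h
    · obtain ⟨C, hCV, hCk, V', hV'V, hV'c, j, hj, hCj⟩ := h
      have hV'b : (16 * p) ^ s * (16 * t * k) ≤ V'.card := by
        have h1 : 16 * p * ((16 * p) ^ s * (16 * t * k)) ≤ 16 * p * V'.card := by
          refine le_trans (le_of_eq ?_) (hV.trans hV'c)
          rw [pow_succ]; ring
        exact Nat.le_of_mul_le_mul_left h1 (by omega)
      rcases ih V' (fun x hx y hy => hB x (hV'V hx) y (hV'V hy)) (hR.sub hV'V) hV'b with h | h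
      · obtain ⟨h1, V1, h2, h3, h4⟩ := h
        exact Or.inl ⟨h1, V1, h2.trans hV'V, h3, h4⟩
      · obtain ⟨C', χ', hC', hχ'⟩ := h
        refine Or.inr ⟨fun i => match i with | 0 => C | i + 1 => C' i,
          fun i => match i with | 0 => j | i + 1 => χ' i, ?_, ?_⟩
        · intro i hi
          cases i with
          | zero => exact ⟨hCV, hCk, hj⟩
          | succ i =>
            obtain ⟨h1, h2, h3⟩ := hC' i (by omega)
            exact ⟨h1.trans hV'V, h2, h3⟩
        · intro i hi i' hi' hii y hy x hx
          cases i' with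
          | zero => omega
          | succ i' =>
            cases i with
            | zero => exact hCj x ((hC' i' (by omega)).1 hx) y hy
            | succ i => exact hχ' i (by omega) i' (by omega) (by omega) y hy x hx

/-- One step: less changes, or a block in which the homogeneous sets of one colour are smaller. -/
theorem pairs_step {f g : ℕ → ℕ → ℕ} {p t w k μ : ℕ} (hp : 1 ≤ p) (ht : 1 ≤ t) (hw : 2 ≤ w)
    (hk : 1 ≤ k) (V : Finset ℕ) (a : ℕ → ℕ)
    (hB : ∀ x ∈ V, ∀ y ∈ V, x < y → f x y < p) (hR : RkP f g μ V)
    (hH : ∀ j < p, ∀ S ⊆ V, (∀ x ∈ S, ∀ y ∈ S, x < y → f x y = j) → S.card ≤ a j)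
    (hV : (16 * p) ^ (p * w) * (16 * t * k) ≤ V.card) :
    (t ≤ μ ∧ ∃ V1 ⊆ V, k ≤ V1.card ∧ RkP f g (μ - t) V1) ∨
    ∃ j < p, ∃ C ⊆ V, C.card = k ∧ ∀ S ⊆ C, (∀ x ∈ S, ∀ y ∈ S, x < y → f x y = j) →
      S.card ≤ a j / w := by
  classical
  rcases clusters hp ht hk (p * w) V hB hR hV with h | h
  · exact Or.inl h
  right
  obtain ⟨C, χ, hC, hχ⟩ := h
  obtain ⟨j, hj, hjw⟩ := Finset.exists_le_card_fiber_of_mul_le_card_of_maps_to
    (s := range (p * w)) (t := range p) (f := χ) (n := w)
    (fun i hi => mem_range.2 (hC i (mem_range.1 hi)).2.2) ⟨0, mem_range.2 (by omega)⟩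
    (by rw [card_range, card_range])
  rw [mem_range] at hj
  set I := (range (p * w)).filter (fun i => χ i = j) with hI
  have hII : ∀ i ∈ I, i < p * w ∧ χ i = j := by
    intro i hi
    rw [hI, mem_filter, mem_range] at hi
    exact hi
  refine ⟨j, hj, ?_⟩
  by_contra hcon
  have hcon' : ∀ i ∈ I, ∃ S ⊆ C i, (∀ x ∈ S, ∀ y ∈ S, x < y → f x y = j) ∧ a j / w < S.card := by
    intro i hi
    by_contra h
    push Not at h
    exact hcon ⟨C i, (hC i (hII i hi).1).1, (hC i (hII i hi).1).2.1, h⟩
  choose! S hS using hcon'
  set U := I.biUnion S with hU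
  have hUh := hH j hj U (by
    intro x hx
    rw [hU, mem_biUnion] at hx
    obtain ⟨i, hi, hx⟩ := hx
    exact (hC i (hII i hi).1).1 ((hS i hi).1 hx)) (by
    intro x hx y hy hxy
    rw [hU, mem_biUnion] at hx hy
    obtain ⟨i', hi', hx⟩ := hx
    obtain ⟨i, hi, hy⟩ := hy
    rcases lt_trichotomy i i' with h | h | h
    · rw [(hχ i (hII i hi).1 i' (hII i' hi').1 h y ((hS i hi).1 hy) x ((hS i' hi').1 hx)).2,
        (hII i hi).2]
    · subst h
      exact (hS i hi).2.1 x hx y hy hxy
    · have := (hχ i' (hII i' hi').1 i (hII i hi).1 h x ((hS i' hi').1 hx) y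
        ((hS i hi).1 hy)).1
      omega)
  have hUc : U.card = ∑ i ∈ I, (S i).card := by
    rw [hU]
    apply card_biUnion
    intro i hi i' hi' hii
    show Disjoint (S i) (S i')
    rw [disjoint_left]
    intro u hu hu'
    rcases lt_trichotomy i i' with h | h | h
    · have := (hχ i (hII i hi).1 i' (hII i' hi').1 h u ((hS i hi).1 hu) u
        ((hS i' hi').1 hu')).1
      omega
    · exact hii h
    · have := (hχ i' (hII i' hi').1 i (hII i hi).1 h u ((hS i' hi').1 hu') u
        ((hS i hi).1 hu)).1
      omega
  have hlow : I.card * (a j / w + 1) ≤ ∑ i ∈ I, (S i).card := by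
    rw [← smul_eq_mul]
    exact Finset.card_nsmul_le_sum _ _ _ (fun i hi => (hS i hi).2.2)
  have h1 : w * (a j / w + 1) ≤ I.card * (a j / w + 1) := Nat.mul_le_mul_right _ hjw
  have h2 : a j < w * (a j / w + 1) := Nat.lt_mul_div_succ _ (by omega)
  omega

/-- **Pairs.** -/
theorem pairs_bound {f g : ℕ → ℕ → ℕ} {p t w : ℕ} (hp : 1 ≤ p) (ht : 1 ≤ t) (hw : 2 ≤ w) :
    ∀ (T μ : ℕ) (V : Finset ℕ) (a : ℕ → ℕ),
    (∀ x ∈ V, ∀ y ∈ V, x < y → f x y < p) → RkP f g μ V →
    (∀ j < p, ∀ S ⊆ V, (∀ x ∈ S, ∀ y ∈ S, x < y → f x y = j) → S.card ≤ a j) →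
    μ / t + ∑ j ∈ range p, Nat.log w (a j) < T →
    V.card < ((16 * p) ^ (p * w) * (16 * t)) ^ T := by
  classical
  intro T
  induction T with
  | zero =>
    intro μ V a _ _ _ hT
    exact absurd hT (Nat.not_lt_zero _)
  | succ T ih =>
    intro μ V a hB hR hH hT
    by_contra hV
    push Not at hV
    set M := (16 * p) ^ (p * w) * (16 * t) with hM
    have hM1 : 1 ≤ M := Nat.mul_pos (Nat.one_le_pow _ _ (by omega)) (by omega)
    have hk : 1 ≤ M ^ T := Nat.one_le_pow _ _ hM1
    rcases pairs_step hp ht hw hk V a hB hR hH (by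
      refine le_trans (le_of_eq ?_) hV
      rw [pow_succ M T, hM]; ring) with h | h
    · -- less changes
      obtain ⟨htμ, V1, hV1, hV1c, hR1⟩ := h
      have h1 : (μ - t) / t + 1 = μ / t := by
        rw [← Nat.sub_add_cancel htμ, Nat.add_sub_cancel, Nat.add_div_right _ (by omega)]
      have := ih (μ - t) V1 a (fun x hx y hy => hB x (hV1 hx) y (hV1 hy)) hR1
        (fun j hj S hS => hH j hj S (hS.trans hV1)) (by omega)
      omega
    · obtain ⟨j, hj, C, hCV, hCk, hsm⟩ := h
      have hpos : 1 ≤ a j / w := by
        have h1 : C.Nonempty := by rw [← card_pos, hCk]; exact hk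
        obtain ⟨u, hu⟩ := h1
        have := hsm {u} (singleton_subset_iff.2 hu) (by
          intro x hx y hy hxy
          rw [mem_singleton] at hx hy
          omega)
        rw [card_singleton] at this
        exact this
      have haw : w ≤ a j := by
        by_contra h
        rw [Nat.div_eq_of_lt (by omega)] at hpos
        omega
      have hlog : Nat.log w (a j) = Nat.log w (a j / w) + 1 := by
        rw [Nat.log_div_base]
        have : 1 ≤ Nat.log w (a j) := Nat.log_pos (by omega) haw
        omega
      have hlt := ih μ C (Function.update a j (a j / w))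
        (fun x hx y hy => hB x (hCV hx) y (hCV hy)) (hR.sub hCV) (by
          intro j' hj' S hS hSh
          by_cases hjj : j' = j
          · subst hjj
            rw [Function.update_self]
            exact hsm S hS hSh
          · rw [Function.update_of_ne hjj]
            exact hH j' hj' S (hS.trans hCV) hSh) (by
          have h1 : ∑ j' ∈ range p, Nat.log w (Function.update a j (a j / w) j') <
              ∑ j' ∈ range p, Nat.log w (a j') := by
            apply Finset.sum_lt_sum
            · intro j' _
              by_cases hjj : j' = j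
              · subst hjj
                rw [Function.update_self, hlog]
                exact Nat.le_succ _
              · rw [Function.update_of_ne hjj]
            · refine ⟨j, mem_range.2 hj, ?_⟩
              rw [Function.update_self, hlog]
              exact Nat.lt_succ_self _
          omega)
      rw [hCk] at hlt
      exact lt_irrefl _ hlt

end Pool.Agent.Q118.CC
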