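import Pool.Agent.Q118.CC.Final

/-!
# From lists to sets
-/

namespace Pool.Agent.Q118.CC

open Finset

/-- A colouring of lists as a colouring of sets. -/
def toC (c : List ℕ → ℕ) (A : Finset ℕ) : ℕ := c (A.sort (· ≥ ·))

theorem sort_DL (A : Finset ℕ) : DL (A.sort (· ≥ ·)) := (sortedGT_sort A).pairwise

theorem sort_of_DL {l : List ℕ} (h : DL l) : (l.toFinset).sort (· ≥ ·) = l :=
  (List.toFinset_sort (· ≥ ·) h.nodup).2 (h.imp (fun h => le_of_lt h))

theorem sort_split {e : Finset ℕ} {z : ℕ} (hz : z ∉ e) : (insert z e).sort (· ≥ ·) =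
    (e.sort (· ≥ ·)).filter (fun x => z < x) ++ z :: (e.sort (· ≥ ·)).filter (fun x => x < z) := by
  refine List.Pairwise.eq_of_mem_iff (r := (· > ·)) (sort_DL _) ?_ ?_
  · rw [List.pairwise_append]
    refine ⟨(sort_DL e).sublist List.filter_sublist, ?_, ?_⟩
    · rw [List.pairwise_cons]
      refine ⟨?_, (sort_DL e).sublist List.filter_sublist⟩
      intro a ha
      rw [List.mem_filter] at ha
      simpa using ha.2
    · intro a ha b hb
      rw [List.mem_filter] at ha
      have ha2 : z < a := by simpa using ha.2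
      rcases List.mem_cons.1 hb with rfl | hb
      · exact ha2
      · rw [List.mem_filter] at hb
        have hb2 : b < z := by simpa using hb.2
        exact hb2.trans ha2
  · intro a
    rw [mem_sort, mem_insert, List.mem_append, List.mem_cons, List.mem_filter, List.mem_filter,
      mem_sort]
    simp only [decide_eq_true_eq]
    constructor
    · rintro (rfl | h)
      · exact Or.inr (Or.inl rfl)
      · rcases lt_trichotomy a z with h1 | h1 | h1
        · exact Or.inr (Or.inr ⟨h, h1⟩)
        · exact Or.inr (Or.inl h1)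
        · exact Or.inl ⟨h, h1⟩
    · rintro (h | h | h)
      · exact Or.inr h.1
      · exact Or.inl h
      · exact Or.inr h.1

theorem filter_length {j r z : ℕ} {e : Finset ℕ} (hec : e.card + 1 = r) (h : Pos j e z) :
    ((e.sort (· ≥ ·)).filter (fun x => z < x)).length = r - 1 - j := by
  have h1 : ((e.sort (· ≥ ·)).filter (fun x => z < x)).length = (e.filter (fun x => z < x)).card := by
    rw [← List.toFinset_card_of_nodup ((sort_nodup e (· ≥ ·)).filter _), List.toFinset_filter,
      sort_toFinset]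
    congr 1
    ext x
    simp
  rw [h1]
  have h2 := Finset.card_filter_add_card_filter_not (s := e) (fun x => x < z)
  have h3 : e.filter (fun x => ¬ x < z) = e.filter (fun x => z < x) := by
    ext x
    rw [mem_filter, mem_filter]
    constructor
    · rintro ⟨hx, hxz⟩
      have : x ≠ z := fun h4 => h.1 (h4 ▸ hx)
      exact ⟨hx, by omega⟩
    · rintro ⟨hx, hxz⟩
      exact ⟨hx, by omega⟩
  rw [h3] at h2
  have h4 := h.2
  omega

theorem gap_iff {j z w : ℕ} {e : Finset ℕ} (hz : Pos j e z) (hw : Pos j e w) (hzw : z < w) :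
    ∀ x ∈ e, (x < z ↔ x < w) ∧ (z < x ↔ w < x) := by
  intro x hx
  have h1 : ¬ (z ≤ x ∧ x ≤ w) := fun h => (hz.between hw h.1 h.2).1 hx
  omega

theorem sort_gap {j z w : ℕ} {e : Finset ℕ} (hz : Pos j e z) (hw : Pos j e w) (hzw : z < w) :
    (insert w e).sort (· ≥ ·) =
      (e.sort (· ≥ ·)).filter (fun x => z < x) ++ w :: (e.sort (· ≥ ·)).filter (fun x => x < z) := by
  rw [sort_split hw.1]
  have h1 : (e.sort (· ≥ ·)).filter (fun x => w < x) = (e.sort (· ≥ ·)).filter (fun x => z < x) := by
    apply List.filter_congr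
    intro x hx
    rw [mem_sort] at hx
    have := (gap_iff hz hw hzw x hx).2
    simp [this]
  have h2 : (e.sort (· ≥ ·)).filter (fun x => x < w) = (e.sort (· ≥ ·)).filter (fun x => x < z) := by
    apply List.filter_congr
    intro x hx
    rw [mem_sort] at hx
    have := (gap_iff hz hw hzw x hx).1
    simp [this]
  rw [h1, h2]

/-- Ranked colouring of the `r`-subsets of `{0, …, N - 1}`. -/
structure LR (J : ℕ → Prop) (b : Bool) (M r N n : ℕ) (C : Finset ℕ → ℕ) : Prop where
  val : ∀ A ⊆ range N, A.card = r → Val b M (C A)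
  mono : ∀ j, j < r → J (r - 1 - j) → ∀ e ⊆ range N, e.card + 1 = r → ∀ z ∈ range N,
    ∀ w ∈ range N, Pos j e z → Pos j e w → z < w →
      cmp (par true (r - 1 - j)) (C (insert z e)) (C (insert w e))
  nohom : ∀ S ⊆ range N, S.card = n → ¬ Homog r C S

theorem insert_sub {N z : ℕ} {e : Finset ℕ} (he : e ⊆ range N) (hz : z ∈ range N) :
    insert z e ⊆ range N := by
  intro x hx
  rcases mem_insert.1 hx with rfl | hx
  · exact hz
  · exact he hx

theorem LR.of_LA {J : ℕ → Prop} {b : Bool} {M r N n : ℕ} {c : List ℕ → ℕ}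
    (h : LA J b M r N n c) : LR J b M r N n (toC c) := by
  have hlt : ∀ A ⊆ range N, ∀ x ∈ A.sort (· ≥ ·), x < N := by
    intro A hA x hx
    rw [mem_sort] at hx
    exact mem_range.1 (hA hx)
  refine ⟨?_, ?_, ?_⟩
  · intro A hA hAc
    exact h.val _ (sort_DL A) (hlt A hA) (by rw [length_sort, hAc])
  · intro j hj hJ e he hec z hz w hw hez hew hzw
    have h1 := sort_DL (insert z e)
    have h2 := sort_DL (insert w e)
    have h3 := hlt _ (insert_sub he hz)
    have h4 := hlt _ (insert_sub he hw)
    have h5 : ((insert z e).sort (· ≥ ·)).length = r := by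
      rw [length_sort, card_insert_of_notMem hez.1, hec]
    unfold toC
    rw [sort_split hez.1] at h1 h3 h5 ⊢
    rw [sort_gap hez hew hzw] at h2 h4 ⊢
    have h6 := filter_length hec hez
    have h7 := h.mono _ _ z w (by rw [h6]; exact hJ) h1 h2 h3 h4 h5 hzw
    rw [h6] at h7
    exact h7
  · intro S hS hSc hH
    have h1 := h.nohom _ (sort_DL S) (hlt S hS) (by rw [length_sort, hSc])
    have key : ∀ l : List ℕ, l.Sublist (S.sort (· ≥ ·)) → l.length = r →
        l.toFinset ⊆ S ∧ l.toFinset.card = r ∧ toC c l.toFinset = c l := by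
      intro l hl hlr
      have hd := (sort_DL S).sublist hl
      refine ⟨?_, by rw [List.toFinset_card_of_nodup hd.nodup, hlr], ?_⟩
      · intro x hx
        rw [List.mem_toFinset] at hx
        have := hl.subset hx
        rwa [mem_sort] at this
      · unfold toC
        rw [sort_of_DL hd]
    obtain ⟨l0, hl0, hl0r, _⟩ := h1 0
    obtain ⟨l1, hl1, hl1r, hl1v⟩ := h1 (c l0)
    obtain ⟨a1, a2, a3⟩ := key l0 hl0 hl0r
    obtain ⟨b1, b2, b3⟩ := key l1 hl1 hl1r
    have := hH _ b1 _ a1 b2 a2
    rw [a3, b3] at this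
    exact hl1v this

theorem LR.le {J : ℕ → Prop} {b : Bool} {M r N N' n n' : ℕ} {C : Finset ℕ → ℕ}
    (h : LR J b M r N n C) (hN : N' ≤ N) (hn : n ≤ n') : LR J b M r N' n' C := by
  have hsub : range N' ⊆ range N := by
    intro x hx
    rw [mem_range] at hx ⊢
    omega
  refine ⟨fun A hA => h.val A (hA.trans hsub), fun j hj hJ e he hec z hz w hw =>
    h.mono j hj hJ e (he.trans hsub) hec z (hsub hz) w (hsub hw), ?_⟩
  intro S hS hSc hH
  obtain ⟨T, hT, hTc⟩ := exists_subset_card_eq (show n ≤ S.card by omega)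
  exact h.nohom T (hT.trans (hS.trans hsub)) hTc
    (fun A hA B hB => hH A (hA.trans hT) B (hB.trans hT))

/-- Counting the changes of a monotone sequence. -/
theorem count_changes {Q : ℕ → Prop} [DecidablePred Q] {N M : ℕ} {g col : ℕ → ℕ}
    (h : (∀ z w, Q z → Q w → z < w → w < N → g z ≤ g w) ∨
      (∀ z w, Q z → Q w → z < w → w < N → g w ≤ g z))
    (hc : ∀ z w, Q z → Q w → z < w → w < N → g z = g w → col z = col w)
    (hM : ∀ z, Q z → z < N → g z ≤ M) :
    ((range N).filter (fun z => Q z ∧ Q (z + 1) ∧ z + 1 < N ∧ col z ≠ col (z + 1))).card ≤ M := by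
  have hI : M = (Icc 1 M).card := by rw [Nat.card_Icc]; omega
  conv_rhs => rw [hI]
  rcases h with h | h
  · have hstep : ∀ z, Q z → Q (z + 1) → z + 1 < N → col z ≠ col (z + 1) → g z < g (z + 1) := by
      intro z h1 h2 h3 h4
      exact lt_of_le_of_ne (h z (z + 1) h1 h2 (Nat.lt_succ_self _) h3)
        (fun h5 => h4 (hc z (z + 1) h1 h2 (Nat.lt_succ_self _) h3 h5))
    apply card_le_card_of_injOn (fun z => g (z + 1))
    · intro z hz
      rw [mem_coe, mem_filter] at hz
      obtain ⟨_, h1, h2, h3, h4⟩ := hz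
      have h5 := hstep z h1 h2 h3 h4
      show g (z + 1) ∈ ((Icc 1 M : Finset ℕ) : Set ℕ)
      rw [mem_coe, mem_Icc]
      exact ⟨by omega, hM _ h2 h3⟩
    · have hstrict : ∀ z z', (Q z ∧ Q (z + 1) ∧ z + 1 < N ∧ col z ≠ col (z + 1)) →
          (Q z' ∧ Q (z' + 1) ∧ z' + 1 < N ∧ col z' ≠ col (z' + 1)) → z < z' →
          g (z + 1) < g (z' + 1) := by
        rintro z z' ⟨_, h2, _, _⟩ ⟨k1, k2, k3, k4⟩ hzz
        have h5 := hstep z' k1 k2 k3 k4
        rcases Nat.lt_or_eq_of_le (show z + 1 ≤ z' by omega) with h6 | h6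
        · have h7 := h (z + 1) z' h2 k1 h6 (by omega)
          omega
        · rw [h6]; exact h5
      intro z hz z' hz' hzz
      rw [mem_coe, mem_filter] at hz hz'
      simp only at hzz
      rcases lt_trichotomy z z' with h3 | h3 | h3
      · have := hstrict z z' hz.2 hz'.2 h3
        omega
      · exact h3
      · have := hstrict z' z hz'.2 hz.2 h3
        omega
  · have hstep : ∀ z, Q z → Q (z + 1) → z + 1 < N → col z ≠ col (z + 1) → g (z + 1) < g z := by
      intro z h1 h2 h3 h4
      exact lt_of_le_of_ne (h z (z + 1) h1 h2 (Nat.lt_succ_self _) h3)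
        (fun h5 => h4 (hc z (z + 1) h1 h2 (Nat.lt_succ_self _) h3 h5.symm))
    apply card_le_card_of_injOn (fun z => g z)
    · intro z hz
      rw [mem_coe, mem_filter] at hz
      obtain ⟨_, h1, h2, h3, h4⟩ := hz
      have h5 := hstep z h1 h2 h3 h4
      show g z ∈ ((Icc 1 M : Finset ℕ) : Set ℕ)
      rw [mem_coe, mem_Icc]
      exact ⟨by omega, hM _ h1 (by omega)⟩
    · have hstrict : ∀ z z', (Q z ∧ Q (z + 1) ∧ z + 1 < N ∧ col z ≠ col (z + 1)) →
          (Q z' ∧ Q (z' + 1) ∧ z' + 1 < N ∧ col z' ≠ col (z' + 1)) → z < z' →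
          g z' < g z := by
        rintro z z' ⟨h1, h2, h3, h4⟩ ⟨k1, _, k3, _⟩ hzz
        have h5 := hstep z h1 h2 h3 h4
        rcases Nat.lt_or_eq_of_le (show z + 1 ≤ z' by omega) with h6 | h6
        · have h7 := h (z + 1) z' h2 k1 h6 (by omega)
          omega
        · rw [← h6]; exact h5
      intro z hz z' hz' hzz
      rw [mem_coe, mem_filter] at hz hz'
      simp only at hzz
      rcases lt_trichotomy z z' with h3 | h3 | h3
      · have := hstrict z z' hz.2 hz'.2 h3
        omega
      · exact h3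
      · have := hstrict z' z hz'.2 hz.2 h3
        omega

/-- The final colours. -/
def fin (M v : ℕ) : ℕ := if v % 2 = 1 then M + 1 else v / 2

theorem fin_inj {b : Bool} {M v w : ℕ} (hv : Val b M v) (hw : Val b M w)
    (h : fin M v = fin M w) : v = w := by
  have h1 := hv.le
  have h2 := hw.le
  unfold fin at h
  by_cases h3 : v % 2 = 1
  · rw [if_pos h3] at h
    by_cases h4 : w % 2 = 1
    · have := (hv.2 h3).2.1
      have := (hw.2 h4).2.1
      omega
    · rw [if_neg h4] at h
      omega
  · rw [if_neg h3] at h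
    by_cases h4 : w % 2 = 1
    · rw [if_pos h4] at h
      omega
    · rw [if_neg h4] at h
      omega

theorem cmp_dir {e : Bool} {v w : ℕ} (h : cmp e v w) :
    (e = true ∧ v / 2 ≤ w / 2) ∨ (e = false ∧ w / 2 ≤ v / 2) := by
  cases e with
  | true => exact Or.inl ⟨rfl, h.1⟩
  | false => exact Or.inr ⟨rfl, h.1⟩

/-- Few changes in a monotone position. -/
theorem LR.few {J : ℕ → Prop} {b : Bool} {M r N n : ℕ} {C : Finset ℕ → ℕ}
    (h : LR J b M r N n C) {j : ℕ} (hj : j < r) (hJ : J (r - 1 - j)) :
    FewChanges r j M N (fun A => fin M (C A)) := by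
  intro e he hec
  have hk : ∀ z w, Pos j e z → Pos j e w → z < w → w < N →
      cmp (par true (r - 1 - j)) (C (insert z e)) (C (insert w e)) :=
    fun z w hz hw hzw hwN => h.mono j hj hJ e he hec z (mem_range.2 (hzw.trans hwN)) w
      (mem_range.2 hwN) hz hw hzw
  refine count_changes (Q := fun z => Pos j e z) (g := fun z => C (insert z e) / 2)
    (col := fun z => fin M (C (insert z e))) ?_ ?_ ?_
  · cases hp : par true (r - 1 - j) with
    | true =>
      left
      intro z w hz hw hzw hwN
      have := hk z w hz hw hzw hwN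
      rw [hp] at this
      exact this.1
    | false =>
      right
      intro z w hz hw hzw hwN
      have := hk z w hz hw hzw hwN
      rw [hp] at this
      exact this.1
  · intro z w hz hw hzw hwN h1
    have h2 := (hk z w hz hw hzw hwN).2 h1
    simp only [h2]
  · intro z hz hzN
    exact (h.val _ (insert_sub he (mem_range.2 hzN)) (by rw [card_insert_of_notMem hz.1, hec])).le

theorem LR.colouring {J : ℕ → Prop} {b : Bool} {M r N n : ℕ} {C : Finset ℕ → ℕ}
    (h : LR J b M r N n C) : Colouring r (M + 2) N (fun A => fin M (C A)) := by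
  intro A hA hAc
  have hv := (h.val A hA hAc).le
  show fin M (C A) < M + 2
  unfold fin
  split_ifs <;> omega

theorem LR.no_homog {J : ℕ → Prop} {b : Bool} {M r N n : ℕ} {C : Finset ℕ → ℕ}
    (h : LR J b M r N n C) : ¬ HasHomog r N n (fun A => fin M (C A)) := by
  rintro ⟨S, hS, hSc, hH⟩
  refine h.nohom S hS hSc ?_
  intro A hA B hB hAc hBc
  exact fin_inj (h.val A (hA.trans hS) hAc) (h.val B (hB.trans hS) hBc) (hH A hA B hB hAc hBc)

theorem LR.even {J : ℕ → Prop} {M r N n : ℕ} {C : Finset ℕ → ℕ}
    (h : LR J false M r N n C) : ∀ A ⊆ range N, A.card = r → C A % 2 = 0 := by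
  intro A hA hAc
  have hv := h.val A hA hAc
  by_contra h3
  have := (hv.2 (by omega)).1
  simp at this

/-- Colourings whose colour is the rank. -/
theorem LR.mono_col {J : ℕ → Prop} {M r N n : ℕ} {C : Finset ℕ → ℕ}
    (h : LR J false M r N n C) :
    Colouring r (M + 1) N (fun A => C A / 2) ∧ ¬ HasHomog r N n (fun A => C A / 2) ∧
      ∀ j < r, J (r - 1 - j) → MC r j (range N) (fun A => C A / 2) ∧
        FewChanges r j M N (fun A => C A / 2) := by
  have hcol : ∀ A ⊆ range N, A.card = r → C A / 2 ≤ M := fun A hA hAc => (h.val A hA hAc).le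
  refine ⟨fun A hA hAc => ?_, ?_, ?_⟩
  · have := hcol A hA hAc
    show C A / 2 < M + 1
    omega
  · rintro ⟨S, hS, hSc, hH⟩
    refine h.nohom S hS hSc ?_
    intro A hA B hB hAc hBc
    have h1 : C A / 2 = C B / 2 := hH A hA B hB hAc hBc
    have h2 := h.even A (hA.trans hS) hAc
    have h3 := h.even B (hB.trans hS) hBc
    omega
  · intro j hj hJ
    have hmc : MC r j (range N) (fun A => C A / 2) := by
      cases hp : par true (r - 1 - j) with
      | true =>
        left
        intro e he hec z hz w hw hez hew hzw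
        have := h.mono j hj hJ e he hec z hz w hw hez hew hzw
        rw [hp] at this
        exact this.1
      | false =>
        right
        intro e he hec z hz w hw hez hew hzw
        have := h.mono j hj hJ e he hec z hz w hw hez hew hzw
        rw [hp] at this
        exact this.1
    refine ⟨hmc, ?_⟩
    intro e he hec
    refine count_changes (Q := fun z => Pos j e z) (g := fun z => C (insert z e) / 2)
      (col := fun z => C (insert z e) / 2) ?_ (fun _ _ _ _ _ _ h => h) ?_
    · rcases hmc with h1 | h1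
      · left
        intro z w hz hw hzw hwN
        exact h1 e he hec z (mem_range.2 (hzw.trans hwN)) w (mem_range.2 hwN) hz hw hzw
      · right
        intro z w hz hw hzw hwN
        exact h1 e he hec z (mem_range.2 (hzw.trans hwN)) w (mem_range.2 hwN) hz hw hzw
    · intro z hz hzN
      exact hcol _ (insert_sub he (mem_range.2 hzN)) (by rw [card_insert_of_notMem hz.1, hec])

end Pool.Agent.Q118.CC
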