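import Pool.Agent.Q118.CC.Levels

/-!
# The step of Erdős and Rado from the right, for ranked colourings
-/

namespace Pool.Agent.Q118.CC

open Finset

/-- All `r`-subsets of `S` have the same colour. -/
def Homog (r : ℕ) (c : Finset ℕ → ℕ) (S : Finset ℕ) : Prop :=
  ∀ A ⊆ S, ∀ B ⊆ S, A.card = r → B.card = r → c A = c B

/-- The vertex `z` has position `j` in `insert z e`. -/
abbrev Pos (j : ℕ) (e : Finset ℕ) (z : ℕ) : Prop := z ∉ e ∧ (e.filter (fun x => x < z)).card = j

/-- Ranked colouring of the `r`-subsets of `V`: `s e z` is the rank of `insert z e`, where `z` has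
position `j`. -/
def RkF (r j : ℕ) (V : Finset ℕ) (c : Finset ℕ → ℕ) (s : Finset ℕ → ℕ → ℕ) : Prop :=
  ∀ e ⊆ V, e.card + 1 = r → ∀ z ∈ V, ∀ w ∈ V, Pos j e z → Pos j e w → z < w →
    s e z ≤ s e w ∧ (s e z = s e w → c (insert z e) = c (insert w e))

/-- The colour of `insert w f`, `f ⊆ Y`, `w < f`, does not depend on `w ∈ Y ∪ Z`. -/
def EH (r : ℕ) (c : Finset ℕ → ℕ) (Y Z : Finset ℕ) : Prop :=
  ∀ f ⊆ Y, f.card = r → ∀ w ∈ Y ∪ Z, ∀ w' ∈ Y ∪ Z, (∀ x ∈ f, w < x) → (∀ x ∈ f, w' < x) →
    c (insert w f) = c (insert w' f)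

theorem er_step {p r : ℕ} (hp : 2 ≤ p) (hr : 1 ≤ r) (c : Finset ℕ → ℕ) (hc : ∀ A, c A < p) :
    ∀ (M : ℕ) (Y Z : Finset ℕ), (∀ y ∈ Y, ∀ z ∈ Z, z < y) → EH r c Y Z →
    p ^ (M * ((Y.card + M) ^ (r - 1) + 1)) ≤ Z.card →
    ∃ Y', Y' ⊆ Y ∪ Z ∧ Y'.card = Y.card + M ∧ EH r c Y' ∅ := by
  intro M
  induction M with
  | zero =>
    intro Y Z _ hE _
    refine ⟨Y, Finset.subset_union_left, by omega, ?_⟩
    intro f hf hfc w hw w' hw' h1 h2
    rw [Finset.union_empty] at hw hw'
    exact hE f hf hfc w (Finset.mem_union_left _ hw) w' (Finset.mem_union_left _ hw') h1 h2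
  | succ M ih =>
    intro Y Z hYZ hE hZ
    have hZpos : 0 < Z.card := lt_of_lt_of_le (Nat.pow_pos (by omega)) hZ
    have hZne : Z.Nonempty := Finset.card_pos.mp hZpos
    set y := Z.max' hZne with hy
    have hyZ : y ∈ Z := Z.max'_mem hZne
    set G := Y.powersetCard (r - 1) with hG
    set φ : ℕ → (↥G → Fin p) := fun w g => ⟨c (insert w (insert y g.1)), hc _⟩ with hφ
    set E := (Y.card + (M + 1)) ^ (r - 1) with hEdef
    set A := M * (E + 1) with hA
    have hGE : G.card ≤ E := by
      rw [hG, Finset.card_powersetCard, hEdef]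
      exact (Nat.choose_le_pow _ _).trans (Nat.pow_le_pow_left (by omega) _)
    have hcardF : (Finset.univ : Finset (↥G → Fin p)).card = p ^ G.card := by
      rw [Finset.card_univ, Fintype.card_fun, Fintype.card_fin, Fintype.card_coe]
    have hlarge : (Finset.univ : Finset (↥G → Fin p)).card * p ^ A ≤ (Z.erase y).card := by
      rw [hcardF, Finset.card_erase_of_mem hyZ]
      have h1 : (M + 1) * (E + 1) = A + E + 1 := by rw [hA]; ring
      rw [h1] at hZ
      have h2 : p ^ G.card * p ^ A ≤ p ^ (A + E) := by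
        rw [← pow_add]
        exact Nat.pow_le_pow_right (by omega) (by omega)
      have h3 : 2 * p ^ (A + E) ≤ p ^ (A + E + 1) := by
        rw [pow_succ, mul_comm]
        exact Nat.mul_le_mul_left _ hp
      have h4 : 1 ≤ p ^ (A + E) := Nat.one_le_pow _ _ (by omega)
      omega
    obtain ⟨v, -, hv⟩ := Finset.exists_le_card_fiber_of_mul_le_card_of_maps_to
      (s := Z.erase y) (t := Finset.univ) (f := φ) (fun _ _ => Finset.mem_univ _)
      ⟨fun _ => ⟨0, by omega⟩, Finset.mem_univ _⟩ hlarge
    set Z' := (Z.erase y).filter (fun x => φ x = v) with hZ'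
    have hZ'Z : ∀ x ∈ Z', x ∈ Z ∧ x < y ∧ φ x = v := by
      intro x hx
      rw [hZ', mem_filter, mem_erase] at hx
      refine ⟨hx.1.2, ?_, hx.2⟩
      have := Z.le_max' x hx.1.2
      omega
    have hyY : y ∉ Y := fun h => by have := hYZ y h y hyZ; omega
    have hcY : (insert y Y).card = Y.card + 1 := Finset.card_insert_of_notMem hyY
    obtain ⟨Y', hY', hY'c, hY'E⟩ := ih (insert y Y) Z' (by
        intro a ha b hb
        rw [mem_insert] at ha
        rcases ha with rfl | ha
        · exact (hZ'Z b hb).2.1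
        · exact hYZ a ha b (hZ'Z b hb).1) (by
        intro f hf hfc w hw w' hw' h1 h2
        have hmem : ∀ u, u ∈ insert y Y ∪ Z' → u ∈ Y ∪ Z := by
          intro u hu
          rw [mem_union, mem_insert] at hu
          rcases hu with (rfl | hu) | hu
          · exact Finset.mem_union_right _ hyZ
          · exact Finset.mem_union_left _ hu
          · exact Finset.mem_union_right _ (hZ'Z u hu).1
        by_cases hyf : y ∈ f
        · have hlt : ∀ u, u ∈ insert y Y ∪ Z' → (∀ x ∈ f, u < x) → u ∈ Z' := by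
            intro u hu hux
            have h3 := hux y hyf
            rw [mem_union, mem_insert] at hu
            rcases hu with (rfl | hu) | hu
            · omega
            · have := hYZ u hu y hyZ; omega
            · exact hu
          have hwZ := hZ'Z w (hlt w hw h1)
          have hw'Z := hZ'Z w' (hlt w' hw' h2)
          have hg : f.erase y ∈ G := by
            rw [hG, mem_powersetCard]
            refine ⟨?_, by rw [Finset.card_erase_of_mem hyf]; omega⟩
            intro x hx
            rw [mem_erase] at hx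
            have := hf hx.2
            rw [mem_insert] at this
            rcases this with h | h
            · exact absurd h hx.1
            · exact h
          have h4 : φ w = φ w' := by rw [hwZ.2.2, hw'Z.2.2]
          have h5 := congrFun h4 ⟨f.erase y, hg⟩
          simp only [hφ, Fin.mk.injEq, Finset.insert_erase hyf] at h5
          exact h5
        · have hfY : f ⊆ Y := by
            intro x hx
            have := hf hx
            rw [mem_insert] at this
            rcases this with rfl | h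
            · exact absurd hx hyf
            · exact h
          exact hE f hfY hfc w (hmem w hw) w' (hmem w' hw') h1 h2) (by
        rw [hcY]
        have h1 : Y.card + 1 + M = Y.card + (M + 1) := by ring
        rw [h1]
        exact hv)
    refine ⟨Y', ?_, by rw [hY'c, hcY]; ring, hY'E⟩
    intro u hu
    have := hY' hu
    rw [mem_union, mem_insert] at this
    rcases this with (rfl | h) | h
    · exact Finset.mem_union_right _ hyZ
    · exact Finset.mem_union_left _ h
    · exact Finset.mem_union_right _ (hZ'Z u h).1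

/-- Every colouring with `p` colours and the property `P` of at least `F` vertices has a
homogeneous set of `n` vertices. -/
def Ub (P : Finset ℕ → (Finset ℕ → ℕ) → Prop) (p r n F : ℕ) : Prop :=
  ∀ (V : Finset ℕ) (c : Finset ℕ → ℕ), (∀ A, c A < p) → P V c → F ≤ V.card →
    ∃ S ⊆ V, S.card = n ∧ Homog r c S

theorem Ub.mono {P : Finset ℕ → (Finset ℕ → ℕ) → Prop} {p r n F G : ℕ}
    (h : Ub P p r n F) (hFG : F ≤ G) : Ub P p r n G :=
  fun V c hc hP hV => h V c hc hP (hFG.trans hV)

/-- A smaller vertex shifts the position. -/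
theorem Pos.insert_small {j w0 z : ℕ} {e : Finset ℕ} (h : Pos j e z) (hw : w0 < z)
    (hwe : w0 ∉ e) : Pos (j + 1) (insert w0 e) z := by
  refine ⟨?_, ?_⟩
  · rw [mem_insert]
    rintro (h1 | h1)
    · omega
    · exact h.1 h1
  · rw [Finset.filter_insert, if_pos hw, Finset.card_insert_of_notMem, h.2]
    intro h1
    exact hwe (Finset.mem_of_mem_filter _ h1)

/-- **The step of Erdős and Rado.** -/
theorem ub_step {P P' : Finset ℕ → (Finset ℕ → ℕ) → Prop} {p r n F : ℕ}
    (hlink : ∀ V V' c w, P' V c → w ∈ V → V' ⊆ V → (∀ x ∈ V', w < x) →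
      P V' (fun e => c (insert w e))) (hp : 2 ≤ p) (hr : 1 ≤ r) (h : Ub P p r n F) :
    Ub P' p (r + 1) n (p ^ ((F + 1) * ((F + 1) ^ (r - 1) + 1))) := by
  intro V c hc hP hV
  obtain ⟨Y, hYV, hYc, hYE⟩ := er_step hp hr c hc (F + 1) ∅ V (by simp)
    (by
      intro f hf hfc w _ w' _ _ _
      rw [Finset.subset_empty] at hf
      subst hf
      rw [Finset.card_empty] at hfc
      omega) (by rw [Finset.card_empty, Nat.zero_add]; exact hV)
  rw [Finset.card_empty, Nat.zero_add] at hYc
  rw [Finset.empty_union] at hYV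
  have hYne : Y.Nonempty := by rw [← Finset.card_pos]; omega
  set w0 := Y.min' hYne with hw0
  have hw0Y : w0 ∈ Y := Y.min'_mem hYne
  have hlt : ∀ x ∈ Y.erase w0, w0 < x := by
    intro x hx
    rw [mem_erase] at hx
    have := Y.min'_le x hx.2
    omega
  obtain ⟨S, hS, hSc, hSH⟩ := h (Y.erase w0) (fun e => c (insert w0 e)) (fun A => hc _)
    (hlink V (Y.erase w0) c w0 hP (hYV hw0Y)
      (fun x hx => hYV (Finset.mem_of_mem_erase hx)) hlt)
    (by rw [Finset.card_erase_of_mem hw0Y, hYc]; omega)
  refine ⟨S, fun x hx => hYV (Finset.mem_of_mem_erase (hS hx)), hSc, ?_⟩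
  have key : ∀ A ⊆ S, A.card = r + 1 → ∃ f ⊆ S, f.card = r ∧ c A = c (insert w0 f) := by
    intro A hA hAc
    have hAne : A.Nonempty := by rw [← Finset.card_pos]; omega
    refine ⟨A.erase (A.min' hAne), fun x hx => hA (Finset.mem_of_mem_erase hx), ?_, ?_⟩
    · rw [Finset.card_erase_of_mem (A.min'_mem hAne), hAc]; omega
    · have h1 : insert (A.min' hAne) (A.erase (A.min' hAne)) = A :=
        Finset.insert_erase (A.min'_mem hAne)
      have h2 := hYE (A.erase (A.min' hAne))
        (fun x hx => Finset.mem_of_mem_erase (hS (hA (Finset.mem_of_mem_erase hx))))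
        (by rw [Finset.card_erase_of_mem (A.min'_mem hAne), hAc]; omega) (A.min' hAne)
        (by rw [Finset.union_empty]; exact Finset.mem_of_mem_erase (hS (hA (A.min'_mem hAne)))) w0
        (by rw [Finset.union_empty]; exact hw0Y)
        (by
          intro x hx
          rw [mem_erase] at hx
          have := A.min'_le x hx.2
          omega)
        (by
          intro x hx
          exact hlt x (hS (hA (Finset.mem_of_mem_erase hx))))
      rw [h1] at h2
      exact h2
  intro A hA B hB hAc hBc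
  obtain ⟨f, hf, hfc, hf'⟩ := key A hA hAc
  obtain ⟨g, hg, hgc, hg'⟩ := key B hB hBc
  rw [hf', hg']
  exact hSH f hf g hg hfc hgc

/-- The reversed set. -/
def flip (B : ℕ) (A : Finset ℕ) : Finset ℕ := A.image (fun x => B - x)

theorem flip_flip {B : ℕ} {A : Finset ℕ} (h : ∀ x ∈ A, x ≤ B) : flip B (flip B A) = A := by
  ext x
  simp only [flip, mem_image]
  constructor
  · rintro ⟨y, ⟨z, hz, rfl⟩, rfl⟩
    have := h z hz
    have h2 : B - (B - z) = z := by omega
    rw [h2]; exact hz
  · intro hx
    exact ⟨B - x, ⟨x, hx, rfl⟩, by have := h x hx; omega⟩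

theorem flip_le {B : ℕ} {A : Finset ℕ} : ∀ x ∈ flip B A, x ≤ B := by
  intro x hx
  simp only [flip, mem_image] at hx
  obtain ⟨y, _, rfl⟩ := hx
  exact Nat.sub_le _ _

theorem flip_card {B : ℕ} {A : Finset ℕ} (h : ∀ x ∈ A, x ≤ B) : (flip B A).card = A.card := by
  apply Finset.card_image_of_injOn
  intro x hx y hy hxy
  have h1 := h x hx
  have h2 := h y hy
  simp only at hxy
  omega

theorem flip_mono {B : ℕ} {A A' : Finset ℕ} (h : A ⊆ A') : flip B A ⊆ flip B A' :=
  Finset.image_subset_image h

theorem flip_insert (B z : ℕ) (e : Finset ℕ) : flip B (insert z e) = insert (B - z) (flip B e) :=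
  Finset.image_insert _ _ _

theorem mem_flip {B z : ℕ} {A : Finset ℕ} (h : ∀ x ∈ A, x ≤ B) (hz : z ≤ B) :
    z ∈ flip B A ↔ B - z ∈ A := by
  simp only [flip, mem_image]
  constructor
  · rintro ⟨y, hy, rfl⟩
    have := h y hy
    have h2 : B - (B - y) = y := by omega
    rw [h2]; exact hy
  · intro hx
    exact ⟨B - z, hx, by omega⟩

theorem Pos.flip {B r j z : ℕ} {e : Finset ℕ} (h : ∀ x ∈ e, x ≤ B) (hz : z ≤ B)
    (hec : e.card + 1 = r) (hp : Pos (r - 1 - j) e z) (hj : j < r) :
    Pos j (flip B e) (B - z) := by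
  refine ⟨?_, ?_⟩
  · rw [mem_flip h (Nat.sub_le _ _)]
    have h2 : B - (B - z) = z := by omega
    rw [h2]; exact hp.1
  · have h1 : (CC.flip B e).filter (fun x => x < B - z) = CC.flip B (e.filter (fun x => ¬ x < z)) := by
      ext x
      rw [mem_filter]
      simp only [CC.flip, mem_image, mem_filter]
      constructor
      · rintro ⟨⟨y, hy, rfl⟩, h3⟩
        have := h y hy
        exact ⟨y, ⟨hy, by omega⟩, rfl⟩
      · rintro ⟨y, ⟨hy, h3⟩, rfl⟩
        have := h y hy
        have h4 : y ≠ z := fun h5 => hp.1 (h5 ▸ hy)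
        exact ⟨⟨y, hy, rfl⟩, by omega⟩
    rw [h1, flip_card (fun x hx => h x (Finset.mem_of_mem_filter _ hx))]
    have h2 := Finset.card_filter_add_card_filter_not (s := e) (fun x => x < z)
    have h3 := hp.2
    omega

/-- **Reversal.** -/
theorem ub_flip {P P' : Finset ℕ → (Finset ℕ → ℕ) → Prop} {p r n F : ℕ}
    (hflip : ∀ V c B, (∀ x ∈ V, x ≤ B) → P' V c → P (flip B V) (fun A => c (flip B A)))
    (h : Ub P p r n F) : Ub P' p r n F := by
  intro V c hc hP hV
  set B := V.sup id with hB
  have hVB : ∀ x ∈ V, x ≤ B := fun x hx => Finset.le_sup (f := id) hx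
  obtain ⟨S, hS, hSc, hH⟩ := h (flip B V) (fun A => c (flip B A)) (fun A => hc _)
    (hflip V c B hVB hP) (by rw [flip_card hVB]; exact hV)
  have hSB : ∀ x ∈ S, x ≤ B := fun x hx => flip_le x (hS hx)
  refine ⟨flip B S, ?_, by rw [flip_card hSB]; exact hSc, ?_⟩
  · rw [← flip_flip hVB]
    exact flip_mono hS
  · intro A hA A' hA' hAc hAc'
    have hAB : ∀ x ∈ A, x ≤ B := fun x hx => flip_le x (hA hx)
    have hAB' : ∀ x ∈ A', x ≤ B := fun x hx => flip_le x (hA' hx)
    have h1 := hH (flip B A) (by rw [← flip_flip hSB]; exact flip_mono hA) (flip B A')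
      (by rw [← flip_flip hSB]; exact flip_mono hA') (by rw [flip_card hAB]; exact hAc)
      (by rw [flip_card hAB']; exact hAc')
    simp only [flip_flip hAB, flip_flip hAB'] at h1
    exact h1

/-- A family of properties of colourings, indexed by the uniformity and by a position. -/
structure Fam (d : ℕ) (P : ℕ → ℕ → Finset ℕ → (Finset ℕ → ℕ) → Prop) : Prop where
  link : ∀ r j V V' c w, P (r + 1) (j + 1) V c → w ∈ V → V' ⊆ V → (∀ x ∈ V', w < x) →
    P r j V' (fun e => c (insert w e))
  flip : ∀ r j V c B, j + d ≤ r → (∀ x ∈ V, x ≤ B) → P r (r - d - j) V c →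
    P r j (flip B V) (fun A => c (flip B A))

/-! ### Few changes -/

/-- Ranked colourings with ranks less than `q`. -/
def FC (q r j : ℕ) (V : Finset ℕ) (c : Finset ℕ → ℕ) : Prop :=
  ∃ s : Finset ℕ → ℕ → ℕ, (∀ e z, s e z < q) ∧ RkF r j V c s

theorem fc_fam (q : ℕ) : Fam 1 (FC q) := by
  refine ⟨?_, ?_⟩
  · rintro r j V V' c w0 ⟨s, hs, hR⟩ hw hV' hlt
    refine ⟨fun e z => s (insert w0 e) z, fun e z => hs _ _, ?_⟩
    intro e he hec z hz w hw' hez hew hzw
    have hw0e : w0 ∉ e := fun h' => by have := hlt w0 (he h'); omega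
    have h1 := hR (insert w0 e)
      (by
        intro x hx
        rw [mem_insert] at hx
        rcases hx with rfl | hx
        · exact hw
        · exact hV' (he hx))
      (by rw [Finset.card_insert_of_notMem hw0e]; omega) z (hV' hz) w (hV' hw')
      (hez.insert_small (hlt z hz) hw0e) (hew.insert_small (hlt w hw') hw0e) hzw
    refine ⟨h1.1, fun h2 => ?_⟩
    have h3 := h1.2 h2
    rw [Finset.insert_comm z w0 e, Finset.insert_comm w w0 e] at h3
    exact h3
  · rintro r j V c B hj hVB ⟨s, hs, hR⟩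
    have hj' : j = r - 1 - (r - 1 - j) := by omega
    refine ⟨fun e z => q - 1 - s (CC.flip B e) (B - z), fun e z => ?_, ?_⟩
    · have := hs (CC.flip B e) (B - z)
      show q - 1 - s (CC.flip B e) (B - z) < q
      omega
    · intro e he hec z hz w hw hez hew hzw
      have heB : ∀ x ∈ e, x ≤ B := fun x hx => flip_le x (he hx)
      have hzB := flip_le z hz
      have hwB := flip_le w hw
      have he' : CC.flip B e ⊆ V := by
        rw [← flip_flip hVB]
        exact flip_mono he
      have hz' : B - z ∈ V := (mem_flip hVB hzB).1 hz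
      have hw' : B - w ∈ V := (mem_flip hVB hwB).1 hw
      have h1 := hR (CC.flip B e) he' (by rw [flip_card heB]; exact hec) (B - w) hw' (B - z) hz'
        (Pos.flip heB hwB hec (by rw [← hj']; exact hew) (by omega))
        (Pos.flip heB hzB hec (by rw [← hj']; exact hez) (by omega)) (by omega)
      have h2 := hs (CC.flip B e) (B - z)
      have h3 := hs (CC.flip B e) (B - w)
      refine ⟨by show q - 1 - s (CC.flip B e) (B - z) ≤ q - 1 - s (CC.flip B e) (B - w); omega, ?_⟩
      intro h4
      have h5 : s (CC.flip B e) (B - w) = s (CC.flip B e) (B - z) := by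
        have h4' : q - 1 - s (CC.flip B e) (B - z) = q - 1 - s (CC.flip B e) (B - w) := h4
        omega
      have h6 := h1.2 h5
      show c (CC.flip B (insert z e)) = c (CC.flip B (insert w e))
      rw [flip_insert, flip_insert]
      exact h6.symm

/-! ### Few changes in two neighbouring positions -/

/-- Ranked colourings in two neighbouring positions. -/
def TC (q r j : ℕ) (V : Finset ℕ) (c : Finset ℕ → ℕ) : Prop := FC q r j V c ∧ FC q r (j + 1) V c

theorem tc_fam (q : ℕ) : Fam 2 (TC q) := by
  refine ⟨?_, ?_⟩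
  · rintro r j V V' c w ⟨h1, h2⟩ hw hV' hlt
    exact ⟨(fc_fam q).link r j V V' c w h1 hw hV' hlt,
      (fc_fam q).link r (j + 1) V V' c w h2 hw hV' hlt⟩
  · rintro r j V c B hj hVB ⟨h1, h2⟩
    refine ⟨(fc_fam q).flip r j V c B (by omega) hVB ?_,
      (fc_fam q).flip r (j + 1) V c B (by omega) hVB ?_⟩
    · have e : r - 1 - j = r - 2 - j + 1 := by omega
      rw [e]
      exact h2
    · have e : r - 1 - (j + 1) = r - 2 - j := by omega
      rw [e]
      exact h1

/-! ### Monotone colourings -/

/-- Monotone in position `j`. -/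
def MC (r j : ℕ) (V : Finset ℕ) (c : Finset ℕ → ℕ) : Prop :=
  (∀ e ⊆ V, e.card + 1 = r → ∀ z ∈ V, ∀ w ∈ V, Pos j e z → Pos j e w → z < w →
    c (insert z e) ≤ c (insert w e)) ∨
  (∀ e ⊆ V, e.card + 1 = r → ∀ z ∈ V, ∀ w ∈ V, Pos j e z → Pos j e w → z < w →
    c (insert w e) ≤ c (insert z e))

theorem mc_fam : Fam 1 MC := by
  refine ⟨?_, ?_⟩
  · intro r j V V' c w0 h hw hV' hlt
    have aux : ∀ e ⊆ V', e.card + 1 = r → ∀ z ∈ V', ∀ w ∈ V', Pos j e z → Pos j e w → z < w →
        insert w0 e ⊆ V ∧ (insert w0 e).card + 1 = r + 1 ∧ z ∈ V ∧ w ∈ V ∧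
          Pos (j + 1) (insert w0 e) z ∧ Pos (j + 1) (insert w0 e) w := by
      intro e he hec z hz w hw' hez hew hzw
      have hw0e : w0 ∉ e := fun h' => by have := hlt w0 (he h'); omega
      refine ⟨?_, by rw [Finset.card_insert_of_notMem hw0e]; omega, hV' hz, hV' hw',
        hez.insert_small (hlt z hz) hw0e, hew.insert_small (hlt w hw') hw0e⟩
      intro x hx
      rw [mem_insert] at hx
      rcases hx with rfl | hx
      · exact hw
      · exact hV' (he hx)
    rcases h with h | h
    · left
      intro e he hec z hz w hw' hez hew hzw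
      obtain ⟨a1, a2, a3, a4, a5, a6⟩ := aux e he hec z hz w hw' hez hew hzw
      have h3 := h _ a1 a2 z a3 w a4 a5 a6 hzw
      rw [Finset.insert_comm z w0 e, Finset.insert_comm w w0 e] at h3
      exact h3
    · right
      intro e he hec z hz w hw' hez hew hzw
      obtain ⟨a1, a2, a3, a4, a5, a6⟩ := aux e he hec z hz w hw' hez hew hzw
      have h3 := h _ a1 a2 z a3 w a4 a5 a6 hzw
      rw [Finset.insert_comm z w0 e, Finset.insert_comm w w0 e] at h3
      exact h3
  · intro r j V c B hj hVB h
    have hj' : j = r - 1 - (r - 1 - j) := by omega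
    have aux : ∀ e ⊆ CC.flip B V, e.card + 1 = r → ∀ z ∈ CC.flip B V, ∀ w ∈ CC.flip B V,
        Pos j e z → Pos j e w → z < w →
        CC.flip B e ⊆ V ∧ (CC.flip B e).card + 1 = r ∧ B - w ∈ V ∧ B - z ∈ V ∧
          Pos (r - 1 - j) (CC.flip B e) (B - w) ∧ Pos (r - 1 - j) (CC.flip B e) (B - z) ∧
          B - w < B - z := by
      intro e he hec z hz w hw hez hew hzw
      have heB : ∀ x ∈ e, x ≤ B := fun x hx => flip_le x (he hx)
      have hzB := flip_le z hz
      have hwB := flip_le w hw
      refine ⟨?_, by rw [flip_card heB]; exact hec, (mem_flip hVB hwB).1 hw,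
        (mem_flip hVB hzB).1 hz, Pos.flip heB hwB hec (by rw [← hj']; exact hew) (by omega),
        Pos.flip heB hzB hec (by rw [← hj']; exact hez) (by omega), by omega⟩
      rw [← flip_flip hVB]
      exact flip_mono he
    rcases h with h | h
    · right
      intro e he hec z hz w hw hez hew hzw
      obtain ⟨a1, a2, a3, a4, a5, a6, a7⟩ := aux e he hec z hz w hw hez hew hzw
      show c (CC.flip B (insert w e)) ≤ c (CC.flip B (insert z e))
      rw [flip_insert, flip_insert]
      exact h _ a1 a2 _ a3 _ a4 a5 a6 a7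
    · left
      intro e he hec z hz w hw hez hew hzw
      obtain ⟨a1, a2, a3, a4, a5, a6, a7⟩ := aux e he hec z hz w hw hez hew hzw
      show c (CC.flip B (insert z e)) ≤ c (CC.flip B (insert w e))
      rw [flip_insert, flip_insert]
      exact h _ a1 a2 _ a3 _ a4 a5 a6 a7

end Pool.Agent.Q118.CC
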