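import Pool.Agent.Q118.CC.Avg

/-!
# Triples: colourings with ranks which increase with the last vertex

`κ x y z` is the colour and `ρ x y z` the rank of the triple `x < y < z`. The rank does not
decrease when the last vertex moves to the right, and the colour is constant as long as the rank is
constant.
-/

namespace Pool.Agent.Q118.CC

open Finset

/-- Ranked colouring of the triples of `V`. -/
def Rk (κ ρ : ℕ → ℕ → ℕ → ℕ) (V : Finset ℕ) : Prop :=
  ∀ x ∈ V, ∀ y ∈ V, ∀ z ∈ V, ∀ w ∈ V, x < y → y < z → z < w →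
    ρ x y z ≤ ρ x y w ∧ (ρ x y z = ρ x y w → κ x y z = κ x y w)

/-- All triples of `S` have rank `i` and colour `j`. -/
def Hom (κ ρ : ℕ → ℕ → ℕ → ℕ) (S : Finset ℕ) (i j : ℕ) : Prop :=
  ∀ x ∈ S, ∀ y ∈ S, ∀ z ∈ S, x < y → y < z → ρ x y z = i ∧ κ x y z = j

/-- All triples of `V` have a colour less than `p` and a rank in `[lo, hi)`. -/
def Bd (κ ρ : ℕ → ℕ → ℕ → ℕ) (V : Finset ℕ) (p lo hi : ℕ) : Prop :=
  ∀ x ∈ V, ∀ y ∈ V, ∀ z ∈ V, x < y → y < z → κ x y z < p ∧ lo ≤ ρ x y z ∧ ρ x y z < hi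

theorem Rk.sub {κ ρ : ℕ → ℕ → ℕ → ℕ} {V W : Finset ℕ} (h : Rk κ ρ V) (hW : W ⊆ V) : Rk κ ρ W :=
  fun x hx y hy z hz w hw => h x (hW hx) y (hW hy) z (hW hz) w (hW hw)

theorem Bd.sub {κ ρ : ℕ → ℕ → ℕ → ℕ} {V W : Finset ℕ} {p lo hi : ℕ} (h : Bd κ ρ V p lo hi)
    (hW : W ⊆ V) : Bd κ ρ W p lo hi :=
  fun x hx y hy z hz => h x (hW hx) y (hW hy) z (hW hz)

theorem hom_small {κ ρ : ℕ → ℕ → ℕ → ℕ} {S : Finset ℕ} (hS : S.card ≤ 2) (i j : ℕ) :
    Hom κ ρ S i j := by
  intro x hx y hy z hz hxy hyz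
  exfalso
  have h5 : ({x, y, z} : Finset ℕ).card = 3 := by
    rw [Finset.card_eq_three]
    exact ⟨x, y, z, by omega, by omega, by omega, rfl⟩
  have h6 : ({x, y, z} : Finset ℕ) ⊆ S := by
    intro v hv
    simp only [mem_insert, mem_singleton] at hv
    rcases hv with rfl | rfl | rfl <;> assumption
  have h7 := Finset.card_le_card h6
  omega

/-- If there is no homogeneous set of size at most two, then there is at most one vertex. -/
theorem card_le_one {κ ρ : ℕ → ℕ → ℕ → ℕ} {V : Finset ℕ} {k i j : ℕ} (hk : k ≤ 2)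
    (h : ∀ S ⊆ V, S.card = k → ¬ Hom κ ρ S i j) : V.card ≤ 1 := by
  by_contra hV
  obtain ⟨S, hS, hSc⟩ := Finset.exists_subset_card_eq (show k ≤ V.card by omega)
  exact h S hS hSc (hom_small (by omega) i j)

/-- The set of the `x < y` with `x, y, z` of rank `i` and colour `j`. -/
def low (κ ρ : ℕ → ℕ → ℕ → ℕ) (V : Finset ℕ) (i j y z : ℕ) : Finset ℕ :=
  V.filter (fun x => x < y ∧ ρ x y z = i ∧ κ x y z = j)

/-- The set of the `y` between `x` and `z` with `x, y, z` of rank `i` and colour `j`. -/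
def mid (κ ρ : ℕ → ℕ → ℕ → ℕ) (V : Finset ℕ) (i j x z : ℕ) : Finset ℕ :=
  V.filter (fun y => x < y ∧ y < z ∧ ρ x y z = i ∧ κ x y z = j)

/-- Top rank: a homogeneous set in `low` gives one which is larger by one. -/
theorem low_hom {κ ρ : ℕ → ℕ → ℕ → ℕ} {V : Finset ℕ} {p lo hi : ℕ} (hR : Rk κ ρ V)
    (hB : Bd κ ρ V p lo hi) {i j : ℕ} (hi' : i + 1 = hi) {y z : ℕ} (hy : y ∈ V) (hz : z ∈ V)
    (hyz : y < z) {k : ℕ} (hk : 3 ≤ k) (h : ∀ S ⊆ V, S.card = k → ¬ Hom κ ρ S i j) :
    ∀ S ⊆ low κ ρ V i j y z, S.card = k - 1 → ¬ Hom κ ρ S i j := by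
  intro T hT hTc hTh
  have hTV : ∀ x ∈ T, x ∈ V ∧ x < y ∧ ρ x y z = i ∧ κ x y z = j := by
    intro x hx
    have := hT hx
    simpa only [low, mem_filter] using this
  have hne : T.Nonempty := by rw [← Finset.card_pos]; omega
  set b := T.max' hne with hb
  have hbT : b ∈ T := T.max'_mem hne
  set T' := T.erase b with hT'
  have hT'lt : ∀ x ∈ T', x < b := by
    intro x hx
    rw [hT', mem_erase] at hx
    have := T.le_max' x hx.2
    omega
  have hT'T : ∀ x ∈ T', x ∈ T := fun x hx => Finset.mem_of_mem_erase hx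
  have hyT : y ∉ T' := fun hy' => by
    have := (hTV y (hT'T y hy')).2.1
    omega
  have hzT : z ∉ insert y T' := by
    rw [mem_insert]
    rintro (rfl | hz')
    · omega
    · have := (hTV z (hT'T z hz')).2.1
      omega
  have hcard : (insert z (insert y T')).card = k := by
    rw [Finset.card_insert_of_notMem hzT, Finset.card_insert_of_notMem hyT, hT',
      Finset.card_erase_of_mem hbT]
    omega
  -- the triples `a < a' < w`, `w ≥ b`
  have key : ∀ a ∈ T', ∀ a' ∈ T', a < a' → ∀ w ∈ V, b < w → ρ a a' w = i ∧ κ a a' w = j := by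
    intro a ha a' ha' haa w hw hbw
    have haT := hT'T a ha
    have ha'T := hT'T a' ha'
    have h1 := hTh a haT a' ha'T b hbT haa (hT'lt a' ha')
    have h2 := hR a (hTV a haT).1 a' (hTV a' ha'T).1 b (hTV b hbT).1 w hw haa (hT'lt a' ha') hbw
    have h3 := hB a (hTV a haT).1 a' (hTV a' ha'T).1 w hw haa (lt_trans (hT'lt a' ha') hbw)
    have h4 : ρ a a' b = ρ a a' w := by omega
    exact ⟨by omega, by rw [← h2.2 h4]; exact h1.2⟩
  have hby : b < y := (hTV b hbT).2.1
  refine h (insert z (insert y T')) ?_ hcard ?_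
  · intro v hv
    simp only [mem_insert] at hv
    rcases hv with rfl | rfl | hv
    · exact hz
    · exact hy
    · exact (hTV v (hT'T v hv)).1
  · intro a ha a' ha' a'' ha'' h1 h2
    simp only [mem_insert] at ha ha' ha''
    have hlt : ∀ x ∈ T', x < y := fun x hx => (hTV x (hT'T x hx)).2.1
    have haT : a ∈ T' := by
      rcases ha with rfl | rfl | ha
      · exfalso
        rcases ha' with rfl | rfl | ha'
        · omega
        · omega
        · have := hlt a' ha'; omega
      · exfalso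
        rcases ha' with rfl | rfl | ha'
        · rcases ha'' with rfl | rfl | ha''
          · omega
          · omega
          · have := hlt a'' ha''; omega
        · omega
        · have := hlt a' ha'; omega
      · exact ha
    have ha'T : a' ∈ T' ∨ (a' = y ∧ a'' = z) := by
      rcases ha' with rfl | rfl | ha'
      · exfalso
        rcases ha'' with rfl | rfl | ha''
        · omega
        · omega
        · have := hlt a'' ha''; omega
      · rcases ha'' with rfl | rfl | ha''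
        · exact Or.inr ⟨rfl, rfl⟩
        · omega
        · have := hlt a'' ha''; omega
      · exact Or.inl ha'
    rcases ha'T with ha'T | ⟨rfl, rfl⟩
    · rcases ha'' with rfl | rfl | ha''
      · exact key a haT a' ha'T h1 a'' hz (by omega)
      · exact key a haT a' ha'T h1 a'' hy hby
      · exact hTh a (hT'T a haT) a' (hT'T a' ha'T) a'' (hT'T a'' ha'') h1 h2
    · exact (hTV a (hT'T a haT)).2.2

/-- Bottom rank: a homogeneous set in `mid` gives one which is larger by one. -/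
theorem mid_hom {κ ρ : ℕ → ℕ → ℕ → ℕ} {V : Finset ℕ} {p lo hi : ℕ} (hR : Rk κ ρ V)
    (hB : Bd κ ρ V p lo hi) {j : ℕ} {x z : ℕ} (hx : x ∈ V) (hz : z ∈ V)
    {k : ℕ} (hk : 1 ≤ k) (h : ∀ S ⊆ V, S.card = k → ¬ Hom κ ρ S lo j) :
    ∀ S ⊆ mid κ ρ V lo j x z, S.card = k - 1 → ¬ Hom κ ρ S lo j := by
  intro T hT hTc hTh
  have hTV : ∀ y ∈ T, y ∈ V ∧ x < y ∧ y < z ∧ ρ x y z = lo ∧ κ x y z = j := by
    intro y hy
    have := hT hy
    simpa only [mid, mem_filter] using this
  have hxT : x ∉ T := fun hx' => by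
    have := (hTV x hx').2.1
    omega
  refine h (insert x T) ?_ (by rw [Finset.card_insert_of_notMem hxT]; omega) ?_
  · intro v hv
    rw [mem_insert] at hv
    rcases hv with rfl | hv
    · exact hx
    · exact (hTV v hv).1
  · intro a ha a' ha' a'' ha'' h1 h2
    rw [mem_insert] at ha ha' ha''
    have ha'T : a' ∈ T := by
      rcases ha' with rfl | ha'
      · exfalso
        rcases ha with rfl | ha
        · omega
        · have := (hTV a ha).2.1; omega
      · exact ha'
    have ha''T : a'' ∈ T := by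
      rcases ha'' with rfl | ha''
      · exfalso
        have := (hTV a' ha'T).2.1; omega
      · exact ha''
    rcases ha with rfl | ha
    · have h3 := hTV a' ha'T
      have h4 := hTV a'' ha''T
      have h5 := hR a hx a' h3.1 a'' h4.1 z hz h1 h2 h4.2.2.1
      have h6 := hB a hx a' h3.1 a'' h4.1 h1 h2
      have h7 : ρ a a' a'' = ρ a a' z := by
        have := h3.2.2.2.1
        omega
      exact ⟨by rw [h7]; exact h3.2.2.2.1, by rw [h5.2 h7]; exact h3.2.2.2.2⟩
    · exact hTh a ha a' ha'T a'' ha''T h1 h2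

/-- Ranked colouring of the triples of `V`, the rank increases with the middle vertex. -/
def RkM (κ ρ : ℕ → ℕ → ℕ → ℕ) (V : Finset ℕ) : Prop :=
  ∀ x ∈ V, ∀ y ∈ V, ∀ w ∈ V, ∀ z ∈ V, x < y → y < w → w < z →
    ρ x y z ≤ ρ x w z ∧ (ρ x y z = ρ x w z → κ x y z = κ x w z)

theorem RkM.sub {κ ρ : ℕ → ℕ → ℕ → ℕ} {V W : Finset ℕ} (h : RkM κ ρ V) (hW : W ⊆ V) : RkM κ ρ W :=
  fun x hx y hy z hz w hw => h x (hW hx) y (hW hy) z (hW hz) w (hW hw)

/-- The set of the `x < y` with `x, y, z` of rank `i` and colour `j`, if `y < z`. -/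
def lowM (κ ρ : ℕ → ℕ → ℕ → ℕ) (V : Finset ℕ) (i j y z : ℕ) : Finset ℕ :=
  V.filter (fun x => x < y ∧ y < z ∧ ρ x y z = i ∧ κ x y z = j)

/-- The set of the `z > y` with `x, y, z` of rank `i` and colour `j`. -/
def highM (κ ρ : ℕ → ℕ → ℕ → ℕ) (V : Finset ℕ) (i j x y : ℕ) : Finset ℕ :=
  V.filter (fun z => x < y ∧ y < z ∧ ρ x y z = i ∧ κ x y z = j)

/-- Middle vertex, top rank. -/
theorem highM_hom {κ ρ : ℕ → ℕ → ℕ → ℕ} {V : Finset ℕ} {p lo hi : ℕ} (hR : RkM κ ρ V)
    (hB : Bd κ ρ V p lo hi) {i j : ℕ} (hi' : i + 1 = hi) {x y : ℕ} (hx : x ∈ V) (hy : y ∈ V)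
    {k : ℕ} (hk : 1 ≤ k) (h : ∀ S ⊆ V, S.card = k → ¬ Hom κ ρ S i j) :
    ∀ S ⊆ highM κ ρ V i j x y, S.card = k - 1 → ¬ Hom κ ρ S i j := by
  intro T hT hTc hTh
  have hTV : ∀ z ∈ T, z ∈ V ∧ x < y ∧ y < z ∧ ρ x y z = i ∧ κ x y z = j := by
    intro z hz
    have := hT hz
    simpa only [highM, mem_filter] using this
  have hxT : x ∉ T := fun hx' => by
    have := hTV x hx'
    omega
  refine h (insert x T) ?_ (by rw [Finset.card_insert_of_notMem hxT]; omega) ?_
  · intro v hv
    rw [mem_insert] at hv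
    rcases hv with rfl | hv
    · exact hx
    · exact (hTV v hv).1
  · intro a ha a' ha' a'' ha'' h1 h2
    rw [mem_insert] at ha ha' ha''
    have ha'T : a' ∈ T := by
      rcases ha' with rfl | ha'
      · exfalso
        rcases ha with rfl | ha
        · omega
        · have := hTV a ha; omega
      · exact ha'
    have ha''T : a'' ∈ T := by
      rcases ha'' with rfl | ha''
      · exfalso
        have := hTV a' ha'T; omega
      · exact ha''
    rcases ha with rfl | ha
    · have h3 := hTV a' ha'T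
      have h4 := hTV a'' ha''T
      have h5 := hR a hx y hy a' h3.1 a'' h4.1 h3.2.1 h3.2.2.1 h2
      have h6 := hB a hx a' h3.1 a'' h4.1 h1 h2
      have h8 := h4.2.2.2
      have h7 : ρ a y a'' = ρ a a' a'' := by omega
      exact ⟨by omega, by rw [← h5.2 h7]; exact h8.2⟩
    · exact hTh a ha a' ha'T a'' ha''T h1 h2

/-- Middle vertex, bottom rank. -/
theorem lowM_hom {κ ρ : ℕ → ℕ → ℕ → ℕ} {V : Finset ℕ} {p lo hi : ℕ} (hR : RkM κ ρ V)
    (hB : Bd κ ρ V p lo hi) {j : ℕ} {y z : ℕ} (hy : y ∈ V) (hz : z ∈ V)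
    {k : ℕ} (hk : 1 ≤ k) (h : ∀ S ⊆ V, S.card = k → ¬ Hom κ ρ S lo j) :
    ∀ S ⊆ lowM κ ρ V lo j y z, S.card = k - 1 → ¬ Hom κ ρ S lo j := by
  intro T hT hTc hTh
  have hTV : ∀ x ∈ T, x ∈ V ∧ x < y ∧ y < z ∧ ρ x y z = lo ∧ κ x y z = j := by
    intro x hx
    have := hT hx
    simpa only [lowM, mem_filter] using this
  have hzT : z ∉ T := fun hz' => by
    have := hTV z hz'
    omega
  refine h (insert z T) ?_ (by rw [Finset.card_insert_of_notMem hzT]; omega) ?_
  · intro v hv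
    rw [mem_insert] at hv
    rcases hv with rfl | hv
    · exact hz
    · exact (hTV v hv).1
  · intro a ha a' ha' a'' ha'' h1 h2
    rw [mem_insert] at ha ha' ha''
    have ha'T : a' ∈ T := by
      rcases ha' with rfl | ha'
      · exfalso
        rcases ha'' with rfl | ha''
        · omega
        · have := hTV a'' ha''; omega
      · exact ha'
    have haT : a ∈ T := by
      rcases ha with rfl | ha
      · exfalso
        have := hTV a' ha'T; omega
      · exact ha
    rcases ha'' with rfl | ha''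
    · have h3 := hTV a haT
      have h4 := hTV a' ha'T
      have h5 := hR a h3.1 a' h4.1 y hy a'' hz h1 h4.2.1 h4.2.2.1
      have h6 := hB a h3.1 a' h4.1 a'' hz h1 h2
      have h8 := h3.2.2.2
      have h7 : ρ a a' a'' = ρ a y a'' := by omega
      exact ⟨by omega, by rw [h5.2 h7]; exact h8.2⟩
    · exact hTh a haT a' ha'T a'' ha'' h1 h2

end Pool.Agent.Q118.CC
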