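import Pool.Agent.Q118.CC.Engine

/-!
# Triples: removing the lowest and the highest rank
-/

namespace Pool.Agent.Q118.CC

open Finset

theorem arith_three {N u Y : ℕ} (hu : 3 ≤ u) (hY : 1 ≤ Y) {b : ℕ}
    (h1 : N.choose 3 ≤ u.choose 3 * b) (h2 : b ≤ N ^ 2 * Y) : N ≤ 4 * u ^ 3 * Y := by
  have h3 : 6 * N.choose 3 = N * (N - 1) * (N - 2) := by
    have h := Nat.descFactorial_eq_factorial_mul_choose N 3
    simp only [Nat.descFactorial, Nat.factorial] at h
    have h' : N * (N - 1) * (N - 2) = (N - 2) * ((N - 1) * ((N - 0) * 1)) := by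
      simp only [Nat.sub_zero]; ring
    rw [h', h]
  have h4 : 6 * u.choose 3 ≤ u ^ 3 := by
    have h := Nat.descFactorial_eq_factorial_mul_choose u 3
    have h' := Nat.descFactorial_le_pow u 3
    rw [h] at h'
    simpa only [Nat.factorial] using h'
  have h5 : N * (N - 1) * (N - 2) ≤ u ^ 3 * (N ^ 2 * Y) := by
    calc N * (N - 1) * (N - 2) = 6 * N.choose 3 := h3.symm
      _ ≤ 6 * (u.choose 3 * b) := Nat.mul_le_mul_left _ h1
      _ = 6 * u.choose 3 * b := by ring
      _ ≤ u ^ 3 * (N ^ 2 * Y) := Nat.mul_le_mul h4 h2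
  by_contra hN
  push Not at hN
  have hu3 : 27 ≤ u ^ 3 := by
    calc 27 = 3 ^ 3 := by norm_num
      _ ≤ u ^ 3 := Nat.pow_le_pow_left hu 3
  have hb : 108 ≤ 4 * u ^ 3 * Y := by nlinarith
  obtain ⟨M, rfl⟩ : ∃ M, N = M + 2 := ⟨N - 2, by omega⟩
  have h6 : M + 2 - 1 = M + 1 := by omega
  have h7 : M + 2 - 2 = M := by omega
  rw [h6, h7] at h5
  have h8 : (M + 1) * M ≤ u ^ 3 * ((M + 2) * Y) := by
    have h9 : (M + 2) * ((M + 1) * M) ≤ (M + 2) * (u ^ 3 * ((M + 2) * Y)) := by
      calc _ = (M + 2) * (M + 1) * M := by ring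
        _ ≤ _ := h5
        _ = _ := by ring
    exact Nat.le_of_mul_le_mul_left h9 (by omega)
  have h10 : 4 * ((M + 1) * M) ≤ (M + 2) * (M + 2) := by
    calc 4 * ((M + 1) * M) ≤ 4 * (u ^ 3 * ((M + 2) * Y)) := Nat.mul_le_mul_left _ h8
      _ = (M + 2) * (4 * u ^ 3 * Y) := by ring
      _ ≤ (M + 2) * (M + 2) := Nat.mul_le_mul_left _ hN.le
  have h11 : 106 ≤ M := by omega
  nlinarith

/-- The bound for the number of vertices of the sets `V` with the property `Φ` in which every set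
of `u` vertices contains a triple of the lowest or the highest rank. -/
def ExtSt (κ ρ : ℕ → ℕ → ℕ → ℕ) (Φ : Finset ℕ → Prop) : Prop :=
  ∀ p u lo hi : ℕ, 1 ≤ p → 3 ≤ u → lo < hi → ∀ t : ℕ, ∀ (V : Finset ℕ) (kb kt : ℕ → ℕ),
    Φ V → Bd κ ρ V p lo hi →
    (∀ U ⊆ V, U.card = u → ∃ x ∈ U, ∃ y ∈ U, ∃ z ∈ U, x < y ∧ y < z ∧
      (ρ x y z = lo ∨ ρ x y z + 1 = hi)) →
    (∀ j < p, ∀ S ⊆ V, S.card = kb j → ¬ Hom κ ρ S lo j) →
    (∀ j < p, ∀ S ⊆ V, S.card = kt j → ¬ Hom κ ρ S (hi - 1) j) →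
    ∑ j ∈ range p, (kb j + kt j) ≤ t → V.card ≤ (8 * p * u ^ 3) ^ t

/-- **Removing the extreme ranks.** -/
theorem ext_gen {κ ρ : ℕ → ℕ → ℕ → ℕ} {Φ : Finset ℕ → Prop}
    (hΦ : ∀ V W, Φ V → W ⊆ V → Φ W)
    (fB fT : Finset ℕ → ℕ → ℕ → ℕ → ℕ → Finset ℕ) (dB dT : ℕ → ℕ → ℕ → ℕ × ℕ × ℕ)
    (hfB : ∀ V i j a b, fB V i j a b ⊆ V) (hfT : ∀ V i j a b, fT V i j a b ⊆ V)
    (capB : ∀ V i, ∀ x ∈ V, ∀ y ∈ V, ∀ z ∈ V, x < y → y < z → ρ x y z = i →
      ∃ a ∈ V, ∃ b ∈ V, ∃ w ∈ fB V i (κ x y z) a b, dB a b w = (x, y, z))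
    (capT : ∀ V i, ∀ x ∈ V, ∀ y ∈ V, ∀ z ∈ V, x < y → y < z → ρ x y z = i →
      ∃ a ∈ V, ∃ b ∈ V, ∃ w ∈ fT V i (κ x y z) a b, dT a b w = (x, y, z))
    (homB : ∀ V p lo hi, Φ V → Bd κ ρ V p lo hi → ∀ j, ∀ a ∈ V, ∀ b ∈ V, ∀ k, 3 ≤ k →
      (∀ S ⊆ V, S.card = k → ¬ Hom κ ρ S lo j) →
      ∀ S ⊆ fB V lo j a b, S.card = k - 1 → ¬ Hom κ ρ S lo j)
    (homT : ∀ V p lo hi, Φ V → Bd κ ρ V p lo hi → 1 ≤ hi → ∀ j, ∀ a ∈ V, ∀ b ∈ V, ∀ k, 3 ≤ k →
      (∀ S ⊆ V, S.card = k → ¬ Hom κ ρ S (hi - 1) j) →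
      ∀ S ⊆ fT V (hi - 1) j a b, S.card = k - 1 → ¬ Hom κ ρ S (hi - 1) j) :
    ExtSt κ ρ Φ := by
  intro p u lo hi hp hu hlh
  have hX : 1 ≤ 8 * p * u ^ 3 := by
    have : 1 ≤ u ^ 3 := Nat.one_le_pow _ _ (by omega)
    nlinarith
  intro t
  induction t with
  | zero =>
    intro V kb kt _ _ _ hkb _ hs
    have h1 : kb 0 + kt 0 ≤ ∑ j ∈ range p, (kb j + kt j) :=
      Finset.single_le_sum (f := fun j => kb j + kt j) (fun _ _ => Nat.zero_le _)
        (Finset.mem_range.mpr (by omega))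
    rw [pow_zero]
    exact card_le_one (k := kb 0) (by omega) (hkb 0 (by omega))
  | succ t ih =>
    intro V kb kt hR hB hU hkb hkt hs
    have hX1 : 1 ≤ (8 * p * u ^ 3) ^ (t + 1) := Nat.one_le_pow _ _ hX
    by_cases hsmall : ∃ j < p, kb j ≤ 2 ∨ kt j ≤ 2
    · obtain ⟨j, hj, h | h⟩ := hsmall
      · exact (card_le_one h (hkb j hj)).trans hX1
      · exact (card_le_one h (hkt j hj)).trans hX1
    push Not at hsmall
    set D := (8 * p * u ^ 3) ^ t with hD
    have hD1 : 1 ≤ D := Nat.one_le_pow _ _ hX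
    have hsum : ∀ (f g : ℕ → ℕ) (j : ℕ), j < p → f j + g j + 1 ≤ kb j + kt j →
        (∀ i, i ≠ j → f i + g i ≤ kb i + kt i) → ∑ i ∈ range p, (f i + g i) ≤ t := by
      intro f g j hj h1 h2
      have h3 : ∑ i ∈ range p, (f i + g i) < ∑ i ∈ range p, (kb i + kt i) := by
        apply Finset.sum_lt_sum
        · intro i _
          by_cases hi' : i = j
          · subst hi'; omega
          · exact h2 i hi'
        · exact ⟨j, Finset.mem_range.mpr hj, by omega⟩
      omega
    have hmid : ∀ j < p, ∀ a ∈ V, ∀ b ∈ V, (fB V lo j a b).card ≤ D := by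
      intro j hj a ha b hb
      have hsub : fB V lo j a b ⊆ V := hfB V lo j a b
      refine ih (fB V lo j a b) (Function.update kb j (kb j - 1)) kt (hΦ _ _ hR hsub)
        (hB.sub hsub) (fun U hUs hUc => hU U (hUs.trans hsub) hUc) ?_ ?_ ?_
      · intro i hi' S hS hSc
        by_cases hij : i = j
        · subst hij
          rw [Function.update_self] at hSc
          exact homB V p lo hi hR hB i a ha b hb (kb i) (by have := (hsmall i hi').1; omega)
            (hkb i hi') S hS hSc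
        · rw [Function.update_of_ne hij] at hSc
          exact hkb i hi' S (hS.trans hsub) hSc
      · intro i hi' S hS hSc
        exact hkt i hi' S (hS.trans hsub) hSc
      · refine hsum _ _ j hj ?_ ?_
        · rw [Function.update_self]
          have := (hsmall j hj).1
          omega
        · intro i hij
          rw [Function.update_of_ne hij]
    have hlow : ∀ j < p, ∀ a ∈ V, ∀ b ∈ V, (fT V (hi - 1) j a b).card ≤ D := by
      intro j hj a ha b hb
      have hsub : fT V (hi - 1) j a b ⊆ V := hfT V (hi - 1) j a b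
      refine ih (fT V (hi - 1) j a b) kb (Function.update kt j (kt j - 1)) (hΦ _ _ hR hsub)
        (hB.sub hsub) (fun U hUs hUc => hU U (hUs.trans hsub) hUc) ?_ ?_ ?_
      · intro i hi' S hS hSc
        exact hkb i hi' S (hS.trans hsub) hSc
      · intro i hi' S hS hSc
        by_cases hij : i = j
        · subst hij
          rw [Function.update_self] at hSc
          exact homT V p lo hi hR hB (by omega) i a ha b hb (kt i)
            (by have := (hsmall i hi').2; omega) (hkt i hi') S hS hSc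
        · rw [Function.update_of_ne hij] at hSc
          exact hkt i hi' S (hS.trans hsub) hSc
      · refine hsum _ _ j hj ?_ ?_
        · rw [Function.update_self]
          have := (hsmall j hj).2
          omega
        · intro i hij
          rw [Function.update_of_ne hij]
    -- counting
    by_cases hNu : V.card < u
    · calc V.card ≤ u := hNu.le
        _ ≤ 8 * p * u ^ 3 * 1 := by
          have h1 : u ≤ u ^ 3 := Nat.le_self_pow (by omega) u
          nlinarith
        _ ≤ (8 * p * u ^ 3) ^ (t + 1) := by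
          rw [pow_succ, mul_comm]
          exact Nat.mul_le_mul_right _ hD1
    push Not at hNu
    set P : ℕ × ℕ × ℕ → Prop := fun t => ρ t.1 t.2.1 t.2.2 = lo ∨ ρ t.1 t.2.1 t.2.2 + 1 = hi with hP
    have hbadU : ∀ U ⊆ V, U.card = u → (bad P U).Nonempty := by
      intro U hUs hUc
      obtain ⟨x, hx, y, hy, z, hz, hxy, hyz, h⟩ := hU U hUs hUc
      exact ⟨(x, y, z), mem_bad.mpr ⟨⟨hx, hy, hz, hxy, hyz⟩, h⟩⟩
    have hav := avg P u hu (V.card - u) V (by omega) hbadU
    have hcount : (bad P V).card ≤ V.card ^ 2 * (2 * p * D) := by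
      classical
      set F : ℕ × ℕ × ℕ → Finset (ℕ × ℕ × ℕ) := fun s =>
        (fB V lo s.1 s.2.1 s.2.2).image (fun w => dB s.2.1 s.2.2 w) ∪
        (fT V (hi - 1) s.1 s.2.1 s.2.2).image (fun w => dT s.2.1 s.2.2 w) with hF
      have hsub : bad P V ⊆ (range p ×ˢ (V ×ˢ V)).biUnion F := by
        rintro ⟨x, y, z⟩ h
        rw [mem_bad] at h
        obtain ⟨⟨hx, hy, hz, hxy, hyz⟩, hPt⟩ := h
        simp only at hx hy hz hxy hyz
        have hb := hB x hx y hy z hz hxy hyz
        rw [Finset.mem_biUnion]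
        rcases hPt with h | h
        · simp only at h
          obtain ⟨a, ha, b, hb', w, hw, hd⟩ := capB V lo x hx y hy z hz hxy hyz h
          refine ⟨(κ x y z, a, b), ?_, ?_⟩
          · simp only [mem_product, mem_range]
            exact ⟨hb.1, ha, hb'⟩
          · simp only [hF, mem_union, mem_image]
            exact Or.inl ⟨w, hw, hd⟩
        · simp only at h
          obtain ⟨a, ha, b, hb', w, hw, hd⟩ := capT V (hi - 1) x hx y hy z hz hxy hyz (by omega)
          refine ⟨(κ x y z, a, b), ?_, ?_⟩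
          · simp only [mem_product, mem_range]
            exact ⟨hb.1, ha, hb'⟩
          · simp only [hF, mem_union, mem_image]
            exact Or.inr ⟨w, hw, hd⟩
      calc (bad P V).card ≤ ((range p ×ˢ (V ×ˢ V)).biUnion F).card := Finset.card_le_card hsub
        _ ≤ ∑ s ∈ range p ×ˢ (V ×ˢ V), (F s).card := Finset.card_biUnion_le
        _ ≤ ∑ _s ∈ range p ×ˢ (V ×ˢ V), 2 * D := by
          apply Finset.sum_le_sum
          rintro ⟨j, a, b⟩ hs'
          simp only [mem_product, mem_range] at hs'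
          have h1 : (F (j, a, b)).card ≤ (fB V lo j a b).card + (fT V (hi - 1) j a b).card :=
            (Finset.card_union_le _ _).trans
              (Nat.add_le_add Finset.card_image_le Finset.card_image_le)
          have h2 := hmid j hs'.1 a hs'.2.1 b hs'.2.2
          have h3 := hlow j hs'.1 a hs'.2.1 b hs'.2.2
          omega
        _ = V.card ^ 2 * (2 * p * D) := by
          rw [Finset.sum_const, smul_eq_mul, Finset.card_product, Finset.card_product,
            Finset.card_range]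
          ring
    have hfin := arith_three hu (show 1 ≤ 2 * p * D by nlinarith) hav hcount
    calc V.card ≤ 4 * u ^ 3 * (2 * p * D) := hfin
      _ = (8 * p * u ^ 3) ^ (t + 1) := by rw [pow_succ (8 * p * u ^ 3) t, ← hD]; ring

/-- Last vertex. -/
theorem ext_last (κ ρ : ℕ → ℕ → ℕ → ℕ) : ExtSt κ ρ (Rk κ ρ) := by
  refine ext_gen (fun V W h hW => h.sub hW) (fun V i j a b => mid κ ρ V i j a b)
    (fun V i j a b => if a < b then low κ ρ V i j a b else ∅) (fun a b w => (a, w, b))
    (fun a b w => (w, a, b)) (fun V i j a b => Finset.filter_subset _ _) ?_ ?_ ?_ ?_ ?_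
  · intro V i j a b
    by_cases h : a < b
    · simp only [if_pos h]
      exact Finset.filter_subset _ _
    · simp only [if_neg h]
      exact Finset.empty_subset _
  · intro V i x hx y hy z hz hxy hyz h
    refine ⟨x, hx, z, hz, y, ?_, rfl⟩
    simp only [mid, mem_filter]
    exact ⟨hy, hxy, hyz, h, trivial⟩
  · intro V i x hx y hy z hz hxy hyz h
    refine ⟨y, hy, z, hz, x, ?_, rfl⟩
    simp only [if_pos hyz, low, mem_filter]
    exact ⟨hx, hxy, h, trivial⟩
  · intro V p lo hi hR hB j a ha b hb k hk h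
    exact mid_hom hR hB ha hb (by omega) h
  · intro V p lo hi hR hB hi1 j a ha b hb k hk h S hS hSc
    by_cases hab : a < b
    · simp only [if_pos hab] at hS
      exact low_hom hR hB (by omega) ha hb hab hk h S hS hSc
    · simp only [if_neg hab, Finset.subset_empty] at hS
      subst hS
      rw [Finset.card_empty] at hSc
      omega

/-- Middle vertex. -/
theorem ext_mid (κ ρ : ℕ → ℕ → ℕ → ℕ) : ExtSt κ ρ (RkM κ ρ) := by
  refine ext_gen (fun V W h hW => h.sub hW) (fun V i j a b => lowM κ ρ V i j a b)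
    (fun V i j a b => highM κ ρ V i j a b) (fun a b w => (w, a, b))
    (fun a b w => (a, b, w)) (fun V i j a b => Finset.filter_subset _ _)
    (fun V i j a b => Finset.filter_subset _ _) ?_ ?_ ?_ ?_
  · intro V i x hx y hy z hz hxy hyz h
    refine ⟨y, hy, z, hz, x, ?_, rfl⟩
    simp only [lowM, mem_filter]
    exact ⟨hx, hxy, hyz, h, trivial⟩
  · intro V i x hx y hy z hz hxy hyz h
    refine ⟨x, hx, y, hy, z, ?_, rfl⟩
    simp only [highM, mem_filter]
    exact ⟨hz, hxy, hyz, h, trivial⟩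
  · intro V p lo hi hR hB j a ha b hb k hk h
    exact lowM_hom hR hB ha hb (by omega) h
  · intro V p lo hi hR hB hi1 j a ha b hb k hk h
    exact highM_hom hR hB (by omega) ha hb (by omega) h

end Pool.Agent.Q118.CC
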