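import Pool.Agent.Q118.CC.Lower

/-!
# Colourings with few colour changes
-/

namespace Pool.Agent.Q118.CC

open Finset

/-- The number of colour changes of `c (insert z e)`, as `z < N` moves to the right in
position `j`. -/
def changes (j : ℕ) (c : Finset ℕ → ℕ) (N : ℕ) (e : Finset ℕ) : ℕ :=
  ((range N).filter (fun z => Pos j e z ∧ Pos j e (z + 1) ∧ z + 1 < N ∧
    c (insert z e) ≠ c (insert (z + 1) e))).card

/-- In position `j` the colour changes at most `m` times. -/
def FewChanges (r j m N : ℕ) (c : Finset ℕ → ℕ) : Prop :=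
  ∀ e ⊆ range N, e.card + 1 = r → changes j c N e ≤ m

/-- The `r`-subsets of `{0, …, N - 1}` have colours less than `p`. -/
def Colouring (r p N : ℕ) (c : Finset ℕ → ℕ) : Prop := ∀ A ⊆ range N, A.card = r → c A < p

/-- There is a homogeneous set of size `n`. -/
def HasHomog (r N n : ℕ) (c : Finset ℕ → ℕ) : Prop := ∃ S ⊆ range N, S.card = n ∧ Homog r c S

theorem hasHomog_zero {r N : ℕ} (hr : 1 ≤ r) (c : Finset ℕ → ℕ) : HasHomog r N 0 c := by
  refine ⟨∅, empty_subset _, card_empty, ?_⟩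
  intro A hA B _ hAc _
  rw [subset_empty] at hA
  subst hA
  rw [card_empty] at hAc
  omega

/-! ### Counting changes -/

theorem Pos.between {j z w u : ℕ} {e : Finset ℕ} (hz : Pos j e z) (hw : Pos j e w) (h1 : z ≤ u)
    (h2 : u ≤ w) : Pos j e u := by
  have h3 : e.filter (fun x => x < z) ⊆ e.filter (fun x => x < u) := by
    intro x hx
    rw [mem_filter] at hx ⊢
    exact ⟨hx.1, by omega⟩
  have h4 : e.filter (fun x => x < u) ⊆ e.filter (fun x => x < w) := by
    intro x hx
    rw [mem_filter] at hx ⊢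
    exact ⟨hx.1, by omega⟩
  have h5 := card_le_card h3
  have h6 := card_le_card h4
  have h7 := hz.2
  have h8 := hw.2
  refine ⟨fun hu => ?_, by omega⟩
  have h9 : e.filter (fun x => x < z) = e.filter (fun x => x < w) :=
    eq_of_subset_of_card_le (h3.trans h4) (by omega)
  have huw : u ≠ w := fun h => hw.1 (h ▸ hu)
  have h10 : u ∈ e.filter (fun x => x < w) := mem_filter.2 ⟨hu, by omega⟩
  rw [← h9, mem_filter] at h10
  omega

/-- The number of changes before `z`. -/
def cnt (j : ℕ) (c : Finset ℕ → ℕ) (e : Finset ℕ) (z : ℕ) : ℕ :=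
  ((range z).filter (fun w => Pos j e w ∧ Pos j e (w + 1) ∧
    c (insert w e) ≠ c (insert (w + 1) e))).card

theorem cnt_mono (j : ℕ) (c : Finset ℕ → ℕ) (e : Finset ℕ) {z w : ℕ} (h : z ≤ w) :
    cnt j c e z ≤ cnt j c e w := by
  apply card_le_card
  apply filter_subset_filter
  intro x hx
  rw [mem_range] at hx ⊢
  omega

theorem cnt_le_changes (j : ℕ) (c : Finset ℕ → ℕ) (e : Finset ℕ) {w N : ℕ} (h : w < N) :
    cnt j c e w ≤ changes j c N e := by
  apply card_le_card
  intro x hx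
  rw [mem_filter, mem_range] at hx ⊢
  exact ⟨by omega, hx.2.1, hx.2.2.1, by omega, hx.2.2.2⟩

theorem const_of_cnt {j : ℕ} (c : Finset ℕ → ℕ) (e : Finset ℕ) {z : ℕ} (hz : Pos j e z) :
    ∀ w, z ≤ w → Pos j e w → cnt j c e z = cnt j c e w → c (insert z e) = c (insert w e) := by
  intro w hw
  induction w, hw using Nat.le_induction with
  | base => intro _ _; rfl
  | succ w hw ih =>
    intro hpos h
    have hpos' : Pos j e w := hz.between hpos hw (Nat.le_succ w)
    have h1 := cnt_mono j c e hw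
    have h2 := cnt_mono j c e (Nat.le_succ w)
    rw [Nat.succ_eq_add_one] at h2
    have h3 := ih hpos' (by omega)
    rw [h3]
    by_contra hne
    have h4 : cnt j c e w < cnt j c e (w + 1) := by
      apply card_lt_card
      rw [ssubset_iff_of_subset]
      · refine ⟨w, ?_, ?_⟩
        · rw [mem_filter, mem_range]
          exact ⟨Nat.lt_succ_self _, hpos', hpos, hne⟩
        · rw [mem_filter, mem_range]
          rintro ⟨h5, _⟩
          exact lt_irrefl _ h5
      · apply filter_subset_filter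
        intro x hx
        rw [mem_range] at hx ⊢
        omega
    omega

/-- A colouring with few changes is ranked. -/
theorem fc_of_few {r j m N P : ℕ} {c : Finset ℕ → ℕ} (h : FewChanges r j m N c) :
    FC (m + 1) r j (range N) (fun A => min (c A) P) := by
  refine ⟨fun e z => min m (cnt j c e z), fun e z => ?_, ?_⟩
  · have : min m (cnt j c e z) ≤ m := min_le_left _ _
    show min m (cnt j c e z) < m + 1
    omega
  · intro e he hec z hz w hw hez hew hzw
    rw [mem_range] at hz hw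
    have h1 := cnt_mono j c e hzw.le
    have h2 := cnt_le_changes j c e hw
    have h3 := h e he hec
    refine ⟨by show min m (cnt j c e z) ≤ min m (cnt j c e w); omega, fun h4 => ?_⟩
    have h4' : min m (cnt j c e z) = min m (cnt j c e w) := h4
    have h5 : cnt j c e z = cnt j c e w := by omega
    have h6 := const_of_cnt c e hez w hzw.le hew h5
    simp only [h6]

theorem homog_min {r p P N : ℕ} {c : Finset ℕ → ℕ} {S : Finset ℕ} (hcol : Colouring r p N c)
    (hP : p ≤ P + 1) (hS : S ⊆ range N) (hH : Homog r (fun A => min (c A) P) S) :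
    Homog r c S := by
  intro A hA B hB hAc hBc
  have h1 := hH A hA B hB hAc hBc
  have h2 := hcol A (hA.trans hS) hAc
  have h3 := hcol B (hB.trans hS) hBc
  simp only at h1
  omega

/-- **Upper bound**, one position. -/
theorem upper (r p j : ℕ) (hr : 3 ≤ r) (hj : j < r) : ∃ C, 1 ≤ C ∧ ∀ m n N,
    tow (r - 2) ((C * n) ^ (m / 2 + 1)) ≤ N → ∀ c, Colouring r p N c → FewChanges r j m N c →
      HasHomog r N n c := by
  obtain ⟨i, rfl⟩ : ∃ i, r = i + 3 := ⟨r - 3, by omega⟩
  set P := max p 2 with hP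
  have hP2 : 2 ≤ P := le_max_right _ _
  have hpP : p ≤ P := le_max_left _ _
  obtain ⟨C0, hC0, hup⟩ := tower_all hP2 (show 1 ≤ 3 by norm_num) i j (by omega)
  set K := 2 * P * (P + 12) with hK
  have hK1 : 1 ≤ K := by rw [hK]; nlinarith
  refine ⟨C0 * 2 * K, Nat.mul_pos (Nat.mul_pos hC0 (by norm_num)) hK1, ?_⟩
  intro m n N hN c hcol hch
  rcases Nat.eq_zero_or_pos n with rfl | hn
  · exact hasHomog_zero (by omega) c
  have hbase := base_all (p := P) (n := n) (m := m) (by omega) hn
  have hub := hup (FC (m + 1)) (fc_fam (m + 1)) ((K * n) ^ (m / 2 + 1) + 1) (by omega) n hbase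
  have hKn : 1 ≤ (K * n) ^ (m / 2 + 1) := Nat.one_le_pow _ _ (Nat.mul_pos hK1 hn)
  have hle : C0 * ((K * n) ^ (m / 2 + 1) + 1) ≤ (C0 * 2 * K * n) ^ (m / 2 + 1) := by
    calc C0 * ((K * n) ^ (m / 2 + 1) + 1) ≤ C0 * 2 * (K * n) ^ (m / 2 + 1) := by
          calc C0 * ((K * n) ^ (m / 2 + 1) + 1) ≤ C0 * (2 * (K * n) ^ (m / 2 + 1)) :=
                Nat.mul_le_mul_left _ (by omega)
            _ = _ := by ring
      _ ≤ (C0 * 2) ^ (m / 2 + 1) * (K * n) ^ (m / 2 + 1) :=
          Nat.mul_le_mul_right _ (Nat.le_self_pow (by omega) _)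
      _ = (C0 * 2 * K * n) ^ (m / 2 + 1) := by rw [← mul_pow]; ring
  have hcard : tow (i + 1) (C0 * ((K * n) ^ (m / 2 + 1) + 1)) ≤ (range N).card := by
    rw [card_range]
    refine (tow_mono (i + 1) hle).trans ?_
    have e : i + 3 - 2 = i + 1 := by omega
    rw [e] at hN
    exact hN
  obtain ⟨S, hS, hSc, hH⟩ := hub (range N) (fun A => min (c A) (P - 1)) (fun A => by
      have : min (c A) (P - 1) ≤ P - 1 := min_le_right _ _
      omega) (fc_of_few hch) hcard
  exact ⟨S, hS, hSc, homog_min hcol (by omega) hS hH⟩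

theorem two_mul_add_one_le (a : ℕ) : 2 * a + 1 ≤ 3 ^ a := by
  induction a with
  | zero => norm_num
  | succ a ih => rw [pow_succ]; omega

/-- The exponents for `q` colours. -/
def phi (q x L : ℕ) : ℕ := x ^ (q / 2) * (if q % 2 = 1 then L else 1)

theorem phi_even (a x L : ℕ) : phi (2 * a) x L = x ^ a := by
  unfold phi
  have h1 : 2 * a / 2 = a := by omega
  have h2 : 2 * a % 2 = 0 := by omega
  rw [h1, h2]
  simp

theorem phi_odd (a x L : ℕ) : phi (2 * a + 1) x L = x ^ a * L := by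
  unfold phi
  have h1 : (2 * a + 1) / 2 = a := by omega
  have h2 : (2 * a + 1) % 2 = 1 := by omega
  rw [h1, h2]
  simp

theorem phi_mono (q : ℕ) {x y : ℕ} (L : ℕ) (h : x ≤ y) : phi q x L ≤ phi q y L :=
  Nat.mul_le_mul_right _ (Nat.pow_le_pow_left h _)

/-- **Upper bound**, two neighbouring positions. -/
theorem upper_two (r p j : ℕ) (hr : 3 ≤ r) (hj : j + 1 < r) : ∃ C, 1 ≤ C ∧ ∀ q n N, 2 ≤ q → 2 ≤ n →
    tow (r - 2) (phi q (C * n) (Nat.log 2 n)) ≤ N → ∀ c, Colouring r p N c →
      FewChanges r j (q - 1) N c → FewChanges r (j + 1) (q - 1) N c → HasHomog r N n c := by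
  obtain ⟨C1, hC1, hup1⟩ := upper r p j hr (by omega)
  obtain ⟨i, rfl⟩ : ∃ i, r = i + 3 := ⟨r - 3, by omega⟩
  set P := max p 2 with hP
  have hP2 : 2 ≤ P := le_max_right _ _
  have hpP : p ≤ P := le_max_left _ _
  obtain ⟨C0, hC0, hup⟩ := tower_all hP2 (show 2 ≤ 3 by norm_num) i j (by omega)
  set K := 2 * P * (P + 12) with hK
  have hK1 : 1 ≤ K := by rw [hK]; nlinarith
  refine ⟨C1 + C0 * (P + 4) * 2 * (3 * K), by omega, ?_⟩
  intro q n N hq hn hN c hcol hch hch'
  rcases Nat.even_or_odd q with ⟨a, ha⟩ | ⟨a, ha⟩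
  · obtain rfl : q = 2 * a := by omega
    rw [phi_even] at hN
    refine hup1 (2 * a - 1) n N (le_trans (tow_mono _ ?_) hN) c hcol hch
    have h1 : (2 * a - 1) / 2 + 1 = a := by omega
    rw [h1]
    exact Nat.pow_le_pow_left (Nat.mul_le_mul_right _ (by omega)) _
  · subst ha
    have h0 : 2 * a + 1 - 1 = 2 * a := by omega
    rw [h0] at hch hch'
    rw [phi_odd] at hN
    set L := Nat.log 2 n with hL
    have hL1 : 1 ≤ L := Nat.log_pos (by norm_num) hn
    have hbase := base_two (p := P) (n := n) (a := a) (by omega) (by omega)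
    have hub := hup (TC (2 * a + 1)) (tc_fam (2 * a + 1)) _ (Nat.succ_pos _) n hbase
    have hle : C0 * ((K * n) ^ a * ((2 * a + 1) * (P + L + 1) + 1) + 1) ≤
        ((C1 + C0 * (P + 4) * 2 * (3 * K)) * n) ^ a * L := by
      have h1 : 1 ≤ (K * n) ^ a := Nat.one_le_pow _ _ (Nat.mul_pos hK1 (by omega))
      have h2 : (2 * a + 1) * (P + L + 1) + 1 ≤ 3 ^ a * ((P + 3) * L) := by
        have h3 := two_mul_add_one_le a
        have h4 : P + L + 1 + 1 ≤ (P + 3) * L := by nlinarith
        calc (2 * a + 1) * (P + L + 1) + 1 ≤ (2 * a + 1) * (P + L + 1 + 1) := by nlinarith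
          _ ≤ 3 ^ a * ((P + 3) * L) := Nat.mul_le_mul h3 h4
      have h5 : 1 ≤ 3 ^ a * L := Nat.mul_pos (Nat.one_le_pow _ _ (by norm_num)) hL1
      calc C0 * ((K * n) ^ a * ((2 * a + 1) * (P + L + 1) + 1) + 1)
          ≤ C0 * ((K * n) ^ a * (3 ^ a * ((P + 3) * L)) + (K * n) ^ a * (3 ^ a * L)) := by
            apply Nat.mul_le_mul_left
            exact Nat.add_le_add (Nat.mul_le_mul_left _ h2) (Nat.mul_pos h1 h5)
        _ = C0 * (P + 4) * ((3 * K * n) ^ a * L) := by
            have : (3 * K * n) ^ a = 3 ^ a * (K * n) ^ a := by rw [mul_assoc, mul_pow]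
            rw [this]
            ring
        _ ≤ (C0 * (P + 4) * 2) ^ a * ((3 * K * n) ^ a * L) := by
            apply Nat.mul_le_mul_right
            exact (Nat.le_mul_of_pos_right _ (by norm_num)).trans (Nat.le_self_pow (by omega) _)
        _ = (C0 * (P + 4) * 2 * (3 * K * n)) ^ a * L := by
            rw [mul_pow (C0 * (P + 4) * 2) (3 * K * n) a]; ring
        _ ≤ _ := by
            apply Nat.mul_le_mul_right
            apply Nat.pow_le_pow_left
            calc C0 * (P + 4) * 2 * (3 * K * n) = C0 * (P + 4) * 2 * (3 * K) * n := by ring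
              _ ≤ _ := Nat.mul_le_mul_right _ (by omega)
    have e : i + 3 - 2 = i + 1 := by omega
    rw [e] at hN
    obtain ⟨S, hS, hSc, hH⟩ := hub (range N) (fun A => min (c A) (P - 1)) (fun A => by
        have : min (c A) (P - 1) ≤ P - 1 := min_le_right _ _
        omega) ⟨fc_of_few hch, fc_of_few hch'⟩ (by
        rw [card_range]
        exact (tow_mono (i + 1) hle).trans hN)
    exact ⟨S, hS, hSc, homog_min hcol (by omega) hS hH⟩

/-- **Upper bound**, monotone colourings. -/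
theorem upper_mono (r q j : ℕ) (hr : 3 ≤ r) (hq : 2 ≤ q) (hj : j < r) : ∃ C, 1 ≤ C ∧ ∀ n N,
    2 ≤ n → tow (r - 2) (phi q (C * n) (Nat.log 2 n)) ≤ N → ∀ c, Colouring r q N c →
      MC r j (range N) c → HasHomog r N n c := by
  obtain ⟨i, rfl⟩ : ∃ i, r = i + 3 := ⟨r - 3, by omega⟩
  obtain ⟨C0, hC0, hup⟩ := tower_all hq (show 1 ≤ 3 by norm_num) i j (by omega)
  refine ⟨C0 * 3 * 26, by omega, ?_⟩
  intro n N hn hN c hcol hmono
  have e : i + 3 - 2 = i + 1 := by omega
  rw [e] at hN
  set L := Nat.log 2 n with hL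
  have hL1 : 1 ≤ L := Nat.log_pos (by norm_num) hn
  have hmono' : MC (i + 3) j (range N) (fun A => min (c A) (q - 1)) := by
    rcases hmono with h | h
    · left
      intro e' he hec z hz w hw hez hew hzw
      have := h e' he hec z hz w hw hez hew hzw
      show min (c (insert z e')) (q - 1) ≤ min (c (insert w e')) (q - 1)
      omega
    · right
      intro e' he hec z hz w hw hez hew hzw
      have := h e' he hec z hz w hw hez hew hzw
      show min (c (insert w e')) (q - 1) ≤ min (c (insert z e')) (q - 1)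
      omega
  have fin : ∀ y, 1 ≤ y → ((∃ a, q = 2 * a ∧ (26 * n) ^ a < y) ∨
      (∃ a, q = 2 * a + 1 ∧ (26 * n) ^ a * (L + 1) < y)) → C0 * y ≤ phi q (C0 * 3 * 26 * n) L →
      HasHomog (i + 3) N n c := by
    intro y hy hqa hle
    have hbase : ∀ j, j + 1 ≤ 3 → Ub (MC 3 j) q 3 n (2 ^ y) := by
      rcases hqa with ⟨a, h1, h2⟩ | ⟨a, h1, h2⟩
      · exact base_mon (a := a) (by omega) (Or.inl ⟨h1, h2⟩)
      · exact base_mon (a := a) (by omega) (Or.inr ⟨h1, h2⟩)
    obtain ⟨S, hS, hSc, hH⟩ := hup MC mc_fam y hy n hbase (range N)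
      (fun A => min (c A) (q - 1)) (fun A => by
        have : min (c A) (q - 1) ≤ q - 1 := min_le_right _ _
        omega) hmono' (by
        rw [card_range]
        exact (tow_mono (i + 1) hle).trans hN)
    exact ⟨S, hS, hSc, homog_min hcol (by omega) hS hH⟩
  have hp1 : ∀ a, 1 ≤ (26 * n) ^ a := fun a => Nat.one_le_pow _ _ (by omega)
  have hpow : ∀ a, 1 ≤ a → C0 * 3 * (26 * n) ^ a ≤ (C0 * 3 * 26 * n) ^ a := by
    intro a ha
    calc C0 * 3 * (26 * n) ^ a ≤ (C0 * 3) ^ a * (26 * n) ^ a :=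
          Nat.mul_le_mul_right _ (Nat.le_self_pow (by omega) _)
      _ = (C0 * 3 * 26 * n) ^ a := by rw [← mul_pow]; ring
  rcases Nat.even_or_odd q with ⟨a, ha⟩ | ⟨a, ha⟩
  · obtain rfl : q = 2 * a := by omega
    refine fin ((26 * n) ^ a + 1) (by omega) (Or.inl ⟨a, rfl, by omega⟩) ?_
    rw [phi_even]
    have h1 := hp1 a
    calc C0 * ((26 * n) ^ a + 1) ≤ C0 * (3 * (26 * n) ^ a) := Nat.mul_le_mul_left _ (by omega)
      _ = C0 * 3 * (26 * n) ^ a := by ring
      _ ≤ _ := hpow a (by omega)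
  · subst ha
    refine fin ((26 * n) ^ a * (L + 1) + 1) (by omega) (Or.inr ⟨a, rfl, by omega⟩) ?_
    rw [phi_odd]
    have h1 : 1 ≤ (26 * n) ^ a * L := Nat.mul_pos (hp1 a) hL1
    calc C0 * ((26 * n) ^ a * (L + 1) + 1) ≤ C0 * (3 * ((26 * n) ^ a * L)) := by
          apply Nat.mul_le_mul_left
          have h2 : (26 * n) ^ a * (L + 1) ≤ (26 * n) ^ a * (2 * L) :=
            Nat.mul_le_mul_left _ (by omega)
          have h3 : (26 * n) ^ a * (2 * L) = 2 * ((26 * n) ^ a * L) := by ring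
          omega
      _ = C0 * 3 * (26 * n) ^ a * L := by ring
      _ ≤ _ := Nat.mul_le_mul_right _ (hpow a (by omega))

end Pool.Agent.Q118.CC
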