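import Pool.Agent.Q118.CC.Levels

/-!
# Pairs with few colour changes, and triples with few changes in two positions
-/

namespace Pool.Agent.Q118.CC

open Finset

/-- If every vertex has at most `d` smaller neighbours, then there is a large independent set. -/
theorem independent (E : ℕ → ℕ → Prop) (d : ℕ) : ∀ (k : ℕ) (V : Finset ℕ), V.card = k →
    (∀ y ∈ V, ∀ B ⊆ V, (∀ x ∈ B, x < y ∧ E x y) → B.card ≤ d) →
    ∃ W ⊆ V, V.card ≤ (d + 1) * W.card ∧ ∀ x ∈ W, ∀ y ∈ W, x < y → ¬ E x y := by
  classical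
  intro k
  induction k using Nat.strong_induction_on with
  | _ k ih =>
    intro V hVk hd
    rcases V.eq_empty_or_nonempty with rfl | hne
    · exact ⟨∅, Finset.Subset.refl _, by simp, by simp⟩
    set v := V.max' hne with hv
    have hvV : v ∈ V := V.max'_mem hne
    set B := V.filter (fun x => x < v ∧ E x v) with hB
    have hBd : B.card ≤ d := hd v hvV B (Finset.filter_subset _ _) (fun x hx => by
      rw [hB, mem_filter] at hx
      exact hx.2)
    set V' := (V.erase v) \ B with hV'
    have hV'V : V' ⊆ V := fun x hx => by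
      rw [hV', mem_sdiff, mem_erase] at hx
      exact hx.1.2
    have hcard : V.card ≤ V'.card + (d + 1) := by
      have h1 : (V.erase v).card ≤ V'.card + B.card := by
        have := Finset.card_le_card_sdiff_add_card (s := V.erase v) (t := B)
        exact this
      have h2 : (V.erase v).card = V.card - 1 := Finset.card_erase_of_mem hvV
      omega
    have hlt : V'.card < k := by
      rw [← hVk]
      apply Finset.card_lt_card
      rw [Finset.ssubset_iff_of_subset hV'V]
      refine ⟨v, hvV, fun h => ?_⟩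
      rw [hV', mem_sdiff, mem_erase] at h
      exact h.1.1 rfl
    obtain ⟨W, hW, hWc, hWi⟩ := ih V'.card hlt V' rfl
      (fun y hy B' hB' h => hd y (hV'V hy) B' (hB'.trans hV'V) h)
    have hvW : v ∉ W := fun h => by
      have := hW h
      rw [hV', mem_sdiff, mem_erase] at this
      exact this.1.1 rfl
    refine ⟨insert v W, ?_, ?_, ?_⟩
    · intro x hx
      rcases Finset.mem_insert.1 hx with rfl | hx
      · exact hvV
      · exact hV'V (hW hx)
    · rw [Finset.card_insert_of_notMem hvW]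
      calc V.card ≤ V'.card + (d + 1) := hcard
        _ ≤ (d + 1) * W.card + (d + 1) := Nat.add_le_add_right hWc _
        _ = (d + 1) * (W.card + 1) := by ring
    · intro x hx y hy hxy
      rcases Finset.mem_insert.1 hx with hxv | hx
      · exfalso
        have h1 : y ≤ v := V.le_max' y (by
          rcases Finset.mem_insert.1 hy with rfl | hy
          · exact hvV
          · exact hV'V (hW hy))
        omega
      · rcases Finset.mem_insert.1 hy with hyv | hy
        · rw [hyv] at hxy ⊢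
          intro hE
          have h1 := hW hx
          rw [hV', mem_sdiff] at h1
          exact h1.2 (by rw [hB, mem_filter]; exact ⟨hV'V (hW hx), hxy, hE⟩)
        · exact hWi x hx y hy hxy

/-- **Pairs with few colour changes.** -/
theorem graph_bound {f g : ℕ → ℕ → ℕ} {p s : ℕ} : ∀ (q lo : ℕ) (V : Finset ℕ),
    (∀ x ∈ V, ∀ y ∈ V, x < y → f x y < p ∧ lo ≤ g x y ∧ g x y < lo + q) →
    (∀ x ∈ V, ∀ y ∈ V, ∀ z ∈ V, x < y → y < z → g x y ≤ g x z ∧ (g x y = g x z → f x y = f x z)) →
    (∀ j < p, ∀ S ⊆ V, S.card = s → ¬ ∀ x ∈ S, ∀ y ∈ S, x < y → f x y = j) →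
    V.card ≤ (p * s + 1) ^ q := by
  intro q
  induction q with
  | zero =>
    intro lo V hB _ _
    rw [pow_zero]
    by_contra hV
    push Not at hV
    obtain ⟨x, hx, y, hy, hxy⟩ := Finset.one_lt_card.1 hV
    rcases lt_or_gt_of_ne hxy with h | h
    · have := hB x hx y hy h; omega
    · have := hB y hy x hx h; omega
  | succ q ih =>
    intro lo V hB hM hN
    have hdeg : ∀ y ∈ V, ∀ B ⊆ V, (∀ x ∈ B, x < y ∧ g x y = lo) → B.card ≤ p * s := by
      intro y hy B hBV hB'
      have h1 : B ⊆ (range p).biUnion (fun j => B.filter (fun x => f x y = j)) := by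
        intro x hx
        rw [Finset.mem_biUnion]
        refine ⟨f x y, Finset.mem_range.2 (hB x (hBV hx) y hy (hB' x hx).1).1, ?_⟩
        rw [mem_filter]
        exact ⟨hx, rfl⟩
      calc B.card ≤ ((range p).biUnion (fun j => B.filter (fun x => f x y = j))).card :=
            Finset.card_le_card h1
        _ ≤ ∑ j ∈ range p, (B.filter (fun x => f x y = j)).card := Finset.card_biUnion_le
        _ ≤ ∑ _j ∈ range p, s := by
            apply Finset.sum_le_sum
            intro j hj
            by_contra hcon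
            push Not at hcon
            obtain ⟨S, hS, hSc⟩ := Finset.exists_subset_card_eq hcon.le
            refine hN j (Finset.mem_range.1 hj) S
              (hS.trans ((Finset.filter_subset _ _).trans hBV)) hSc ?_
            intro x hx x' hx' hxx
            have h2 := mem_filter.1 (hS hx)
            have h3 := mem_filter.1 (hS hx')
            have h4 := hM x (hBV h2.1) x' (hBV h3.1) y hy hxx (hB' x' h3.1).1
            have h5 := hB x (hBV h2.1) x' (hBV h3.1) hxx
            have h6 := (hB' x h2.1).2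
            rw [h4.2 (by omega)]
            exact h2.2
        _ = p * s := by rw [Finset.sum_const, Finset.card_range, smul_eq_mul]
    obtain ⟨W, hW, hWc, hWi⟩ := independent (fun x y => g x y = lo) (p * s) V.card V rfl hdeg
    have h7 := ih (lo + 1) W
      (fun x hx y hy hxy => by
        have h8 := hB x (hW hx) y (hW hy) hxy
        have h9 := hWi x hx y hy hxy
        exact ⟨h8.1, by omega, by omega⟩)
      (fun x hx y hy z hz => hM x (hW hx) y (hW hy) z (hW hz))
      (fun j hj S hS hSc => hN j hj S (hS.trans hW) hSc)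
    calc V.card ≤ (p * s + 1) * W.card := hWc
      _ ≤ (p * s + 1) * (p * s + 1) ^ q := Nat.mul_le_mul_left _ h7
      _ = (p * s + 1) ^ (q + 1) := by rw [pow_succ, mul_comm]

/-- Ranked in the last and in the middle position. -/
def Rk2 (κ ρ ρ' : ℕ → ℕ → ℕ → ℕ) (q : ℕ) (V : Finset ℕ) : Prop :=
  Rk κ ρ V ∧ RkM κ ρ' V ∧ ∀ x ∈ V, ∀ y ∈ V, ∀ z ∈ V, x < y → y < z → ρ' x y z < q

theorem rk2_sub {κ ρ ρ' : ℕ → ℕ → ℕ → ℕ} {q : ℕ} {V W : Finset ℕ} (h : Rk2 κ ρ ρ' q V)
    (hW : W ⊆ V) : Rk2 κ ρ ρ' q W :=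
  ⟨h.1.sub hW, h.2.1.sub hW, fun x hx y hy z hz => h.2.2 x (hW hx) y (hW hy) z (hW hz)⟩

theorem ext_two (κ ρ ρ' : ℕ → ℕ → ℕ → ℕ) (q : ℕ) : ExtSt κ ρ (Rk2 κ ρ ρ' q) :=
  fun p u lo hi hp hu hlt t V kb kt h => ext_last κ ρ p u lo hi hp hu hlt t V kb kt h.1

/-- One rank in the last position, few changes in the middle position. -/
theorem one_rank_two {κ ρ ρ' : ℕ → ℕ → ℕ → ℕ} {p n q : ℕ} (hn : 1 ≤ n) (lo : ℕ) (V : Finset ℕ)
    (hR : Rk2 κ ρ ρ' q V) (hB : Bd κ ρ V p lo (lo + 1)) (hN : NoHom κ ρ V p n) :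
    V.card ≤ (p * n + 1) ^ q + 1 := by
  rcases V.eq_empty_or_nonempty with rfl | hne
  · simp
  set v := V.max' hne with hv
  have hvV : v ∈ V := V.max'_mem hne
  have hlt : ∀ x ∈ V.erase v, x ∈ V ∧ x < v := by
    intro x hx
    rw [mem_erase] at hx
    exact ⟨hx.2, lt_of_le_of_ne (V.le_max' x hx.2) hx.1⟩
  have h1 := graph_bound (f := fun x y => κ x y v) (g := fun x y => ρ' x y v) (p := p)
    (s := n - 1) q 0 (V.erase v)
    (fun x hx y hy hxy => by
      have hx' := hlt x hx
      have hy' := hlt y hy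
      refine ⟨(hB x hx'.1 y hy'.1 v hvV hxy hy'.2).1, Nat.zero_le _, ?_⟩
      rw [Nat.zero_add]
      exact hR.2.2 x hx'.1 y hy'.1 v hvV hxy hy'.2)
    (fun x hx y hy z hz hxy hyz =>
      hR.2.1 x (hlt x hx).1 y (hlt y hy).1 z (hlt z hz).1 v hvV hxy hyz (hlt z hz).2)
    (by
      intro j hj S hS hSc hH
      have hvS : v ∉ S := fun h => by have := hlt v (hS h); omega
      refine hN lo j hj (insert v S) ?_ (by rw [Finset.card_insert_of_notMem hvS]; omega) ?_
      · intro x hx
        rcases Finset.mem_insert.1 hx with rfl | hx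
        · exact hvV
        · exact (hlt x (hS hx)).1
      · intro x hx y hy z hz hxy hyz
        have hzV : z ∈ V := by
          rcases Finset.mem_insert.1 hz with rfl | hz
          · exact hvV
          · exact (hlt z (hS hz)).1
        have hzv : z ≤ v := V.le_max' z hzV
        have hyS : y ∈ S := (Finset.mem_insert.1 hy).resolve_left (by omega)
        have hxS : x ∈ S := (Finset.mem_insert.1 hx).resolve_left (by omega)
        have hx' := hlt x (hS hxS)
        have hy' := hlt y (hS hyS)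
        have h2 := hB x hx'.1 y hy'.1 z hzV hxy hyz
        have h3 := hH x hxS y hyS hxy
        refine ⟨by omega, ?_⟩
        rcases Nat.lt_or_eq_of_le hzv with h4 | h4
        · have h5 := hR.1 x hx'.1 y hy'.1 z hzV v hvV hxy hyz h4
          have h6 := hB x hx'.1 y hy'.1 v hvV hxy hy'.2
          rw [h5.2 (by omega)]
          exact h3
        · rw [h4]
          exact h3)
  have h2 : (V.erase v).card = V.card - 1 := Finset.card_erase_of_mem hvV
  have h3 : (p * (n - 1) + 1) ^ q ≤ (p * n + 1) ^ q :=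
    Nat.pow_le_pow_left (Nat.add_le_add_right (Nat.mul_le_mul_left _ (Nat.sub_le _ _)) _) _
  omega

/-- **Triples with at most `2 a` changes in the last and in the middle position.** -/
theorem triples_two {κ ρ ρ' : ℕ → ℕ → ℕ → ℕ} {p n a : ℕ} (hp : 1 ≤ p) (hn : 1 ≤ n)
    {V : Finset ℕ} (hR : Rk2 κ ρ ρ' (2 * a + 1) V) (hB : Bd κ ρ V p 0 (2 * a + 1))
    (hV : 2 ^ ((2 * p * (p + 12) * n) ^ a * ((2 * a + 1) * (p + Nat.log 2 n + 1) + 1)) < V.card) :
    ∃ i j, ∃ S ⊆ V, S.card = n ∧ Hom κ ρ S i j := by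
  by_contra hcon
  have hN : NoHom κ ρ V p n := fun i j _ S hS hSc h => hcon ⟨i, j, S, hS, hSc, h⟩
  have hB' : Bd κ ρ V p 0 (0 + (2 * a + 1)) := by rwa [Nat.zero_add]
  have h := levels (fun _ _ h hW => rk2_sub h hW) (ext_two κ ρ ρ' (2 * a + 1))
    (b1 := (p * n + 1) ^ (2 * a + 1) + 1) hp
    (fun lo W hRW hBW hNW => one_rank_two hn lo W hRW hBW hNW) (2 * a + 1) 0 V hR hB' hN
  have hb : (p * n + 1) ^ (2 * a + 1) + 1 ≤ 2 ^ ((2 * a + 1) * (p + Nat.log 2 n + 1) + 1) := by
    have h1 : p * n + 1 ≤ 2 ^ (p + Nat.log 2 n + 1) := by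
      have h2 : p + 1 ≤ 2 ^ p := Nat.lt_two_pow_self
      have h3 : n + 1 ≤ 2 ^ (Nat.log 2 n + 1) := Nat.lt_pow_succ_log_self (by norm_num) n
      calc p * n + 1 ≤ (p + 1) * (n + 1) := by nlinarith
        _ ≤ 2 ^ p * 2 ^ (Nat.log 2 n + 1) := Nat.mul_le_mul h2 h3
        _ = 2 ^ (p + Nat.log 2 n + 1) := by rw [← pow_add]; rfl
    have h4 : (p * n + 1) ^ (2 * a + 1) ≤ 2 ^ ((2 * a + 1) * (p + Nat.log 2 n + 1)) := by
      rw [mul_comm (2 * a + 1) (p + Nat.log 2 n + 1), pow_mul]
      exact Nat.pow_le_pow_left h1 _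
    have h5 : 1 ≤ 2 ^ ((2 * a + 1) * (p + Nat.log 2 n + 1)) := Nat.one_le_pow _ _ (by norm_num)
    rw [pow_succ 2 ((2 * a + 1) * (p + Nat.log 2 n + 1))]
    omega
  have := Bq_odd hp hn (by omega) hb a
  omega

end Pool.Agent.Q118.CC
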