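import Pool.Agent.Q118.CC.Ext

/-!
# Triples: any number of ranks
-/

namespace Pool.Agent.Q118.CC

open Finset

/-- The bound for `q` ranks. -/
def Bq (p n b1 : ℕ) : ℕ → ℕ
  | 0 => 2
  | 1 => b1
  | (q + 2) => (8 * p * (Bq p n b1 q + 3) ^ 3) ^ (2 * p * n)

/-- No homogeneous set of `n` vertices. -/
def NoHom (κ ρ : ℕ → ℕ → ℕ → ℕ) (V : Finset ℕ) (p n : ℕ) : Prop :=
  ∀ i j, j < p → ∀ S ⊆ V, S.card = n → ¬ Hom κ ρ S i j

theorem NoHom.sub {κ ρ : ℕ → ℕ → ℕ → ℕ} {V W : Finset ℕ} {p n : ℕ} (h : NoHom κ ρ V p n)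
    (hW : W ⊆ V) : NoHom κ ρ W p n :=
  fun i j hj S hS hSc => h i j hj S (hS.trans hW) hSc

theorem levels {κ ρ : ℕ → ℕ → ℕ → ℕ} {Φ : Finset ℕ → Prop} (hΦ : ∀ V W, Φ V → W ⊆ V → Φ W)
    (hext : ExtSt κ ρ Φ) {p n b1 : ℕ} (hp : 1 ≤ p)
    (h1 : ∀ (lo : ℕ) (V : Finset ℕ), Φ V → Bd κ ρ V p lo (lo + 1) → NoHom κ ρ V p n →
      V.card ≤ b1) :
    ∀ (q lo : ℕ) (V : Finset ℕ), Φ V → Bd κ ρ V p lo (lo + q) → NoHom κ ρ V p n →
      V.card ≤ Bq p n b1 q := by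
  intro q
  induction q using Nat.twoStepInduction with
  | zero =>
    intro lo V _ hB _
    by_contra hV
    push Not at hV
    simp only [Bq] at hV
    obtain ⟨S, hS, hSc⟩ := Finset.exists_subset_card_eq (show 3 ≤ V.card by omega)
    have h3 : (tri S).Nonempty := by
      have h4 : (S.orderEmbOfFin hSc 0) < S.orderEmbOfFin hSc 1 := by
        rw [OrderEmbedding.lt_iff_lt]; decide
      have h5 : (S.orderEmbOfFin hSc 1) < S.orderEmbOfFin hSc 2 := by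
        rw [OrderEmbedding.lt_iff_lt]; decide
      exact ⟨(S.orderEmbOfFin hSc 0, S.orderEmbOfFin hSc 1, S.orderEmbOfFin hSc 2),
        mem_tri.mpr ⟨S.orderEmbOfFin_mem hSc 0, S.orderEmbOfFin_mem hSc 1,
          S.orderEmbOfFin_mem hSc 2, h4, h5⟩⟩
    obtain ⟨⟨x, y, z⟩, h⟩ := h3
    rw [mem_tri] at h
    have := hB x (hS h.1) y (hS h.2.1) z (hS h.2.2.1) h.2.2.2.1 h.2.2.2.2
    omega
  | one => exact h1
  | more q ih1 _ =>
    intro lo V hR hB hN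
    simp only [Bq]
    refine hext p (Bq p n b1 q + 3) lo (lo + (q + 2)) hp (by omega) (by omega)
      (2 * p * n) V (fun _ => n) (fun _ => n) hR hB ?_ ?_ ?_ ?_
    · intro U hU hUc
      by_contra hcon
      push Not at hcon
      have hB' : Bd κ ρ U p (lo + 1) (lo + 1 + q) := by
        intro x hx y hy z hz hxy hyz
        have h2 := hB x (hU hx) y (hU hy) z (hU hz) hxy hyz
        have h3 := hcon x hx y hy z hz hxy hyz
        refine ⟨h2.1, ?_, ?_⟩ <;> omega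
      have h4 := ih1 (lo + 1) U (hΦ _ _ hR hU) hB' (hN.sub hU)
      omega
    · exact fun j hj S hS hSc => hN lo j hj S hS hSc
    · exact fun j hj S hS hSc => hN _ j hj S hS hSc
    · rw [Finset.sum_const, Finset.card_range, smul_eq_mul]
      apply le_of_eq; ring

/-- One rank, any number of colours. -/
theorem one_rank {κ ρ : ℕ → ℕ → ℕ → ℕ} {Φ : Finset ℕ → Prop} (hext : ExtSt κ ρ Φ) {p n : ℕ}
    (hp : 1 ≤ p) (lo : ℕ) (V : Finset ℕ) (hR : Φ V) (hB : Bd κ ρ V p lo (lo + 1)) (hN : NoHom κ ρ V p n) :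
    V.card ≤ (8 * p * 3 ^ 3) ^ (2 * p * n) := by
  refine hext p 3 lo (lo + 1) hp (le_refl 3) (by omega)
    (2 * p * n) V (fun _ => n) (fun _ => n) hR hB ?_ ?_ ?_ ?_
  · intro S hS hSc
    have h4 : (S.orderEmbOfFin hSc 0) < S.orderEmbOfFin hSc 1 := by
      rw [OrderEmbedding.lt_iff_lt]; decide
    have h5 : (S.orderEmbOfFin hSc 1) < S.orderEmbOfFin hSc 2 := by
      rw [OrderEmbedding.lt_iff_lt]; decide
    refine ⟨_, S.orderEmbOfFin_mem hSc 0, _, S.orderEmbOfFin_mem hSc 1, _,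
      S.orderEmbOfFin_mem hSc 2, h4, h5, Or.inl ?_⟩
    have := hB _ (hS (S.orderEmbOfFin_mem hSc 0)) _ (hS (S.orderEmbOfFin_mem hSc 1)) _
      (hS (S.orderEmbOfFin_mem hSc 2)) h4 h5
    omega
  · exact fun j hj S hS hSc => hN lo j hj S hS hSc
  · exact fun j hj S hS hSc => hN _ j hj S hS hSc
  · rw [Finset.sum_const, Finset.card_range, smul_eq_mul]
    apply le_of_eq; ring

/-- One rank, one colour. -/
theorem one_class {κ ρ : ℕ → ℕ → ℕ → ℕ} {n : ℕ} (lo : ℕ) (V : Finset ℕ)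
    (hB : Bd κ ρ V 1 lo (lo + 1)) (hN : NoHom κ ρ V 1 n) : V.card ≤ n := by
  by_contra hV
  push Not at hV
  obtain ⟨S, hS, hSc⟩ := Finset.exists_subset_card_eq hV.le
  refine hN lo 0 (by omega) S hS hSc ?_
  intro x hx y hy z hz hxy hyz
  have := hB x (hS hx) y (hS hy) z (hS hz) hxy hyz
  omega

theorem Bq_step {p n b1 q y : ℕ} (hy : 1 ≤ y) (h : Bq p n b1 q ≤ 2 ^ y) :
    Bq p n b1 (q + 2) ≤ 2 ^ (2 * p * (p + 12) * n * y) := by
  simp only [Bq]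
  have h1 : Bq p n b1 q + 3 ≤ 2 ^ (y + 2) := by
    have : 2 ≤ 2 ^ y := by
      calc 2 = 2 ^ 1 := by norm_num
        _ ≤ 2 ^ y := Nat.pow_le_pow_right (by norm_num) hy
    rw [pow_add]
    omega
  have h2 : p ≤ 2 ^ p := Nat.lt_two_pow_self.le
  calc (8 * p * (Bq p n b1 q + 3) ^ 3) ^ (2 * p * n)
      ≤ (2 ^ 3 * 2 ^ p * (2 ^ (y + 2)) ^ 3) ^ (2 * p * n) := by
        apply Nat.pow_le_pow_left
        apply Nat.mul_le_mul
        · exact Nat.mul_le_mul (by norm_num) h2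
        · exact Nat.pow_le_pow_left h1 3
    _ = 2 ^ ((p + 9 + 3 * y) * (2 * p * n)) := by
        rw [← pow_mul, ← pow_add, ← pow_add, ← pow_mul]
        congr 1
        ring
    _ ≤ 2 ^ (2 * p * (p + 12) * n * y) := by
        apply Nat.pow_le_pow_right (by norm_num)
        have h3 : p + 9 + 3 * y ≤ (p + 12) * y := by nlinarith
        calc (p + 9 + 3 * y) * (2 * p * n) ≤ (p + 12) * y * (2 * p * n) :=
              Nat.mul_le_mul_right _ h3
          _ = 2 * p * (p + 12) * n * y := by ring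

theorem Bq_even {p n b1 : ℕ} (hp : 1 ≤ p) (hn : 1 ≤ n) : ∀ a : ℕ,
    Bq p n b1 (2 * a) ≤ 2 ^ ((2 * p * (p + 12) * n) ^ a) := by
  have hK : 1 ≤ 2 * p * (p + 12) * n := by
    have : 1 ≤ p * n := Nat.mul_pos hp hn
    nlinarith
  intro a
  induction a with
  | zero => simp [Bq]
  | succ a ih =>
    have h := Bq_step (p := p) (n := n) (b1 := b1) (q := 2 * a) (Nat.one_le_pow a _ hK) ih
    have h2 : 2 * (a + 1) = 2 * a + 2 := by ring
    rw [h2]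
    refine h.trans (le_of_eq ?_)
    rw [pow_succ (2 * p * (p + 12) * n) a, mul_comm]

theorem Bq_odd {p n b1 y : ℕ} (hp : 1 ≤ p) (hn : 1 ≤ n) (hy : 1 ≤ y) (hb : b1 ≤ 2 ^ y) : ∀ a : ℕ,
    Bq p n b1 (2 * a + 1) ≤ 2 ^ ((2 * p * (p + 12) * n) ^ a * y) := by
  have hK : 1 ≤ 2 * p * (p + 12) * n := by
    have : 1 ≤ p * n := Nat.mul_pos hp hn
    nlinarith
  intro a
  induction a with
  | zero => simpa [Bq] using hb
  | succ a ih =>
    have h1 : 1 ≤ (2 * p * (p + 12) * n) ^ a * y := Nat.mul_pos (Nat.one_le_pow a _ hK) hy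
    have h := Bq_step (p := p) (n := n) (b1 := b1) (q := 2 * a + 1) h1 ih
    have h2 : 2 * (a + 1) + 1 = 2 * a + 1 + 2 := by ring
    rw [h2]
    refine h.trans (le_of_eq ?_)
    rw [pow_succ (2 * p * (p + 12) * n) a]
    congr 1
    ring

/-- **Triples, at most `m` rank changes, `p` colours.** -/
theorem triples_changes {κ ρ : ℕ → ℕ → ℕ → ℕ} {Φ : Finset ℕ → Prop}
    (hΦ : ∀ V W, Φ V → W ⊆ V → Φ W) (hext : ExtSt κ ρ Φ) {p n m : ℕ} (hp : 1 ≤ p) (hn : 1 ≤ n)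
    {V : Finset ℕ} (hR : Φ V) (hB : Bd κ ρ V p 0 (m + 1))
    (hV : 2 ^ ((2 * p * (p + 12) * n) ^ (m / 2 + 1)) < V.card) :
    ∃ i j, ∃ S ⊆ V, S.card = n ∧ Hom κ ρ S i j := by
  by_contra hcon
  have hN : NoHom κ ρ V p n := fun i j _ S hS hSc h => hcon ⟨i, j, S, hS, hSc, h⟩
  have hB' : Bd κ ρ V p 0 (0 + (m + 1)) := by rwa [Nat.zero_add]
  have h := levels hΦ hext (b1 := (8 * p * 3 ^ 3) ^ (2 * p * n)) hp
    (fun lo W hRW hBW hNW => one_rank hext hp lo W hRW hBW hNW) (m + 1) 0 V hR hB' hN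
  have hb : (8 * p * 3 ^ 3) ^ (2 * p * n) ≤ 2 ^ (2 * p * (p + 12) * n) := by
    have h2 : p ≤ 2 ^ p := Nat.lt_two_pow_self.le
    calc (8 * p * 3 ^ 3) ^ (2 * p * n) ≤ (2 ^ 8 * 2 ^ p) ^ (2 * p * n) := by
          apply Nat.pow_le_pow_left
          calc 8 * p * 3 ^ 3 = 216 * p := by ring
            _ ≤ 2 ^ 8 * 2 ^ p := Nat.mul_le_mul (by norm_num) h2
      _ = 2 ^ ((8 + p) * (2 * p * n)) := by rw [← pow_add, ← pow_mul]
      _ ≤ 2 ^ (2 * p * (p + 12) * n) := by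
          apply Nat.pow_le_pow_right (by norm_num)
          calc (8 + p) * (2 * p * n) ≤ (p + 12) * (2 * p * n) :=
                Nat.mul_le_mul_right _ (by omega)
            _ = _ := by ring
  have hK : 1 ≤ 2 * p * (p + 12) * n := by
    have : 1 ≤ p * n := Nat.mul_pos hp hn
    nlinarith
  rcases Nat.even_or_odd m with ⟨a, ha⟩ | ⟨a, ha⟩
  · have h3 : m + 1 = 2 * a + 1 := by omega
    have h4 : m / 2 + 1 = a + 1 := by omega
    rw [h3] at h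
    rw [h4, pow_succ] at hV
    have := Bq_odd hp hn hK hb a
    omega
  · have h3 : m + 1 = 2 * (a + 1) := by omega
    have h4 : m / 2 + 1 = a + 1 := by omega
    rw [h3] at h
    rw [h4] at hV
    have := Bq_even (b1 := (8 * p * 3 ^ 3) ^ (2 * p * n)) hp hn (a + 1)
    omega

/-- **Triples, monotone colourings with `2a` or `2a + 1` colours.** -/
theorem triples_mono {κ : ℕ → ℕ → ℕ → ℕ} {Φ : Finset ℕ → Prop}
    (hΦ : ∀ V W, Φ V → W ⊆ V → Φ W) (hext : ExtSt (fun _ _ _ => 0) κ Φ) {n : ℕ} (hn : 1 ≤ n)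
    {V : Finset ℕ} (hR : Φ V) {q a : ℕ}
    (hB : ∀ x ∈ V, ∀ y ∈ V, ∀ z ∈ V, x < y → y < z → κ x y z < q)
    (hV : (q = 2 * a ∧ 2 ^ ((26 * n) ^ a) < V.card) ∨
      (q = 2 * a + 1 ∧ 2 ^ ((26 * n) ^ a * (Nat.log 2 n + 1)) < V.card)) :
    ∃ i, ∃ S ⊆ V, S.card = n ∧ ∀ x ∈ S, ∀ y ∈ S, ∀ z ∈ S, x < y → y < z → κ x y z = i := by
  by_contra hcon
  have hN : NoHom (fun _ _ _ => 0) κ V 1 n := fun i j _ S hS hSc h =>
    hcon ⟨i, S, hS, hSc, fun x hx y hy z hz hxy hyz => (h x hx y hy z hz hxy hyz).1⟩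
  have hB' : Bd (fun _ _ _ => 0) κ V 1 0 (0 + q) := fun x hx y hy z hz hxy hyz =>
    ⟨Nat.zero_lt_one, Nat.zero_le _, by rw [Nat.zero_add]; exact hB x hx y hy z hz hxy hyz⟩
  have h := levels hΦ hext (b1 := n) (le_refl 1)
    (fun lo W _ hBW hNW => one_class lo W hBW hNW) q 0 V hR hB' hN
  rcases hV with ⟨rfl, hV⟩ | ⟨rfl, hV⟩
  · have := Bq_even (p := 1) (b1 := n) (le_refl 1) hn a
    simp only [mul_one] at this
    have h5 : 2 * (1 + 12) * n = 26 * n := by ring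
    rw [h5] at this
    omega
  · have hb : n ≤ 2 ^ (Nat.log 2 n + 1) := (Nat.lt_pow_succ_log_self (by norm_num) n).le
    have := Bq_odd (p := 1) (b1 := n) (le_refl 1) hn (by omega) hb a
    simp only [mul_one] at this
    have h5 : 2 * (1 + 12) * n = 26 * n := by ring
    rw [h5] at this
    omega

end Pool.Agent.Q118.CC
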