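import Pool.Agent.TH138.NF.HD

/-!
# Lists of digits

Sets of integers are written as decreasing lists. `dl l` is the list of the highest differing
digits of the neighbours.
-/

namespace Pool.Agent.Q118.CC

open Pool.Agent.TH138.NF (hd hd_ne hd_max hd_lt)

/-- Decreasing lists. -/
abbrev DL (l : List ℕ) : Prop := l.Pairwise (· > ·)

/-- Increasing lists. -/
abbrev IL (l : List ℕ) : Prop := l.Pairwise (· < ·)

theorem DL_cons2 {p q : ℕ} {l : List ℕ} : DL (p :: q :: l) ↔ q < p ∧ DL (q :: l) := by
  constructor
  · intro h
    have h' := List.pairwise_cons.1 h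
    exact ⟨h'.1 q List.mem_cons_self, h'.2⟩
  · rintro ⟨h1, h2⟩
    refine List.pairwise_cons.2 ⟨fun x hx => ?_, h2⟩
    rcases List.mem_cons.1 hx with rfl | hx
    · exact h1
    · exact lt_trans ((List.pairwise_cons.1 h2).1 x hx) h1

theorem IL_cons2 {p q : ℕ} {l : List ℕ} : IL (p :: q :: l) ↔ p < q ∧ IL (q :: l) := by
  constructor
  · intro h
    have h' := List.pairwise_cons.1 h
    exact ⟨h'.1 q List.mem_cons_self, h'.2⟩
  · rintro ⟨h1, h2⟩
    refine List.pairwise_cons.2 ⟨fun x hx => ?_, h2⟩
    rcases List.mem_cons.1 hx with rfl | hx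
    · exact h1
    · exact lt_trans h1 ((List.pairwise_cons.1 h2).1 x hx)

theorem DL_IL {l : List ℕ} (h1 : DL l) (h2 : IL l) : l.length ≤ 1 := by
  match l with
  | [] => simp
  | [_] => simp
  | p :: q :: l =>
    have h3 := (DL_cons2.1 h1).1
    have h4 := (IL_cons2.1 h2).1
    omega

theorem DL_IL_move {P S : List ℕ} {t t' : ℕ} (h1 : DL (P ++ t :: S)) (h2 : IL (P ++ t' :: S)) :
    (P ++ t :: S).length ≤ 2 := by
  have h3 : DL (P ++ S) := h1.sublist ((List.Sublist.refl P).append (List.sublist_cons_self t S))
  have h4 : IL (P ++ S) := h2.sublist ((List.Sublist.refl P).append (List.sublist_cons_self t' S))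
  have h5 := DL_IL h3 h4
  simp only [List.length_append, List.length_cons] at h5 ⊢
  omega

/-- Neighbours are different. -/
def NB : List ℕ → Prop
  | p :: q :: l => p ≠ q ∧ NB (q :: l)
  | _ => True

/-- The digits of a list. -/
def dl : List ℕ → List ℕ
  | x :: y :: l => hd y x :: dl (y :: l)
  | _ => []

theorem dl_cons2 (x y : ℕ) (l : List ℕ) : dl (x :: y :: l) = hd y x :: dl (y :: l) := rfl

theorem dl_length : ∀ l : List ℕ, (dl l).length = l.length - 1
  | [] => rfl
  | [_] => rfl
  | x :: y :: l => by
    rw [dl_cons2, List.length_cons, dl_length (y :: l)]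
    simp

theorem dl_NB : ∀ l : List ℕ, DL l → NB (dl l)
  | [], _ => trivial
  | [_], _ => trivial
  | [_, _], _ => trivial
  | x :: y :: z :: l, h => by
    have h1 := DL_cons2.1 h
    have h2 := DL_cons2.1 h1.2
    exact ⟨(hd_ne h2.1 h1.1).symm, dl_NB (y :: z :: l) h1.2⟩

theorem dl_lt {N : ℕ} : ∀ l : List ℕ, DL l → (∀ x ∈ l, x < 2 ^ N) → ∀ d ∈ dl l, d < N
  | [], _, _ => by simp [dl]
  | [_], _, _ => by simp [dl]
  | x :: y :: l, h, hN => by
    have h1 := DL_cons2.1 h
    intro d hd'
    rw [dl_cons2, List.mem_cons] at hd'
    rcases hd' with rfl | hd'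
    · exact hd_lt h1.1 (hN x List.mem_cons_self)
    · exact dl_lt (y :: l) h1.2 (fun z hz => hN z (List.mem_cons_of_mem _ hz)) d hd'

/-- Digits of an appended list. -/
theorem dl_append (p q : ℕ) (S : List ℕ) : ∀ P : List ℕ,
    dl (P ++ p :: q :: S) = dl (P ++ [p]) ++ hd q p :: dl (q :: S)
  | [] => rfl
  | [x] => rfl
  | x :: y :: P => by
    have h := dl_append p q S (y :: P)
    simp only [List.cons_append] at h ⊢
    rw [dl_cons2, dl_cons2, h, List.cons_append]

theorem dl_append_length (p : ℕ) (P : List ℕ) : (dl (P ++ [p])).length = P.length := by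
  rw [dl_length]; simp

theorem dl_take : ∀ (l : List ℕ) (k : ℕ), dl (l.take (k + 1)) = (dl l).take k
  | [], k => by simp [dl]
  | [x], k => by simp [dl]
  | x :: y :: l, 0 => by simp [dl]
  | x :: y :: l, (k + 1) => by
    have h := dl_take (y :: l) k
    rw [List.take_succ_cons] at h
    rw [List.take_succ_cons, List.take_succ_cons, dl_cons2, h, dl_cons2, List.take_succ_cons]

theorem dl_drop : ∀ (l : List ℕ) (k : ℕ), dl (l.drop k) = (dl l).drop k
  | [], k => by simp [dl]
  | [x], k => by
    cases k <;> simp [dl]
  | x :: y :: l, 0 => by simp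
  | x :: y :: l, (k + 1) => by
    have h := dl_drop (y :: l) k
    rw [List.drop_succ_cons, h, dl_cons2, List.drop_succ_cons]

/-- Sublists of decreasing digits. -/
theorem comb_dec : ∀ (l : List ℕ), DL l → DL (dl l) → ∀ T : List ℕ, T.Sublist (dl l) → l ≠ [] →
    ∃ s : List ℕ, s.Sublist l ∧ dl s = T ∧ s ≠ []
  | [], _, _, _, _, h => absurd rfl h
  | [x], _, _, T, hT, _ => by
    have h0 : T = [] := by simpa [dl] using hT
    subst h0
    exact ⟨[x], List.Sublist.refl _, rfl, by simp⟩
  | x :: y :: l, hl, hd', T, hT, _ => by
    have h1 := DL_cons2.1 hl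
    have hd1 : ∀ d ∈ dl (y :: l), d < hd y x := by
      intro d hdm
      exact (List.pairwise_cons.1 hd').1 d hdm
    have hd2 : DL (dl (y :: l)) := (List.pairwise_cons.1 hd').2
    have ih := comb_dec (y :: l) h1.2 hd2
    rw [dl_cons2] at hT
    rcases List.sublist_cons_iff.1 hT with hT' | ⟨T', rfl, hT'⟩
    · obtain ⟨s, hs, hsT, hne⟩ := ih T hT' (by simp)
      exact ⟨s, hs.cons x, hsT, hne⟩
    · obtain ⟨s, hs, hsT, hne⟩ := ih T' hT' (by simp)
      obtain ⟨z, s', rfl⟩ := List.exists_cons_of_ne_nil hne
      refine ⟨x :: z :: s', hs.cons_cons x, ?_, by simp⟩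
      rw [dl_cons2, hsT]
      congr 1
      have hz : z ∈ y :: l := hs.subset List.mem_cons_self
      rcases List.mem_cons.1 hz with rfl | hz
      · rfl
      · have hzy : z < y := (List.pairwise_cons.1 h1.2).1 z hz
        rw [hd_max hzy h1.1]
        have : hd z y ∈ dl (y :: l) ∨ ∃ d ∈ dl (y :: l), hd z y ≤ d := by
          right
          -- the digit of a pair is at most one of the digits of the neighbours
          have key : ∀ (m : List ℕ) (a : ℕ), DL (a :: m) → ∀ b ∈ m, ∃ d ∈ dl (a :: m), hd b a ≤ d := by
            intro m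
            induction m with
            | nil => intro a _ b hb; simp at hb
            | cons c m ihm =>
              intro a ha b hb
              have hc := DL_cons2.1 ha
              rcases List.mem_cons.1 hb with rfl | hb
              · exact ⟨_, List.mem_cons_self, le_refl _⟩
              · obtain ⟨d, hdm, hle⟩ := ihm c hc.2 b hb
                have hbc : b < c := (List.pairwise_cons.1 hc.2).1 b hb
                rw [hd_max hbc hc.1]
                rcases le_total (hd b c) (hd c a) with h | h
                · exact ⟨hd c a, List.mem_cons_self, by rw [max_eq_right h]⟩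
                · exact ⟨d, List.mem_cons_of_mem _ hdm, by rw [max_eq_left h]; exact hle⟩
          exact key l y h1.2 z hz
        rcases this with h | ⟨d, hdm, h⟩
        · have := hd1 _ h
          omega
        · have := hd1 d hdm
          omega

/-- Sublists of increasing digits. -/
theorem comb_inc : ∀ (l : List ℕ) (x : ℕ), DL (x :: l) → IL (dl (x :: l)) → ∀ T : List ℕ,
    T.Sublist (dl (x :: l)) → ∃ s : List ℕ, (x :: s).Sublist (x :: l) ∧ dl (x :: s) = T
  | [], x, _, _, T, hT => by
    have h0 : T = [] := by simpa [dl] using hT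
    subst h0
    exact ⟨[], List.Sublist.refl _, rfl⟩
  | y :: l, x, hl, hd', T, hT => by
    have h1 := DL_cons2.1 hl
    have hd1 : ∀ d ∈ dl (y :: l), hd y x < d := by
      intro d hdm
      exact (List.pairwise_cons.1 hd').1 d hdm
    have hd2 : IL (dl (y :: l)) := (List.pairwise_cons.1 hd').2
    have ih := comb_inc l y h1.2 hd2
    rw [dl_cons2] at hT
    rcases List.sublist_cons_iff.1 hT with hT' | ⟨T', rfl, hT'⟩
    · obtain ⟨s, hs, hsT⟩ := ih T hT'
      have hsl : s.Sublist l := by
        simpa using hs
      refine ⟨s, (hsl.trans (List.sublist_cons_self y l)).cons_cons x, ?_⟩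
      cases s with
      | nil => exact hsT
      | cons z s' =>
        rw [dl_cons2] at hsT ⊢
        rw [← hsT]
        congr 1
        have hzy : z < y := by
          have h5 : DL (y :: z :: s') := h1.2.sublist hs
          exact (DL_cons2.1 h5).1
        have h6 : hd z y ∈ dl (y :: l) := by
          apply hT'.subset
          rw [← hsT]
          exact List.mem_cons_self
        have h7 := hd1 _ h6
        rw [hd_max hzy h1.1]
        omega
    · obtain ⟨s, hs, hsT⟩ := ih T' hT'
      refine ⟨y :: s, hs.cons_cons x, ?_⟩
      rw [dl_cons2, hsT]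

/-! ### The first break of monotonicity -/

/-- Parity after `n` steps. -/
def par : Bool → ℕ → Bool
  | b, 0 => b
  | b, (n + 1) => par (!b) n

/-- Comparison in one of the two directions. -/
def le' : Bool → ℕ → ℕ → Prop
  | true, x, y => x ≤ y
  | false, x, y => y ≤ x

/-- Continue an increasing run; `b` is the parity of the position of `p`. -/
def gi : Bool → ℕ → List ℕ → ℕ
  | _, _, [] => 1
  | b, p, q :: l => if p < q then gi (!b) q l else (if b = true then 2 else 0)

/-- Continue a decreasing run. -/
def gd : Bool → ℕ → List ℕ → ℕ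
  | _, _, [] => 1
  | b, p, q :: l => if q < p then gd (!b) q l else (if b = true then 0 else 2)

/-- The type of a list: `1` for monotone lists, otherwise `0` or `2` according to the kind and the
parity of the first local extremum. -/
def tv : List ℕ → ℕ
  | p :: q :: l => if p < q then gi false q l else gd false q l
  | _ => 1

theorem gi_cons (b : Bool) (p q : ℕ) (l : List ℕ) :
    gi b p (q :: l) = if p < q then gi (!b) q l else (if b = true then 2 else 0) := rfl

theorem gd_cons (b : Bool) (p q : ℕ) (l : List ℕ) :
    gd b p (q :: l) = if q < p then gd (!b) q l else (if b = true then 0 else 2) := rfl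

theorem tv_cons2 (p q : ℕ) (l : List ℕ) :
    tv (p :: q :: l) = if p < q then gi false q l else gd false q l := rfl

theorem gi_le (l : List ℕ) : ∀ (b : Bool) (p : ℕ), gi b p l ≤ 2 := by
  induction l with
  | nil => intro b p; simp [gi]
  | cons q l ih =>
    intro b p
    rw [gi_cons]
    have := ih (!b) q
    split_ifs <;> omega

theorem gd_le (l : List ℕ) : ∀ (b : Bool) (p : ℕ), gd b p l ≤ 2 := by
  induction l with
  | nil => intro b p; simp [gd]
  | cons q l ih =>
    intro b p
    rw [gd_cons]
    have := ih (!b) q
    split_ifs <;> omega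

theorem tv_le : ∀ l : List ℕ, tv l ≤ 2
  | [] => by simp [tv]
  | [_] => by simp [tv]
  | p :: q :: l => by
    rw [tv_cons2]
    have h1 := gi_le l false q
    have h2 := gd_le l false q
    split_ifs <;> omega

theorem gi_one (l : List ℕ) : ∀ (b : Bool) (p : ℕ), gi b p l = 1 ↔ IL (p :: l) := by
  induction l with
  | nil => intro b p; simp [gi]
  | cons q l ih =>
    intro b p
    rw [gi_cons, IL_cons2]
    have := ih (!b) q
    by_cases h : p < q
    · rw [if_pos h, this]
      simp [h]
    · rw [if_neg h]
      cases b <;> simp [h]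

theorem gd_one (l : List ℕ) : ∀ (b : Bool) (p : ℕ), gd b p l = 1 ↔ DL (p :: l) := by
  induction l with
  | nil => intro b p; simp [gd]
  | cons q l ih =>
    intro b p
    rw [gd_cons, DL_cons2]
    have := ih (!b) q
    by_cases h : q < p
    · rw [if_pos h, this]
      simp [h]
    · rw [if_neg h]
      cases b <;> simp [h]

theorem tv_of_DL {l : List ℕ} (h : DL l) : tv l = 1 := by
  match l with
  | [] => rfl
  | [_] => rfl
  | p :: q :: l =>
    have h1 := DL_cons2.1 h
    rw [tv_cons2, if_neg (by omega)]
    exact (gd_one l false q).2 h1.2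

theorem tv_of_IL {l : List ℕ} (h : IL l) : tv l = 1 := by
  match l with
  | [] => rfl
  | [_] => rfl
  | p :: q :: l =>
    have h1 := IL_cons2.1 h
    rw [tv_cons2, if_pos h1.1]
    exact (gi_one l false q).2 h1.2

theorem of_tv_one {l : List ℕ} (h : tv l = 1) (hn : NB l) : DL l ∨ IL l := by
  match l with
  | [] => exact Or.inl List.Pairwise.nil
  | [_] => exact Or.inl (by simp)
  | p :: q :: l =>
    rw [tv_cons2] at h
    by_cases h1 : p < q
    · rw [if_pos h1] at h
      exact Or.inr (IL_cons2.2 ⟨h1, (gi_one l false q).1 h⟩)
    · rw [if_neg h1] at h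
      have h2 : p ≠ q := hn.1
      exact Or.inl (DL_cons2.2 ⟨by omega, (gd_one l false q).1 h⟩)

theorem gi_head {t t' : ℕ} (h : t < t') (b : Bool) (S : List ℕ) : le' b (gi b t S) (gi b t' S) := by
  cases S with
  | nil => cases b <;> simp [gi, le']
  | cons q S =>
    rw [gi_cons, gi_cons]
    have h1 := gi_le S (!b) q
    by_cases h2 : t' < q
    · rw [if_pos h2, if_pos (h.trans h2)]
      cases b <;> simp [le']
    · rw [if_neg h2]
      by_cases h3 : t < q
      · rw [if_pos h3]
        cases b <;> simp_all [le']
      · rw [if_neg h3]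
        cases b <;> simp [le']

theorem gd_head {t t' : ℕ} (h : t < t') (b : Bool) (S : List ℕ) : le' b (gd b t S) (gd b t' S) := by
  cases S with
  | nil => cases b <;> simp [gd, le']
  | cons q S =>
    rw [gd_cons, gd_cons]
    have h1 := gd_le S (!b) q
    by_cases h2 : q < t
    · rw [if_pos h2, if_pos (h2.trans h)]
      cases b <;> simp [le']
    · rw [if_neg h2]
      by_cases h3 : q < t'
      · rw [if_pos h3]
        cases b <;> simp_all [le']
      · rw [if_neg h3]
        cases b <;> simp [le']

theorem gi_mid {t t' : ℕ} (h : t < t') (S : List ℕ) : ∀ (P : List ℕ) (b : Bool) (p : ℕ),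
    le' (par b (P.length + 1)) (gi b p (P ++ t :: S)) (gi b p (P ++ t' :: S)) := by
  intro P
  induction P with
  | nil =>
    intro b p
    simp only [List.nil_append, List.length_nil, par]
    rw [gi_cons, gi_cons]
    have h1 := gi_le S (!b) t'
    have h0 := gi_head h (!b) S
    by_cases h2 : p < t
    · rw [if_pos h2, if_pos (h2.trans h)]
      exact h0
    · rw [if_neg h2]
      by_cases h3 : p < t'
      · rw [if_pos h3]
        cases b <;> simp_all [le']
      · rw [if_neg h3]
        cases b <;> simp [le']
  | cons q P ih =>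
    intro b p
    have h0 := ih (!b) q
    simp only [List.cons_append, List.length_cons]
    rw [gi_cons, gi_cons]
    by_cases h2 : p < q
    · rw [if_pos h2, if_pos h2]
      exact h0
    · rw [if_neg h2, if_neg h2]
      generalize par b (P.length + 1 + 1) = e
      cases e <;> simp [le']

theorem gd_mid {t t' : ℕ} (h : t < t') (S : List ℕ) : ∀ (P : List ℕ) (b : Bool) (p : ℕ),
    le' (par b (P.length + 1)) (gd b p (P ++ t :: S)) (gd b p (P ++ t' :: S)) := by
  intro P
  induction P with
  | nil =>
    intro b p
    simp only [List.nil_append, List.length_nil, par]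
    rw [gd_cons, gd_cons]
    have h1 := gd_le S (!b) t
    have h0 := gd_head h (!b) S
    by_cases h2 : t' < p
    · rw [if_pos h2, if_pos (h.trans h2)]
      exact h0
    · rw [if_neg h2]
      by_cases h3 : t < p
      · rw [if_pos h3]
        cases b <;> simp_all [le']
      · rw [if_neg h3]
        cases b <;> simp [le']
  | cons q P ih =>
    intro b p
    have h0 := ih (!b) q
    simp only [List.cons_append, List.length_cons]
    rw [gd_cons, gd_cons]
    by_cases h2 : q < p
    · rw [if_pos h2, if_pos h2]
      exact h0
    · rw [if_neg h2, if_neg h2]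
      generalize par b (P.length + 1 + 1) = e
      cases e <;> simp [le']

/-- Moving one entry. -/
theorem tv_move {P S : List ℕ} {t t' : ℕ} (h3 : 3 ≤ (P ++ t :: S).length) (hn : NB (P ++ t :: S))
    (hn' : NB (P ++ t' :: S)) (h : t < t') :
    le' (par true P.length) (tv (P ++ t :: S)) (tv (P ++ t' :: S)) := by
  match P with
  | [] =>
    match S with
    | [] => simp at h3
    | [_] => simp at h3
    | q :: s :: S =>
      simp only [List.nil_append] at hn hn' ⊢
      have h1 : t ≠ q := hn.1
      have h2 : t' ≠ q := hn'.1
      have h4 : q ≠ s := hn.2.1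
      show tv (t :: q :: s :: S) ≤ tv (t' :: q :: s :: S)
      rw [tv_cons2, tv_cons2, gi_cons, gd_cons]
      have h8 := gi_le S true s
      have h9 := gd_le S true s
      simp only [Bool.false_eq_true, if_false, Bool.not_false]
      split_ifs <;> omega
  | [p] =>
    match S with
    | [] => simp at h3
    | s :: S =>
      simp only [List.cons_append, List.nil_append] at hn hn' ⊢
      have h1 : p ≠ t := hn.1
      have h2 : p ≠ t' := hn'.1
      have h4 : t ≠ s := hn.2.1
      have h5 : t' ≠ s := hn'.2.1
      show tv (p :: t' :: s :: S) ≤ tv (p :: t :: s :: S)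
      rw [tv_cons2, tv_cons2]
      have k1 := gi_head h false (s :: S)
      have k2 := gd_head h false (s :: S)
      by_cases h6 : p < t
      · rw [if_pos h6, if_pos (h6.trans h)]
        exact k1
      · rw [if_neg h6]
        by_cases h7 : p < t'
        · rw [if_pos h7, gi_cons, gd_cons]
          have h8 := gi_le S true s
          by_cases h9 : s < t
          · rw [if_neg (show ¬ t' < s by omega)]
            simp
          · rw [if_neg h9]
            simp only [Bool.false_eq_true, if_false, Bool.not_false]
            split_ifs <;> omega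
        · rw [if_neg h7]
          exact k2
  | p :: q :: P =>
    have k1 := gi_mid h S P false q
    have k2 := gd_mid h S P false q
    simp only [List.cons_append, List.length_cons]
    rw [tv_cons2, tv_cons2]
    by_cases h6 : p < q
    · rw [if_pos h6, if_pos h6]
      exact k1
    · rw [if_neg h6, if_neg h6]
      exact k2

theorem gi_trans {t t' D : ℕ} (h : t < D) (h' : t' < D) (S : List ℕ) :
    ∀ (P : List ℕ) (b : Bool) (p : ℕ),
    le' (par b (P.length + 2)) (gi b p (P ++ D :: t :: S)) (gi b p (P ++ t' :: D :: S)) ∧
      ¬ (gi b p (P ++ D :: t :: S) = 1 ∧ gi b p (P ++ t' :: D :: S) = 1) := by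
  intro P
  induction P with
  | nil =>
    intro b p
    simp only [List.nil_append, List.length_nil, par, Bool.not_not]
    rw [gi_cons, gi_cons, gi_cons b p t']
    have h1 := gi_le (D :: S) (!b) t'
    rw [if_neg (show ¬ D < t by omega)]
    by_cases h2 : p < D
    · rw [if_pos h2]
      constructor
      · cases b
        · simp only [le', Bool.not_false, if_true]
          split_ifs <;> simp_all
        · simp only [le', Bool.not_true, Bool.false_eq_true, if_false]
          omega
      · cases b <;> simp
    · rw [if_neg h2, if_neg (show ¬ p < t' by omega)]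
      cases b <;> simp [le']
  | cons q P ih =>
    intro b p
    have h0 := ih (!b) q
    simp only [List.cons_append, List.length_cons]
    rw [gi_cons, gi_cons]
    by_cases h2 : p < q
    · rw [if_pos h2, if_pos h2]
      exact h0
    · rw [if_neg h2, if_neg h2]
      generalize par b (P.length + 1 + 2) = e
      cases e <;> cases b <;> simp [le']

theorem gd_trans {t t' D : ℕ} (_ : t < D) (h' : t' < D) (S : List ℕ) :
    ∀ (P : List ℕ) (b : Bool) (p : ℕ),
    le' (par b (P.length + 2)) (gd b p (P ++ D :: t :: S)) (gd b p (P ++ t' :: D :: S)) ∧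
      ¬ (gd b p (P ++ D :: t :: S) = 1 ∧ gd b p (P ++ t' :: D :: S) = 1) := by
  intro P
  induction P with
  | nil =>
    intro b p
    simp only [List.nil_append, List.length_nil, par, Bool.not_not]
    rw [gd_cons, gd_cons b p t']
    have h1 := gd_le (t :: S) (!b) D
    rw [gd_cons (!b) t' D, if_neg (show ¬ D < t' by omega)]
    by_cases h2 : D < p
    · rw [if_pos h2, if_pos (show t' < p by omega)]
      constructor
      · cases b
        · simp [le']
        · simp only [le', Bool.not_true, Bool.false_eq_true, if_false]
          exact h1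
      · cases b <;> simp
    · rw [if_neg h2]
      cases b
      · constructor
        · simp only [le', Bool.not_false, if_true, Bool.false_eq_true, if_false]
          split_ifs <;> omega
        · simp
      · constructor
        · simp [le']
        · simp
  | cons q P ih =>
    intro b p
    have h0 := ih (!b) q
    simp only [List.cons_append, List.length_cons]
    rw [gd_cons, gd_cons]
    by_cases h2 : q < p
    · rw [if_pos h2, if_pos h2]
      exact h0
    · rw [if_neg h2, if_neg h2]
      generalize par b (P.length + 1 + 2) = e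
      cases e <;> cases b <;> simp [le']

/-- The highest digit moves to the other side. -/
theorem tv_trans {P S : List ℕ} {t t' D : ℕ} (h3 : 3 ≤ (P ++ D :: t :: S).length) (h : t < D)
    (h' : t' < D) :
    le' (par true (P.length + 1)) (tv (P ++ D :: t :: S)) (tv (P ++ t' :: D :: S)) ∧
      ¬ (tv (P ++ D :: t :: S) = 1 ∧ tv (P ++ t' :: D :: S) = 1) := by
  match P with
  | [] =>
    match S with
    | [] => simp at h3
    | s :: S =>
      simp only [List.nil_append]
      show tv (t' :: D :: s :: S) ≤ tv (D :: t :: s :: S) ∧ _
      rw [tv_cons2, tv_cons2, if_neg (show ¬ D < t by omega), if_pos h', gi_cons, gd_cons]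
      have h8 := gi_le S (!false) s
      by_cases h9 : s < t
      · rw [if_neg (show ¬ D < s by omega)]
        simp
      · rw [if_neg h9]
        simp only [Bool.false_eq_true, if_false]
        constructor
        · split_ifs <;> omega
        · omega
  | [p] =>
    simp only [List.cons_append, List.nil_append]
    show tv (p :: D :: t :: S) ≤ tv (p :: t' :: D :: S) ∧ _
    rw [tv_cons2, tv_cons2, gi_cons, if_neg (show ¬ D < t by omega), gd_cons false t' D,
      if_neg (show ¬ D < t' by omega)]
    have h8 := gd_le (t :: S) false D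
    by_cases h9 : p < D
    · rw [if_pos h9]
      simp
    · rw [if_neg h9, if_neg (show ¬ p < t' by omega)]
      simp [h8]
  | p :: q :: P =>
    have k1 := gi_trans h h' S P false q
    have k2 := gd_trans h h' S P false q
    simp only [List.cons_append, List.length_cons]
    rw [tv_cons2, tv_cons2]
    by_cases h6 : p < q
    · rw [if_pos h6, if_pos h6]
      exact k1
    · rw [if_neg h6, if_neg h6]
      exact k2

end Pool.Agent.Q118.CC
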