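import Pool.Agent.Q118.CC.ERado
import Pool.Agent.Q118.CC.Graph

/-!
# The upper bounds for all uniformities
-/

namespace Pool.Agent.Q118.CC

open Finset

/-- `tow k x` is the tower `2 ^ (2 ^ (… ^ x))` with `k` twos. -/
def tow : ℕ → ℕ → ℕ
  | 0, x => x
  | (k + 1), x => 2 ^ tow k x

theorem tow_mono (k : ℕ) {x y : ℕ} (h : x ≤ y) : tow k x ≤ tow k y := by
  induction k with
  | zero => exact h
  | succ k ih => exact Nat.pow_le_pow_right (by norm_num) ih

theorem tow_pos (k : ℕ) {x : ℕ} (h : 1 ≤ x) : 1 ≤ tow k x := by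
  cases k with
  | zero => exact h
  | succ k => exact Nat.one_le_pow _ _ (by norm_num)

theorem mul_tow (k : ℕ) {a y : ℕ} (ha : 1 ≤ a) (hy : 1 ≤ y) : a * tow k y ≤ tow k (a * y) := by
  induction k with
  | zero => exact le_refl _
  | succ k ih =>
    have h1 : 1 ≤ tow k y := tow_pos k hy
    obtain ⟨b, rfl⟩ : ∃ b, a = b + 1 := ⟨a - 1, by omega⟩
    calc (b + 1) * 2 ^ tow k y ≤ 2 ^ b * 2 ^ tow k y := Nat.mul_le_mul_right _ Nat.lt_two_pow_self
      _ = 2 ^ (b + tow k y) := (pow_add _ _ _).symm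
      _ ≤ 2 ^ ((b + 1) * tow k y) := Nat.pow_le_pow_right (by norm_num) (by nlinarith)
      _ ≤ 2 ^ tow k ((b + 1) * y) := Nat.pow_le_pow_right (by norm_num) ih

/-- One step, with towers. -/
theorem tower_step {P P' : Finset ℕ → (Finset ℕ → ℕ) → Prop} {p i n X : ℕ}
    (hlink : ∀ V V' c w, P' V c → w ∈ V → V' ⊆ V → (∀ x ∈ V', w < x) →
      P V' (fun e => c (insert w e))) (hp : 2 ≤ p) (hX : 1 ≤ X)
    (h : Ub P p (i + 3) n (tow (i + 1) X)) :
    Ub P' p (i + 1 + 3) n (tow (i + 1 + 1) ((p + 2 * i + 7) * X)) := by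
  have h1 := ub_step hlink hp (by omega) h
  have h2 : i + 3 + 1 = i + 1 + 3 := by omega
  rw [h2] at h1
  refine h1.mono ?_
  set u := tow i X with hu
  have hu1 : 1 ≤ u := tow_pos i hX
  have hF : tow (i + 1) X = 2 ^ u := rfl
  rw [hF]
  have h3 : i + 3 - 1 = i + 2 := by omega
  rw [h3]
  have h4 : 2 ^ u + 1 ≤ 2 ^ (u + 1) := by
    have : 1 ≤ 2 ^ u := Nat.one_le_pow _ _ (by norm_num)
    rw [pow_succ]; omega
  have h5 : (2 ^ u + 1) * ((2 ^ u + 1) ^ (i + 2) + 1) ≤ 2 ^ ((u + 1) * (i + 3) + 1) := by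
    have h6 : (2 ^ u + 1) ^ (i + 2) + 1 ≤ 2 * 2 ^ ((u + 1) * (i + 2)) := by
      have h7 : (2 ^ u + 1) ^ (i + 2) ≤ 2 ^ ((u + 1) * (i + 2)) := by
        rw [pow_mul]; exact Nat.pow_le_pow_left h4 _
      have h8 : 1 ≤ 2 ^ ((u + 1) * (i + 2)) := Nat.one_le_pow _ _ (by norm_num)
      omega
    calc (2 ^ u + 1) * ((2 ^ u + 1) ^ (i + 2) + 1)
        ≤ 2 ^ (u + 1) * (2 * 2 ^ ((u + 1) * (i + 2))) := Nat.mul_le_mul h4 h6
      _ = 2 ^ ((u + 1) * (i + 3) + 1) := by
        rw [← pow_succ', ← pow_add]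
        congr 1
        ring
  calc p ^ ((2 ^ u + 1) * ((2 ^ u + 1) ^ (i + 2) + 1))
      ≤ (2 ^ p) ^ ((2 ^ u + 1) * ((2 ^ u + 1) ^ (i + 2) + 1)) :=
        Nat.pow_le_pow_left Nat.lt_two_pow_self.le _
    _ = 2 ^ (p * ((2 ^ u + 1) * ((2 ^ u + 1) ^ (i + 2) + 1))) := (pow_mul _ _ _).symm
    _ ≤ 2 ^ (2 ^ ((p + 2 * i + 7) * u)) := by
        apply Nat.pow_le_pow_right (by norm_num)
        calc p * ((2 ^ u + 1) * ((2 ^ u + 1) ^ (i + 2) + 1))
            ≤ 2 ^ p * 2 ^ ((u + 1) * (i + 3) + 1) := Nat.mul_le_mul Nat.lt_two_pow_self.le h5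
          _ = 2 ^ (p + ((u + 1) * (i + 3) + 1)) := (pow_add _ _ _).symm
          _ ≤ 2 ^ ((p + 2 * i + 7) * u) := by
              apply Nat.pow_le_pow_right (by norm_num)
              have h9 : (p + i + 4) * 1 ≤ (p + i + 4) * u := Nat.mul_le_mul_left _ hu1
              calc p + ((u + 1) * (i + 3) + 1) = (p + i + 4) * 1 + u * (i + 3) := by ring
                _ ≤ (p + i + 4) * u + u * (i + 3) := Nat.add_le_add_right h9 _
                _ = (p + 2 * i + 7) * u := by ring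
    _ ≤ tow (i + 1 + 1) ((p + 2 * i + 7) * X) := by
        show 2 ^ (2 ^ ((p + 2 * i + 7) * u)) ≤ 2 ^ (2 ^ tow i ((p + 2 * i + 7) * X))
        apply Nat.pow_le_pow_right (by norm_num)
        apply Nat.pow_le_pow_right (by norm_num)
        exact mul_tow i (by omega) hX

/-- All positions. -/
theorem tower_all {p d : ℕ} (hp : 2 ≤ p) (hd : d ≤ 3) : ∀ i j : ℕ, j + d ≤ i + 3 →
    ∃ C, 1 ≤ C ∧ ∀ P : ℕ → ℕ → Finset ℕ → (Finset ℕ → ℕ) → Prop, Fam d P → ∀ y, 1 ≤ y → ∀ n,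
      (∀ j, j + d ≤ 3 → Ub (P 3 j) p 3 n (2 ^ y)) →
      Ub (P (i + 3) j) p (i + 3) n (tow (i + 1) (C * y)) := by
  intro i
  induction i with
  | zero =>
    intro j hj
    refine ⟨1, le_refl _, fun P _ y _ n h => ?_⟩
    rw [one_mul]
    exact h j hj
  | succ i ih =>
    have key : ∀ j, j + d ≤ i + 3 → ∃ C, 1 ≤ C ∧
        ∀ P : ℕ → ℕ → Finset ℕ → (Finset ℕ → ℕ) → Prop, Fam d P → ∀ y, 1 ≤ y → ∀ n,
        (∀ j, j + d ≤ 3 → Ub (P 3 j) p 3 n (2 ^ y)) →
          Ub (P (i + 1 + 3) (j + 1)) p (i + 1 + 3) n (tow (i + 1 + 1) (C * y)) := by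
      intro j hj
      obtain ⟨C, hC, ih⟩ := ih j hj
      refine ⟨(p + 2 * i + 7) * C, Nat.mul_pos (by omega) hC, fun P hF y hy n h => ?_⟩
      have h1 := tower_step (P' := P (i + 1 + 3) (j + 1))
        (fun V V' c w hPc hw hV' hlt => hF.link (i + 3) j V V' c w
          (by
            have e : i + 3 + 1 = i + 1 + 3 := by omega
            rw [e]; exact hPc) hw hV' hlt) hp (Nat.mul_pos hC hy) (ih P hF y hy n h)
      rw [← mul_assoc] at h1
      exact h1
    intro j hj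
    rcases Nat.eq_zero_or_pos j with rfl | hj0
    · obtain ⟨C, hC, hkey⟩ := key (i + 3 - d) (by omega)
      refine ⟨C, hC, fun P hF y hy n h => ?_⟩
      refine ub_flip (P' := P (i + 1 + 3) 0) ?_ (hkey P hF y hy n h)
      intro V c B hVB hPc
      refine hF.flip (i + 1 + 3) (i + 3 - d + 1) V c B (by omega) hVB ?_
      have e : i + 1 + 3 - d - (i + 3 - d + 1) = 0 := by omega
      rw [e]
      exact hPc
    · obtain ⟨C, hC, hkey⟩ := key (j - 1) (by omega)
      refine ⟨C, hC, fun P hF y hy n h => ?_⟩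
      have h1 := hkey P hF y hy n h
      have h2 : j - 1 + 1 = j := by omega
      rw [h2] at h1
      exact h1

theorem exists_triple {A : Finset ℕ} (hA : A.card = 3) :
    ∃ x y z, x < y ∧ y < z ∧ A = insert z {x, y} := by
  have h01 : (A.orderEmbOfFin hA 0) < A.orderEmbOfFin hA 1 := by
    rw [OrderEmbedding.lt_iff_lt]; decide
  have h12 : (A.orderEmbOfFin hA 1) < A.orderEmbOfFin hA 2 := by
    rw [OrderEmbedding.lt_iff_lt]; decide
  refine ⟨_, _, _, h01, h12, ?_⟩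
  symm
  apply Finset.eq_of_subset_of_card_le
  · intro v hv
    simp only [mem_insert, mem_singleton] at hv
    rcases hv with rfl | rfl | rfl <;> exact Finset.orderEmbOfFin_mem _ _ _
  · rw [hA]
    apply le_of_eq
    symm
    rw [Finset.card_eq_three]
    exact ⟨_, _, _, by omega, by omega, by omega, rfl⟩

theorem mem_of_insert {x y z : ℕ} {A S : Finset ℕ} (h : A = insert z {x, y}) (hA : A ⊆ S) :
    x ∈ S ∧ y ∈ S ∧ z ∈ S := by
  subst h
  exact ⟨hA (by simp), hA (by simp), hA (by simp)⟩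

theorem pos_top {e : Finset ℕ} {z : ℕ} (h : ∀ x ∈ e, x < z) : Pos e.card e z := by
  refine ⟨fun hz => lt_irrefl _ (h z hz), ?_⟩
  rw [Finset.filter_true_of_mem h]

theorem pos_mid {x y z : ℕ} (hxy : x < y) (hyz : y < z) : Pos 1 {x, z} y := by
  refine ⟨?_, ?_⟩
  · simp only [mem_insert, mem_singleton]
    omega
  · have h1 : ({x, z} : Finset ℕ).filter (fun u => u < y) = {x} := by
      ext u
      simp only [mem_filter, mem_insert, mem_singleton]
      omega
    rw [h1, card_singleton]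

theorem pos_pair {x y z : ℕ} (hxy : x < y) (hyz : y < z) : Pos 2 {x, y} z := by
  have h1 : ({x, y} : Finset ℕ).card = 2 := Finset.card_pair (by omega)
  rw [← h1]
  apply pos_top
  intro v hv
  simp only [mem_insert, mem_singleton] at hv
  rcases hv with rfl | rfl <;> omega

theorem pair_sub {x y : ℕ} {V : Finset ℕ} (hx : x ∈ V) (hy : y ∈ V) : ({x, y} : Finset ℕ) ⊆ V := by
  intro v hv
  simp only [mem_insert, mem_singleton] at hv
  rcases hv with rfl | rfl <;> assumption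

theorem swap_triple (x y z : ℕ) : (insert z {x, y} : Finset ℕ) = insert y {x, z} := by
  ext u
  simp only [mem_insert, mem_singleton]
  tauto

theorem rk_of_rkF {V : Finset ℕ} {c : Finset ℕ → ℕ} {s : Finset ℕ → ℕ → ℕ} (h : RkF 3 2 V c s) :
    Rk (fun x y z => c (insert z {x, y})) (fun x y z => s {x, y} z) V := by
  intro x hx y hy z hz w hw hxy hyz hzw
  exact h {x, y} (pair_sub hx hy) (by rw [Finset.card_pair (by omega)]) z hz w hw
    (pos_pair hxy hyz) (pos_pair hxy (hyz.trans hzw)) hzw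

theorem rkM_of_rkF {V : Finset ℕ} {c : Finset ℕ → ℕ} {s : Finset ℕ → ℕ → ℕ} (h : RkF 3 1 V c s) :
    RkM (fun x y z => c (insert z {x, y})) (fun x y z => s {x, z} y) V := by
  intro x hx y hy w hw z hz hxy hyw hwz
  have h1 := h {x, z} (pair_sub hx hz) (by rw [Finset.card_pair (by omega)]) y hy w hw
    (pos_mid hxy (hyw.trans hwz)) (pos_mid (hxy.trans hyw) hwz) hyw
  refine ⟨h1.1, fun h2 => ?_⟩
  show c (insert z {x, y}) = c (insert z {x, w})
  rw [swap_triple x y z, swap_triple x w z]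
  exact h1.2 h2

theorem homog_of_triples {c : Finset ℕ → ℕ} {S : Finset ℕ} {j : ℕ}
    (h : ∀ x ∈ S, ∀ y ∈ S, ∀ z ∈ S, x < y → y < z → c (insert z {x, y}) = j) : Homog 3 c S := by
  intro A hA B hB hAc hBc
  obtain ⟨x, y, z, hxy, hyz, hAe⟩ := exists_triple hAc
  obtain ⟨x', y', z', hxy', hyz', hBe⟩ := exists_triple hBc
  obtain ⟨h1, h2, h3⟩ := mem_of_insert hAe hA
  obtain ⟨h4, h5, h6⟩ := mem_of_insert hBe hB
  rw [hAe, hBe, h x h1 y h2 z h3 hxy hyz, h x' h4 y' h5 z' h6 hxy' hyz']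

theorem base_all {p n m : ℕ} (hp : 1 ≤ p) (hn : 1 ≤ n) : ∀ j, j + 1 ≤ 3 →
    Ub (FC (m + 1) 3 j) p 3 n (2 ^ ((2 * p * (p + 12) * n) ^ (m / 2 + 1) + 1)) := by
  have h2 : Ub (FC (m + 1) 3 2) p 3 n (2 ^ ((2 * p * (p + 12) * n) ^ (m / 2 + 1) + 1)) := by
    rintro V c hc ⟨s, hs, hR⟩ hV
    obtain ⟨i, j, S, hS, hSc, hH⟩ := triples_changes (fun _ _ h hW => Rk.sub h hW) (ext_last _ _)
      (m := m) hp hn (rk_of_rkF hR) (fun x _ y _ z _ _ _ => ⟨hc _, Nat.zero_le _, hs _ _⟩)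
      (lt_of_lt_of_le (Nat.pow_lt_pow_right (by norm_num) (Nat.lt_succ_self _)) hV)
    exact ⟨S, hS, hSc, homog_of_triples (fun x hx y hy z hz hxy hyz =>
      (hH x hx y hy z hz hxy hyz).2)⟩
  have h1 : Ub (FC (m + 1) 3 1) p 3 n (2 ^ ((2 * p * (p + 12) * n) ^ (m / 2 + 1) + 1)) := by
    rintro V c hc ⟨s, hs, hR⟩ hV
    obtain ⟨i, j, S, hS, hSc, hH⟩ := triples_changes (fun _ _ h hW => RkM.sub h hW) (ext_mid _ _)
      (m := m) hp hn (rkM_of_rkF hR) (fun x _ y _ z _ _ _ => ⟨hc _, Nat.zero_le _, hs _ _⟩)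
      (lt_of_lt_of_le (Nat.pow_lt_pow_right (by norm_num) (Nat.lt_succ_self _)) hV)
    exact ⟨S, hS, hSc, homog_of_triples (fun x hx y hy z hz hxy hyz =>
      (hH x hx y hy z hz hxy hyz).2)⟩
  intro j hj
  rcases (show j = 0 ∨ j = 1 ∨ j = 2 by omega) with rfl | rfl | rfl
  · exact ub_flip (P' := FC (m + 1) 3 0)
      (fun V c B hVB hP => (fc_fam (m + 1)).flip 3 2 V c B (by omega) hVB hP) h2
  · exact h1
  · exact h2

theorem base_two {p n a : ℕ} (hp : 1 ≤ p) (hn : 1 ≤ n) : ∀ j, j + 2 ≤ 3 →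
    Ub (TC (2 * a + 1) 3 j) p 3 n
      (2 ^ ((2 * p * (p + 12) * n) ^ a * ((2 * a + 1) * (p + Nat.log 2 n + 1) + 1) + 1)) := by
  have h1 : Ub (TC (2 * a + 1) 3 1) p 3 n
      (2 ^ ((2 * p * (p + 12) * n) ^ a * ((2 * a + 1) * (p + Nat.log 2 n + 1) + 1) + 1)) := by
    rintro V c hc ⟨⟨s', hs', hR'⟩, ⟨s, hs, hR⟩⟩ hV
    obtain ⟨i, j, S, hS, hSc, hH⟩ := triples_two (a := a) hp hn
      (ρ' := fun x y z => s' {x, z} y)
      ⟨rk_of_rkF hR, rkM_of_rkF hR', fun x _ y _ z _ _ _ => hs' _ _⟩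
      (fun x _ y _ z _ _ _ => ⟨hc _, Nat.zero_le _, hs _ _⟩)
      (lt_of_lt_of_le (Nat.pow_lt_pow_right (by norm_num) (Nat.lt_succ_self _)) hV)
    exact ⟨S, hS, hSc, homog_of_triples (fun x hx y hy z hz hxy hyz =>
      (hH x hx y hy z hz hxy hyz).2)⟩
  intro j hj
  rcases (show j = 0 ∨ j = 1 by omega) with rfl | rfl
  · exact ub_flip (P' := TC (2 * a + 1) 3 0)
      (fun V c B hVB hP => (tc_fam (2 * a + 1)).flip 3 1 V c B (by omega) hVB hP) h1
  · exact h1

/-- Monotone triples, from nondecreasing colourings. -/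
theorem base_mon {n q a y : ℕ} (hn : 1 ≤ n)
    (hq : (q = 2 * a ∧ (26 * n) ^ a < y) ∨ (q = 2 * a + 1 ∧ (26 * n) ^ a * (Nat.log 2 n + 1) < y)) :
    ∀ j, j + 1 ≤ 3 → Ub (MC 3 j) q 3 n (2 ^ y) := by
  -- nondecreasing colourings
  have main : ∀ (κ : ℕ → ℕ → ℕ → ℕ) (V : Finset ℕ), (∀ x y z, κ x y z < q) → 2 ^ y ≤ V.card →
      (Rk (fun _ _ _ => 0) κ V ∨ RkM (fun _ _ _ => 0) κ V) →
      ∃ i, ∃ S ⊆ V, S.card = n ∧ ∀ x ∈ S, ∀ y ∈ S, ∀ z ∈ S, x < y → y < z → κ x y z = i := by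
    intro κ V hκ hV hR
    have hV' : (q = 2 * a ∧ 2 ^ ((26 * n) ^ a) < V.card) ∨
        (q = 2 * a + 1 ∧ 2 ^ ((26 * n) ^ a * (Nat.log 2 n + 1)) < V.card) := by
      rcases hq with ⟨h1, h2⟩ | ⟨h1, h2⟩
      · exact Or.inl ⟨h1, lt_of_lt_of_le (Nat.pow_lt_pow_right (by norm_num) h2) hV⟩
      · exact Or.inr ⟨h1, lt_of_lt_of_le (Nat.pow_lt_pow_right (by norm_num) h2) hV⟩
    rcases hR with hR | hR
    · exact triples_mono (fun _ _ h hW => Rk.sub h hW) (ext_last _ _) hn hR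
        (fun x _ y _ z _ _ _ => hκ x y z) hV'
    · exact triples_mono (fun _ _ h hW => RkM.sub h hW) (ext_mid _ _) hn hR
        (fun x _ y _ z _ _ _ => hκ x y z) hV'
  have h2 : Ub (MC 3 2) q 3 n (2 ^ y) := by
    intro V c hc hP hV
    rcases hP with hP | hP
    · obtain ⟨i, S, hS, hSc, hH⟩ := main (fun x y z => c (insert z {x, y})) V
        (fun _ _ _ => hc _) hV (Or.inl (by
          intro x hx y hy z hz w hw hxy hyz hzw
          exact ⟨hP {x, y} (pair_sub hx hy) (by rw [Finset.card_pair (by omega)]) z hz w hw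
            (pos_pair hxy hyz) (pos_pair hxy (hyz.trans hzw)) hzw, fun _ => rfl⟩))
      exact ⟨S, hS, hSc, homog_of_triples hH⟩
    · obtain ⟨i, S, hS, hSc, hH⟩ := main (fun x y z => q - 1 - c (insert z {x, y})) V
        (fun x y z => by
          have := hc (insert z {x, y})
          show q - 1 - c (insert z {x, y}) < q
          omega) hV (Or.inl (by
          intro x hx y hy z hz w hw hxy hyz hzw
          have := hP {x, y} (pair_sub hx hy) (by rw [Finset.card_pair (by omega)]) z hz w hw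
            (pos_pair hxy hyz) (pos_pair hxy (hyz.trans hzw)) hzw
          exact ⟨by
            show q - 1 - c (insert z {x, y}) ≤ q - 1 - c (insert w {x, y})
            omega, fun _ => rfl⟩))
      refine ⟨S, hS, hSc, homog_of_triples (j := q - 1 - i) (fun x hx y hy z hz hxy hyz => ?_)⟩
      have h3 : q - 1 - c (insert z {x, y}) = i := hH x hx y hy z hz hxy hyz
      have h4 := hc (insert z {x, y})
      omega
  have h1 : Ub (MC 3 1) q 3 n (2 ^ y) := by
    intro V c hc hP hV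
    rcases hP with hP | hP
    · obtain ⟨i, S, hS, hSc, hH⟩ := main (fun x y z => c (insert z {x, y})) V
        (fun _ _ _ => hc _) hV (Or.inr (by
          intro x hx y hy w hw z hz hxy hyw hwz
          have := hP {x, z} (pair_sub hx hz) (by rw [Finset.card_pair (by omega)]) y hy w hw
            (pos_mid hxy (hyw.trans hwz)) (pos_mid (hxy.trans hyw) hwz) hyw
          refine ⟨?_, fun _ => rfl⟩
          show c (insert z {x, y}) ≤ c (insert z {x, w})
          rw [swap_triple x y z, swap_triple x w z]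
          exact this))
      exact ⟨S, hS, hSc, homog_of_triples hH⟩
    · obtain ⟨i, S, hS, hSc, hH⟩ := main (fun x y z => q - 1 - c (insert z {x, y})) V
        (fun x y z => by
          have := hc (insert z {x, y})
          show q - 1 - c (insert z {x, y}) < q
          omega) hV (Or.inr (by
          intro x hx y hy w hw z hz hxy hyw hwz
          have := hP {x, z} (pair_sub hx hz) (by rw [Finset.card_pair (by omega)]) y hy w hw
            (pos_mid hxy (hyw.trans hwz)) (pos_mid (hxy.trans hyw) hwz) hyw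
          refine ⟨?_, fun _ => rfl⟩
          show q - 1 - c (insert z {x, y}) ≤ q - 1 - c (insert z {x, w})
          rw [swap_triple x y z, swap_triple x w z]
          omega))
      refine ⟨S, hS, hSc, homog_of_triples (j := q - 1 - i) (fun x hx y hy z hz hxy hyz => ?_)⟩
      have h3 : q - 1 - c (insert z {x, y}) = i := hH x hx y hy z hz hxy hyz
      have h4 := hc (insert z {x, y})
      omega
  intro j hj
  rcases (show j = 0 ∨ j = 1 ∨ j = 2 by omega) with rfl | rfl | rfl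
  · exact ub_flip (P' := MC 3 0)
      (fun V c B hVB hP => mc_fam.flip 3 2 V c B (by omega) hVB hP) h2
  · exact h1
  · exact h2

end Pool.Agent.Q118.CC
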