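import Pool.Agent.Q118.CC.StepUp
import Pool.Agent.Q118.CC.Up

/-!
# The lower bounds
-/

namespace Pool.Agent.Q118.CC

open Finset

/-- an increasing enumeration -/
theorem enum (S : Finset ℕ) : ∃ x : ℕ → ℕ, (∀ i < S.card, x i ∈ S) ∧
    ∀ i j, i < j → j < S.card → x i < x j := by
  classical
  refine ⟨fun i => if h : i < S.card then S.orderEmbOfFin rfl ⟨i, h⟩ else 0, ?_, ?_⟩
  · intro i hi
    simp only [dif_pos hi]
    exact S.orderEmbOfFin_mem rfl _
  · intro i j hij hj
    simp only [dif_pos hj, dif_pos (hij.trans hj)]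
    exact (S.orderEmbOfFin rfl).strictMono (by simpa using hij)

/-- A colouring of triples as a colouring of lists. -/
def toL (κ : ℕ → ℕ → ℕ → ℕ) : List ℕ → ℕ
  | [z, y, x] => κ x y z
  | _ => 0

theorem toL_three (κ : ℕ → ℕ → ℕ → ℕ) (x y z : ℕ) : toL κ [z, y, x] = κ x y z := rfl

theorem length_three {l : List ℕ} (h : l.length = 3) : ∃ z y x, l = [z, y, x] := by
  match l, h with
  | [z, y, x], _ => exact ⟨z, y, x, rfl⟩

/-- A decreasing list whose elements are in a decreasing list is a sublist. -/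
theorem sublist_of_DL {l s : List ℕ} (hl : DL l) (hs : DL s) (h : ∀ x ∈ l, x ∈ s) :
    l.Sublist s :=
  List.sublist_of_subperm_of_pairwise (List.Nodup.subperm hl.nodup h) hl hs

theorem LA.of_PW {J : ℕ → Prop} {b : Bool} {M N n : ℕ} {κ : ℕ → ℕ → ℕ → ℕ} (h : PW J b M N n κ) :
    LA J b M 3 N n (toL κ) := by
  refine ⟨?_, ?_, ?_⟩
  · intro l hl hlt hlen
    obtain ⟨z, y, x, rfl⟩ := length_three hlen
    have h1 := DL_cons2.1 hl
    have h2 := DL_cons2.1 h1.2
    exact h.val x y z h2.1 h1.1 (hlt z List.mem_cons_self)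
  · intro P S z w hk hz hw hzN hwN hlen hzw
    match P, S, hlen with
    | [], [y, x], _ =>
      have h1 := DL_cons2.1 hz
      have h2 := DL_cons2.1 h1.2
      exact h.mv.m0 hk x y z w h2.1 h1.1 hzw (hwN w List.mem_cons_self)
    | [p], [x], _ =>
      have h1 := DL_cons2.1 hw
      have h2 := DL_cons2.1 (DL_cons2.1 hz).2
      exact h.mv.m1 hk x z w p h2.1 hzw h1.1 (hwN p List.mem_cons_self)
    | [p, q], [], _ =>
      have h1 := DL_cons2.1 hw
      have h2 := DL_cons2.1 h1.2
      exact h.mv.m2 hk z w q p hzw h2.1 h1.1 (hwN p List.mem_cons_self)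
    | _ :: _ :: _ :: _, _, hlen =>
      exfalso
      simp only [List.cons_append, List.length_cons, List.length_append] at hlen
      omega
  · intro s hs hsN hsl v
    by_contra hcon
    refine h.nohom s.toFinset ?_ ?_ v ?_
    · intro x hx
      rw [List.mem_toFinset] at hx
      exact mem_range.2 (hsN x hx)
    · rw [List.toFinset_card_of_nodup hs.nodup, hsl]
    · intro x hx y hy z hz hxy hyz
      rw [List.mem_toFinset] at hx hy hz
      by_contra hne
      refine hcon ⟨[z, y, x], sublist_of_DL ?_ hs ?_, rfl, hne⟩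
      · exact DL_cons2.2 ⟨hyz, DL_cons2.2 ⟨hxy, by simp⟩⟩
      · intro u hu
        simp only [List.mem_cons, List.not_mem_nil, or_false] at hu
        rcases hu with rfl | rfl | rfl <;> assumption

/-- The sizes of the homogeneous sets in the stepping-up lemma. -/
def sz : ℕ → ℕ → ℕ
  | 0, n => n
  | (i + 1), n => 2 * sz i n + (i + 3)

theorem sz_eq (i n : ℕ) : sz i n + i + 4 = 2 ^ i * (n + 4) := by
  induction i with
  | zero => simp [sz]
  | succ i ih =>
    simp only [sz]
    calc 2 * sz i n + (i + 3) + (i + 1) + 4 = 2 * (sz i n + i + 4) := by ring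
      _ = 2 ^ (i + 1) * (n + 4) := by rw [ih, pow_succ]; ring

theorem sz_pos (i : ℕ) {n : ℕ} (hn : 1 ≤ n) : 1 ≤ sz i n := by
  cases i with
  | zero => exact hn
  | succ i => simp only [sz]; omega

/-- All positions. -/
theorem la_up_all {b : Bool} {M N n : ℕ} {c : List ℕ → ℕ} (hM : 1 ≤ M) (hn : 1 ≤ n)
    (h : LA (fun _ => True) b M 3 N n c) :
    ∀ i : ℕ, ∃ c' : List ℕ → ℕ, LA (fun _ => True) b M (i + 3) (tow i N) (sz i n) c' := by
  intro i
  induction i with
  | zero => exact ⟨c, h⟩
  | succ i ih =>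
    obtain ⟨c', h'⟩ := ih
    refine ⟨fun l => upc M (tow i N) c' c' (dl l), ?_⟩
    have := step_up (J := fun _ => True) (by omega) hM (sz_pos i hn) h' h'
      (fun _ _ _ => ⟨fun _ => trivial, fun _ => trivial, fun _ => trivial, fun _ => trivial⟩)
    have e : i + 3 + 1 = i + 1 + 3 := by omega
    rw [e] at this
    exact this

/-- One position. -/
theorem la_up_one {b : Bool} {M N n : ℕ} (hM : 1 ≤ M) (hn : 1 ≤ n)
    (h : ∀ k < 3, ∃ c : List ℕ → ℕ, LA (fun x => x = k) b M 3 N n c) :
    ∀ i : ℕ, ∀ k < i + 3, ∃ c' : List ℕ → ℕ,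
      LA (fun x => x = k) b M (i + 3) (tow i N) (sz i n) c' := by
  intro i
  induction i with
  | zero => exact h
  | succ i ih =>
    intro k hk
    obtain ⟨c1, h1⟩ := ih (min k (i + 2)) (by omega)
    obtain ⟨c2, h2⟩ := ih (k - 1) (by omega)
    refine ⟨fun l => upc M (tow i N) c1 c2 (dl l), ?_⟩
    have := step_up (J := fun x => x = k) (by omega) hM (sz_pos i hn) h1 h2 (by
      intro k' hk' hle
      have hk'' : k' = k := hk'
      show (k' < i + 3 → k' = min k (i + 2)) ∧ (0 < k' → k' - 1 = k - 1) ∧ (k' = 0 → 0 = k - 1) ∧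
        (k' = i + 3 → i + 3 - 1 = min k (i + 2))
      refine ⟨fun _ => by omega, fun _ => by omega, fun _ => by omega, fun _ => by omega⟩)
    have e : i + 3 + 1 = i + 1 + 3 := by omega
    rw [e] at this
    exact this

/-- Alphabet with two letters. -/
theorem al_two (J : ℕ → Prop) {n : ℕ} (hn : 3 ≤ n) : AL J false 1 2 n (fun _ _ _ => 0) := by
  refine ⟨?_, ⟨?_, ?_, ?_⟩, ?_⟩
  · intro x y z hxy hyz hz; omega
  · intro _ x y z w _ _ _ _; exact cmp_refl _ _
  · intro _ x y z w _ _ _ _; exact cmp_refl _ _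
  · intro _ x y z w _ _ _ _; exact cmp_refl _ _
  · intro S hS hSc v _
    have := card_le_card hS
    rw [card_range] at this
    omega

/-- Alphabet with one colour. -/
theorem al_one (J : ℕ → Prop) {n : ℕ} (hn : 3 ≤ n) : AL J false 2 (n - 1) n (fun _ _ _ => 2) := by
  refine ⟨?_, ⟨?_, ?_, ?_⟩, ?_⟩
  · intro x y z _ _ _
    exact ⟨⟨Or.inr (Or.inr ⟨le_refl _, by norm_num⟩), fun h => by norm_num at h⟩, le_refl _,
      by norm_num⟩
  · intro _ x y z w _ _ _ _; exact cmp_refl _ _
  · intro _ x y z w _ _ _ _; exact cmp_refl _ _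
  · intro _ x y z w _ _ _ _; exact cmp_refl _ _
  · intro S hS hSc v _
    have := card_le_card hS
    rw [card_range] at this
    omega

/-- The third vertex which is left out. -/
def pr (k : ℕ) (f : ℕ → ℕ → ℕ) (x y z : ℕ) : ℕ :=
  if k = 0 then f x y else if k = 1 then f x z else f y z

theorem pr_mv {k : ℕ} (hk : k < 3) (N : ℕ) (f : ℕ → ℕ → ℕ) : Mv (fun x => x = k) N (pr k f) := by
  refine ⟨?_, ?_, ?_⟩
  · intro h x y z w _ _ _ _
    have h' : 0 = k := h
    subst h'
    exact cmp_refl _ _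
  · intro h x y w z _ _ _ _
    have h' : 1 = k := h
    subst h'
    exact cmp_refl _ _
  · intro h x w y z _ _ _ _
    have h' : 2 = k := h
    subst h'
    exact cmp_refl _ _

/-- Alphabet with two colours which depend on two of the three letters only. -/
theorem al_pairs {k n j : ℕ} (hk : k < 3) (hn : 4 * j + 5 ≤ n) (s : ℕ) :
    ∃ f : ℕ → ℕ → ℕ, (∀ x y, f x y = s ∨ f x y = s + 1) ∧
      ∀ S ⊆ range (2 ^ j), S.card = n → ∀ v, ¬ H3 (pr k f) S v := by
  obtain ⟨χ, hχ⟩ := Pool.Agent.TH138.NF.exists_chi j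
  refine ⟨fun x y => if χ x y = true then s else s + 1, ?_, ?_⟩
  · intro x y
    show (if χ x y = true then s else s + 1) = s ∨ (if χ x y = true then s else s + 1) = s + 1
    split_ifs
    · exact Or.inl rfl
    · exact Or.inr rfl
  · intro S hS hSc v hv
    obtain ⟨x, hxS, hxlt⟩ := enum S
    have hinj : ∀ i j, i < S.card → j < S.card → x i = x j → i = j := by
      intro i j hi hj h
      rcases lt_trichotomy i j with h1 | h1 | h1
      · have := hxlt i j h1 hj; omega
      · exact h1
      · have := hxlt j i h1 hi; omega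
    have pick : ∀ o1 o2, o1 + (2 * j + 2) ≤ n → o2 + (2 * j + 2) ≤ n → ∀ c : Bool,
        ∃ i i', o1 ≤ i ∧ i < o1 + (2 * j + 2) ∧ o2 ≤ i' ∧ i' < o2 + (2 * j + 2) ∧
          χ (x i) (x i') ≠ c := by
      intro o1 o2 h1 h2 c
      have hset : ∀ o, o + (2 * j + 2) ≤ n →
          (∀ a ∈ (range (2 * j + 2)).image (fun i => x (o + i)), a < 2 ^ j) ∧
          ((range (2 * j + 2)).image (fun i => x (o + i))).card = 2 * j + 2 := by
        intro o ho
        constructor
        · intro a ha
          rw [mem_image] at ha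
          obtain ⟨i, hi, rfl⟩ := ha
          rw [mem_range] at hi
          exact mem_range.1 (hS (hxS _ (by omega)))
        · rw [card_image_of_injOn, card_range]
          intro i hi i' hi' hii
          rw [coe_range, Set.mem_Iio] at hi hi'
          have := hinj (o + i) (o + i') (by omega) (by omega) hii
          omega
      obtain ⟨a, ha, b, hb, hab⟩ := hχ _ _ (hset o1 h1).1 (hset o2 h2).1 (hset o1 h1).2
        (hset o2 h2).2 c
      rw [mem_image] at ha hb
      obtain ⟨i, hi, rfl⟩ := ha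
      obtain ⟨i', hi', rfl⟩ := hb
      rw [mem_range] at hi hi'
      exact ⟨o1 + i, o2 + i', by omega, by omega, by omega, by omega, hab⟩
    -- the two halves
    have hfin : ∃ i i', i < n ∧ i' < n ∧
        χ (x i) (x i') ≠ decide (v = s) ∧
        (if χ (x i) (x i') = true then s else s + 1) = v := by
      rcases (show k = 0 ∨ k = 1 ∨ k = 2 by omega) with rfl | rfl | rfl
      · obtain ⟨i, i', h1, h2, h3, h4, h5⟩ := pick 0 (2 * j + 2) (by omega) (by omega)
          (decide (v = s))
        exact ⟨i, i', by omega, by omega, h5, hv (x i) (hxS _ (by omega)) (x i')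
          (hxS _ (by omega)) (x (4 * j + 4)) (hxS _ (by omega)) (hxlt _ _ (by omega) (by omega))
          (hxlt _ _ (by omega) (by omega))⟩
      · obtain ⟨i, i', h1, h2, h3, h4, h5⟩ := pick 0 (2 * j + 3) (by omega) (by omega)
          (decide (v = s))
        exact ⟨i, i', by omega, by omega, h5, hv (x i) (hxS _ (by omega)) (x (2 * j + 2))
          (hxS _ (by omega)) (x i') (hxS _ (by omega)) (hxlt _ _ (by omega) (by omega))
          (hxlt _ _ (by omega) (by omega))⟩
      · obtain ⟨i, i', h1, h2, h3, h4, h5⟩ := pick 1 (2 * j + 3) (by omega) (by omega)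
          (decide (v = s))
        exact ⟨i, i', by omega, by omega, h5, hv (x 0) (hxS _ (by omega)) (x i)
          (hxS _ (by omega)) (x i') (hxS _ (by omega)) (hxlt _ _ (by omega) (by omega))
          (hxlt _ _ (by omega) (by omega))⟩
    obtain ⟨i, i', _, _, h5, h6⟩ := hfin
    by_cases hvs : v = s
    · rw [decide_eq_true hvs] at h5
      rw [if_neg h5] at h6
      omega
    · rw [decide_eq_false hvs] at h5
      have h2 : χ (x i) (x i') = true := by
        cases h3 : χ (x i) (x i')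
        · exact absurd h3 h5
        · rfl
      rw [if_pos h2] at h6
      omega

theorem pr_or {k s : ℕ} {f : ℕ → ℕ → ℕ} (h : ∀ x y, f x y = s ∨ f x y = s + 1) (x y z : ℕ) :
    pr k f x y z = s ∨ pr k f x y z = s + 1 := by
  unfold pr
  split_ifs
  · exact h _ _
  · exact h _ _
  · exact h _ _

theorem al_three {k n j : ℕ} (hk : k < 3) (hn : 4 * j + 5 ≤ n) :
    ∃ κ : ℕ → ℕ → ℕ → ℕ, AL (fun x => x = k) true 2 (2 ^ j) n κ := by
  obtain ⟨f, h1, h3⟩ := al_pairs hk hn 2
  refine ⟨pr k f, ?_, pr_mv hk _ f, h3⟩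
  intro x y z _ _ _
  have h := pr_or (k := k) h1 x y z
  refine ⟨⟨Or.inr (Or.inr ⟨by omega, by omega⟩), fun h4 => ⟨rfl, by omega, by norm_num⟩⟩,
    by omega, by omega⟩

/-- Odd number of changes, all positions. -/
theorem low_odd (i a n : ℕ) (hn : 3 ≤ n) :
    ∃ c, LA (fun _ => True) false (1 + 2 * a) (i + 3) (tow i (2 ^ ((n - 2) ^ (a + 1)))) (sz i n) c := by
  obtain ⟨κ, hκ⟩ := powers (by omega) (by omega) hn (al_two _ hn) a
  exact la_up_all (by omega) (by omega) (LA.of_PW hκ) i

/-- Even number of changes, all positions. -/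
theorem low_even_all (i a n : ℕ) (hn : 3 ≤ n) :
    ∃ c, LA (fun _ => True) false (2 + 2 * a) (i + 3) (tow i ((n - 1) ^ ((n - 2) ^ (a + 1))))
      (sz i n) c := by
  obtain ⟨κ, hκ⟩ := powers (by omega) (by omega) hn (al_one _ hn) a
  exact la_up_all (by omega) (by omega) (LA.of_PW hκ) i

/-- Even number of changes, one position. -/
theorem low_even_one (i a j n k : ℕ) (hn : 4 * j + 5 ≤ n) (hk : k < i + 3) :
    ∃ c, LA (fun x => x = k) true (2 + 2 * a) (i + 3) (tow i ((2 ^ j) ^ ((n - 2) ^ (a + 1))))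
      (sz i n) c := by
  refine la_up_one (by omega) (by omega) ?_ i k hk
  intro k' hk'
  obtain ⟨κ0, hκ0⟩ := al_three hk' hn
  obtain ⟨κ, hκ⟩ := powers (by omega) (Nat.one_le_pow _ _ (by norm_num)) (by omega) hκ0 a
  exact ⟨_, LA.of_PW hκ⟩

end Pool.Agent.Q118.CC
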