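import Pool.Agent.Q118.CC.Conv

/-!
# Colourings with few colour changes: the orders of magnitude
-/

namespace Pool.Agent.Q118.CC

open Finset

theorem tow_tow (i N : ℕ) : tow i (2 ^ N) = tow (i + 1) N := by
  induction i with
  | zero => rfl
  | succ i ih =>
    show 2 ^ tow i (2 ^ N) = 2 ^ tow (i + 1) N
    rw [ih]

theorem t_facts {i n k : ℕ} (hk : 1 ≤ k) (hn : 2 ^ i * 32 * k ≤ n) :
    32 ≤ n / 2 ^ i ∧ n / (2 ^ i * 32 * k) * k ≤ n / 2 ^ i / 32 ∧
      sz i (n / 2 ^ i - 4) ≤ n := by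
  have h0 : 0 < 2 ^ i := by positivity
  have h1 : 32 ≤ n / 2 ^ i := by
    rw [Nat.le_div_iff_mul_le h0]
    calc 32 * 2 ^ i = 2 ^ i * 32 * 1 := by ring
      _ ≤ 2 ^ i * 32 * k := Nat.mul_le_mul_left _ hk
      _ ≤ n := hn
  refine ⟨h1, ?_, ?_⟩
  · rw [← Nat.div_div_eq_div_mul, ← Nat.div_div_eq_div_mul]
    exact Nat.div_mul_le_self _ _
  · have h2 := sz_eq i (n / 2 ^ i - 4)
    have h3 : n / 2 ^ i - 4 + 4 = n / 2 ^ i := by omega
    rw [h3] at h2
    have h4 := Nat.mul_div_le n (2 ^ i)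
    omega

/-- Colourings of triples which do not depend on the moving vertex. -/
theorem lower_zero {j k n : ℕ} (hj : j < 3) (hn : 4 * k + 5 ≤ n) :
    ∃ c, Colouring 3 2 (2 ^ k) c ∧ FewChanges 3 j 0 (2 ^ k) c ∧ ¬ HasHomog 3 (2 ^ k) n c := by
  obtain ⟨κ, hκ⟩ := al_three (k := 3 - 1 - j) (by omega) hn
  have hPW : PW (fun x => x = 3 - 1 - j) true 2 (2 ^ k) n κ :=
    ⟨fun x y z h1 h2 h3 => (hκ.val x y z h1 h2 h3).1, hκ.mv, hκ.nohom⟩
  have hLR := LR.of_LA (LA.of_PW hPW)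
  have hval : ∀ A ⊆ range (2 ^ k), A.card = 3 → toC (toL κ) A = 2 ∨ toC (toL κ) A = 3 := by
    intro A hA hAc
    obtain ⟨z, y, x, h1⟩ := length_three (show (A.sort (· ≥ ·)).length = 3 by
      rw [length_sort, hAc])
    have h2 := sort_DL A
    have h3 : z ∈ A := by
      rw [← mem_sort (· ≥ ·), h1]; simp
    unfold toC
    rw [h1] at h2 ⊢
    have h4 := DL_cons2.1 h2
    have h5 := hκ.val x y z (DL_cons2.1 h4.2).1 h4.1 (mem_range.1 (hA h3))
    rw [toL_three]
    omega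
  refine ⟨fun A => toC (toL κ) A - 2, ?_, ?_, ?_⟩
  · intro A hA hAc
    have := hval A hA hAc
    show toC (toL κ) A - 2 < 2
    omega
  · intro e he hec
    have h4 : ((range (2 ^ k)).filter (fun z => Pos j e z ∧ Pos j e (z + 1) ∧ z + 1 < 2 ^ k ∧
        toC (toL κ) (insert z e) - 2 ≠ toC (toL κ) (insert (z + 1) e) - 2)) = ∅ := by
      rw [filter_eq_empty_iff]
      rintro z hz ⟨h1, h2, h3, hne⟩
      have h5 := hLR.mono j hj rfl e he hec z hz (z + 1) (mem_range.2 h3) h1 h2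
        (Nat.lt_succ_self _)
      have h6 := hval _ (insert_sub he hz) (by rw [card_insert_of_notMem h1.1, hec])
      have h7 := hval _ (insert_sub he (mem_range.2 h3))
        (by rw [card_insert_of_notMem h2.1, hec])
      apply hne
      rw [h5.2 (by omega)]
    show ((range (2 ^ k)).filter (fun z => Pos j e z ∧ Pos j e (z + 1) ∧ z + 1 < 2 ^ k ∧
        toC (toL κ) (insert z e) - 2 ≠ toC (toL κ) (insert (z + 1) e) - 2)).card ≤ 0
    rw [h4, card_empty]
  · rintro ⟨S, hS, hSc, hH⟩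
    refine hLR.nohom S hS hSc ?_
    intro A hA B hB hAc hBc
    have h1 : toC (toL κ) A - 2 = toC (toL κ) B - 2 := hH A hA B hB hAc hBc
    have h2 := hval A (hA.trans hS) hAc
    have h3 := hval B (hB.trans hS) hBc
    omega

/-- **Lower bound**, one position. -/
theorem lower_one (r j m : ℕ) (hr : 3 ≤ r) (hj : j < r) (hm : 1 ≤ m ∨ r = 3) :
    ∃ C, 1 ≤ C ∧ ∀ n, C ≤ n → ∃ c,
      Colouring r (m + 2) (tow (r - 2) ((n / C) ^ (m / 2 + 1))) c ∧
      FewChanges r j m (tow (r - 2) ((n / C) ^ (m / 2 + 1))) c ∧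
      ¬ HasHomog r (tow (r - 2) ((n / C) ^ (m / 2 + 1))) n c := by
  obtain ⟨i, rfl⟩ : ∃ i, r = i + 3 := ⟨r - 3, by omega⟩
  have hC : 1 ≤ 2 ^ i * 32 * 1 := by
    have : 1 ≤ 2 ^ i := Nat.one_le_pow _ _ (by norm_num)
    omega
  refine ⟨2 ^ i * 32 * 1, hC, ?_⟩
  intro n hn
  obtain ⟨h1, h2, h3⟩ := t_facts (le_refl 1) hn
  rw [mul_one] at h2
  set t := n / 2 ^ i with ht
  set k := n / (2 ^ i * 32 * 1) with hk
  have e : i + 3 - 2 = i + 1 := by omega
  rw [e]
  rcases Nat.even_or_odd m with ⟨a, ha⟩ | ⟨a, ha⟩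
  · rcases Nat.eq_zero_or_pos a with ha0 | ha0
    · have hi : i = 0 := by omega
      have hm0 : m = 0 := by omega
      subst hi
      subst hm0
      have h4 : tow (0 + 1) (k ^ (0 / 2 + 1)) = 2 ^ k := by
        show 2 ^ tow 0 (k ^ (0 / 2 + 1)) = 2 ^ k
        simp [tow]
      rw [h4]
      have h5 : t = n := by rw [ht, pow_zero, Nat.div_one]
      exact lower_zero hj (by omega)
    · obtain ⟨a', rfl⟩ : ∃ a', a = a' + 1 := ⟨a - 1, by omega⟩
      obtain ⟨c, hc⟩ := low_even_one i a' ((t - 9) / 4) (t - 4) (i + 3 - 1 - j) (by omega) (by omega)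
      rw [← pow_mul, tow_tow] at hc
      have hle : k ^ (m / 2 + 1) ≤ (t - 9) / 4 * (t - 4 - 2) ^ (a' + 1) := by
        have h4 : m / 2 + 1 = (a' + 1) + 1 := by omega
        rw [h4, pow_succ, mul_comm]
        exact Nat.mul_le_mul (by omega) (Nat.pow_le_pow_left (by omega) _)
      have hc' := (LR.of_LA hc).le (tow_mono (i + 1) hle) h3
      have hM : 2 + 2 * a' = m := by omega
      rw [hM] at hc'
      exact ⟨_, hc'.colouring, hc'.few hj rfl, hc'.no_homog⟩
  · obtain ⟨c, hc⟩ := low_odd i a (t - 4) (by omega)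
    rw [tow_tow] at hc
    have hle : k ^ (m / 2 + 1) ≤ (t - 4 - 2) ^ (a + 1) := by
      have h4 : m / 2 + 1 = a + 1 := by omega
      rw [h4]
      exact Nat.pow_le_pow_left (by omega) _
    have hc' := (LR.of_LA hc).le (tow_mono (i + 1) hle) h3
    have hM : 1 + 2 * a = m := by omega
    rw [hM] at hc'
    exact ⟨_, hc'.colouring, hc'.few hj trivial, hc'.no_homog⟩

/-- **Lower bound**, all positions. -/
theorem lower_all (r q : ℕ) (hr : 3 ≤ r) (hq : 2 ≤ q) :
    ∃ C, 1 ≤ C ∧ ∀ n, C ≤ n → ∃ c,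
      Colouring r q (tow (r - 2) (phi q (n / C) (Nat.log 2 n))) c ∧
      (∀ j < r, MC r j (range (tow (r - 2) (phi q (n / C) (Nat.log 2 n)))) c ∧
        FewChanges r j (q - 1) (tow (r - 2) (phi q (n / C) (Nat.log 2 n))) c) ∧
      ¬ HasHomog r (tow (r - 2) (phi q (n / C) (Nat.log 2 n))) n c := by
  obtain ⟨i, rfl⟩ : ∃ i, r = i + 3 := ⟨r - 3, by omega⟩
  have e : i + 3 - 2 = i + 1 := by omega
  rw [e]
  have h2i : 1 ≤ 2 ^ i := Nat.one_le_pow _ _ (by norm_num)
  rcases Nat.even_or_odd q with ⟨a, ha⟩ | ⟨a, ha⟩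
  · obtain rfl : q = 2 * a := by omega
    refine ⟨2 ^ i * 32 * 1, by omega, ?_⟩
    intro n hn
    obtain ⟨h1, h2, h3⟩ := t_facts (le_refl 1) hn
    rw [mul_one] at h2
    set t := n / 2 ^ i with ht
    obtain ⟨a', rfl⟩ : ∃ a', a = a' + 1 := ⟨a - 1, by omega⟩
    obtain ⟨c, hc⟩ := low_odd i a' (t - 4) (by omega)
    rw [tow_tow] at hc
    rw [phi_even]
    have hc' := (LR.of_LA hc).le (tow_mono (i + 1)
      (Nat.pow_le_pow_left (show n / (2 ^ i * 32 * 1) ≤ t - 4 - 2 by omega) (a' + 1))) h3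
    obtain ⟨k1, k2, k3⟩ := hc'.mono_col
    have hM : 1 + 2 * a' + 1 = 2 * (a' + 1) := by ring
    have hM' : 1 + 2 * a' = 2 * (a' + 1) - 1 := by omega
    rw [hM] at k1
    rw [hM'] at k3
    exact ⟨_, k1, fun j hj => k3 j hj trivial, k2⟩
  · subst ha
    set B := 2 ^ i * 32 * (i + 3) with hB
    have hB1 : 1 ≤ B := Nat.mul_pos (by omega) (by omega)
    have hB32 : 32 ≤ B := by
      calc 32 = 1 * 32 * 1 := by norm_num
        _ ≤ 2 ^ i * 32 * (i + 3) := Nat.mul_le_mul (Nat.mul_le_mul_right _ h2i) (by omega)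
    refine ⟨B, hB1, ?_⟩
    intro n hn
    have hlog : 1 ≤ Nat.log 2 n := Nat.log_pos (by norm_num) (by omega)
    obtain ⟨h1, h2, h3⟩ := t_facts (show 1 ≤ i + 3 by omega) hn
    rw [← hB] at h2
    set t := n / 2 ^ i with ht
    obtain ⟨a', rfl⟩ : ∃ a', a = a' + 1 := ⟨a - 1, by omega⟩
    obtain ⟨c, hc⟩ := low_even_all i a' (t - 4) (by omega)
    set k := n / B with hkd
    have hk2 : k * (i + 3) ≤ t - 4 - 2 := by omega
    set L := Nat.log 2 (t - 4 - 1) with hL
    have hL1 : 1 ≤ L := Nat.log_pos (by norm_num) (by omega)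
    have hlogn : Nat.log 2 n ≤ (i + 3) * L := by
      have h4 : n < 2 ^ (i + 2 + L) := by
        have h5 : n < 2 ^ i * (t + 1) := by
          have := Nat.lt_mul_div_succ n (show 0 < 2 ^ i by omega)
          rw [← ht] at this
          exact this
        have h6 : t + 1 ≤ 2 * (t - 4 - 1) := by omega
        have h7 : t - 4 - 1 < 2 ^ (L + 1) := Nat.lt_pow_succ_log_self (by norm_num) _
        calc n < 2 ^ i * (t + 1) := h5
          _ ≤ 2 ^ i * (2 * 2 ^ (L + 1)) := Nat.mul_le_mul_left _ (by omega)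
          _ = 2 ^ (i + 2 + L) := by rw [← pow_succ', ← pow_add]; congr 1; ring
      have h5 := Nat.log_lt_of_lt_pow (show n ≠ 0 by omega) h4
      nlinarith
    rw [phi_odd]
    have hN : tow (i + 1) (k ^ (a' + 1) * Nat.log 2 n) ≤
        tow i ((t - 4 - 1) ^ ((t - 4 - 2) ^ (a' + 1))) := by
      rw [← tow_tow]
      apply tow_mono
      calc 2 ^ (k ^ (a' + 1) * Nat.log 2 n) ≤ 2 ^ (L * (t - 4 - 2) ^ (a' + 1)) := by
            apply Nat.pow_le_pow_right (by norm_num)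
            calc k ^ (a' + 1) * Nat.log 2 n ≤ k ^ (a' + 1) * ((i + 3) * L) :=
                  Nat.mul_le_mul_left _ hlogn
              _ = k ^ (a' + 1) * (i + 3) * L := by ring
              _ ≤ k ^ (a' + 1) * (i + 3) ^ (a' + 1) * L :=
                  Nat.mul_le_mul_right _ (Nat.mul_le_mul_left _ (Nat.le_self_pow (by omega) _))
              _ = (k * (i + 3)) ^ (a' + 1) * L := by rw [mul_pow]
              _ ≤ (t - 4 - 2) ^ (a' + 1) * L :=
                  Nat.mul_le_mul_right _ (Nat.pow_le_pow_left hk2 _)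
              _ = L * (t - 4 - 2) ^ (a' + 1) := mul_comm _ _
        _ = (2 ^ L) ^ ((t - 4 - 2) ^ (a' + 1)) := pow_mul _ _ _
        _ ≤ (t - 4 - 1) ^ ((t - 4 - 2) ^ (a' + 1)) :=
            Nat.pow_le_pow_left (Nat.pow_log_le_self 2 (by omega)) _
    have hc' := (LR.of_LA hc).le hN h3
    obtain ⟨k1, k2, k3⟩ := hc'.mono_col
    have hM : 2 + 2 * a' + 1 = 2 * (a' + 1) + 1 := by ring
    have hM' : 2 + 2 * a' = 2 * (a' + 1) + 1 - 1 := by omega
    rw [hM] at k1
    rw [hM'] at k3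
    exact ⟨_, k1, fun j hj => k3 j hj trivial, k2⟩

theorem sq_le_two_pow : ∀ L : ℕ, L * L ≤ 2 * 2 ^ L := by
  intro L
  induction L with
  | zero => norm_num
  | succ L ih =>
    rcases Nat.lt_or_ge L 3 with h | h
    · interval_cases L <;> norm_num
    · rw [pow_succ]
      nlinarith

/-- **Tower growth of full height needs many changes in every position.** -/
theorem full_height (r p j K : ℕ) (hr : 3 ≤ r) (hj : j < r) (hK : 1 ≤ K) : ∃ D, 1 ≤ D ∧
    ∀ n, D ≤ n → ∀ N c, tow (r - 1) (n / K) ≤ N → Colouring r p N c → ¬ HasHomog r N n c →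
      ∃ e ⊆ range N, e.card + 1 = r ∧ n ≤ D * changes j c N e * Nat.log 2 n := by
  obtain ⟨C, hC, hup⟩ := upper r p j hr hj
  set Q := K * (C + 2) with hQ
  have hQ1 : 1 ≤ Q := Nat.mul_pos hK (by omega)
  refine ⟨64 * Q ^ 2, by nlinarith [Nat.one_le_pow 2 Q hQ1], ?_⟩
  intro n hn N c hN hcol hno
  by_contra hcon
  push Not at hcon
  have hQ2 : 1 ≤ Q ^ 2 := Nat.one_le_pow _ _ hQ1
  set L := Nat.log 2 n with hL
  have hL1 : 1 ≤ L := Nat.log_pos (by norm_num) (by omega)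
  set m := n / (64 * Q ^ 2 * L) with hm
  have hfew : FewChanges r j m N c := by
    intro e he hec
    have h1 := hcon e he hec
    rw [hm, Nat.le_div_iff_mul_le (Nat.mul_pos (by omega) hL1)]
    calc changes j c N e * (64 * Q ^ 2 * L) = 64 * Q ^ 2 * changes j c N e * L := by ring
      _ ≤ n := h1.le
  apply hno
  apply hup m n N _ c hcol hfew
  refine le_trans ?_ hN
  have e1 : r - 1 = r - 2 + 1 := by omega
  rw [e1, ← tow_tow]
  apply tow_mono
  -- `(C n) ^ (m / 2 + 1) ≤ 2 ^ (n / K)`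
  have hCn : C * n ≤ 2 ^ ((C + 2) * L) := by
    calc C * n ≤ 2 ^ C * 2 ^ (L + 1) :=
          Nat.mul_le_mul Nat.lt_two_pow_self.le (Nat.lt_pow_succ_log_self (by norm_num) n).le
      _ = 2 ^ (C + (L + 1)) := (pow_add _ _ _).symm
      _ ≤ 2 ^ ((C + 2) * L) := Nat.pow_le_pow_right (by norm_num) (by nlinarith)
  calc (C * n) ^ (m / 2 + 1) ≤ (2 ^ ((C + 2) * L)) ^ (m / 2 + 1) := Nat.pow_le_pow_left hCn _
    _ = 2 ^ ((C + 2) * L * (m / 2 + 1)) := (pow_mul _ _ _).symm
    _ ≤ 2 ^ (n / K) := by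
        apply Nat.pow_le_pow_right (by norm_num)
        rw [Nat.le_div_iff_mul_le (by omega)]
        have h1 : (C + 2) * L * (m / 2 + 1) * K = Q * L * (m / 2 + 1) := by rw [hQ]; ring
        rw [h1]
        have h2 : Q * L * (m / 2 + 1) ≤ Q * L * m + Q * L := by
          calc Q * L * (m / 2 + 1) ≤ Q * L * (m + 1) :=
                Nat.mul_le_mul_left _ (Nat.add_le_add_right (Nat.div_le_self _ _) _)
            _ = Q * L * m + Q * L := by ring
        have h3 : 2 * (Q * L * m) ≤ n := by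
          have h4 : m * (64 * Q ^ 2 * L) ≤ n := Nat.div_mul_le_self _ _
          have h5 : 2 * (Q * L * m) ≤ m * (64 * Q ^ 2 * L) := by
            have h6 : Q ≤ Q ^ 2 := Nat.le_self_pow (by norm_num) Q
            calc 2 * (Q * L * m) = 2 * Q * (L * m) := by ring
              _ ≤ 64 * Q ^ 2 * (L * m) := Nat.mul_le_mul_right _ (by omega)
              _ = m * (64 * Q ^ 2 * L) := by ring
          omega
        have h4 : 2 * (Q * L) ≤ n := by
          have h5 : L * L ≤ 2 * n := by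
            have h6 := sq_le_two_pow L
            have h7 : 2 ^ L ≤ n := Nat.pow_log_le_self 2 (by omega)
            omega
          by_contra h6
          push Not at h6
          have h7 : n * n < 2 * (Q * L) * (2 * (Q * L)) := Nat.mul_self_lt_mul_self h6
          have h8 : 2 * (Q * L) * (2 * (Q * L)) = 4 * Q ^ 2 * (L * L) := by ring
          have h9 : 4 * Q ^ 2 * (L * L) ≤ 4 * Q ^ 2 * (2 * n) := Nat.mul_le_mul_left _ h5
          have h10 : 4 * Q ^ 2 * (2 * n) ≤ n * n := by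
            calc 4 * Q ^ 2 * (2 * n) = 8 * Q ^ 2 * n := by ring
              _ ≤ n * n := Nat.mul_le_mul_right _ (by omega)
          omega
        omega

end Pool.Agent.Q118.CC
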