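import Pool.Agent.Q118.CC.Budget

/-!
# Colourings with many colour changes: the upper bound
-/

namespace Pool.Agent.Q118.CC

open Finset

theorem exists_pair {A : Finset ℕ} (hA : A.card = 2) :
    ∃ x y, x < y ∧ A = insert y {x} := by
  obtain ⟨x, y, hne, hA⟩ := Finset.card_eq_two.1 hA
  rcases lt_or_gt_of_ne hne with h | h
  · exact ⟨x, y, h, by rw [hA]; exact Finset.pair_comm x y⟩
  · exact ⟨y, x, h, hA⟩

theorem homog_of_pairs {c : Finset ℕ → ℕ} {S : Finset ℕ} {j : ℕ}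
    (h : ∀ x ∈ S, ∀ y ∈ S, x < y → c (insert y {x}) = j) : Homog 2 c S := by
  intro A hA B hB hAc hBc
  obtain ⟨x, y, hxy, rfl⟩ := exists_pair hAc
  obtain ⟨x', y', hxy', rfl⟩ := exists_pair hBc
  rw [h x (hA (by simp)) y (hA (by simp)) hxy, h x' (hB (by simp)) y' (hB (by simp)) hxy']

theorem base_pairs {p n m t w : ℕ} (hp : 1 ≤ p) (ht : 1 ≤ t) (hw : 2 ≤ w) : ∀ j, j + 1 ≤ 2 →
    Ub (FC (m + 1) 2 j) p 2 n
      (((16 * p) ^ (p * w) * (16 * t)) ^ (m / t + p * Nat.log w n + 1)) := by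
  have h1 : Ub (FC (m + 1) 2 1) p 2 n
      (((16 * p) ^ (p * w) * (16 * t)) ^ (m / t + p * Nat.log w n + 1)) := by
    rintro V c hc ⟨s, hs, hR⟩ hV
    by_contra hno
    have := pairs_bound (f := fun x y => c (insert y {x})) (g := fun x y => s {x} y) hp ht hw
      (m / t + p * Nat.log w n + 1) m V (fun _ => n) (fun x _ y _ _ => hc _) (by
        intro x hx y hy z hz hxy hyz
        have hpos : ∀ u, x < u → Pos 1 {x} u := by
          intro u hu
          have := pos_top (e := {x}) (z := u) (by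
            intro v hv
            rw [mem_singleton] at hv
            rw [hv]; exact hu)
          rw [card_singleton] at this
          exact this
        have h2 := hR {x} (singleton_subset_iff.2 hx) (by rw [card_singleton]) y hy z hz
          (hpos y hxy) (hpos z (hxy.trans hyz)) hyz
        have h3 := hs {x} z
        exact ⟨h2.1, by show s {x} z ≤ s {x} y + m; omega, h2.2⟩) (by
        intro j _ S hS hSh
        by_contra hSn
        push Not at hSn
        obtain ⟨S', hS', hS'c⟩ := Finset.exists_subset_card_eq hSn.le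
        exact hno ⟨S', hS'.trans hS, hS'c, homog_of_pairs (fun x hx y hy hxy =>
          hSh x (hS' hx) y (hS' hy) hxy)⟩) (by
        rw [sum_const, card_range, smul_eq_mul]
        exact Nat.lt_succ_self _)
    omega
  intro j hj
  rcases (show j = 0 ∨ j = 1 by omega) with rfl | rfl
  · exact ub_flip (P' := FC (m + 1) 2 0)
      (fun V c B hVB hP => (fc_fam (m + 1)).flip 2 1 V c B (by omega) hVB hP) h1
  · exact h1

/-- Triples. -/
theorem base_many {p n q F : ℕ} (hp : 2 ≤ p) (hF : 1 ≤ F)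
    (h : ∀ j, j + 1 ≤ 2 → Ub (FC q 2 j) p 2 n F) : ∀ j, j + 1 ≤ 3 →
    Ub (FC q 3 j) p 3 n (2 ^ (6 * p * F ^ 2)) := by
  have key : ∀ j, j + 1 ≤ 2 → Ub (FC q 3 (j + 1)) p 3 n (2 ^ (6 * p * F ^ 2)) := by
    intro j hj
    have h1 := ub_step (P' := FC q 3 (j + 1))
      (fun V V' c w hPc hw hV' hlt => (fc_fam q).link 2 j V V' c w hPc hw hV' hlt) hp
      (by norm_num) (h j hj)
    refine h1.mono ?_
    have h2 : (2 : ℕ) - 1 = 1 := rfl
    rw [h2, pow_one]
    calc p ^ ((F + 1) * ((F + 1) + 1)) ≤ (2 ^ p) ^ ((F + 1) * ((F + 1) + 1)) :=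
          Nat.pow_le_pow_left Nat.lt_two_pow_self.le _
      _ = 2 ^ (p * ((F + 1) * ((F + 1) + 1))) := (pow_mul _ _ _).symm
      _ ≤ 2 ^ (6 * p * F ^ 2) := by
        apply Nat.pow_le_pow_right (by norm_num)
        calc p * ((F + 1) * ((F + 1) + 1)) ≤ p * (2 * F * (3 * F)) :=
              Nat.mul_le_mul_left _ (Nat.mul_le_mul (by omega) (by omega))
          _ = 6 * p * F ^ 2 := by ring
  intro j hj
  rcases (show j = 0 ∨ j = 1 ∨ j = 2 by omega) with rfl | rfl | rfl
  · exact ub_flip (P' := FC q 3 0)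
      (fun V c B hVB hP => (fc_fam q).flip 3 2 V c B (by omega) hVB hP) (key 1 (by omega))
  · exact key 0 (by omega)
  · exact key 1 (by omega)

/-- Comparison of logarithms. -/
theorem log_compare {κ ℓ n : ℕ} (hκ : 1 ≤ κ) (hℓ : 2 ≤ ℓ) :
    Nat.log (ℓ / κ + 2) n ≤ (κ + 1) * (Nat.log ℓ n + 1) := by
  set w := ℓ / κ + 2 with hw
  have hw2 : 2 ≤ w := Nat.le_add_left _ _
  have h1 : ℓ ≤ w ^ (κ + 1) := by
    calc ℓ ≤ κ * (ℓ / κ + 1) := (Nat.lt_mul_div_succ _ (by omega)).le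
      _ ≤ 2 ^ κ * w := Nat.mul_le_mul Nat.lt_two_pow_self.le
          (Nat.add_le_add_left (by norm_num) _)
      _ ≤ w ^ κ * w := Nat.mul_le_mul_right _ (Nat.pow_le_pow_left hw2 _)
      _ = w ^ (κ + 1) := (pow_succ _ _).symm
  rcases Nat.eq_zero_or_pos n with rfl | hn
  · rw [Nat.log_zero_right]; exact Nat.zero_le _
  · have h2 : n < w ^ ((κ + 1) * (Nat.log ℓ n + 1)) := by
      calc n < ℓ ^ (Nat.log ℓ n + 1) := Nat.lt_pow_succ_log_self (by omega) _
        _ ≤ (w ^ (κ + 1)) ^ (Nat.log ℓ n + 1) := Nat.pow_le_pow_left h1 _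
        _ = w ^ ((κ + 1) * (Nat.log ℓ n + 1)) := (pow_mul _ _ _).symm
    exact (Nat.log_lt_of_lt_pow (by omega) h2).le

/-- **Upper bound** with a parameter. -/
theorem upper_param (r p j : ℕ) (hr : 3 ≤ r) (hj : j < r) : ∃ C, 1 ≤ C ∧ ∀ t m n N, 4 ≤ t →
    tow (r - 1) (C * (Nat.log 2 t * (m / t + Nat.log (Nat.log 2 t) n + 1))) ≤ N →
      ∀ c, Colouring r p N c → FewChanges r j m N c → HasHomog r N n c := by
  obtain ⟨i, rfl⟩ : ∃ i, r = i + 3 := ⟨r - 3, by omega⟩
  set P := max p 2 with hP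
  have hP2 : 2 ≤ P := le_max_right _ _
  have hpP : p ≤ P := le_max_left _ _
  obtain ⟨C0, hC0, hup⟩ := tower_all hP2 (show 1 ≤ 3 by norm_num) i j (by omega)
  set κ := 16 * P * P with hκ
  have hκ1 : 1 ≤ κ := by rw [hκ]; nlinarith
  set K1 := (2 * κ + 7) * (P * (κ + 1) + 1) with hK1
  refine ⟨C0 * (6 * P) + 2 * K1, by nlinarith, ?_⟩
  intro t m n N ht hN c hcol hch
  set τ := Nat.log 2 t with hτ
  have hτ2 : 2 ≤ τ := by
    rw [hτ]
    exact Nat.le_log_of_pow_le (by norm_num) ht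
  set lam := Nat.log τ n with hlam
  set w := τ / κ + 2 with hw
  have hw2 : 2 ≤ w := Nat.le_add_left _ _
  set M := (16 * P) ^ (P * w) * (16 * t) with hM
  have hM1 : 1 ≤ M := Nat.mul_pos (Nat.one_le_pow _ _ (by omega)) (by omega)
  set F := M ^ (m / t + P * Nat.log w n + 1) with hF
  have hF1 : 1 ≤ F := Nat.one_le_pow _ _ hM1
  have hbase := base_many (p := P) (n := n) (q := m + 1) (F := F) hP2 hF1
    (base_pairs (by omega) (by omega) hw2)
  have hy : 1 ≤ 6 * P * F ^ 2 := Nat.mul_pos (by omega) (Nat.one_le_pow _ _ hF1)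
  have hub := hup (FC (m + 1)) (fc_fam (m + 1)) (6 * P * F ^ 2) hy n hbase
  -- the size
  have hMle : M ≤ 2 ^ ((2 * κ + 7) * τ) := by
    have h1 : (16 * P) ^ (P * w) ≤ 2 ^ (τ + 2 * κ) := by
      calc (16 * P) ^ (P * w) ≤ (2 ^ (16 * P)) ^ (P * w) :=
            Nat.pow_le_pow_left Nat.lt_two_pow_self.le _
        _ = 2 ^ (κ * w) := by rw [← pow_mul, hκ]; congr 1; ring
        _ ≤ 2 ^ (τ + 2 * κ) := by
          apply Nat.pow_le_pow_right (by norm_num)
          have h2 : κ * (τ / κ) ≤ τ := Nat.mul_div_le _ _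
          calc κ * w = κ * (τ / κ) + 2 * κ := by rw [hw]; ring
            _ ≤ τ + 2 * κ := Nat.add_le_add_right h2 _
    have h2 : t ≤ 2 ^ (τ + 1) := (Nat.lt_pow_succ_log_self (by norm_num) t).le
    calc M ≤ 2 ^ (τ + 2 * κ) * (16 * 2 ^ (τ + 1)) :=
          Nat.mul_le_mul h1 (Nat.mul_le_mul_left _ h2)
      _ = 2 ^ (τ + 2 * κ + (4 + (τ + 1))) := by
        rw [pow_add 2 (τ + 2 * κ) (4 + (τ + 1)), pow_add 2 4 (τ + 1)]; norm_num
      _ ≤ 2 ^ ((2 * κ + 7) * τ) := by
        apply Nat.pow_le_pow_right (by norm_num)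
        nlinarith
  have hFle : F ≤ 2 ^ (K1 * (τ * (m / t + lam + 1))) := by
    have h1 : m / t + P * Nat.log w n + 1 ≤ (P * (κ + 1) + 1) * (m / t + lam + 1) := by
      have h2 := log_compare (n := n) hκ1 hτ2
      rw [← hw, ← hlam] at h2
      calc m / t + P * Nat.log w n + 1 ≤ m / t + P * ((κ + 1) * (lam + 1)) + 1 :=
            Nat.add_le_add_right (Nat.add_le_add_left (Nat.mul_le_mul_left _ h2) _) _
        _ ≤ m / t + P * ((κ + 1) * (lam + 1)) + 1 + (P * (κ + 1) * (m / t) + lam) :=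
            Nat.le_add_right _ _
        _ = (P * (κ + 1) + 1) * (m / t + lam + 1) := by ring
    calc F ≤ (2 ^ ((2 * κ + 7) * τ)) ^ (m / t + P * Nat.log w n + 1) :=
          Nat.pow_le_pow_left hMle _
      _ = 2 ^ ((2 * κ + 7) * τ * (m / t + P * Nat.log w n + 1)) := (pow_mul _ _ _).symm
      _ ≤ 2 ^ (K1 * (τ * (m / t + lam + 1))) := by
        apply Nat.pow_le_pow_right (by norm_num)
        calc (2 * κ + 7) * τ * (m / t + P * Nat.log w n + 1) ≤
              (2 * κ + 7) * τ * ((P * (κ + 1) + 1) * (m / t + lam + 1)) :=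
                Nat.mul_le_mul_left _ h1
          _ = K1 * (τ * (m / t + lam + 1)) := by rw [hK1]; ring
  have hle : C0 * (6 * P * F ^ 2) ≤
      2 ^ ((C0 * (6 * P) + 2 * K1) * (τ * (m / t + lam + 1))) := by
    have hll : 1 ≤ τ * (m / t + lam + 1) := Nat.mul_pos (by omega) (Nat.succ_pos _)
    calc C0 * (6 * P * F ^ 2) = C0 * (6 * P) * F ^ 2 := by ring
      _ ≤ 2 ^ (C0 * (6 * P) * (τ * (m / t + lam + 1))) *
          (2 ^ (K1 * (τ * (m / t + lam + 1)))) ^ 2 := by
        apply Nat.mul_le_mul _ (Nat.pow_le_pow_left hFle _)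
        exact Nat.lt_two_pow_self.le.trans
          (Nat.pow_le_pow_right (by norm_num) (Nat.le_mul_of_pos_right _ hll))
      _ = 2 ^ ((C0 * (6 * P) + 2 * K1) * (τ * (m / t + lam + 1))) := by
        rw [← pow_mul, ← pow_add]; congr 1; ring
  obtain ⟨S, hS, hSc, hH⟩ := hub (range N) (fun A => min (c A) (P - 1)) (fun A => by
      have : min (c A) (P - 1) ≤ P - 1 := min_le_right _ _
      omega) (fc_of_few hch) (by
      rw [card_range]
      refine le_trans (tow_mono (i + 1) hle) ?_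
      rw [tow_tow]
      exact hN)
  exact ⟨S, hS, hSc, homog_min hcol (by omega) hS hH⟩

/-- The logarithm of the number of changes per binary digit of `n`. -/
def rate (m n : ℕ) : ℕ := Nat.log 2 (m / Nat.log 2 n + 4)

/-- The exponent for `m` changes. -/
def psi (m n : ℕ) : ℕ := rate m n * Nat.log (rate m n) n

theorem two_le_rate (m n : ℕ) : 2 ≤ rate m n :=
  Nat.le_log_of_pow_le (by norm_num) (Nat.le_add_left _ _)

/-- **Upper bound**, any number of changes in one position. -/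
theorem upper_many (r p j : ℕ) (hr : 3 ≤ r) (hj : j < r) : ∃ C, 1 ≤ C ∧ ∀ m n N,
    rate m n ≤ n → tow (r - 1) (C * psi m n) ≤ N → ∀ c, Colouring r p N c →
      FewChanges r j m N c → HasHomog r N n c := by
  obtain ⟨C, hC, hup⟩ := upper_param r p j hr hj
  refine ⟨12 * C, by omega, ?_⟩
  intro m n N hmn hN c hcol hch
  set τ := rate m n with hτ
  have hτ2 : 2 ≤ τ := two_le_rate m n
  set lam := Nat.log τ n with hlam
  have hlam1 : 1 ≤ lam := Nat.log_pos (by omega) hmn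
  set L := Nat.log 2 n with hL
  have hL1 : 1 ≤ L := Nat.log_pos (by norm_num) (by omega)
  set t := m / L + 4 with ht
  have hτt : τ = Nat.log 2 t := rfl
  have ht4 : 4 ≤ t := Nat.le_add_left _ _
  refine hup (t ^ 2) m n N (by nlinarith) (le_trans (tow_mono _ ?_) hN) c hcol hch
  -- the size
  have h1 : Nat.log 2 (t ^ 2) ≤ 3 * τ := by
    have h2 : t ^ 2 < 2 ^ (2 * τ + 2) := by
      calc t ^ 2 < (2 ^ (τ + 1)) ^ 2 :=
            Nat.pow_lt_pow_left (Nat.lt_pow_succ_log_self (by norm_num) t) (by norm_num)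
        _ = 2 ^ (2 * τ + 2) := by rw [← pow_mul]; congr 1; ring
    have := Nat.log_lt_of_lt_pow (show t ^ 2 ≠ 0 by positivity) h2
    omega
  have h2 : τ ≤ Nat.log 2 (t ^ 2) := by
    rw [hτt]
    exact Nat.log_mono_right (Nat.le_self_pow (by norm_num) t)
  have h3 : Nat.log (Nat.log 2 (t ^ 2)) n ≤ lam := Nat.log_anti_left (by omega) h2
  have h4 : m / t ^ 2 ≤ 2 * lam := by
    have h5 : L ≤ 2 * lam * t := by
      have h6 : n < 2 ^ (τ * (lam + 1)) := by
        calc n < τ ^ (lam + 1) := Nat.lt_pow_succ_log_self (by omega) n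
          _ ≤ (2 ^ τ) ^ (lam + 1) := Nat.pow_le_pow_left Nat.lt_two_pow_self.le _
          _ = 2 ^ (τ * (lam + 1)) := (pow_mul _ _ _).symm
      have h7 := Nat.log_lt_of_lt_pow (show n ≠ 0 by omega) h6
      have h8 : τ ≤ t := by rw [hτt]; exact Nat.log_le_self 2 t
      calc L ≤ τ * (lam + 1) := h7.le
        _ ≤ t * (2 * lam) := Nat.mul_le_mul h8 (by omega)
        _ = 2 * lam * t := mul_comm _ _
    have h6 : m < 2 * lam * t ^ 2 + t ^ 2 := by
      have h7 : m < L * (m / L + 1) := Nat.lt_mul_div_succ _ (by omega)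
      calc m < L * (m / L + 1) := h7
        _ ≤ L * t := Nat.mul_le_mul_left _ (Nat.add_le_add_left (by norm_num) _)
        _ ≤ 2 * lam * t * t := Nat.mul_le_mul_right _ h5
        _ = 2 * lam * t ^ 2 := by ring
        _ ≤ _ := Nat.le_add_right _ _
    have h7 : m / t ^ 2 < 2 * lam + 1 := by
      rw [Nat.div_lt_iff_lt_mul (by positivity)]
      calc m < 2 * lam * t ^ 2 + t ^ 2 := h6
        _ = (2 * lam + 1) * t ^ 2 := by ring
    omega
  have hpsi : psi m n = τ * lam := rfl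
  calc C * (Nat.log 2 (t ^ 2) * (m / t ^ 2 + Nat.log (Nat.log 2 (t ^ 2)) n + 1))
      ≤ C * (3 * τ * (4 * lam)) :=
        Nat.mul_le_mul_left _ (Nat.mul_le_mul h1 (by omega))
    _ = 12 * C * psi m n := by rw [hpsi]; ring

/-- **Tower growth of full height needs exponentially many changes in every position.** -/
theorem full_exp (r p j : ℕ) (hr : 3 ≤ r) (hj : j < r) : ∃ C, 1 ≤ C ∧ ∀ K, 1 ≤ K →
    ∃ n₀, ∀ n, n₀ ≤ n → ∀ N c, tow (r - 1) (n / K) ≤ N → Colouring r p N c →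
      ¬ HasHomog r N n c → ∃ e ⊆ range N, e.card + 1 = r ∧ 2 ^ (n / (C * K)) < changes j c N e := by
  obtain ⟨C, hC, hup⟩ := upper_param r p j hr hj
  refine ⟨3 * C, by omega, ?_⟩
  intro K hK
  set E := 3 * C * K with hE
  have hE1 : 1 ≤ E := Nat.mul_pos (by omega) hK
  refine ⟨4 * E ^ 2, ?_⟩
  intro n hn N c hN hcol hno
  by_contra hcon
  push Not at hcon
  -- few changes with `m = 2 ^ (n / E)`
  have h2 : 4 * E ≤ n / E := by
    rw [Nat.le_div_iff_mul_le (by omega)]
    nlinarith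
  set m := 2 ^ (n / E) with hm
  have hlog : Nat.log 2 m = n / E := Nat.log_pow (by norm_num) _
  have hm1 : 1 ≤ m := Nat.one_le_pow _ _ (by norm_num)
  apply hno
  refine hup m m n N ?_ (le_trans (tow_mono _ ?_) hN) c hcol hcon
  · calc 4 = 2 ^ 2 := by norm_num
      _ ≤ 2 ^ (n / E) := Nat.pow_le_pow_right (by norm_num) (by omega)
  · rw [hlog, Nat.div_self (by omega)]
    have h3 : Nat.log (n / E) n ≤ 1 := by
      have h4 : n < (n / E) ^ 2 := by
        have h5 : n < E * (n / E + 1) := Nat.lt_mul_div_succ _ (by omega)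
        nlinarith
      have := Nat.log_lt_of_lt_pow (show n ≠ 0 by nlinarith) h4
      omega
    calc C * (n / E * (1 + Nat.log (n / E) n + 1)) ≤ C * (n / E * 3) :=
          Nat.mul_le_mul_left _ (Nat.mul_le_mul_left _ (by omega))
      _ = 3 * C * (n / E) := by ring
      _ ≤ n / K := by
        rw [Nat.le_div_iff_mul_le (by omega)]
        calc 3 * C * (n / E) * K = E * (n / E) := by rw [hE]; ring
          _ ≤ n := Nat.mul_div_le _ _

end Pool.Agent.Q118.CC
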