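import Pool.Agent.Q118.CC.RunsBase
import Pool.Agent.Q118.CC.Many

/-!
# Colourings with many colour changes: the lower bound
-/

namespace Pool.Agent.Q118.CC

open Finset

theorem sort_any {j z w : ℕ} {e : Finset ℕ} (hz : Pos j e z) (hw : Pos j e w) :
    (insert w e).sort (· ≥ ·) =
      (e.sort (· ≥ ·)).filter (fun x => z < x) ++ w :: (e.sort (· ≥ ·)).filter (fun x => x < z) := by
  rcases lt_trichotomy z w with h | h | h
  · exact sort_gap hz hw h
  · rw [h]; exact sort_split hw.1
  · rw [sort_split hw.1]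
    have h1 : (e.sort (· ≥ ·)).filter (fun x => w < x) = (e.sort (· ≥ ·)).filter (fun x => z < x) := by
      apply List.filter_congr
      intro x hx
      rw [mem_sort] at hx
      have := (gap_iff hw hz h x hx).2
      simp [this]
    have h2 : (e.sort (· ≥ ·)).filter (fun x => x < w) = (e.sort (· ≥ ·)).filter (fun x => x < z) := by
      apply List.filter_congr
      intro x hx
      rw [mem_sort] at hx
      have := (gap_iff hw hz h x hx).1
      simp [this]
    rw [h1, h2]

theorem filter_length' {j r z : ℕ} {e : Finset ℕ} (hec : e.card + 1 = r) (h : Pos j e z) :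
    ((e.sort (· ≥ ·)).filter (fun x => z < x)).length + 1 +
      ((e.sort (· ≥ ·)).filter (fun x => x < z)).length = r := by
  have h1 : ((insert z e).sort (· ≥ ·)).length = r := by
    rw [length_sort, card_insert_of_notMem h.1, hec]
  rw [sort_split h.1, List.length_append, List.length_cons] at h1
  omega

/-- From lists to sets. -/
theorem LF.to_sets {p q r N n : ℕ} {c : List ℕ → ℕ} (h : LF p q r N n c) :
    Colouring r p N (toC c) ∧ (∀ j < r, FewChanges r j (q - 1) N (toC c)) ∧
      ¬ HasHomog r N n (toC c) := by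
  have hlt : ∀ A ⊆ range N, ∀ x ∈ A.sort (· ≥ ·), x < N := by
    intro A hA x hx
    rw [mem_sort] at hx
    exact mem_range.1 (hA hx)
  refine ⟨?_, ?_, ?_⟩
  · intro A hA hAc
    exact h.val _ (sort_DL A) (hlt A hA) (by rw [length_sort, hAc])
  · intro j _ e he hec
    by_cases hex : ∃ z, Pos j e z
    · obtain ⟨z0, hz0⟩ := hex
      obtain ⟨ρ, h1, h2⟩ := h.few ((e.sort (· ≥ ·)).filter (fun x => z0 < x))
        ((e.sort (· ≥ ·)).filter (fun x => x < z0)) (filter_length' hec hz0)
      have hmem : ∀ z, Pos j e z → z < N →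
          DL ((e.sort (· ≥ ·)).filter (fun x => z0 < x) ++
            z :: (e.sort (· ≥ ·)).filter (fun x => x < z0)) ∧
          ∀ x ∈ (e.sort (· ≥ ·)).filter (fun x => z0 < x) ++
            z :: (e.sort (· ≥ ·)).filter (fun x => x < z0), x < N := by
        intro z hz hzN
        have k1 := sort_DL (insert z e)
        have k2 := hlt _ (insert_sub he (mem_range.2 hzN))
        rw [sort_any hz0 hz] at k1 k2
        exact ⟨k1, k2⟩
      have hcol : ∀ z, Pos j e z → toC c (insert z e) =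
          c ((e.sort (· ≥ ·)).filter (fun x => z0 < x) ++
            z :: (e.sort (· ≥ ·)).filter (fun x => x < z0)) := by
        intro z hz
        unfold toC
        rw [sort_any hz0 hz]
      refine count_changes (Q := fun z => Pos j e z) (g := ρ)
        (col := fun z => toC c (insert z e)) ?_ ?_ ?_
      · left
        intro z w hz hw hzw hwN
        exact (h2 z w (hmem z hz (hzw.trans hwN)) (hmem w hw hwN) hzw).1
      · intro z w hz hw hzw hwN hρ
        show toC c (insert z e) = toC c (insert w e)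
        rw [hcol z hz, hcol w hw]
        exact (h2 z w (hmem z hz (hzw.trans hwN)) (hmem w hw hwN) hzw).2 hρ
      · intro z hz hzN
        have := h1 z (hmem z hz hzN)
        omega
    · have h4 : ((range N).filter (fun z => Pos j e z ∧ Pos j e (z + 1) ∧ z + 1 < N ∧
          toC c (insert z e) ≠ toC c (insert (z + 1) e))) = ∅ := by
        rw [filter_eq_empty_iff]
        rintro z _ ⟨h1, _⟩
        exact hex ⟨z, h1⟩
      show ((range N).filter (fun z => Pos j e z ∧ Pos j e (z + 1) ∧ z + 1 < N ∧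
          toC c (insert z e) ≠ toC c (insert (z + 1) e))).card ≤ q - 1
      rw [h4, card_empty]
      exact Nat.zero_le _
  · rintro ⟨S, hS, hSc, hH⟩
    have h1 := h.nohom _ (sort_DL S) (hlt S hS) (by rw [length_sort, hSc])
    have key : ∀ l : List ℕ, l.Sublist (S.sort (· ≥ ·)) → l.length = r →
        l.toFinset ⊆ S ∧ l.toFinset.card = r ∧ toC c l.toFinset = c l := by
      intro l hl hlr
      have hd := (sort_DL S).sublist hl
      refine ⟨?_, by rw [List.toFinset_card_of_nodup hd.nodup, hlr], ?_⟩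
      · intro x hx
        rw [List.mem_toFinset] at hx
        have := hl.subset hx
        rwa [mem_sort] at this
      · unfold toC
        rw [sort_of_DL hd]
    obtain ⟨l0, hl0, hl0r, _⟩ := h1 0
    obtain ⟨l1, hl1, hl1r, hl1v⟩ := h1 (c l0)
    obtain ⟨a1, a2, a3⟩ := key l0 hl0 hl0r
    obtain ⟨b1, b2, b3⟩ := key l1 hl1 hl1r
    have := hH _ b1 _ a1 b2 a2
    rw [a3, b3] at this
    exact hl1v this

/-- All uniformities. -/
theorem lf_all (a k : ℕ) : ∀ i : ℕ, ∃ q c, q + 4 = 2 ^ i * (4 * (k * 2 ^ a) + 4) ∧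
    LF 4 q (i + 3) (tow i (2 ^ ((2 ^ a) ^ k))) (sz i ((4 * a + 3) ^ k + 2)) c := by
  intro i
  induction i with
  | zero =>
    obtain ⟨f, hf⟩ := pf_power a k
    exact ⟨_, _, by rw [pow_zero, one_mul], LF.of_PF hf⟩
  | succ i ih =>
    obtain ⟨q, c, hq, hc⟩ := ih
    refine ⟨2 * (q + 2), fun l => upf (tow i (2 ^ ((2 ^ a) ^ k))) c (dl l), ?_, ?_⟩
    · rw [pow_succ, mul_comm (2 ^ i) 2, mul_assoc, ← hq]; ring
    · have h1 : 1 ≤ sz i ((4 * a + 3) ^ k + 2) := sz_pos i (by omega)
      have := hc.up (by norm_num) (by omega) h1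
      have e : i + 3 + 1 = i + 1 + 3 := by omega
      rw [e] at this
      exact this

theorem fewChanges_le {r j m m' N N' : ℕ} {c : Finset ℕ → ℕ} (h : FewChanges r j m N c)
    (hm : m ≤ m') (hN : N' ≤ N) : FewChanges r j m' N' c := by
  intro e he hec
  have hsub : range N' ⊆ range N := by
    intro x hx
    rw [mem_range] at hx ⊢
    omega
  refine le_trans ?_ ((h e (he.trans hsub) hec).trans hm)
  apply card_le_card
  intro z hz
  rw [mem_filter, mem_range] at hz ⊢
  exact ⟨by omega, hz.2.1, hz.2.2.1, by omega, hz.2.2.2.2⟩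

theorem colouring_le {r p N N' : ℕ} {c : Finset ℕ → ℕ} (h : Colouring r p N c)
    (hN : N' ≤ N) : Colouring r p N' c := by
  intro A hA hAc
  refine h A (fun x hx => ?_) hAc
  have := mem_range.1 (hA hx)
  exact mem_range.2 (by omega)

theorem hasHomog_ge {r N N' n n' : ℕ} {c : Finset ℕ → ℕ} (h : HasHomog r N' n' c) (hN : N' ≤ N)
    (hn : n ≤ n') : HasHomog r N n c := by
  obtain ⟨S, hS, hSc, hH⟩ := h
  obtain ⟨T, hT, hTc⟩ := exists_subset_card_eq (show n ≤ S.card by omega)
  refine ⟨T, fun x hx => ?_, hTc, fun A hA B hB => hH A (hA.trans hT) B (hB.trans hT)⟩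
  have := mem_range.1 (hS (hT hx))
  exact mem_range.2 (by omega)

/-- The parametric lower bound. -/
theorem lower_param (i a k : ℕ) (ha : 1 ≤ a) (hk : 1 ≤ k) : ∃ c,
    Colouring (i + 3) 4 (tow (i + 2) (a * k)) c ∧
    (∀ j < i + 3, FewChanges (i + 3) j (2 ^ (i + 3) * (k * 2 ^ a)) (tow (i + 2) (a * k)) c) ∧
    ¬ HasHomog (i + 3) (tow (i + 2) (a * k)) (2 ^ (i + 1) * (4 * a + 3) ^ k) c := by
  obtain ⟨q, c, hq, hc⟩ := lf_all a k i
  obtain ⟨h1, h2, h3⟩ := hc.to_sets
  have hN : tow i (2 ^ ((2 ^ a) ^ k)) = tow (i + 2) (a * k) := by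
    rw [← pow_mul, tow_tow, tow_tow]
  rw [hN] at h1 h2 h3
  refine ⟨toC c, h1, fun j hj => fewChanges_le (h2 j hj) ?_ (le_refl _), ?_⟩
  · have h4 : 1 ≤ k * 2 ^ a := Nat.mul_pos hk (by positivity)
    have h5 : 2 ^ i * (4 * (k * 2 ^ a) + 4) ≤ 2 ^ i * (8 * (k * 2 ^ a)) :=
      Nat.mul_le_mul_left _ (by omega)
    have h6 : 2 ^ (i + 3) * (k * 2 ^ a) = 2 ^ i * (8 * (k * 2 ^ a)) := by
      rw [pow_add]; ring
    omega
  · intro h4
    apply h3
    refine hasHomog_ge h4 (le_refl _) ?_
    have h5 := sz_eq i ((4 * a + 3) ^ k + 2)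
    have h6 : 7 ≤ (4 * a + 3) ^ k := by
      calc 7 ≤ (4 * a + 3) := by omega
        _ ≤ (4 * a + 3) ^ k := Nat.le_self_pow (by omega) _
    have h7 : 2 ^ i * ((4 * a + 3) ^ k + 2 + 4) ≤ 2 ^ i * (2 * (4 * a + 3) ^ k) :=
      Nat.mul_le_mul_left _ (by omega)
    have h8 : 2 ^ (i + 1) * (4 * a + 3) ^ k = 2 ^ i * (2 * (4 * a + 3) ^ k) := by
      rw [pow_succ]; ring
    omega

/-- **Lower bound**, any number of changes in every position. -/
theorem lower_many (r : ℕ) (hr : 3 ≤ r) : ∃ C, 1 ≤ C ∧ ∀ m n, 1 ≤ m → C ≤ n →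
    C * rate m n ≤ n → ∃ c, Colouring r 4 (tow (r - 1) (psi m n / C)) c ∧
      (∀ j < r, FewChanges r j m (tow (r - 1) (psi m n / C)) c) ∧
      ¬ HasHomog r (tow (r - 1) (psi m n / C)) n c := by
  obtain ⟨C1, hC1, hlow⟩ := lower_all r 2 hr (le_refl 2)
  obtain ⟨i, rfl⟩ : ∃ i, r = i + 3 := ⟨r - 3, by omega⟩
  set U := 4 * i + 16 with hU
  set W := 2 ^ U with hW
  set C := 2 ^ (2 * W + 2 * C1) with hC
  have hUW : U < W := Nat.lt_two_pow_self
  have hWC : 2 * W + 2 * C1 < C := Nat.lt_two_pow_self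
  refine ⟨C, by omega, ?_⟩
  intro m n hm hn hmn
  set L := Nat.log 2 n with hL
  set τ := rate m n with hτ
  have hτ2 : 2 ≤ τ := two_le_rate m n
  set lam := Nat.log τ n with hlam
  have hLC : 2 * W + 2 * C1 ≤ L := Nat.le_log_of_pow_le (by norm_num) hn
  have hn0 : n ≠ 0 := by omega
  have hτn : τ ≤ n := le_trans (Nat.le_mul_of_pos_left _ (by omega)) hmn
  have hlam1 : 1 ≤ lam := Nat.log_pos (by omega) hτn
  have hlamn : τ ^ lam ≤ n := Nat.pow_log_le_self τ hn0
  have hpsi : psi m n = τ * lam := rfl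
  have hlamL : lam ≤ L := by
    apply Nat.le_log_of_pow_le (by norm_num)
    exact (Nat.pow_le_pow_left hτ2 _).trans hlamn
  rcases Nat.lt_or_ge τ W with hsmall | hlarge
  · -- few changes
    obtain ⟨c, h1, h2, h3⟩ := hlow n (by omega)
    have h4 : phi 2 (n / C1) (Nat.log 2 n) = n / C1 := by
      have := phi_even 1 (n / C1) (Nat.log 2 n)
      rw [mul_one, pow_one] at this
      exact this
    rw [h4] at h1 h2 h3
    have hN : tow (i + 3 - 1) (psi m n / C) ≤ tow (i + 3 - 2) (n / C1) := by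
      have e1 : i + 3 - 1 = i + 3 - 2 + 1 := by omega
      rw [e1, ← tow_tow]
      apply tow_mono
      have h5 : psi m n / C ≤ L / 2 := by
        rw [Nat.le_div_iff_mul_le (by norm_num)]
        have h6 : psi m n ≤ C / 2 * L := by
          rw [hpsi]
          exact Nat.mul_le_mul (by omega) hlamL
        have h7 : psi m n / C * C ≤ C / 2 * L := (Nat.div_mul_le_self _ _).trans h6
        have h8 : psi m n / C * 2 * C ≤ L * C := by
          calc psi m n / C * 2 * C = 2 * (psi m n / C * C) := by ring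
            _ ≤ 2 * (C / 2 * L) := Nat.mul_le_mul_left _ h7
            _ = (2 * (C / 2)) * L := by ring
            _ ≤ C * L := Nat.mul_le_mul_right _ (Nat.mul_div_le _ _)
            _ = L * C := mul_comm _ _
        exact Nat.le_of_mul_le_mul_right h8 (by omega)
      rw [Nat.le_div_iff_mul_le (by omega)]
      calc 2 ^ (psi m n / C) * C1 ≤ 2 ^ (L / 2) * 2 ^ (L / 2) := by
            apply Nat.mul_le_mul (Nat.pow_le_pow_right (by norm_num) h5)
            exact Nat.lt_two_pow_self.le.trans (Nat.pow_le_pow_right (by norm_num) (by omega))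
        _ = 2 ^ (L / 2 + L / 2) := (pow_add _ _ _).symm
        _ ≤ 2 ^ L := Nat.pow_le_pow_right (by norm_num) (by omega)
        _ ≤ n := Nat.pow_log_le_self 2 hn0
    refine ⟨c, colouring_le (fun A hA hAc => lt_of_lt_of_le (h1 A hA hAc) (by norm_num)) hN,
      fun j hj => fewChanges_le (h2 j hj).2 hm hN, ?_⟩
    intro h5
    exact h3 (hasHomog_ge h5 hN (le_refl _))
  · -- many changes
    obtain ⟨a, ha⟩ : ∃ a, a = τ / 4 := ⟨_, rfl⟩
    obtain ⟨k, hk⟩ : ∃ k, k = (lam + 3) / 4 := ⟨_, rfl⟩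
    have ha1 : 1 ≤ a := by omega
    have hk1 : 1 ≤ k := by omega
    obtain ⟨c, h1, h2, h3⟩ := lower_param i a k ha1 hk1
    have hN : tow (i + 3 - 1) (psi m n / C) ≤ tow (i + 2) (a * k) := by
      have e : i + 3 - 1 = i + 2 := by omega
      rw [e]
      apply tow_mono
      have h4 : psi m n ≤ 32 * (a * k) := by
        rw [hpsi]
        calc τ * lam ≤ (8 * a) * (4 * k) := Nat.mul_le_mul (by omega) (by omega)
          _ = 32 * (a * k) := by ring
      apply Nat.div_le_of_le_mul
      exact h4.trans (Nat.mul_le_mul_right _ (by omega))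
    refine ⟨c, colouring_le h1 hN, fun j hj => fewChanges_le (h2 j hj) ?_ hN, ?_⟩
    · -- the number of changes
      have hkL : k ≤ L := by omega
      have hmL : 2 ^ (τ - 1) ≤ m / L := by
        have h4 : 2 ^ τ ≤ m / L + 4 := Nat.pow_log_le_self 2 (Nat.succ_ne_zero _)
        have h5 : 2 ^ τ = 2 ^ (τ - 1) * 2 := by rw [← pow_succ]; congr 1; omega
        have h6 : 2 ^ 2 ≤ 2 ^ (τ - 1) := Nat.pow_le_pow_right (by norm_num) (by omega)
        omega
      have h7 : 2 ^ (i + 3) * 2 ^ a ≤ m / L := by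
        refine le_trans ?_ hmL
        rw [← pow_add]
        exact Nat.pow_le_pow_right (by norm_num) (by omega)
      calc 2 ^ (i + 3) * (k * 2 ^ a) = k * (2 ^ (i + 3) * 2 ^ a) := by ring
        _ ≤ L * (m / L) := Nat.mul_le_mul hkL h7
        _ ≤ m := Nat.mul_div_le _ _
    · -- the size of the homogeneous sets
      intro h4
      apply h3
      refine hasHomog_ge h4 hN ?_
      have h5 : 4 * a + 3 ≤ 2 * τ := by omega
      rcases Nat.lt_or_ge lam 2 with h6 | h6
      · have h7 : k = 1 := by omega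
        rw [h7, pow_one]
        calc 2 ^ (i + 1) * (4 * a + 3) ≤ 2 ^ (i + 1) * (2 * τ) := Nat.mul_le_mul_left _ h5
          _ = 2 ^ (i + 2) * τ := by rw [pow_succ 2 (i + 1)]; ring
          _ ≤ C * τ := by
            apply Nat.mul_le_mul_right
            have : 2 ^ (i + 2) ≤ 2 ^ U := Nat.pow_le_pow_right (by norm_num) (by omega)
            omega
          _ ≤ n := hmn
      · have h7 : 2 * k ≤ lam := by omega
        have h8 : (2 ^ (i + 1) * (4 * a + 3) ^ k) ≤ τ ^ (2 * k) := by
          have h9 : 2 ^ (i + 1) * 2 ^ k ≤ τ ^ k := by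
            calc 2 ^ (i + 1) * 2 ^ k ≤ (2 ^ (i + 1)) ^ k * 2 ^ k :=
                  Nat.mul_le_mul_right _ (Nat.le_self_pow (by omega) _)
              _ = (2 ^ (i + 2)) ^ k := by rw [← mul_pow]; rfl
              _ ≤ τ ^ k := by
                apply Nat.pow_le_pow_left
                have : 2 ^ (i + 2) ≤ 2 ^ U := Nat.pow_le_pow_right (by norm_num) (by omega)
                omega
          calc 2 ^ (i + 1) * (4 * a + 3) ^ k ≤ 2 ^ (i + 1) * (2 * τ) ^ k :=
                Nat.mul_le_mul_left _ (Nat.pow_le_pow_left h5 _)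
            _ = 2 ^ (i + 1) * 2 ^ k * τ ^ k := by rw [mul_pow]; ring
            _ ≤ τ ^ k * τ ^ k := Nat.mul_le_mul_right _ h9
            _ = τ ^ (2 * k) := by rw [← pow_add, ← two_mul]
        exact h8.trans ((Nat.pow_le_pow_right (by omega) h7).trans hlamn)

end Pool.Agent.Q118.CC
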