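import Pool.Agent.Q118.CC.Lists

/-!
# Triples: lexicographic powers

The colour `2 i + b` has rank `i`. A colouring of the triples of an alphabet of `N` letters gives a
colouring of the triples of words with `t` letters: if the first two points differ before the last
two, the colour is `0`; if they differ after the last two, it is `2 M`; if all three differ for the
first time at the same letter, the colour is the colour of these letters.
-/

namespace Pool.Agent.Q118.CC

open Finset

/-- The possible colours: `0`, `2 M` and colours of the ranks between `0` and `M`; the only odd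
colour is `M + 1` (`b = true` and `M` even). -/
def Val (b : Bool) (M v : ℕ) : Prop :=
  (v = 0 ∨ v = 2 * M ∨ (2 ≤ v ∧ v < 2 * M)) ∧ (v % 2 = 1 → b = true ∧ v = M + 1 ∧ M % 2 = 0)

/-- The reversed colour. -/
def sg (M v : ℕ) : ℕ := 2 * (M - v / 2) + v % 2

theorem Val.le {b : Bool} {M v : ℕ} (h : Val b M v) : v / 2 ≤ M := by
  rcases h.1 with h1 | h1 | h1 <;> omega

theorem Val.zero {b : Bool} {M : ℕ} : Val b M 0 := ⟨Or.inl rfl, fun h => by simp at h⟩

theorem Val.top {b : Bool} {M : ℕ} : Val b M (2 * M) := ⟨Or.inr (Or.inl rfl), fun h => by omega⟩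

theorem Val.eq_zero {b : Bool} {M v : ℕ} (hM : 1 ≤ M) (h : Val b M v) (h0 : v / 2 = 0) : v = 0 := by
  rcases h.1 with h1 | h1 | h1 <;> omega

theorem Val.eq_top {b : Bool} {M v : ℕ} (hM : 1 ≤ M) (h : Val b M v) (h0 : v / 2 = M) :
    v = 2 * M := by
  rcases h.1 with h1 | h1 | h1 <;> omega

theorem Val.sg {b : Bool} {M v : ℕ} (h : Val b M v) : Val b M (sg M v) := by
  unfold CC.sg
  refine ⟨?_, ?_⟩
  · rcases h.1 with h1 | h1 | h1
    · right; left; omega
    · left; omega
    · right; right
      constructor <;> omega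
  · intro h3
    have h4 : v % 2 = 1 := by omega
    obtain ⟨h5, h6, h7⟩ := h.2 h4
    refine ⟨h5, ?_, h7⟩
    omega

theorem sg_inj {b : Bool} {M v w : ℕ} (hv : Val b M v) (hw : Val b M w) (h : sg M v = sg M w) :
    v = w := by
  have h1 := hv.le
  have h2 := hw.le
  unfold sg at h
  omega

theorem sg_sg {b : Bool} {M v : ℕ} (hv : Val b M v) : sg M (sg M v) = v := by
  have h1 := hv.le
  unfold sg
  omega

/-- Comparison of colours: the ranks are compared, equal ranks have equal colours. -/
def cmp (e : Bool) (v w : ℕ) : Prop := le' e (v / 2) (w / 2) ∧ (v / 2 = w / 2 → v = w)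

theorem cmp_refl (e : Bool) (v : ℕ) : cmp e v v := by
  refine ⟨?_, fun _ => rfl⟩
  cases e <;> simp [le']

theorem cmp_not {e : Bool} {v w : ℕ} (h : cmp (!e) v w) : cmp e w v := by
  refine ⟨?_, fun h1 => (h.2 h1.symm).symm⟩
  have := h.1
  cases e <;> exact this

theorem cmp_zero {b : Bool} {M v : ℕ} (hM : 1 ≤ M) (h : Val b M v) : cmp true 0 v := by
  refine ⟨?_, fun h1 => ?_⟩
  · simp [le']
  · exact (h.eq_zero hM (by omega)).symm

theorem cmp_top {b : Bool} {M v : ℕ} (hM : 1 ≤ M) (h : Val b M v) : cmp true v (2 * M) := by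
  have h2 := h.le
  refine ⟨?_, fun h1 => ?_⟩
  · simp only [le']; omega
  · exact h.eq_top hM (by omega)

theorem cmp_zero' {b : Bool} {M v : ℕ} (hM : 1 ≤ M) (h : Val b M v) : cmp false v 0 :=
  cmp_not (cmp_zero hM h)

theorem cmp_top' {b : Bool} {M v : ℕ} (hM : 1 ≤ M) (h : Val b M v) : cmp false (2 * M) v :=
  cmp_not (cmp_top hM h)

theorem cmp_sg {b e : Bool} {M v w : ℕ} (hv : Val b M v) (hw : Val b M w) (h : cmp e v w) :
    cmp e (sg M w) (sg M v) := by
  have h1 := hv.le
  have h2 := hw.le
  have h3 := h.1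
  refine ⟨?_, fun h4 => ?_⟩
  · unfold sg
    cases e <;> simp only [le'] at h3 ⊢ <;> omega
  · have h5 : v / 2 = w / 2 := by
      unfold sg at h4
      omega
    rw [h.2 h5]

/-- Monotonicity in the positions of `J` (`0` is the last vertex, `1` the middle one, `2` the
first one). -/
structure Mv (J : ℕ → Prop) (N : ℕ) (κ : ℕ → ℕ → ℕ → ℕ) : Prop where
  m0 : J 0 → ∀ x y z w, x < y → y < z → z < w → w < N → cmp true (κ x y z) (κ x y w)
  m1 : J 1 → ∀ x y w z, x < y → y < w → w < z → z < N → cmp false (κ x y z) (κ x w z)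
  m2 : J 2 → ∀ x w y z, x < w → w < y → y < z → z < N → cmp true (κ x y z) (κ w y z)

/-- All triples of `S` have colour `v`. -/
def H3 (κ : ℕ → ℕ → ℕ → ℕ) (S : Finset ℕ) (v : ℕ) : Prop :=
  ∀ x ∈ S, ∀ y ∈ S, ∀ z ∈ S, x < y → y < z → κ x y z = v

/-- An alphabet: colours of ranks between `0` and `M`. -/
structure AL (J : ℕ → Prop) (b : Bool) (M N n : ℕ) (κ : ℕ → ℕ → ℕ → ℕ) : Prop where
  val : ∀ x y z, x < y → y < z → z < N → Val b M (κ x y z) ∧ 2 ≤ κ x y z ∧ κ x y z < 2 * M
  mv : Mv J N κ
  nohom : ∀ S ⊆ range N, S.card = n → ∀ v, ¬ H3 κ S v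

/-- A colouring of the triples of `{0, …, N - 1}` with ranks `0, …, M`. -/
structure PW (J : ℕ → Prop) (b : Bool) (M N n : ℕ) (κ : ℕ → ℕ → ℕ → ℕ) : Prop where
  val : ∀ x y z, x < y → y < z → z < N → Val b M (κ x y z)
  mv : Mv J N κ
  nohom : ∀ S ⊆ range N, S.card = n → ∀ v, ¬ H3 κ S v

theorem cmp_add {e : Bool} {v w : ℕ} (h : cmp e v w) : cmp e (v + 2) (w + 2) := by
  have h1 := h.1
  refine ⟨?_, fun h2 => ?_⟩
  · cases e <;> simp only [le'] at h1 ⊢ <;> omega
  · have := h.2 (by omega)
    omega

theorem AL.of_PW {J : ℕ → Prop} {b : Bool} {M N n : ℕ} {κ : ℕ → ℕ → ℕ → ℕ} (hM : 1 ≤ M)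
    (h : PW J b M N n κ) : AL J b (M + 2) N n (fun x y z => κ x y z + 2) := by
  refine ⟨?_, ?_, ?_⟩
  · intro x y z hxy hyz hz
    obtain ⟨h1, h2⟩ := h.val x y z hxy hyz hz
    refine ⟨⟨?_, ?_⟩, ?_, ?_⟩
    · rcases h1 with h1 | h1 | h1
      · right; right; constructor <;> omega
      · right; right; constructor <;> omega
      · right; right; constructor <;> omega
    · intro h3
      have h4 := h2 (by omega)
      refine ⟨h4.1, ?_, ?_⟩ <;> omega
    · omega
    · rcases h1 with h1 | h1 | h1 <;> omega
  · exact ⟨fun hJ x y z w h1 h2 h3 h4 => cmp_add (h.mv.m0 hJ x y z w h1 h2 h3 h4),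
      fun hJ x y z w h1 h2 h3 h4 => cmp_add (h.mv.m1 hJ x y z w h1 h2 h3 h4),
      fun hJ x y z w h1 h2 h3 h4 => cmp_add (h.mv.m2 hJ x y z w h1 h2 h3 h4)⟩
  · intro S hS hSc v hv
    refine h.nohom S hS hSc (v - 2) ?_
    intro x hx y hy z hz hxy hyz
    have h1 : κ x y z + 2 = v := hv x hx y hy z hz hxy hyz
    omega

/-- One more letter. -/
def ext (N M : ℕ) (κ κt : ℕ → ℕ → ℕ → ℕ) (x y z : ℕ) : ℕ :=
  if x / N = y / N then
    (if y / N = z / N then κ (x % N) (y % N) (z % N) else 2 * M)
  else (if y / N = z / N then 0 else κt (x / N) (y / N) (z / N))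

theorem mod_lt_mod {N x y : ℕ} (h : x / N = y / N) (hxy : x < y) : x % N < y % N := by
  have h1 := Nat.div_add_mod x N
  have h2 := Nat.div_add_mod y N
  rw [h] at h1
  omega

theorem div_lt_of_ne {N x y : ℕ} (h : x / N ≠ y / N) (hxy : x < y) : x / N < y / N :=
  lt_of_le_of_ne (Nat.div_le_div_right hxy.le) h

theorem lt_of_div_lt {N x y : ℕ} (h : x / N < y / N) : x < y := by
  by_contra h1
  push Not at h1
  have := Nat.div_le_div_right (c := N) h1
  omega

theorem div_mono_le {N x y : ℕ} (h : x < y) : x / N ≤ y / N := Nat.div_le_div_right h.le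

theorem power_aux {J : ℕ → Prop} {b : Bool} {M N n : ℕ} {κ : ℕ → ℕ → ℕ → ℕ} (hM : 1 ≤ M)
    (hN : 1 ≤ N) (hn : 3 ≤ n) (h : AL J b M N n κ) : ∀ t : ℕ, ∃ κt : ℕ → ℕ → ℕ → ℕ,
    (∀ x y z, x < y → y < z → z < N ^ t → Val b M (κt x y z)) ∧ Mv J (N ^ t) κt ∧
    (∀ S ⊆ range (N ^ t), H3 κt S 0 → S.card ≤ t + 1) ∧
    (∀ S ⊆ range (N ^ t), H3 κt S (2 * M) → S.card ≤ t + 1) ∧
    (∀ v, v ≠ 0 → v ≠ 2 * M → ∀ S ⊆ range (N ^ t), S.card = n → ¬ H3 κt S v) := by
  intro t
  induction t with
  | zero =>
    refine ⟨fun _ _ _ => 0, ?_, ?_, ?_, ?_, ?_⟩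
    · intro x y z _ _ _
      exact ⟨Or.inl rfl, fun h => by simp at h⟩
    · exact ⟨fun _ _ _ _ _ _ _ _ _ => cmp_refl _ _, fun _ _ _ _ _ _ _ _ _ => cmp_refl _ _,
        fun _ _ _ _ _ _ _ _ _ => cmp_refl _ _⟩
    · intro S hS _
      have := Finset.card_le_card hS
      rwa [Finset.card_range, pow_zero] at this
    · intro S hS _
      have := Finset.card_le_card hS
      rwa [Finset.card_range, pow_zero] at this
    · intro v _ _ S hS hSc _
      have := Finset.card_le_card hS
      rw [Finset.card_range, pow_zero] at this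
      omega
  | succ t ih =>
    obtain ⟨κt, hval, hinc, h0, hM', hmid⟩ := ih
    have hNpos : 0 < N := hN
    have hdiv : ∀ x, x < N ^ (t + 1) → x / N < N ^ t := by
      intro x hx
      rw [Nat.div_lt_iff_lt_mul hNpos, ← pow_succ]
      exact hx
    -- image of a homogeneous set
    have himg : ∀ (S : Finset ℕ) (v : ℕ), S ⊆ range (N ^ (t + 1)) → H3 (ext N M κ κt) S v →
        S.image (fun x => x / N) ⊆ range (N ^ t) ∧ H3 κt (S.image (fun x => x / N)) v := by
      intro S v hS hH
      constructor
      · intro X hX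
        rw [mem_image] at hX
        obtain ⟨x, hx, rfl⟩ := hX
        rw [mem_range]
        exact hdiv x (mem_range.mp (hS hx))
      · intro X hX Y hY Z hZ hXY hYZ
        rw [mem_image] at hX hY hZ
        obtain ⟨x, hx, rfl⟩ := hX
        obtain ⟨y, hy, rfl⟩ := hY
        obtain ⟨z, hz, rfl⟩ := hZ
        have := hH x hx y hy z hz (lt_of_div_lt hXY) (lt_of_div_lt hYZ)
        unfold ext at this
        rwa [if_neg hXY.ne, if_neg hYZ.ne] at this
    -- bound for sets on which division is injective up to one point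
    have hcard : ∀ (S : Finset ℕ) (a : ℕ), a ∈ S →
        (∀ x ∈ S, ∀ y ∈ S, x ≠ a → y ≠ a → x < y → x / N ≠ y / N) →
        S.card ≤ (S.image (fun x => x / N)).card + 1 := by
      intro S a ha hinj
      have h1 : (S.erase a).card = ((S.erase a).image (fun x => x / N)).card := by
        symm
        apply Finset.card_image_of_injOn
        intro x hx y hy hxy
        simp only [Finset.coe_erase, Set.mem_sdiff, Finset.mem_coe, Set.mem_singleton_iff] at hx hy
        rcases lt_trichotomy x y with h1 | h1 | h1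
        · exact absurd hxy (hinj x hx.1 y hy.1 hx.2 hy.2 h1)
        · exact h1
        · exact absurd hxy.symm (hinj y hy.1 x hx.1 hy.2 hx.2 h1)
      have h2 := Finset.card_le_card (Finset.image_subset_image (f := fun x => x / N)
        (Finset.erase_subset a S))
      rw [Finset.card_erase_of_mem ha] at h1
      omega
    have hvalE : ∀ x y z, x < y → y < z → z < N ^ (t + 1) → Val b M (ext N M κ κt x y z) := by
      intro x y z hxy hyz hz
      unfold ext
      by_cases h1 : x / N = y / N
      · rw [if_pos h1]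
        by_cases h2 : y / N = z / N
        · rw [if_pos h2]
          exact (h.val _ _ _ (mod_lt_mod h1 hxy) (mod_lt_mod h2 hyz) (Nat.mod_lt _ hNpos)).1
        · rw [if_neg h2]
          exact Val.top
      · rw [if_neg h1]
        by_cases h2 : y / N = z / N
        · rw [if_pos h2]
          exact Val.zero
        · rw [if_neg h2]
          exact hval _ _ _ (div_lt_of_ne h1 hxy) (div_lt_of_ne h2 hyz) (hdiv z hz)
    refine ⟨ext N M κ κt, hvalE, ⟨?_, ?_, ?_⟩, ?_, ?_, ?_⟩
    · intro hJ x y z w hxy hyz hzw hw
      have hz : z < N ^ (t + 1) := hzw.trans hw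
      have hvz := hvalE x y z hxy hyz hz
      have hvw := hvalE x y w hxy (hyz.trans hzw) hw
      have k1 := div_mono_le (N := N) hyz
      have k2 := div_mono_le (N := N) hzw
      by_cases h1 : x / N = y / N
      · by_cases h3 : y / N = w / N
        · have h2 : y / N = z / N := by omega
          unfold ext
          rw [if_pos h1, if_pos h1, if_pos h2, if_pos h3]
          exact h.mv.m0 hJ _ _ _ _ (mod_lt_mod h1 hxy) (mod_lt_mod h2 hyz)
            (mod_lt_mod (h2.symm.trans h3) hzw) (Nat.mod_lt _ hNpos)
        · have h4 : ext N M κ κt x y w = 2 * M := by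
            unfold ext
            rw [if_pos h1, if_neg h3]
          rw [h4]
          exact cmp_top hM hvz
      · by_cases h2 : y / N = z / N
        · have h4 : ext N M κ κt x y z = 0 := by
            unfold ext
            rw [if_neg h1, if_pos h2]
          rw [h4]
          exact cmp_zero hM hvw
        · have h3 : y / N ≠ w / N := by omega
          unfold ext
          rw [if_neg h1, if_neg h1, if_neg h2, if_neg h3]
          by_cases h4 : z / N = w / N
          · rw [h4]
            exact cmp_refl _ _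
          · exact hinc.m0 hJ _ _ _ _ (div_lt_of_ne h1 hxy) (div_lt_of_ne h2 hyz)
              (div_lt_of_ne h4 hzw) (hdiv w hw)
    · intro hJ x y w z hxy hyw hwz hz
      have hvy := hvalE x y z hxy (hyw.trans hwz) hz
      have hvw := hvalE x w z (hxy.trans hyw) hwz hz
      have k0 := div_mono_le (N := N) hxy
      have k1 := div_mono_le (N := N) hyw
      have k2 := div_mono_le (N := N) hwz
      by_cases h1 : x / N = y / N
      · by_cases h2 : y / N = z / N
        · have h3 : y / N = w / N := by omega
          unfold ext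
          rw [if_pos h1, if_pos h2, if_pos (h1.trans h3), if_pos (h3.symm.trans h2)]
          exact h.mv.m1 hJ _ _ _ _ (mod_lt_mod h1 hxy) (mod_lt_mod h3 hyw)
            (mod_lt_mod (h3.symm.trans h2) hwz) (Nat.mod_lt _ hNpos)
        · have h4 : ext N M κ κt x y z = 2 * M := by
            unfold ext
            rw [if_pos h1, if_neg h2]
          rw [h4]
          exact cmp_top' hM hvw
      · by_cases h2 : w / N = z / N
        · have h4 : ext N M κ κt x w z = 0 := by
            unfold ext
            rw [if_neg (show x / N ≠ w / N by omega), if_pos h2]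
          rw [h4]
          exact cmp_zero' hM hvy
        · unfold ext
          rw [if_neg h1, if_neg (show y / N ≠ z / N by omega),
            if_neg (show x / N ≠ w / N by omega), if_neg h2]
          by_cases h4 : y / N = w / N
          · rw [h4]
            exact cmp_refl _ _
          · exact hinc.m1 hJ _ _ _ _ (div_lt_of_ne h1 hxy) (div_lt_of_ne h4 hyw)
              (div_lt_of_ne h2 hwz) (hdiv z hz)
    · intro hJ x w y z hxw hwy hyz hz
      have hvx := hvalE x y z (hxw.trans hwy) hyz hz
      have hvw := hvalE w y z hwy hyz hz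
      have k0 := div_mono_le (N := N) hxw
      have k1 := div_mono_le (N := N) hwy
      by_cases h2 : y / N = z / N
      · by_cases h1 : x / N = y / N
        · have h3 : w / N = y / N := by omega
          unfold ext
          rw [if_pos h1, if_pos h2, if_pos h3, if_pos h2]
          exact h.mv.m2 hJ _ _ _ _ (mod_lt_mod (h1.trans h3.symm) hxw) (mod_lt_mod h3 hwy)
            (mod_lt_mod h2 hyz) (Nat.mod_lt _ hNpos)
        · have h4 : ext N M κ κt x y z = 0 := by
            unfold ext
            rw [if_neg h1, if_pos h2]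
          rw [h4]
          exact cmp_zero hM hvw
      · by_cases h3 : w / N = y / N
        · have h4 : ext N M κ κt w y z = 2 * M := by
            unfold ext
            rw [if_pos h3, if_neg h2]
          rw [h4]
          exact cmp_top hM hvx
        · unfold ext
          rw [if_neg (show x / N ≠ y / N by omega), if_neg h2, if_neg h3, if_neg h2]
          by_cases h4 : x / N = w / N
          · rw [h4]
            exact cmp_refl _ _
          · exact hinc.m2 hJ _ _ _ _ (div_lt_of_ne h4 hxw) (div_lt_of_ne h3 hwy)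
              (div_lt_of_ne h2 hyz) (hdiv z hz)
    · intro S hS hH
      rcases S.eq_empty_or_nonempty with rfl | hne
      · simp
      obtain ⟨h1, h2⟩ := himg S 0 hS hH
      have h3 := h0 _ h1 h2
      have h4 := hcard S (S.max' hne) (S.max'_mem hne) (by
        intro x hx y hy _ hyb hxy heq
        have hlt : y < S.max' hne := lt_of_le_of_ne (S.le_max' y hy) hyb
        have h5 := hH x hx y hy _ (S.max'_mem hne) hxy hlt
        unfold ext at h5
        rw [if_pos heq] at h5
        by_cases h6 : y / N = (S.max' hne) / N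
        · rw [if_pos h6] at h5
          have := (h.val _ _ _ (mod_lt_mod heq hxy) (mod_lt_mod h6 hlt)
            (Nat.mod_lt _ hNpos)).2.1
          omega
        · rw [if_neg h6] at h5
          omega)
      omega
    · intro S hS hH
      rcases S.eq_empty_or_nonempty with rfl | hne
      · simp
      obtain ⟨h1, h2⟩ := himg S (2 * M) hS hH
      have h3 := hM' _ h1 h2
      have h4 := hcard S (S.min' hne) (S.min'_mem hne) (by
        intro x hx y hy hxa _ hxy heq
        have hlt : S.min' hne < x := lt_of_le_of_ne (S.min'_le x hx) (Ne.symm hxa)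
        have h5 := hH _ (S.min'_mem hne) x hx y hy hlt hxy
        unfold ext at h5
        by_cases h6 : (S.min' hne) / N = x / N
        · rw [if_pos h6, if_pos heq] at h5
          have := (h.val _ _ _ (mod_lt_mod h6 hlt) (mod_lt_mod heq hxy)
            (Nat.mod_lt _ hNpos)).2.2
          omega
        · rw [if_neg h6, if_pos heq] at h5
          omega)
      omega
    · intro v hv0 hvM S hS hSc hH
      obtain ⟨h1, h2⟩ := himg S v hS hH
      by_cases hinj : ∀ x ∈ S, ∀ y ∈ S, x < y → x / N ≠ y / N
      · refine hmid v hv0 hvM _ h1 ?_ h2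
        rw [← hSc]
        apply Finset.card_image_of_injOn
        intro x hx y hy hxy
        rcases lt_trichotomy x y with h3 | h3 | h3
        · exact absurd hxy (hinj x hx y hy h3)
        · exact h3
        · exact absurd hxy.symm (hinj y hy x hx h3)
      · push Not at hinj
        obtain ⟨x, hx, y, hy, hxy, heq⟩ := hinj
        have hall : ∀ z ∈ S, z / N = x / N := by
          intro z hz
          by_contra hne
          rcases lt_or_ge y z with h3 | h3
          · have h4 := hH x hx y hy z hz hxy h3
            unfold ext at h4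
            rw [if_pos heq, if_neg (fun h5 => hne (by rw [heq, h5]))] at h4
            exact hvM h4.symm
          · rcases lt_or_ge z x with h4 | h4
            · have h5 := hH z hz x hx y hy h4 hxy
              unfold ext at h5
              rw [if_neg hne, if_pos heq] at h5
              exact hv0 h5.symm
            · have h5 := Nat.div_le_div_right (c := N) h3
              have h6 := Nat.div_le_div_right (c := N) h4
              omega
        refine h.nohom (S.image (fun z => z % N)) ?_ ?_ v ?_
        · intro Z hZ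
          rw [mem_image] at hZ
          obtain ⟨z, _, rfl⟩ := hZ
          rw [mem_range]
          exact Nat.mod_lt _ hNpos
        · rw [← hSc]
          apply Finset.card_image_of_injOn
          intro z hz z' hz' hzz
          simp only at hzz
          have h3 := Nat.div_add_mod z N
          have h4 := Nat.div_add_mod z' N
          rw [hall z hz, hzz] at h3
          rw [hall z' hz'] at h4
          omega
        · intro X hX Y hY Z hZ hXY hYZ
          rw [mem_image] at hX hY hZ
          obtain ⟨a, ha, rfl⟩ := hX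
          obtain ⟨a', ha', rfl⟩ := hY
          obtain ⟨a'', ha'', rfl⟩ := hZ
          have key : ∀ u ∈ S, ∀ u' ∈ S, u % N < u' % N → u < u' := by
            intro u hu u' hu' huu
            have h3 := Nat.div_add_mod u N
            have h4 := Nat.div_add_mod u' N
            rw [hall u hu] at h3
            rw [hall u' hu'] at h4
            omega
          have h5 := hH a ha a' ha' a'' ha'' (key a ha a' ha' hXY) (key a' ha' a'' ha'' hYZ)
          unfold ext at h5
          rw [if_pos ((hall a ha).trans (hall a' ha').symm),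
            if_pos ((hall a' ha').trans (hall a'' ha'').symm)] at h5
          exact h5

/-- **Lexicographic powers.** -/
theorem power {J : ℕ → Prop} {b : Bool} {M N n : ℕ} {κ : ℕ → ℕ → ℕ → ℕ} (hM : 1 ≤ M)
    (hN : 1 ≤ N) (hn : 3 ≤ n) (h : AL J b M N n κ) :
    ∃ κ' : ℕ → ℕ → ℕ → ℕ, PW J b M (N ^ (n - 2)) n κ' := by
  obtain ⟨κ', h1, h2, h3, h4, h5⟩ := power_aux hM hN hn h (n - 2)
  refine ⟨κ', h1, h2, ?_⟩
  intro S hS hSc v hv
  by_cases hv0 : v = 0
  · subst hv0
    have := h3 S hS hv
    omega
  · by_cases hvM : v = 2 * M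
    · subst hvM
      have := h4 S hS hv
      omega
    · exact h5 v hv0 hvM S hS hSc hv

/-- Iterated powers. -/
theorem powers {J : ℕ → Prop} {b : Bool} {M N n : ℕ} {κ : ℕ → ℕ → ℕ → ℕ} (hM : 1 ≤ M)
    (hN : 1 ≤ N) (hn : 3 ≤ n) (h : AL J b M N n κ) : ∀ j : ℕ, ∃ κ' : ℕ → ℕ → ℕ → ℕ,
    PW J b (M + 2 * j) (N ^ ((n - 2) ^ (j + 1))) n κ' := by
  intro j
  induction j with
  | zero =>
    obtain ⟨κ', h'⟩ := power hM hN hn h
    refine ⟨κ', ?_⟩
    simpa using h'
  | succ j ih =>
    obtain ⟨κ', h'⟩ := ih
    obtain ⟨κ'', h''⟩ := power (by omega) (Nat.one_le_pow _ _ hN) hn (AL.of_PW (by omega) h')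
    refine ⟨κ'', ?_⟩
    rw [← pow_mul, ← pow_succ] at h''
    have h1 : M + 2 * j + 2 = M + 2 * (j + 1) := by ring
    rw [h1] at h''
    exact h''

end Pool.Agent.Q118.CC
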