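import Pool.Agent.Q118.CC.Main

/-!
# Sequences with few runs, and the stepping-up lemma for colourings with few runs
-/

namespace Pool.Agent.Q118.CC

open Finset
open Pool.Agent.TH138.NF (hd hd_ne hd_max hd_lt monotone_half)

/-- `g` has at most `q` runs on `Q`. -/
def Few (q : ℕ) (Q : ℕ → Prop) (g : ℕ → ℕ) : Prop :=
  ∃ ρ : ℕ → ℕ, (∀ z, Q z → ρ z < q) ∧
    ∀ z w, Q z → Q w → z < w → ρ z ≤ ρ w ∧ (ρ z = ρ w → g z = g w)

theorem Few.mono {q q' : ℕ} {Q Q' : ℕ → Prop} {g g' : ℕ → ℕ} (h : Few q Q g) (hq : q ≤ q')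
    (hQ : ∀ z, Q' z → Q z) (hg : ∀ z, Q' z → g' z = g z) : Few q' Q' g' := by
  obtain ⟨ρ, h1, h2⟩ := h
  refine ⟨ρ, fun z hz => lt_of_lt_of_le (h1 z (hQ z hz)) hq, fun z w hz hw hzw => ?_⟩
  obtain ⟨h3, h4⟩ := h2 z w (hQ z hz) (hQ w hw) hzw
  exact ⟨h3, fun h5 => by rw [hg z hz, hg w hw, h4 h5]⟩

theorem Few.const {Q : ℕ → Prop} {g : ℕ → ℕ} (h : ∀ z w, Q z → Q w → z < w → g z = g w) :
    Few 1 Q g :=
  ⟨fun _ => 0, fun _ _ => Nat.one_pos, fun z w hz hw hzw => ⟨le_refl _, fun _ => h z w hz hw hzw⟩⟩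

theorem Few.split {q1 q2 : ℕ} {Q A : ℕ → Prop} {g : ℕ → ℕ}
    (hA : ∀ z w, Q z → Q w → z < w → A w → A z)
    (h1 : Few q1 (fun z => Q z ∧ A z) g) (h2 : Few q2 (fun z => Q z ∧ ¬ A z) g) :
    Few (q1 + q2) Q g := by
  classical
  obtain ⟨ρ1, a1, b1⟩ := h1
  obtain ⟨ρ2, a2, b2⟩ := h2
  refine ⟨fun z => if A z then ρ1 z else q1 + ρ2 z, ?_, ?_⟩
  · intro z hz
    by_cases h : A z
    · have := a1 z ⟨hz, h⟩
      simp only [if_pos h]; omega
    · have := a2 z ⟨hz, h⟩
      simp only [if_neg h]; omega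
  · intro z w hz hw hzw
    by_cases hw' : A w
    · have hz' := hA z w hz hw hzw hw'
      simp only [if_pos hz', if_pos hw']
      exact b1 z w ⟨hz, hz'⟩ ⟨hw, hw'⟩ hzw
    · by_cases hz' : A z
      · have := a1 z ⟨hz, hz'⟩
        simp only [if_pos hz', if_neg hw']
        exact ⟨by omega, fun h => by omega⟩
      · have := b2 z w ⟨hz, hz'⟩ ⟨hw, hw'⟩ hzw
        simp only [if_neg hz', if_neg hw']
        exact ⟨by omega, fun h => this.2 (by omega)⟩

theorem Few.comp_mono {q : ℕ} {Q Q' : ℕ → Prop} {g g' : ℕ → ℕ} (h : Few q Q' g') (τ : ℕ → ℕ)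
    (hτ : ∀ z w, Q z → Q w → z < w → τ z ≤ τ w) (hQ : ∀ z, Q z → Q' (τ z))
    (hg : ∀ z, Q z → g z = g' (τ z)) : Few q Q g := by
  obtain ⟨ρ, h1, h2⟩ := h
  refine ⟨fun z => ρ (τ z), fun z hz => h1 _ (hQ z hz), fun z w hz hw hzw => ?_⟩
  rcases Nat.lt_or_eq_of_le (hτ z w hz hw hzw) with h3 | h3
  · obtain ⟨h4, h5⟩ := h2 _ _ (hQ z hz) (hQ w hw) h3
    exact ⟨h4, fun h6 => by rw [hg z hz, hg w hw, h5 h6]⟩
  · exact ⟨by simp only [h3]; exact le_refl _, fun _ => by rw [hg z hz, hg w hw, h3]⟩

theorem Few.comp_anti {q : ℕ} {Q Q' : ℕ → Prop} {g g' : ℕ → ℕ} (h : Few q Q' g') (τ : ℕ → ℕ)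
    (hτ : ∀ z w, Q z → Q w → z < w → τ w ≤ τ z) (hQ : ∀ z, Q z → Q' (τ z))
    (hg : ∀ z, Q z → g z = g' (τ z)) : Few q Q g := by
  obtain ⟨ρ, h1, h2⟩ := h
  refine ⟨fun z => q - 1 - ρ (τ z), fun z hz => ?_, fun z w hz hw hzw => ?_⟩
  · have := h1 _ (hQ z hz)
    show q - 1 - ρ (τ z) < q
    omega
  · have k1 := h1 _ (hQ z hz)
    have k2 := h1 _ (hQ w hw)
    rcases Nat.lt_or_eq_of_le (hτ z w hz hw hzw) with h3 | h3
    · obtain ⟨h4, h5⟩ := h2 _ _ (hQ w hw) (hQ z hz) h3
      refine ⟨by show q - 1 - ρ (τ z) ≤ q - 1 - ρ (τ w); omega, fun h6 => ?_⟩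
      have h6' : q - 1 - ρ (τ z) = q - 1 - ρ (τ w) := h6
      rw [hg z hz, hg w hw, h5 (by omega)]
    · exact ⟨by simp only [h3]; exact le_refl _, fun _ => by rw [hg z hz, hg w hw, h3]⟩

/-- Three phases. -/
theorem Few.three {q : ℕ} {Q : ℕ → Prop} {g τ : ℕ → ℕ} {b : Bool}
    (hτ : ∀ z w, Q z → Q w → z < w → le' b (τ z) (τ w)) (hle : ∀ z, τ z ≤ 2)
    (h0 : ∀ z, Q z → τ z = 0 → g z = 0) (h2 : ∀ z, Q z → τ z = 2 → g z = 1)
    (h1 : Few q (fun z => Q z ∧ τ z = 1) g) : Few (q + 2) Q g := by
  cases b with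
  | true =>
    have e : q + 2 = 1 + (q + 1) := by omega
    rw [e]
    refine Few.split (A := fun z => τ z = 0) ?_ ?_ ?_
    · intro z w hz hw hzw h
      have h3 : τ z ≤ τ w := hτ z w hz hw hzw
      have h' : τ w = 0 := h
      show τ z = 0
      omega
    · exact Few.const (fun z w hz hw _ => by rw [h0 z hz.1 hz.2, h0 w hw.1 hw.2])
    · refine Few.split (A := fun z => τ z = 1) ?_ ?_ ?_
      · intro z w hz hw hzw h
        have h3 : τ z ≤ τ w := hτ z w hz.1 hw.1 hzw
        have h' : τ w = 1 := h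
        have h4 : ¬ τ z = 0 := hz.2
        show τ z = 1
        omega
      · exact h1.mono (le_refl _) (fun z hz => ⟨hz.1.1, hz.2⟩) (fun _ _ => rfl)
      · refine Few.const (fun z w hz hw _ => ?_)
        have a1 := hle z
        have a2 := hle w
        have a3 : ¬ τ z = 0 := hz.1.2
        have a4 : ¬ τ w = 0 := hw.1.2
        have a5 : ¬ τ z = 1 := hz.2
        have a6 : ¬ τ w = 1 := hw.2
        rw [h2 z hz.1.1 (by omega), h2 w hw.1.1 (by omega)]
  | false =>
    have e : q + 2 = 1 + (q + 1) := by omega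
    rw [e]
    refine Few.split (A := fun z => τ z = 2) ?_ ?_ ?_
    · intro z w hz hw hzw h
      have h3 : τ w ≤ τ z := hτ z w hz hw hzw
      have h' : τ w = 2 := h
      have := hle z
      show τ z = 2
      omega
    · exact Few.const (fun z w hz hw _ => by rw [h2 z hz.1 hz.2, h2 w hw.1 hw.2])
    · refine Few.split (A := fun z => τ z = 1) ?_ ?_ ?_
      · intro z w hz hw hzw h
        have h3 : τ w ≤ τ z := hτ z w hz.1 hw.1 hzw
        have h' : τ w = 1 := h
        have h4 : ¬ τ z = 2 := hz.2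
        have := hle z
        show τ z = 1
        omega
      · exact h1.mono (le_refl _) (fun z hz => ⟨hz.1.1, hz.2⟩) (fun _ _ => rfl)
      · refine Few.const (fun z w hz hw _ => ?_)
        have a1 := hle z
        have a2 := hle w
        have a3 : ¬ τ z = 2 := hz.1.2
        have a4 : ¬ τ w = 2 := hw.1.2
        have a5 : ¬ τ z = 1 := hz.2
        have a6 : ¬ τ w = 1 := hw.2
        rw [h0 z hz.1.1 (by omega), h0 w hw.1.1 (by omega)]

/-- Colourings of decreasing lists with `p` colours, at most `q` runs in every position and no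
homogeneous list of length `n`. -/
structure LF (p q r N n : ℕ) (c : List ℕ → ℕ) : Prop where
  val : ∀ l, DL l → (∀ x ∈ l, x < N) → l.length = r → c l < p
  few : ∀ P S : List ℕ, P.length + 1 + S.length = r →
    Few q (fun z => DL (P ++ z :: S) ∧ ∀ x ∈ P ++ z :: S, x < N) (fun z => c (P ++ z :: S))
  nohom : ∀ s, DL s → (∀ x ∈ s, x < N) → s.length = n → ∀ v,
    ∃ l : List ℕ, l.Sublist s ∧ l.length = r ∧ c l ≠ v

/-- The stepped-up colour of a list of digits. -/
def upf (N : ℕ) (c : List ℕ → ℕ) (u : List ℕ) : ℕ :=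
  if tv u = 0 then 0 else if tv u = 2 then 1
  else if DL u then c u else c (fl N u)

theorem upf_zero {N : ℕ} {c : List ℕ → ℕ} {u : List ℕ} (h : tv u = 0) : upf N c u = 0 := by
  unfold upf; rw [if_pos h]

theorem upf_two {N : ℕ} {c : List ℕ → ℕ} {u : List ℕ} (h : tv u = 2) : upf N c u = 1 := by
  unfold upf; rw [if_neg (by omega), if_pos h]

theorem upf_DL {N : ℕ} {c : List ℕ → ℕ} {u : List ℕ} (h : DL u) : upf N c u = c u := by
  have := tv_of_DL h
  unfold upf; rw [if_neg (by omega), if_neg (by omega), if_pos h]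

theorem upf_IL {N : ℕ} {c : List ℕ → ℕ} {u : List ℕ} (h : IL u) (h2 : 2 ≤ u.length) :
    upf N c u = c (fl N u) := by
  have := tv_of_IL h
  have h3 : ¬ DL u := fun h4 => by have := DL_IL h4 h; omega
  unfold upf; rw [if_neg (by omega), if_neg (by omega), if_neg h3]

theorem len_mid (P S : List ℕ) (t : ℕ) : (P ++ t :: S).length = P.length + 1 + S.length := by
  rw [List.length_append, List.length_cons]; omega

/-- Moving one digit. -/
theorem few_digit {p q r N n : ℕ} {c : List ℕ → ℕ} (hr : 3 ≤ r) (h : LF p q r N n c)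
    (P S : List ℕ) (hlen : P.length + 1 + S.length = r) :
    Few (q + 2) (fun t => NB (P ++ t :: S) ∧ ∀ x ∈ P ++ t :: S, x < N)
      (fun t => upf N c (P ++ t :: S)) := by
  refine Few.three (τ := fun t => tv (P ++ t :: S)) (b := par true P.length) ?_
    (fun t => tv_le _) (fun t _ h0 => upf_zero h0) (fun t _ h2 => upf_two h2) ?_
  · intro t t' ht ht' htt
    exact tv_move (by rw [len_mid]; omega) ht.1 ht'.1 htt
  · by_cases hex : ∃ t, DL (P ++ t :: S)
    · obtain ⟨t0, ht0⟩ := hex
      have hD : ∀ t, (NB (P ++ t :: S) ∧ ∀ x ∈ P ++ t :: S, x < N) ∧ tv (P ++ t :: S) = 1 →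
          DL (P ++ t :: S) := by
        intro t ht
        rcases of_tv_one ht.2 ht.1.1 with h1 | h1
        · exact h1
        · have := DL_IL_move ht0 h1
          rw [len_mid] at this
          omega
      exact (h.few P S hlen).mono (le_refl _) (fun t ht => ⟨hD t ht, ht.1.2⟩)
        (fun t ht => upf_DL (hD t ht))
    · have hI : ∀ t, (NB (P ++ t :: S) ∧ ∀ x ∈ P ++ t :: S, x < N) ∧ tv (P ++ t :: S) = 1 →
          IL (P ++ t :: S) := by
        intro t ht
        rcases of_tv_one ht.2 ht.1.1 with h1 | h1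
        · exact absurd ⟨t, h1⟩ hex
        · exact h1
      refine (h.few (fl N P) (fl N S) (by rw [fl_length, fl_length]; exact hlen)).comp_anti
        (fun t => N - 1 - t) (fun z w _ _ _ => by show N - 1 - w ≤ N - 1 - z; omega) ?_ ?_
      · intro t ht
        have h1 := fl_DL (hI t ht) ht.1.2
        have h2 := fl_lt ht.1.2
        rw [fl_append] at h1 h2
        exact ⟨h1, h2⟩
      · intro t ht
        show upf N c (P ++ t :: S) = c (fl N P ++ (N - 1 - t) :: fl N S)
        rw [upf_IL (hI t ht) (by rw [len_mid]; omega), fl_append]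

/-- Moving one vertex. -/
theorem few_up {p q r N n : ℕ} {c : List ℕ → ℕ} (hr : 3 ≤ r) (h : LF p q r N n c)
    (P S : List ℕ) (hlen : P.length + 1 + S.length = r + 1) :
    Few (2 * (q + 2)) (fun z => DL (P ++ z :: S) ∧ ∀ x ∈ P ++ z :: S, x < 2 ^ N)
      (fun z => upf N c (dl (P ++ z :: S))) := by
  rcases List.eq_nil_or_concat P with rfl | ⟨P', p0, rfl⟩
  · -- the last vertex
    simp only [List.nil_append, List.length_nil] at *
    cases S with
    | nil => simp at hlen; omega
    | cons q0 S' =>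
      refine ((few_digit hr h [] (dl (q0 :: S')) (by
        rw [dl_length, List.length_nil, List.length_cons] at *; omega)).comp_mono
          (fun z => hd q0 z) ?_ ?_ (fun z _ => rfl)).mono (by omega) (fun _ hz => hz)
          (fun _ _ => rfl)
      · intro z w hz hw hzw
        have hqz : q0 < z := (DL_cons2.1 hz.1).1
        show hd q0 z ≤ hd q0 w
        rw [hd_max hqz hzw]; exact le_max_left _ _
      · intro z hz
        have h1 := dl_NB _ hz.1
        have h2 := dl_lt _ hz.1 hz.2
        exact ⟨h1, h2⟩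
  · rw [List.concat_eq_append, List.length_append, List.length_singleton] at hlen
    have hform : ∀ z, List.concat P' p0 ++ z :: S = P' ++ p0 :: z :: S := by
      intro z
      rw [List.concat_eq_append, List.append_assoc]
      rfl
    simp only [hform]
    have hlp : (dl (P' ++ [p0])).length = P'.length := dl_append_length p0 P'
    have htail : ∀ z, DL (P' ++ p0 :: z :: S) → DL (p0 :: z :: S) := fun z hz =>
      hz.sublist (List.sublist_append_right _ _)
    have hanti : ∀ z w, DL (P' ++ p0 :: z :: S) → DL (P' ++ p0 :: w :: S) → z < w →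
        hd w p0 ≤ hd z p0 := by
      intro z w hz hw hzw
      have hwp : w < p0 := (DL_cons2.1 (htail w hw)).1
      rw [hd_max hzw hwp]; exact le_max_right _ _
    cases S with
    | nil =>
      refine ((few_digit hr h (dl (P' ++ [p0])) [] (by
        rw [hlp, List.length_nil] at *; omega)).comp_anti (fun z => hd z p0) ?_ ?_ ?_).mono
          (by omega) (fun _ hz => hz) (fun _ _ => rfl)
      · intro z w hz hw hzw
        exact hanti z w hz.1 hw.1 hzw
      · intro z hz
        have h1 := dl_NB _ hz.1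
        have h2 := dl_lt _ hz.1 hz.2
        rw [dl_append] at h1 h2
        exact ⟨h1, h2⟩
      · intro z hz
        show upf N c (dl (P' ++ [p0, z])) = upf N c (dl (P' ++ [p0]) ++ [hd z p0])
        rw [dl_append]
        rfl
    | cons q0 S' =>
      have hmid : ∀ z, DL (P' ++ p0 :: z :: q0 :: S') → q0 < z ∧ z < p0 := by
        intro z hz
        have h1 := DL_cons2.1 (htail z hz)
        exact ⟨(DL_cons2.1 h1.2).1, h1.1⟩
      have hmono : ∀ z w, DL (P' ++ p0 :: z :: q0 :: S') → z < w → hd q0 z ≤ hd q0 w := by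
        intro z w hz hzw
        rw [hd_max (hmid z hz).1 hzw]; exact le_max_left _ _
      have hD : ∀ z, DL (P' ++ p0 :: z :: q0 :: S') → hd q0 p0 = max (hd q0 z) (hd z p0) :=
        fun z hz => hd_max (hmid z hz).1 (hmid z hz).2
      have e : 2 * (q + 2) = (q + 2) + (q + 2) := by ring
      rw [e]
      have hlS : (dl (q0 :: S')).length = S'.length := by
        rw [dl_length, List.length_cons]; omega
      rw [List.length_cons] at hlen
      refine Few.split (A := fun z => hd q0 z < hd z p0) ?_ ?_ ?_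
      · intro z w hz hw hzw hA
        have h1 := hmono z w hz.1 hzw
        have h2 := hanti z w hz.1 hw.1 hzw
        have hA' : hd q0 w < hd w p0 := hA
        show hd q0 z < hd z p0
        omega
      · refine (few_digit hr h (dl (P' ++ [p0]) ++ [hd q0 p0]) (dl (q0 :: S')) (by
          rw [List.length_append, hlp, hlS, List.length_singleton]; omega)).comp_mono
            (fun z => hd q0 z) (fun z w hz _ hzw => hmono z w hz.1.1 hzw) ?_ ?_
        · intro z hz
          have h1 := dl_NB _ hz.1.1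
          have h2 := dl_lt _ hz.1.1 hz.1.2
          have h3 : hd q0 p0 = hd z p0 := by
            rw [hD z hz.1.1, max_eq_right (le_of_lt hz.2)]
          rw [dl_append, dl_cons2] at h1 h2
          have e2 : (dl (P' ++ [p0]) ++ [hd q0 p0]) ++ hd q0 z :: dl (q0 :: S') =
              dl (P' ++ [p0]) ++ hd z p0 :: hd q0 z :: dl (q0 :: S') := by
            rw [h3]; simp
          show NB ((dl (P' ++ [p0]) ++ [hd q0 p0]) ++ hd q0 z :: dl (q0 :: S')) ∧
            ∀ x ∈ (dl (P' ++ [p0]) ++ [hd q0 p0]) ++ hd q0 z :: dl (q0 :: S'), x < N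
          rw [e2]
          exact ⟨h1, h2⟩
        · intro z hz
          have h3 : hd q0 p0 = hd z p0 := by
            rw [hD z hz.1.1, max_eq_right (le_of_lt hz.2)]
          show upf N c (dl (P' ++ p0 :: z :: q0 :: S')) =
            upf N c ((dl (P' ++ [p0]) ++ [hd q0 p0]) ++ hd q0 z :: dl (q0 :: S'))
          rw [dl_append, dl_cons2, h3]
          simp
      · refine (few_digit hr h (dl (P' ++ [p0])) (hd q0 p0 :: dl (q0 :: S')) (by
          rw [List.length_cons, hlp, hlS]; omega)).comp_anti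
            (fun z => hd z p0) (fun z w hz hw hzw => hanti z w hz.1.1 hw.1.1 hzw) ?_ ?_
        · intro z hz
          have h1 := dl_NB _ hz.1.1
          have h2 := dl_lt _ hz.1.1 hz.1.2
          have h3 : hd q0 p0 = hd q0 z := by
            rw [hD z hz.1.1, max_eq_left (not_lt.1 hz.2)]
          rw [dl_append, dl_cons2, ← h3] at h1 h2
          exact ⟨h1, h2⟩
        · intro z hz
          have h3 : hd q0 p0 = hd q0 z := by
            rw [hD z hz.1.1, max_eq_left (not_lt.1 hz.2)]
          show upf N c (dl (P' ++ p0 :: z :: q0 :: S')) =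
            upf N c (dl (P' ++ [p0]) ++ hd z p0 :: hd q0 p0 :: dl (q0 :: S'))
          rw [dl_append, dl_cons2, h3]

/-- **The stepping-up lemma for colourings with few runs.** -/
theorem LF.up {p q r N n : ℕ} {c : List ℕ → ℕ} (hp : 2 ≤ p) (hr : 3 ≤ r) (hn : 1 ≤ n)
    (h : LF p q r N n c) :
    LF p (2 * (q + 2)) (r + 1) (2 ^ N) (2 * n + r) (fun l => upf N c (dl l)) := by
  refine ⟨?_, ?_, ?_⟩
  · intro l hl hlt hlen
    have hlen' : (dl l).length = r := by rw [dl_length, hlen]; simp
    have h1 := dl_NB l hl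
    have h2 := dl_lt l hl hlt
    have h3 := tv_le (dl l)
    rcases (show tv (dl l) = 0 ∨ tv (dl l) = 1 ∨ tv (dl l) = 2 by omega) with h4 | h4 | h4
    · show upf N c (dl l) < p
      rw [upf_zero h4]; omega
    · rcases of_tv_one h4 h1 with h5 | h5
      · show upf N c (dl l) < p
        rw [upf_DL h5]; exact h.val _ h5 h2 hlen'
      · show upf N c (dl l) < p
        rw [upf_IL h5 (by omega)]
        exact h.val _ (fl_DL h5 h2) (fl_lt h2) (by rw [fl_length, hlen'])
    · show upf N c (dl l) < p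
      rw [upf_two h4]; omega
  · intro P S hlen
    exact few_up hr h P S hlen
  · intro s hs hsN hsl v
    by_contra hcon
    have hall : ∀ l : List ℕ, l.Sublist s → l.length = r + 1 → upf N c (dl l) = v := by
      intro l h3 h4
      by_contra h5
      exact hcon ⟨l, h3, h4, h5⟩
    have hL : (dl s).length = 2 * n + r - 1 := by rw [dl_length, hsl]
    have hnb := dl_NB s hs
    have hltL := dl_lt s hs hsN
    -- windows
    have hwin : ∀ i, i + 2 ≤ 2 * n → ∃ R : List ℕ,
        upf N c ((dl s).getD i 0 :: (dl s).getD (i + 1) 0 :: (dl s).getD (i + 2) 0 :: R) = v := by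
      intro i hi
      obtain ⟨R, hR⟩ := drop_three (dl s) i (by omega)
      obtain ⟨r', rfl⟩ : ∃ r', r = r' + 3 := ⟨r - 3, by omega⟩
      refine ⟨R.take r', ?_⟩
      rw [← hall ((s.drop i).take (r' + 3 + 1))
        ((List.take_sublist _ _).trans (List.drop_sublist _ _)) (by
          rw [List.length_take, List.length_drop]; omega)]
      rw [dl_take, dl_drop, hR]
      rfl
    have hmono := monotone_half (fun i => (dl s).getD i 0) n hn
      (fun i hi => NB_getD _ i hnb (by omega)) (decide (v ≠ 0)) (by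
        intro hP i hi hmin
        have hv0 : v = 0 := by simpa using hP
        obtain ⟨R, hR⟩ := hwin i hi
        have ht : tv ((dl s).getD i 0 :: (dl s).getD (i + 1) 0 :: (dl s).getD (i + 2) 0 :: R) = 2 := by
          rw [tv_cons2, if_neg (by omega), gd_cons, if_neg (by omega)]
          simp
        rw [upf_two ht] at hR
        omega) (by
        intro hP i hi hmax
        have hv0 : v ≠ 0 := by simpa using hP
        obtain ⟨R, hR⟩ := hwin i hi
        have ht : tv ((dl s).getD i 0 :: (dl s).getD (i + 1) 0 :: (dl s).getD (i + 2) 0 :: R) = 0 := by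
          rw [tv_cons2, if_pos (by omega), gi_cons, if_neg (by omega)]
          simp
        rw [upf_zero ht] at hR
        omega)
    obtain ⟨i0, hi0, hrun⟩ := hmono
    have hs1 : ((s.drop i0).take (n + 1)).Sublist s :=
      (List.take_sublist _ _).trans (List.drop_sublist _ _)
    have hd1 : dl ((s.drop i0).take (n + 1)) = ((dl s).drop i0).take n := by
      rw [dl_take, dl_drop]
    have hDs1 := hs.sublist hs1
    have hTs : (((dl s).drop i0).take n).Sublist (dl s) :=
      (List.take_sublist _ _).trans (List.drop_sublist _ _)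
    have hTlt : ∀ x ∈ ((dl s).drop i0).take n, x < N := fun x hx => hltL x (hTs.subset hx)
    have hTlen : (((dl s).drop i0).take n).length = n := by
      rw [List.length_take, List.length_drop]; omega
    have hlen1 : ((s.drop i0).take (n + 1)).length = n + 1 := by
      rw [List.length_take, List.length_drop]; omega
    rcases hrun with hrun | hrun
    · have hI : IL (((dl s).drop i0).take n) := stretch_inc (by omega) (fun i hi => hrun i (by omega))
      obtain ⟨l', hl', hl'r, hl'v⟩ := h.nohom (fl N (((dl s).drop i0).take n)) (fl_DL hI hTlt)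
        (fl_lt hTlt) (by rw [fl_length, hTlen]) v
      unfold fl at hl'
      obtain ⟨l, hl, rfl⟩ := List.sublist_map_iff.1 hl'
      have hll : l.length = r := by
        rw [← hl'r]; simp
      obtain ⟨x, rest, hx⟩ := List.exists_cons_of_ne_nil
        (show (s.drop i0).take (n + 1) ≠ [] by
          intro h3
          rw [h3] at hlen1
          simp at hlen1)
      rw [hx] at hDs1 hd1 hs1
      obtain ⟨s', hs', hs'l⟩ := comb_inc rest x hDs1 (by rw [hd1]; exact hI) l (by rw [hd1]; exact hl)
      have h5 := hall (x :: s') (hs'.trans hs1) (by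
        have h6 := dl_length (x :: s')
        rw [hs'l, hll, List.length_cons] at h6
        rw [List.length_cons]
        omega)
      rw [hs'l, upf_IL (hI.sublist hl) (by omega)] at h5
      exact hl'v h5
    · have hD : DL (((dl s).drop i0).take n) := stretch_dec (by omega) (fun i hi => hrun i (by omega))
      obtain ⟨l, hl, hll, hlv⟩ := h.nohom _ hD hTlt hTlen v
      obtain ⟨s', hs', hs'l, hne⟩ := comb_dec ((s.drop i0).take (n + 1)) hDs1 (by rw [hd1]; exact hD) l
        (by rw [hd1]; exact hl) (by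
          intro h3
          rw [h3] at hlen1
          simp at hlen1)
      have hpos : 0 < s'.length := List.length_pos_of_ne_nil hne
      have h5 := hall s' (hs'.trans hs1) (by
        have h6 := dl_length s'
        rw [hs'l, hll] at h6
        omega)
      rw [hs'l, upf_DL (hD.sublist hl)] at h5
      exact hlv h5

end Pool.Agent.Q118.CC
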