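import Pool.Agent.Q118.CC.Runs

/-!
# Colourings with few runs: pairs and triples
-/

namespace Pool.Agent.Q118.CC

open Finset
open Pool.Agent.TH138.NF (hd hd_ne hd_max hd_lt)

/-- Colourings of pairs with two colours, few runs in rows and columns, and no homogeneous set
with more than `n` elements. -/
structure PF (q N n : ℕ) (f : ℕ → ℕ → ℕ) : Prop where
  val : ∀ x y, x < y → y < N → f x y < 2
  row : ∀ x, Few q (fun y => x < y ∧ y < N) (fun y => f x y)
  col : ∀ y, y < N → Few q (fun x => x < y) (fun x => f x y)
  hom : ∀ S ⊆ range N, ∀ v, (∀ x ∈ S, ∀ y ∈ S, x < y → f x y = v) → S.card ≤ n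

theorem Few.id {q : ℕ} {Q : ℕ → Prop} (g : ℕ → ℕ) (h : ∀ z, Q z → z < q) : Few q Q g :=
  ⟨fun z => z, h, fun _ _ _ _ hzw => ⟨hzw.le, fun h' => (ne_of_lt hzw h').elim⟩⟩

/-- The letters. -/
theorem pf_letters (a : ℕ) : ∃ f, PF (2 ^ a) (2 ^ a) (4 * a + 3) f := by
  obtain ⟨χ, hχ⟩ := Pool.Agent.TH138.NF.exists_chi a
  refine ⟨fun x y => if χ x y = true then 0 else 1, ?_, ?_, ?_, ?_⟩
  · intro x y _ _
    show (if χ x y = true then 0 else 1) < 2
    split_ifs <;> norm_num
  · intro x
    exact Few.id _ (fun z hz => hz.2)
  · intro y hy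
    exact Few.id _ (fun z hz => lt_trans hz hy)
  · intro S hS v hv
    by_contra hcon
    push Not at hcon
    obtain ⟨x, hxS, hxlt⟩ := enum S
    have hinj : ∀ i j, i < S.card → j < S.card → x i = x j → i = j := by
      intro i j hi hj h
      rcases lt_trichotomy i j with h1 | h1 | h1
      · have := hxlt i j h1 hj; omega
      · exact h1
      · have := hxlt j i h1 hi; omega
    have hset : ∀ o, o + (2 * a + 2) ≤ S.card →
        (∀ u ∈ (range (2 * a + 2)).image (fun i => x (o + i)), u < 2 ^ a) ∧
        ((range (2 * a + 2)).image (fun i => x (o + i))).card = 2 * a + 2 := by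
      intro o ho
      constructor
      · intro u hu
        rw [mem_image] at hu
        obtain ⟨i, hi, rfl⟩ := hu
        rw [mem_range] at hi
        exact mem_range.1 (hS (hxS _ (by omega)))
      · rw [card_image_of_injOn, card_range]
        intro i hi i' hi' hii
        rw [coe_range, Set.mem_Iio] at hi hi'
        have := hinj (o + i) (o + i') (by omega) (by omega) hii
        omega
    obtain ⟨u, hu, w, hw, huw⟩ := hχ _ _ (hset 0 (by omega)).1 (hset (2 * a + 2) (by omega)).1
      (hset 0 (by omega)).2 (hset (2 * a + 2) (by omega)).2 (decide (v = 0))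
    rw [mem_image] at hu hw
    obtain ⟨i, hi, rfl⟩ := hu
    obtain ⟨i', hi', rfl⟩ := hw
    rw [mem_range] at hi hi'
    have h1 : (if χ (x (0 + i)) (x (2 * a + 2 + i')) = true then 0 else 1) = v :=
      hv _ (hxS _ (by omega)) _ (hxS _ (by omega)) (hxlt _ _ (by omega) (by omega))
    by_cases hv0 : v = 0
    · rw [decide_eq_true hv0] at huw
      rw [if_neg huw] at h1
      omega
    · rw [decide_eq_false hv0] at huw
      have h2 : χ (x (0 + i)) (x (2 * a + 2 + i')) = true := by
        cases h3 : χ (x (0 + i)) (x (2 * a + 2 + i'))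
        · exact absurd h3 huw
        · rfl
      rw [if_pos h2] at h1
      omega

/-- The lexicographic product. -/
theorem PF.prod {q1 q2 N1 N2 n1 n2 : ℕ} {f1 f2 : ℕ → ℕ → ℕ} (h1 : PF q1 N1 n1 f1)
    (h2 : PF q2 N2 n2 f2) (hN2 : 0 < N2) :
    PF (q1 + q2) (N1 * N2) (n1 * n2) (fun x y => if x / N2 = y / N2 then f2 (x % N2) (y % N2)
      else f1 (x / N2) (y / N2)) := by
  have hq : ∀ y, y < N1 * N2 → y / N2 < N1 := fun y hy => Nat.div_lt_of_lt_mul (by
    rw [mul_comm]; exact hy)
  refine ⟨?_, ?_, ?_, ?_⟩
  · intro x y hxy hy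
    show (if x / N2 = y / N2 then f2 (x % N2) (y % N2) else f1 (x / N2) (y / N2)) < 2
    split_ifs with h
    · exact h2.val _ _ (mod_lt_mod h hxy) (Nat.mod_lt _ hN2)
    · have h3 : x / N2 ≤ y / N2 := Nat.div_le_div_right hxy.le
      exact h1.val _ _ (lt_of_le_of_ne h3 h) (hq y hy)
  · intro x
    rw [add_comm q1 q2]
    refine Few.split (A := fun y => x / N2 = y / N2) ?_ ?_ ?_
    · intro z w hz hw hzw hA
      have h3 : x / N2 ≤ z / N2 := Nat.div_le_div_right hz.1.le
      have h4 : z / N2 ≤ w / N2 := Nat.div_le_div_right hzw.le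
      have hA' : x / N2 = w / N2 := hA
      show x / N2 = z / N2
      omega
    · refine (h2.row (x % N2)).comp_mono (fun y => y % N2) ?_ ?_ ?_
      · intro z w hz hw hzw
        have e1 : x / N2 = z / N2 := hz.2
        have e2 : x / N2 = w / N2 := hw.2
        exact (mod_lt_mod (by rw [← e1, ← e2]) hzw).le
      · intro z hz
        exact ⟨mod_lt_mod hz.2 hz.1.1, Nat.mod_lt _ hN2⟩
      · intro z hz
        exact if_pos hz.2
    · refine (h1.row (x / N2)).comp_mono (fun y => y / N2) ?_ ?_ ?_
      · intro z w _ _ hzw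
        exact Nat.div_le_div_right hzw.le
      · intro z hz
        exact ⟨lt_of_le_of_ne (Nat.div_le_div_right hz.1.1.le) hz.2, hq z hz.1.2⟩
      · intro z hz
        exact if_neg hz.2
  · intro y hy
    refine Few.split (A := fun x => x / N2 ≠ y / N2) ?_ ?_ ?_
    · intro z w hz hw hzw hA
      have h3 : w / N2 ≤ y / N2 := Nat.div_le_div_right (le_of_lt hw)
      have h4 : z / N2 ≤ w / N2 := Nat.div_le_div_right hzw.le
      have hA' : w / N2 ≠ y / N2 := hA
      show z / N2 ≠ y / N2
      omega
    · refine (h1.col (y / N2) (hq y hy)).comp_mono (fun x => x / N2) ?_ ?_ ?_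
      · intro z w _ _ hzw
        exact Nat.div_le_div_right hzw.le
      · intro z hz
        exact lt_of_le_of_ne (Nat.div_le_div_right (le_of_lt hz.1)) hz.2
      · intro z hz
        exact if_neg hz.2
    · refine (h2.col (y % N2) (Nat.mod_lt _ hN2)).comp_mono (fun x => x % N2) ?_ ?_ ?_
      · intro z w hz hw hzw
        have e1 : z / N2 = y / N2 := not_not.1 hz.2
        have e2 : w / N2 = y / N2 := not_not.1 hw.2
        exact (mod_lt_mod (by rw [e1, e2]) hzw).le
      · intro z hz
        exact mod_lt_mod (not_not.1 hz.2) hz.1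
      · intro z hz
        exact if_pos (not_not.1 hz.2)
  · intro S hS v hv
    have him : (S.image (fun x => x / N2)).card ≤ n1 := by
      refine h1.hom _ ?_ v ?_
      · intro u hu
        rw [mem_image] at hu
        obtain ⟨x, hx, rfl⟩ := hu
        exact mem_range.2 (hq x (mem_range.1 (hS hx)))
      · intro u hu u' hu' huu
        rw [mem_image] at hu hu'
        obtain ⟨x, hx, rfl⟩ := hu
        obtain ⟨y, hy, rfl⟩ := hu'
        have hxy : x < y := by
          by_contra h
          have := Nat.div_le_div_right (c := N2) (not_lt.1 h)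
          omega
        have h3 := hv x hx y hy hxy
        rw [if_neg (by omega)] at h3
        exact h3
    have hfib : ∀ b ∈ S.image (fun x => x / N2), (S.filter (fun x => x / N2 = b)).card ≤ n2 := by
      intro b _
      have h3 : ((S.filter (fun x => x / N2 = b)).image (fun x => x % N2)).card ≤ n2 := by
        refine h2.hom _ ?_ v ?_
        · intro u hu
          rw [mem_image] at hu
          obtain ⟨x, hx, rfl⟩ := hu
          exact mem_range.2 (Nat.mod_lt _ hN2)
        · intro u hu u' hu' huu
          rw [mem_image] at hu hu'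
          obtain ⟨x, hx, rfl⟩ := hu
          obtain ⟨y, hy, rfl⟩ := hu'
          rw [mem_filter] at hx hy
          have e1 := Nat.div_add_mod x N2
          have e2 := Nat.div_add_mod y N2
          rw [hx.2] at e1
          rw [hy.2] at e2
          have h4 := hv x hx.1 y hy.1 (by omega)
          rw [if_pos (by rw [hx.2, hy.2])] at h4
          exact h4
      rw [card_image_of_injOn] at h3
      · exact h3
      · intro x hx y hy hxy
        rw [mem_coe, mem_filter] at hx hy
        have e1 := Nat.div_add_mod x N2
        have e2 := Nat.div_add_mod y N2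
        rw [hx.2] at e1
        rw [hy.2] at e2
        have hxy' : x % N2 = y % N2 := hxy
        omega
    have h3 := card_le_mul_card_image S n2 hfib
    calc S.card ≤ n2 * (S.image (fun x => x / N2)).card := h3
      _ ≤ n2 * n1 := Nat.mul_le_mul_left _ him
      _ = n1 * n2 := mul_comm _ _

/-- Powers. -/
theorem pf_power (a k : ℕ) : ∃ f, PF (k * 2 ^ a) ((2 ^ a) ^ k) ((4 * a + 3) ^ k) f := by
  induction k with
  | zero =>
    refine ⟨fun _ _ => 0, ?_, ?_, ?_, ?_⟩
    · intro x y _ _; norm_num
    · intro x
      exact Few.id _ (fun z hz => by rw [pow_zero] at hz; omega)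
    · intro y hy
      exact Few.id _ (fun z hz => by rw [pow_zero] at hy; omega)
    · intro S hS v _
      have := card_le_card hS
      rw [card_range, pow_zero] at this
      rw [pow_zero]
      exact this
  | succ k ih =>
    obtain ⟨f, hf⟩ := ih
    obtain ⟨g, hg⟩ := pf_letters a
    have h := hf.prod hg (by positivity)
    have e1 : k * 2 ^ a + 2 ^ a = (k + 1) * 2 ^ a := by ring
    have e2 : (2 ^ a) ^ k * 2 ^ a = (2 ^ a) ^ (k + 1) := (pow_succ _ _).symm
    have e3 : (4 * a + 3) ^ k * (4 * a + 3) = (4 * a + 3) ^ (k + 1) := (pow_succ _ _).symm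
    rw [e1, e2, e3] at h
    exact ⟨_, h⟩

/-- The colour of two digits. -/
def up2 (f : ℕ → ℕ → ℕ) : List ℕ → ℕ
  | [s, t] => if t < s then f t s else 2 + f s t
  | _ => 0

theorem up2_lt {f : ℕ → ℕ → ℕ} {s t : ℕ} (h : t < s) : up2 f [s, t] = f t s := if_pos h

theorem up2_gt {f : ℕ → ℕ → ℕ} {s t : ℕ} (h : s < t) : up2 f [s, t] = 2 + f s t :=
  if_neg (by omega)

theorem Few.shift {q : ℕ} {Q : ℕ → Prop} {g : ℕ → ℕ} (h : Few q Q g) (a : ℕ) :
    Few q Q (fun z => a + g z) := by
  obtain ⟨ρ, h1, h2⟩ := h
  refine ⟨ρ, h1, fun z w hz hw hzw => ?_⟩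
  obtain ⟨h3, h4⟩ := h2 z w hz hw hzw
  exact ⟨h3, fun h5 => by simp only [h4 h5]⟩

theorem few_snd {q N n : ℕ} {f : ℕ → ℕ → ℕ} (h : PF q N n f) {s : ℕ} (hs : s < N) :
    Few (2 * q) (fun t => t ≠ s ∧ t < N) (fun t => up2 f [s, t]) := by
  rw [two_mul]
  refine Few.split (A := fun t => t < s) (fun z w _ _ hzw hA => lt_trans hzw hA) ?_ ?_
  · exact (h.col s hs).mono (le_refl _) (fun t ht => ht.2) (fun t ht => up2_lt ht.2)
  · exact ((h.row s).shift 2).mono (le_refl _)
      (fun t ht => ⟨by have := ht.1.1; have := ht.2; omega, ht.1.2⟩)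
      (fun t ht => up2_gt (by have := ht.1.1; have := ht.2; omega))

theorem few_fst {q N n : ℕ} {f : ℕ → ℕ → ℕ} (h : PF q N n f) {s : ℕ} (hs : s < N) :
    Few (2 * q) (fun t => t ≠ s ∧ t < N) (fun t => up2 f [t, s]) := by
  rw [two_mul]
  refine Few.split (A := fun t => t < s) (fun z w _ _ hzw hA => lt_trans hzw hA) ?_ ?_
  · exact ((h.col s hs).shift 2).mono (le_refl _) (fun t ht => ht.2) (fun t ht => up2_gt ht.2)
  · exact (h.row s).mono (le_refl _)
      (fun t ht => ⟨by have := ht.1.1; have := ht.2; omega, ht.1.2⟩)
      (fun t ht => up2_lt (by have := ht.1.1; have := ht.2; omega))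

theorem two_digits {l : List ℕ} (h : l.length = 3) : ∃ s t, dl l = [s, t] := by
  obtain ⟨z, y, x, rfl⟩ := length_three h
  exact ⟨_, _, rfl⟩

/-- **From pairs to triples.** -/
theorem LF.of_PF {q N n : ℕ} {f : ℕ → ℕ → ℕ} (h : PF q N n f) :
    LF 4 (4 * q) 3 (2 ^ N) (n + 2) (fun l => up2 f (dl l)) := by
  refine ⟨?_, ?_, ?_⟩
  · intro l hl hlt hlen
    obtain ⟨z, y, x, rfl⟩ := length_three hlen
    have h1 := DL_cons2.1 hl
    have h2 := DL_cons2.1 h1.2
    have h3 := dl_lt _ hl hlt
    have h4 : hd x y ≠ hd y z := hd_ne h2.1 h1.1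
    have h5 : hd y z < N := h3 _ (by simp [dl])
    have h6 : hd x y < N := h3 _ (by simp [dl])
    show up2 f [hd y z, hd x y] < 4
    rcases lt_or_gt_of_ne h4 with h7 | h7
    · rw [up2_lt h7]
      have := h.val _ _ h7 h5
      omega
    · rw [up2_gt h7]
      have := h.val _ _ h7 h6
      omega
  · intro P S hlen
    match P, S, hlen with
    | [], [y, x], _ =>
      by_cases hs : hd x y < N
      · refine ((few_fst h hs).comp_mono (fun z => hd y z) ?_ ?_ (fun z _ => rfl)).mono
          (by omega) (fun _ hz => hz) (fun _ _ => rfl)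
        · intro z w hz hw hzw
          have hyz : y < z := (DL_cons2.1 hz.1).1
          show hd y z ≤ hd y w
          rw [hd_max hyz hzw]; exact le_max_left _ _
        · intro z hz
          have h1 := DL_cons2.1 hz.1
          have h2 := DL_cons2.1 h1.2
          exact ⟨(hd_ne h2.1 h1.1).symm, dl_lt _ hz.1 hz.2 _ (by simp [dl])⟩
      · refine ⟨fun _ => 0, fun z hz => ?_, fun z w hz _ _ => ?_⟩
        · exact absurd (dl_lt _ hz.1 hz.2 (hd x y) (by simp [dl])) hs
        · exact absurd (dl_lt _ hz.1 hz.2 (hd x y) (by simp [dl])) hs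
    | [p0], [x], _ =>
      have hmid : ∀ z, DL ([p0] ++ z :: [x]) → x < z ∧ z < p0 := by
        intro z hz
        have h1 := DL_cons2.1 hz
        exact ⟨(DL_cons2.1 h1.2).1, h1.1⟩
      have hD : ∀ z, DL ([p0] ++ z :: [x]) → hd x p0 = max (hd x z) (hd z p0) :=
        fun z hz => hd_max (hmid z hz).1 (hmid z hz).2
      have hmono : ∀ z w, DL ([p0] ++ z :: [x]) → z < w → hd x z ≤ hd x w := by
        intro z w hz hzw
        rw [hd_max (hmid z hz).1 hzw]; exact le_max_left _ _
      have hanti : ∀ z w, DL ([p0] ++ w :: [x]) → z < w → hd w p0 ≤ hd z p0 := by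
        intro z w hw hzw
        rw [hd_max hzw (hmid w hw).2]; exact le_max_right _ _
      have hdig : ∀ z, DL ([p0] ++ z :: [x]) → (∀ u ∈ [p0] ++ z :: [x], u < 2 ^ N) →
          hd z p0 ≠ hd x z ∧ hd z p0 < N ∧ hd x z < N := by
        intro z hz hzN
        exact ⟨(hd_ne (hmid z hz).1 (hmid z hz).2).symm, dl_lt _ hz hzN _ (by simp [dl]),
          dl_lt _ hz hzN _ (by simp [dl])⟩
      by_cases hs : hd x p0 < N
      · have e : 4 * q = 2 * q + 2 * q := by ring
        rw [e]
        refine Few.split (A := fun z => hd x z < hd z p0) ?_ ?_ ?_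
        · intro z w hz hw hzw hA
          have h1 := hmono z w hz.1 hzw
          have h2 := hanti z w hw.1 hzw
          have hA' : hd x w < hd w p0 := hA
          show hd x z < hd z p0
          omega
        · refine (few_snd h hs).comp_mono (fun z => hd x z)
            (fun z w hz _ hzw => hmono z w hz.1.1 hzw) ?_ ?_
          · intro z hz
            have h1 := hdig z hz.1.1 hz.1.2
            have h3 : hd x p0 = hd z p0 := by
              rw [hD z hz.1.1, max_eq_right (le_of_lt hz.2)]
            show hd x z ≠ hd x p0 ∧ hd x z < N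
            rw [h3]
            exact ⟨h1.1.symm, h1.2.2⟩
          · intro z hz
            have h3 : hd x p0 = hd z p0 := by
              rw [hD z hz.1.1, max_eq_right (le_of_lt hz.2)]
            show up2 f [hd z p0, hd x z] = up2 f [hd x p0, hd x z]
            rw [h3]
        · refine (few_fst h hs).comp_anti (fun z => hd z p0)
            (fun z w _ hw hzw => hanti z w hw.1.1 hzw) ?_ ?_
          · intro z hz
            have h1 := hdig z hz.1.1 hz.1.2
            have h3 : hd x p0 = hd x z := by
              rw [hD z hz.1.1, max_eq_left (not_lt.1 hz.2)]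
            show hd z p0 ≠ hd x p0 ∧ hd z p0 < N
            rw [h3]
            exact ⟨h1.1, h1.2.1⟩
          · intro z hz
            have h3 : hd x p0 = hd x z := by
              rw [hD z hz.1.1, max_eq_left (not_lt.1 hz.2)]
            show up2 f [hd z p0, hd x z] = up2 f [hd z p0, hd x p0]
            rw [h3]
      · have hno : ∀ z, ¬ (DL ([p0] ++ z :: [x]) ∧ ∀ u ∈ [p0] ++ z :: [x], u < 2 ^ N) := by
          rintro z ⟨hz, hzN⟩
          obtain ⟨_, h2, h3⟩ := hdig z hz hzN
          apply hs
          rw [hD z hz]
          exact max_lt h3 h2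
        exact ⟨fun _ => 0, fun z hz => absurd hz (hno z), fun z w hz _ _ => absurd hz (hno z)⟩
    | [p0, p1], [], _ =>
      by_cases hs : hd p1 p0 < N
      · refine ((few_snd h hs).comp_anti (fun z => hd z p1) ?_ ?_ (fun z _ => rfl)).mono
          (by omega) (fun _ hz => hz) (fun _ _ => rfl)
        · intro z w hz hw hzw
          have h1 := DL_cons2.1 hw.1
          have hwp : w < p1 := (DL_cons2.1 h1.2).1
          show hd w p1 ≤ hd z p1
          rw [hd_max hzw hwp]; exact le_max_right _ _
        · intro z hz
          have h1 := DL_cons2.1 hz.1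
          have h2 := DL_cons2.1 h1.2
          exact ⟨hd_ne h2.1 h1.1, dl_lt _ hz.1 hz.2 _ (by simp [dl])⟩
      · refine ⟨fun _ => 0, fun z hz => ?_, fun z w hz _ _ => ?_⟩
        · exact absurd (dl_lt _ hz.1 hz.2 (hd p1 p0) (by simp [dl])) hs
        · exact absurd (dl_lt _ hz.1 hz.2 (hd p1 p0) (by simp [dl])) hs
    | [], _ :: _ :: _ :: _, hlen =>
      exfalso
      simp only [List.length_cons, List.length_nil] at hlen
      omega
    | [_], _ :: _ :: _, hlen =>
      exfalso
      simp only [List.length_cons, List.length_nil] at hlen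
      omega
    | [_, _], _ :: _, hlen =>
      exfalso
      simp only [List.length_cons, List.length_nil] at hlen
      omega
    | _ :: _ :: _ :: _, _, hlen =>
      exfalso
      simp only [List.length_cons] at hlen
      omega
  · intro s hs hsN hsl v
    by_contra hcon
    have hall : ∀ l : List ℕ, l.Sublist s → l.length = 3 → up2 f (dl l) = v := by
      intro l h3 h4
      by_contra h5
      exact hcon ⟨l, h3, h4, h5⟩
    have hL : (dl s).length = n + 1 := by rw [dl_length, hsl]; rfl
    have hnb := dl_NB s hs
    have hltL := dl_lt s hs hsN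
    have hsne : s ≠ [] := by
      intro h3
      rw [h3] at hsl
      simp at hsl
    -- windows
    have hwin : ∀ i, i + 1 < n + 1 → up2 f [(dl s).getD i 0, (dl s).getD (i + 1) 0] = v := by
      intro i hi
      have h3 : ((s.drop i).take 3).Sublist s := (List.take_sublist _ _).trans (List.drop_sublist _ _)
      have h4 := hall ((s.drop i).take (2 + 1)) h3 (by
        rw [List.length_take, List.length_drop]; omega)
      rw [dl_take, dl_drop] at h4
      have h5 : (dl s).drop i = (dl s).getD i 0 :: (dl s).getD (i + 1) 0 :: (dl s).drop (i + 2) := by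
        rw [List.drop_eq_getElem_cons (by omega), List.drop_eq_getElem_cons (by omega),
          getD_eq (by omega), getD_eq (by omega)]
      rw [h5] at h4
      exact h4
    -- all digits are monotone
    have hcase : DL (dl s) ∨ IL (dl s) := by
      rcases Nat.lt_or_ge v 2 with hv | hv
      · left
        have h3 := stretch_dec (L := dl s) (i0 := 0) (n := n + 1) (by omega) (by
          intro i hi
          rw [Nat.zero_add]
          by_contra h4
          have h5 := NB_getD (dl s) i hnb (by omega)
          have h6 := hwin i hi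
          rw [up2_gt (by omega)] at h6
          omega)
        rw [List.drop_zero, List.take_of_length_le (by omega)] at h3
        exact h3
      · right
        have h3 := stretch_inc (L := dl s) (i0 := 0) (n := n + 1) (by omega) (by
          intro i hi
          rw [Nat.zero_add]
          by_contra h4
          have h5 := NB_getD (dl s) i hnb (by omega)
          have h6 := hwin i hi
          rw [up2_lt (by omega)] at h6
          have h7 : (dl s).getD i 0 < N := by
            rw [← getD_eq (by omega)]
            exact hltL _ (List.getElem_mem _)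
          have := h.val ((dl s).getD (i + 1) 0) ((dl s).getD i 0) (by omega) h7
          omega)
        rw [List.drop_zero, List.take_of_length_le (by omega)] at h3
        exact h3
    have hsub : (dl s).toFinset ⊆ range N := by
      intro u hu
      rw [List.mem_toFinset] at hu
      exact mem_range.2 (hltL u hu)
    have hfinal : ∀ v', (∀ x ∈ (dl s).toFinset, ∀ y ∈ (dl s).toFinset, x < y → f x y = v') →
        (dl s).Nodup → False := by
      intro v' hv' hnd
      have h3 := h.hom _ hsub v' hv'
      rw [List.toFinset_card_of_nodup hnd, hL] at h3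
      omega
    rcases hcase with hD | hI
    · refine hfinal v ?_ hD.nodup
      intro x hx y hy hxy
      rw [List.mem_toFinset] at hx hy
      have hT : [y, x].Sublist (dl s) := sublist_of_DL (DL_cons2.2 ⟨hxy, by simp⟩) hD (by
        intro u hu
        simp only [List.mem_cons, List.not_mem_nil, or_false] at hu
        rcases hu with rfl | rfl <;> assumption)
      obtain ⟨s', hs', hs'l, hne⟩ := comb_dec s hs hD _ hT hsne
      have hpos : 0 < s'.length := List.length_pos_of_ne_nil hne
      have h5 := hall s' hs' (by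
        have h6 := dl_length s'
        rw [hs'l] at h6
        simp only [List.length_cons, List.length_nil] at h6
        omega)
      rw [hs'l, up2_lt hxy] at h5
      exact h5
    · obtain ⟨z, rest, hz⟩ := List.exists_cons_of_ne_nil hsne
      have key : ∀ x ∈ dl s, ∀ y ∈ dl s, x < y → 2 + f x y = v := by
        intro x hx y hy hxy
        have hT : [x, y].Sublist (dl s) := by
          have h6 : List.Subperm [x, y] (dl s) := List.Nodup.subperm (by simp; omega) (by
            intro u hu
            simp only [List.mem_cons, List.not_mem_nil, or_false] at hu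
            rcases hu with rfl | rfl <;> assumption)
          exact List.sublist_of_subperm_of_pairwise h6 (IL_cons2.2 ⟨hxy, by simp⟩) hI
        rw [hz] at hT hs hI
        obtain ⟨s', hs', hs'l⟩ := comb_inc rest z hs hI _ hT
        have h5 := hall (z :: s') (by rw [hz]; exact hs') (by
          have h6 := dl_length (z :: s')
          rw [hs'l] at h6
          simp only [List.length_cons, List.length_nil] at h6 ⊢
          omega)
        rw [hs'l, up2_gt hxy] at h5
        exact h5
      refine hfinal (v - 2) ?_ (hI.imp (fun h => ne_of_lt h))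
      intro x hx y hy hxy
      rw [List.mem_toFinset] at hx hy
      have := key x hx y hy hxy
      omega

end Pool.Agent.Q118.CC
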