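import Pool.Agent.Q118.CC.Power

/-!
# The stepping-up lemma for ranked colourings

Sets are decreasing lists. Lists of digits which are not monotone have the lowest or the highest
colour, according to the kind and the parity of the position of the first local extremum.
-/

namespace Pool.Agent.Q118.CC

open Pool.Agent.TH138.NF (hd hd_ne hd_max hd_lt e_mono e_anti monotone_half)

/-- Ranked colouring of the `r`-subsets of `{0, …, N - 1}` with ranks `0, …, M`, monotone in the
positions of `J` (counted from the top, the directions alternate), no homogeneous set of size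
`n`. -/
structure LA (J : ℕ → Prop) (b : Bool) (M r N n : ℕ) (c : List ℕ → ℕ) : Prop where
  val : ∀ l, DL l → (∀ x ∈ l, x < N) → l.length = r → Val b M (c l)
  mono : ∀ P S z w, J P.length → DL (P ++ z :: S) → DL (P ++ w :: S) →
    (∀ x ∈ P ++ z :: S, x < N) → (∀ x ∈ P ++ w :: S, x < N) → (P ++ z :: S).length = r → z < w →
    cmp (par true P.length) (c (P ++ z :: S)) (c (P ++ w :: S))
  nohom : ∀ s, DL s → (∀ x ∈ s, x < N) → s.length = n → ∀ v,
    ∃ l : List ℕ, l.Sublist s ∧ l.length = r ∧ c l ≠ v

/-- The reversed list. -/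
def fl (N : ℕ) (u : List ℕ) : List ℕ := u.map (fun x => N - 1 - x)

theorem fl_length (N : ℕ) (u : List ℕ) : (fl N u).length = u.length := by simp [fl]

theorem fl_append (N t : ℕ) (P S : List ℕ) :
    fl N (P ++ t :: S) = fl N P ++ (N - 1 - t) :: fl N S := by simp [fl]

theorem fl_lt {N : ℕ} {u : List ℕ} (h : ∀ x ∈ u, x < N) : ∀ x ∈ fl N u, x < N := by
  intro x hx
  unfold fl at hx
  rw [List.mem_map] at hx
  obtain ⟨y, hy, rfl⟩ := hx
  have := h y hy
  omega

theorem fl_DL {N : ℕ} {u : List ℕ} (hI : IL u) (h : ∀ x ∈ u, x < N) : DL (fl N u) := by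
  unfold fl
  rw [DL, List.pairwise_map]
  refine List.Pairwise.imp_of_mem ?_ hI
  intro a b _ hb hab
  have := h b hb
  show N - 1 - b < N - 1 - a
  omega

/-- The stepped-up colour of a list of digits. -/
def upc (M N : ℕ) (c c' : List ℕ → ℕ) (u : List ℕ) : ℕ :=
  if tv u = 0 then 0 else if tv u = 2 then 2 * M
  else if DL u then c u else sg M (c' (fl N u))

theorem upc_zero {M N : ℕ} {c c' : List ℕ → ℕ} {u : List ℕ} (h : tv u = 0) :
    upc M N c c' u = 0 := by
  unfold upc; rw [if_pos h]

theorem upc_two {M N : ℕ} {c c' : List ℕ → ℕ} {u : List ℕ} (h : tv u = 2) :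
    upc M N c c' u = 2 * M := by
  unfold upc; rw [if_neg (by omega), if_pos h]

theorem upc_DL {M N : ℕ} {c c' : List ℕ → ℕ} {u : List ℕ} (h : DL u) :
    upc M N c c' u = c u := by
  have := tv_of_DL h
  unfold upc; rw [if_neg (by omega), if_neg (by omega), if_pos h]

theorem upc_IL {M N : ℕ} {c c' : List ℕ → ℕ} {u : List ℕ} (h : IL u) (h2 : 2 ≤ u.length) :
    upc M N c c' u = sg M (c' (fl N u)) := by
  have := tv_of_IL h
  have h3 : ¬ DL u := fun h4 => by have := DL_IL h4 h; omega
  unfold upc; rw [if_neg (by omega), if_neg (by omega), if_neg h3]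

theorem upc_val {J J' : ℕ → Prop} {b : Bool} {M r N n : ℕ} {c c' : List ℕ → ℕ} (hr : 3 ≤ r)
    (h1 : LA J b M r N n c) (h2 : LA J' b M r N n c') {u : List ℕ} (hn : NB u)
    (hlt : ∀ x ∈ u, x < N) (hlen : u.length = r) : Val b M (upc M N c c' u) := by
  have h3 := tv_le u
  rcases (show tv u = 0 ∨ tv u = 1 ∨ tv u = 2 by omega) with h | h | h
  · rw [upc_zero h]; exact Val.zero
  · rcases of_tv_one h hn with h4 | h4
    · rw [upc_DL h4]; exact h1.val u h4 hlt hlen
    · rw [upc_IL h4 (by omega)]
      exact (h2.val _ (fl_DL h4 hlt) (fl_lt hlt) (by rw [fl_length, hlen])).sg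
  · rw [upc_two h]; exact Val.top

theorem cmp_of_tv {b e : Bool} {M a a' v v' : ℕ} (hM : 1 ≤ M) (hv : Val b M v) (hv' : Val b M v')
    (ha : a ≤ 2) (ha' : a' ≤ 2) (h0 : a = 0 → v = 0) (h2 : a = 2 → v = 2 * M)
    (h0' : a' = 0 → v' = 0) (h2' : a' = 2 → v' = 2 * M) (hle : le' e a a')
    (h1 : a = 1 → a' = 1 → cmp e v v') : cmp e v v' := by
  cases e with
  | true =>
    have hle' : a ≤ a' := hle
    rcases (show a = 0 ∨ a' = 2 ∨ (a = 1 ∧ a' = 1) by omega) with h | h | h
    · rw [h0 h]; exact cmp_zero hM hv'
    · rw [h2' h]; exact cmp_top hM hv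
    · exact h1 h.1 h.2
  | false =>
    have hle' : a' ≤ a := hle
    rcases (show a' = 0 ∨ a = 2 ∨ (a = 1 ∧ a' = 1) by omega) with h | h | h
    · rw [h0' h]; exact cmp_zero' hM hv
    · rw [h2 h]; exact cmp_top' hM hv'
    · exact h1 h.1 h.2

theorem par_succ (n : ℕ) : ∀ b, par b (n + 1) = !(par b n) := by
  induction n with
  | zero => intro b; rfl
  | succ n ih => intro b; exact ih (!b)

/-- Moving one digit. -/
theorem col_move {J J' : ℕ → Prop} {b : Bool} {M r N n : ℕ} {c c' : List ℕ → ℕ} (hr : 3 ≤ r)
    (hM : 1 ≤ M) (h1 : LA J b M r N n c) (h2 : LA J' b M r N n c') {P S : List ℕ} {t t' : ℕ}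
    (hlen : (P ++ t :: S).length = r) (hn : NB (P ++ t :: S)) (hn' : NB (P ++ t' :: S))
    (hlt : ∀ x ∈ P ++ t :: S, x < N) (hlt' : ∀ x ∈ P ++ t' :: S, x < N) (ht : t < t')
    (hD : DL (P ++ t :: S) → DL (P ++ t' :: S) → J P.length)
    (hI : IL (P ++ t :: S) → IL (P ++ t' :: S) → J' P.length) :
    cmp (par true P.length) (upc M N c c' (P ++ t :: S)) (upc M N c c' (P ++ t' :: S)) := by
  have hlen' : (P ++ t' :: S).length = r := by
    rw [← hlen]; simp
  refine cmp_of_tv hM (upc_val hr h1 h2 hn hlt hlen) (upc_val hr h1 h2 hn' hlt' hlen')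
    (tv_le _) (tv_le _) upc_zero upc_two upc_zero upc_two
    (tv_move (by omega) hn hn' ht) ?_
  intro e1 e2
  rcases of_tv_one e1 hn with k1 | k1
  · rcases of_tv_one e2 hn' with k2 | k2
    · rw [upc_DL k1, upc_DL k2]
      exact h1.mono P S t t' (hD k1 k2) k1 k2 hlt hlt' hlen ht
    · exfalso
      have := DL_IL_move k1 k2
      omega
  · rcases of_tv_one e2 hn' with k2 | k2
    · exfalso
      have := DL_IL_move k2 k1
      omega
    · rw [upc_IL k1 (by omega), upc_IL k2 (by omega)]
      have hd1 := fl_DL k1 hlt
      have hd2 := fl_DL k2 hlt'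
      have hv1 := h2.val _ hd1 (fl_lt hlt) (by rw [fl_length, hlen])
      have hv2 := h2.val _ hd2 (fl_lt hlt') (by rw [fl_length, hlen'])
      have hf1 := fl_lt hlt
      have hf2 := fl_lt hlt'
      have hfl : (fl N (P ++ t :: S)).length = r := by rw [fl_length, hlen]
      have hfl' : (fl N (P ++ t' :: S)).length = r := by rw [fl_length, hlen']
      refine cmp_sg hv2 hv1 ?_
      rw [fl_append] at hd1 hd2 hf1 hf2 hfl hfl' ⊢
      rw [fl_append]
      have htN : t' < N := hlt' t' (by simp)
      have := h2.mono (fl N P) (fl N S) (N - 1 - t') (N - 1 - t)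
        (by rw [fl_length]; exact hI k1 k2) hd2 hd1 hf2 hf1 hfl' (by omega)
      rw [fl_length] at this
      exact this

/-- The monotonicity of the stepped-up colouring. -/
theorem up_mono {J1 J' J : ℕ → Prop} {b : Bool} {M r N n : ℕ} {c c' : List ℕ → ℕ} (hr : 3 ≤ r)
    (hM : 1 ≤ M) (h1 : LA J1 b M r N n c) (h2 : LA J' b M r N n c')
    (hJ : ∀ k, J k → k ≤ r → (k < r → J1 k) ∧ (0 < k → J' (k - 1)) ∧ (k = 0 → J' 0) ∧
      (k = r → J1 (r - 1)))
    {P S : List ℕ} {z w : ℕ} (hk : J P.length) (hz : DL (P ++ z :: S)) (hw : DL (P ++ w :: S))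
    (hzN : ∀ x ∈ P ++ z :: S, x < 2 ^ N) (hwN : ∀ x ∈ P ++ w :: S, x < 2 ^ N)
    (hlen : (P ++ z :: S).length = r + 1) (hzw : z < w) :
    cmp (par true P.length) (upc M N c c' (dl (P ++ z :: S))) (upc M N c c' (dl (P ++ w :: S))) := by
  have hlen' : (P ++ w :: S).length = r + 1 := by
    rw [← hlen]; simp
  have hnz := dl_NB _ hz
  have hnw := dl_NB _ hw
  have hlz := dl_lt _ hz hzN
  have hlw := dl_lt _ hw hwN
  have hrz : (dl (P ++ z :: S)).length = r := by rw [dl_length, hlen]; simp
  have hrw : (dl (P ++ w :: S)).length = r := by rw [dl_length, hlen']; simp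
  have hPr : P.length ≤ r := by
    have := hlen
    simp only [List.length_append, List.length_cons] at this
    omega
  obtain ⟨j1, j2, j3, j4⟩ := hJ _ hk hPr
  rcases List.eq_nil_or_concat P with rfl | ⟨P', p, rfl⟩
  · -- the last vertex
    simp only [List.nil_append, List.length_nil] at *
    cases S with
    | nil => simp at hlen; omega
    | cons q S' =>
      have hqz : q < z := (DL_cons2.1 hz).1
      have hge : hd q z ≤ hd q w := by rw [hd_max hqz hzw]; exact le_max_left _ _
      rw [dl_cons2] at hnz hlz hrz ⊢
      rw [dl_cons2] at hnw hlw hrw ⊢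
      rcases Nat.lt_or_eq_of_le hge with h | h
      · exact col_move (P := []) hr hM h1 h2 hrz hnz hnw hlz hlw h
          (fun _ _ => j1 (by omega)) (fun _ _ => j3 trivial)
      · rw [h]; exact cmp_refl _ _
  · rw [List.concat_eq_append, List.append_assoc] at hz hw hzN hwN hlen hlen' hnz hnw hlz hlw hrz hrw
    rw [List.concat_eq_append, List.append_assoc, List.append_assoc]
    simp only [List.cons_append, List.nil_append] at hz hw hzN hwN hlen hlen' hnz hnw hlz hlw hrz hrw
    simp only [List.concat_eq_append, List.length_append, List.length_cons, List.length_nil,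
      List.cons_append, List.nil_append] at j1 j2 j3 j4 hPr ⊢
    have hlp : (dl (P' ++ [p])).length = P'.length := dl_append_length p P'
    have hz2 : DL (p :: z :: S) := hz.sublist (List.sublist_append_right _ _)
    have hw2 : DL (p :: w :: S) := hw.sublist (List.sublist_append_right _ _)
    have hzp : z < p := (DL_cons2.1 hz2).1
    have hwp : w < p := (DL_cons2.1 hw2).1
    have hB : hd w p ≤ hd z p := by rw [hd_max hzw hwp]; exact le_max_right _ _
    cases S with
    | nil =>
      -- the first vertex
      rw [dl_append] at hnz hlz hrz ⊢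
      rw [dl_append] at hnw hlw hrw ⊢
      have hPl : P'.length + 1 = r := by
        simp only [List.length_append, List.length_cons, List.length_nil] at hlen
        omega
      rcases Nat.lt_or_eq_of_le hB with h | h
      · have := col_move hr hM h1 h2 hrw hnw hnz hlw hlz h
          (fun _ _ => by
            rw [hlp, show P'.length = r - 1 by omega]
            exact j4 (by omega))
          (fun _ _ => by
            rw [hlp, show P'.length = P'.length + (0 + 1) - 1 by omega]
            exact j2 (by omega))
        rw [hlp] at this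
        rw [Nat.zero_add, par_succ]
        exact cmp_not (by rw [Bool.not_not]; exact this)
      · rw [h]; exact cmp_refl _ _
    | cons q S' =>
      have hqz : q < z := (DL_cons2.1 (DL_cons2.1 hz2).2).1
      have hqw : q < w := hqz.trans hzw
      have hA : hd q z ≤ hd q w := by rw [hd_max hqz hzw]; exact le_max_left _ _
      have hD1 : hd q p = max (hd q z) (hd z p) := hd_max hqz hzp
      have hD2 : hd q p = max (hd q w) (hd w p) := hd_max hqw hwp
      have hne1 : hd q z ≠ hd z p := hd_ne hqz hzp
      have hne2 : hd q w ≠ hd w p := hd_ne hqw hwp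
      have hPl : P'.length + 1 < r := by
        simp only [List.length_append, List.length_cons] at hlen
        omega
      rw [dl_append, dl_cons2] at hnz hlz hrz ⊢
      rw [dl_append, dl_cons2] at hnw hlw hrw ⊢
      rcases Nat.lt_or_ge (hd q z) (hd z p) with hc | hc
      · have hB1 : hd z p = hd q p := by rw [hD1, max_eq_right hc.le]
        rcases Nat.lt_or_ge (hd q w) (hd w p) with hc' | hc'
        · have hB2 : hd w p = hd z p := by rw [hB1, hD2, max_eq_right hc'.le]
          rw [hB2] at hnw hlw hrw ⊢
          rcases Nat.lt_or_eq_of_le hA with h | h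
          · have e1 : ∀ (a d : ℕ) (T : List ℕ), dl (P' ++ [p]) ++ d :: a :: T =
                (dl (P' ++ [p]) ++ [d]) ++ a :: T := by
              intro a d T; simp
            rw [e1] at hnz hlz hrz ⊢
            rw [e1] at hnw hlw hrw ⊢
            have hl2 : (dl (P' ++ [p]) ++ [hd z p]).length = P'.length + (0 + 1) := by
              rw [List.length_append, hlp]; rfl
            have := col_move hr hM h1 h2 hrz hnz hnw hlz hlw h
              (fun _ _ => by rw [hl2]; exact j1 (by omega))
              (fun k1 _ => by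
                exfalso
                rw [← e1] at k1
                have k3 : IL (hd z p :: hd q z :: dl (q :: S')) :=
                  k1.sublist (List.sublist_append_right _ _)
                have := (IL_cons2.1 k3).1
                omega)
            rw [hl2] at this
            exact this
          · rw [h]; exact cmp_refl _ _
        · have hA2 : hd q w = hd z p := by rw [hB1, hD2, max_eq_left hc']
          rw [hA2] at hnw hlw hrw ⊢
          have hlt2 : hd w p < hd z p := by omega
          have ht := tv_trans (P := dl (P' ++ [p])) (S := dl (q :: S')) (by omega) hc hlt2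
          rw [hlp] at ht
          rw [Nat.zero_add]
          exact cmp_of_tv hM (upc_val hr h1 h2 hnz hlz hrz) (upc_val hr h1 h2 hnw hlw hrw)
            (tv_le _) (tv_le _) upc_zero upc_two upc_zero upc_two ht.1
            (fun e1 e2 => absurd ⟨e1, e2⟩ ht.2)
      · have hA1 : hd q z = hd q p := by rw [hD1, max_eq_left hc]
        have hA3 : hd q w = hd q z := by
          have : hd q w ≤ hd q p := by rw [hD2]; exact le_max_left _ _
          omega
        have hlt2 : hd w p < hd q z := by
          have : hd w p ≤ hd q p := by rw [hD2]; exact le_max_right _ _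
          omega
        rw [hA3] at hnw hlw hrw ⊢
        rcases Nat.lt_or_eq_of_le hB with h | h
        · have := col_move hr hM h1 h2 hrw hnw hnz hlw hlz h
            (fun k1 _ => by
              exfalso
              have k3 : DL (hd w p :: hd q z :: dl (q :: S')) :=
                k1.sublist (List.sublist_append_right _ _)
              have := (DL_cons2.1 k3).1
              omega)
            (fun _ _ => by
              rw [hlp, show P'.length = P'.length + (0 + 1) - 1 by omega]
              exact j2 (by omega))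
          rw [hlp] at this
          rw [Nat.zero_add, par_succ]
          exact cmp_not (by rw [Bool.not_not]; exact this)
        · rw [h]; exact cmp_refl _ _

/-! ### Homogeneous sets -/

theorem NB_getD : ∀ (L : List ℕ) (i : ℕ), NB L → i + 1 < L.length → L.getD i 0 ≠ L.getD (i + 1) 0
  | [], i, _, h => by simp at h
  | [_], i, _, h => by simp at h
  | p :: q :: L, 0, h, _ => by
    simp only [List.getD_cons_zero, List.getD_cons_succ]
    exact h.1
  | p :: q :: L, (i + 1), h, hl => by
    rw [List.getD_cons_succ, List.getD_cons_succ]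
    exact NB_getD (q :: L) i h.2 (by simpa using hl)

theorem drop_three (L : List ℕ) : ∀ i : ℕ, i + 3 ≤ L.length →
    ∃ R : List ℕ, L.drop i = L.getD i 0 :: L.getD (i + 1) 0 :: L.getD (i + 2) 0 :: R := by
  induction L with
  | nil => intro i h; simp at h
  | cons a L ih =>
    intro i h
    cases i with
    | zero =>
      match L, h with
      | b :: c :: R, _ => exact ⟨R, rfl⟩
      | [b], h => simp at h
      | [], h => simp at h
    | succ i =>
      obtain ⟨R, hR⟩ := ih i (by simpa using h)
      refine ⟨R, ?_⟩
      rw [List.drop_succ_cons, hR]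
      rfl

theorem getD_eq {L : List ℕ} {i : ℕ} (h : i < L.length) : L[i] = L.getD i 0 := by
  rw [List.getD_eq_getElem _ _ h]

/-- A monotone stretch. -/
theorem stretch_inc {L : List ℕ} {i0 n : ℕ} (hl : i0 + n ≤ L.length)
    (h : ∀ i, i + 1 < n → L.getD (i0 + i) 0 < L.getD (i0 + i + 1) 0) :
    IL ((L.drop i0).take n) := by
  rw [IL, List.pairwise_iff_getElem]
  intro i j hi hj hij
  simp only [List.length_take, List.length_drop] at hi hj
  simp only [List.getElem_take, List.getElem_drop]
  rw [getD_eq (by omega), getD_eq (by omega)]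
  exact e_mono (fun i => L.getD (i0 + i) 0) n (fun i hi' => h i hi') i j hij (by omega)

theorem stretch_dec {L : List ℕ} {i0 n : ℕ} (hl : i0 + n ≤ L.length)
    (h : ∀ i, i + 1 < n → L.getD (i0 + i + 1) 0 < L.getD (i0 + i) 0) :
    DL ((L.drop i0).take n) := by
  rw [DL, List.pairwise_iff_getElem]
  intro i j hi hj hij
  simp only [List.length_take, List.length_drop] at hi hj
  simp only [List.getElem_take, List.getElem_drop]
  rw [getD_eq (by omega), getD_eq (by omega)]
  exact e_anti (fun i => L.getD (i0 + i) 0) n (fun i hi' => h i hi') i j hij (by omega)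

/-- **The stepping-up lemma for ranked colourings.** -/
theorem step_up {J1 J' J : ℕ → Prop} {b : Bool} {M r N n : ℕ} {c c' : List ℕ → ℕ} (hr : 3 ≤ r)
    (hM : 1 ≤ M) (hn : 1 ≤ n) (h1 : LA J1 b M r N n c) (h2 : LA J' b M r N n c')
    (hJ : ∀ k, J k → k ≤ r → (k < r → J1 k) ∧ (0 < k → J' (k - 1)) ∧ (k = 0 → J' 0) ∧
      (k = r → J1 (r - 1))) :
    LA J b M (r + 1) (2 ^ N) (2 * n + r) (fun l => upc M N c c' (dl l)) := by
  refine ⟨?_, ?_, ?_⟩
  · intro l hl hlt hlen
    exact upc_val hr h1 h2 (dl_NB l hl) (dl_lt l hl hlt) (by rw [dl_length, hlen]; simp)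
  · intro P S z w hk hz hw hzN hwN hlen hzw
    exact up_mono hr hM h1 h2 hJ hk hz hw hzN hwN hlen hzw
  · intro s hs hsN hsl v
    by_contra hcon
    have hall : ∀ l : List ℕ, l.Sublist s → l.length = r + 1 → upc M N c c' (dl l) = v := by
      intro l h3 h4
      by_contra h5
      exact hcon ⟨l, h3, h4, h5⟩
    have hL : (dl s).length = 2 * n + r - 1 := by rw [dl_length, hsl]
    have hnb := dl_NB s hs
    have hltL := dl_lt s hs hsN
    -- windows
    have hwin : ∀ i, i + 2 ≤ 2 * n → ∃ R : List ℕ,
        upc M N c c' ((dl s).getD i 0 :: (dl s).getD (i + 1) 0 :: (dl s).getD (i + 2) 0 :: R) = v := by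
      intro i hi
      obtain ⟨R, hR⟩ := drop_three (dl s) i (by omega)
      obtain ⟨r', rfl⟩ : ∃ r', r = r' + 3 := ⟨r - 3, by omega⟩
      refine ⟨R.take r', ?_⟩
      rw [← hall ((s.drop i).take (r' + 3 + 1))
        ((List.take_sublist _ _).trans (List.drop_sublist _ _)) (by
          rw [List.length_take, List.length_drop]; omega)]
      rw [dl_take, dl_drop, hR]
      rfl
    have hmono := monotone_half (fun i => (dl s).getD i 0) n hn
      (fun i hi => NB_getD _ i hnb (by omega)) (decide (v ≠ 0)) (by
        intro hP i hi hmin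
        have hv0 : v = 0 := by simpa using hP
        obtain ⟨R, hR⟩ := hwin i hi
        have ht : tv ((dl s).getD i 0 :: (dl s).getD (i + 1) 0 :: (dl s).getD (i + 2) 0 :: R) = 2 := by
          rw [tv_cons2, if_neg (by omega), gd_cons, if_neg (by omega)]
          simp
        rw [upc_two ht] at hR
        omega) (by
        intro hP i hi hmax
        have hv0 : v ≠ 0 := by simpa using hP
        obtain ⟨R, hR⟩ := hwin i hi
        have ht : tv ((dl s).getD i 0 :: (dl s).getD (i + 1) 0 :: (dl s).getD (i + 2) 0 :: R) = 0 := by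
          rw [tv_cons2, if_pos (by omega), gi_cons, if_neg (by omega)]
          simp
        rw [upc_zero ht] at hR
        omega)
    obtain ⟨i0, hi0, hrun⟩ := hmono
    have hs1 : ((s.drop i0).take (n + 1)).Sublist s :=
      (List.take_sublist _ _).trans (List.drop_sublist _ _)
    have hd1 : dl ((s.drop i0).take (n + 1)) = ((dl s).drop i0).take n := by
      rw [dl_take, dl_drop]
    have hDs1 := hs.sublist hs1
    have hTs : (((dl s).drop i0).take n).Sublist (dl s) :=
      (List.take_sublist _ _).trans (List.drop_sublist _ _)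
    have hTlt : ∀ x ∈ ((dl s).drop i0).take n, x < N := fun x hx => hltL x (hTs.subset hx)
    have hTlen : (((dl s).drop i0).take n).length = n := by
      rw [List.length_take, List.length_drop]; omega
    have hlen1 : ((s.drop i0).take (n + 1)).length = n + 1 := by
      rw [List.length_take, List.length_drop]; omega
    rcases hrun with hrun | hrun
    · have hI : IL (((dl s).drop i0).take n) := stretch_inc (by omega) (fun i hi => hrun i (by omega))
      obtain ⟨l', hl', hl'r, hl'v⟩ := h2.nohom (fl N (((dl s).drop i0).take n)) (fl_DL hI hTlt)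
        (fl_lt hTlt) (by rw [fl_length, hTlen]) (sg M v)
      unfold fl at hl'
      obtain ⟨l, hl, rfl⟩ := List.sublist_map_iff.1 hl'
      have hll : l.length = r := by
        rw [← hl'r]; simp
      obtain ⟨x, rest, hx⟩ := List.exists_cons_of_ne_nil
        (show (s.drop i0).take (n + 1) ≠ [] by
          intro h3
          rw [h3] at hlen1
          simp at hlen1)
      rw [hx] at hDs1 hd1 hs1
      obtain ⟨s', hs', hs'l⟩ := comb_inc rest x hDs1 (by rw [hd1]; exact hI) l (by rw [hd1]; exact hl)
      have h5 := hall (x :: s') (hs'.trans hs1) (by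
        have h6 := dl_length (x :: s')
        rw [hs'l, hll, List.length_cons] at h6
        rw [List.length_cons]
        omega)
      rw [hs'l, upc_IL (hI.sublist hl) (by omega)] at h5
      apply hl'v
      rw [← h5, sg_sg]
      · rfl
      · exact h2.val _ (fl_DL (hI.sublist hl) (fun x hx => hTlt x (hl.subset hx)))
          (fl_lt (fun x hx => hTlt x (hl.subset hx))) (by rw [fl_length, hll])
    · have hD : DL (((dl s).drop i0).take n) := stretch_dec (by omega) (fun i hi => hrun i (by omega))
      obtain ⟨l, hl, hll, hlv⟩ := h1.nohom _ hD hTlt hTlen v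
      obtain ⟨s', hs', hs'l, hne⟩ := comb_dec ((s.drop i0).take (n + 1)) hDs1 (by rw [hd1]; exact hD) l
        (by rw [hd1]; exact hl) (by
          intro h3
          rw [h3] at hlen1
          simp at hlen1)
      have hpos : 0 < s'.length := List.length_pos_of_ne_nil hne
      have h5 := hall s' (hs'.trans hs1) (by
        have h6 := dl_length s'
        rw [hs'l, hll] at h6
        omega)
      rw [hs'l, upc_DL (hD.sublist hl)] at h5
      exact hlv h5

end Pool.Agent.Q118.CC
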